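import Pool.Agent.H25.RK.DGI
import Pool.Agent.H63.GO.MTaylor
import Pool.Agent.H63.VC4.GaussN
import Pool.Agent.H63.VC4.LaplaceN
import Pool.Agent.S3.Asm.Def
import Pool.Agent.S3.Edg
import Pool.Agent.S5.D.Multi
import Pool.Agent.S5.X.KDef

/-!
# Mixed chains, soft part: definitions

All nodes are kernels of two slots; the missing slot of an end of the chain is the dummy `y = 1 / 2`
(the index `M - 1`). A node is closed (`|c| = 2`), or has a lattice variable `z` (`zn`: `|c| = 3`, or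
`|c| = 4` inside), or an integration variable `v` (`vn`).
-/

set_option autoImplicit false

namespace Pool.Agent.S5

open Complex Filter Topology
open Pool.Agent.S3 (Rf fe rS qS wr fdom)
open Pool.Agent.H63.VC3 (LL ff Cc om yk)

/-- The types of the nodes. -/
inductive Ty where
  | cl | zn | vn
  deriving DecidableEq

/-- A mixed chain. `fl i = true`: the slot of the Bailey step is the right one. -/
structure Ch (m : ℕ) where
  c : Fin (m + 1) → ℤ
  ty : Fin (m + 1) → Ty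
  fl : Fin (m + 1) → Bool

/-- The types agree with the numbers of half twists. -/
structure Ch.OK {m : ℕ} (C : Ch m) : Prop where
  m1 : 1 ≤ m
  cl : ∀ i, C.ty i = Ty.cl → |C.c i| = 2
  zn : ∀ i, C.ty i = Ty.zn → |C.c i| = 3 ∨ |C.c i| = 4
  vn : ∀ i, C.ty i = Ty.vn → 3 ≤ |C.c i|
  zl : C.ty 0 = Ty.zn → C.fl 0 = false
  zr : C.ty (Fin.last m) = Ty.zn → C.fl (Fin.last m) = true

/-- The variables of the edges, extended by the dummy `1 / 2`: the slots of the node `i` are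
`ye y i` and `ye y (i + 1)`. -/
noncomputable def ye {m : ℕ} (y : Fin m → ℂ) (n : ℕ) : ℂ :=
  if h : 0 < n ∧ n ≤ m then y ⟨n - 1, by omega⟩ else 1 / 2

/-! ### Kernels -/

/-- The kernel of a node with an integration variable. -/
noncomputable def kV (r : ℝ) (M : ℕ) (v a b : ℂ) : ℂ :=
  exp (2 * Real.pi * I * r * M * v ^ 2) * (2 * sin (2 * Real.pi * v)) * om 2 M v *
    (qS M a v * qS M b v)

/-- The kernel of a node; `z` is the own variable, `a`, `b` the slots. -/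
noncomputable def kN (c : ℤ) (ty : Ty) (fl : Bool) (M : ℕ) (z a b : ℂ) : ℂ :=
  match ty with
  | .cl => kC c.sign M a b
  | .zn => if |c| = 3 then
      (if fl then kB c.sign M b z * kH c.sign M z a else kB c.sign M a z * kH c.sign M z b)
    else (if fl then kB c.sign M b z * kC c.sign M z a else kB c.sign M a z * kC c.sign M z b)
  | .vn => kV ((c : ℝ) / 2) M z a b

/-- The integrand. -/
noncomputable def Ch.T {m : ℕ} (C : Ch m) (M : ℕ) (o : Fin (m + 1) → ℂ) (y : Fin m → ℂ) : ℂ :=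
  (∏ j, Cc 2 1 M (y j)) * ∏ i : Fin (m + 1), kN (C.c i) (C.ty i) (C.fl i) M (o i) (ye y i) (ye y (i + 1))

/-! ### Potentials and growth functions -/

/-- The quadratic parts. -/
noncomputable def qC (s : ℤ) (a b : ℂ) : ℂ := s * Real.pi * I * ((a - b) ^ 2 / 2 + (1 - a - b) / 2)

noncomputable def qB (s : ℤ) (y z : ℂ) : ℂ := s * Real.pi * I * ((y + z) ^ 2 / 2 - (y - z) / 2)

noncomputable def qH (s : ℤ) (z b : ℂ) : ℂ := -(s * Real.pi * I * ((z + 1 / 2) * (b + 1 / 2)))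

noncomputable def pC (s : ℤ) (a b : ℂ) : ℂ := qC s a b - fe (a + b)

noncomputable def pB (s : ℤ) (y z : ℂ) : ℂ := qB s y z - fe (y - z)

noncomputable def pH (s : ℤ) (z b : ℂ) : ℂ := qH s z b - ff (z + 1 / 2) - ff (b + 1 / 2) - fe (z + b)

/-- `v` in the upper half plane. -/
noncomputable def pV (r : ℝ) (v a b : ℂ) : ℂ :=
  wr r v - fe (a - v) - fe (a + v) - fe (b - v) - fe (b + v)

noncomputable def gC (s : ℤ) (a b : ℂ) : ℝ := (qC s a b).re - Rf (a + b)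

noncomputable def gB (s : ℤ) (y z : ℂ) : ℝ := (qB s y z).re - Rf (y - z)

noncomputable def gH (s : ℤ) (z b : ℂ) : ℝ :=
  (qH s z b).re - Rf (z + 1 / 2) - Rf (b + 1 / 2) - Rf (z + b)

noncomputable def gV (r : ℝ) (v a b : ℂ) : ℝ :=
  (wr r v).re - Rf (a - v) - Rf (a + v) - Rf (b - v) - Rf (b + v)

/-- The potential of a node. -/
noncomputable def pN (c : ℤ) (ty : Ty) (fl : Bool) (z a b : ℂ) : ℂ :=
  match ty with
  | .cl => pC c.sign a b
  | .zn => if |c| = 3 then (if fl then pB c.sign b z + pH c.sign z a else pB c.sign a z + pH c.sign z b)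
    else (if fl then pB c.sign b z + pC c.sign z a else pB c.sign a z + pC c.sign z b)
  | .vn => pV ((c : ℝ) / 2) z a b

/-- The growth rate of a node. -/
noncomputable def gN (c : ℤ) (ty : Ty) (fl : Bool) (z a b : ℂ) : ℝ :=
  match ty with
  | .cl => gC c.sign a b
  | .zn => if |c| = 3 then (if fl then gB c.sign b z + gH c.sign z a else gB c.sign a z + gH c.sign z b)
    else (if fl then gB c.sign b z + gC c.sign z a else gB c.sign a z + gC c.sign z b)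
  | .vn => gV ((c : ℝ) / 2) z a b

/-- The potential. -/
noncomputable def Ch.W {m : ℕ} (C : Ch m) (o : Fin (m + 1) → ℂ) (y : Fin m → ℂ) : ℂ :=
  (∑ j, 4 * ff (y j + 1 / 2)) +
    ∑ i : Fin (m + 1), pN (C.c i) (C.ty i) (C.fl i) (o i) (ye y i) (ye y (i + 1))

/-- The growth rate. -/
noncomputable def Ch.G {m : ℕ} (C : Ch m) (o : Fin (m + 1) → ℂ) (y : Fin m → ℂ) : ℝ :=
  (∑ j, 4 * Rf (y j + 1 / 2)) +
    ∑ i : Fin (m + 1), gN (C.c i) (C.ty i) (C.fl i) (o i) (ye y i) (ye y (i + 1))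

/-! ### The limit contours -/

/-- The limit of the contours of the lattice variables, with weights: flat part, legs, sides, top and
bottom of the rectangle over `[x0, x1]`. -/
def LimR (x0 x1 d η : ℝ) (z : ℂ) (w : ℝ) : Prop :=
  (w = 0 ∧ z.im = η ∧ x0 ≤ z.re ∧ z.re ≤ x1) ∨
  (w = 0 ∧ (z.re = x0 ∨ z.re = x1) ∧ z.im ∈ Set.uIcc 0 η) ∨
  (w = 2 * Real.pi * |z.im| ∧ (z.re = x0 ∨ z.re = x1) ∧ |z.im| ≤ d) ∨
  (w = 2 * Real.pi * d ∧ |z.im| = d ∧ x0 ≤ z.re ∧ z.re ≤ x1)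

/-- The rectangles of the edges. -/
def LimY (y0 d η : ℝ) (z : ℂ) (w : ℝ) : Prop := LimR y0 (1 / 2) d η z w

/-- The limit of the contours of the integration variables. -/
def LimV (ν x1 : ℝ) (v : ℂ) : Prop :=
  (v.im = ν ∧ |v.re| ≤ x1) ∨ (|v.re| = x1 ∧ 0 ≤ v.im ∧ v.im ≤ ν) ∨
    (v.im = 0 ∧ x1 ≤ |v.re| ∧ |v.re| ≤ 1 / 2)

/-- The parameters of the contours: depths `d`, `dz` of the rectangles, ends `z1` of the rectangles of
the nodes `zn`; ends `x1` of the flats of the `v` variables; critical point `yc`, `oc`. -/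
structure Cn (m : ℕ) where
  d : ℝ
  dz : Fin (m + 1) → ℝ
  z1 : Fin (m + 1) → ℝ
  x1 : Fin (m + 1) → ℝ
  yc : Fin m → ℂ
  oc : Fin (m + 1) → ℂ

/-- The critical point is inside the flats. -/
structure Cn.OK {m : ℕ} (C : Ch m) (K : Cn m) : Prop where
  d0 : 0 < K.d
  yd : ∀ j, |(K.yc j).im| ≤ K.d
  y0 : ∀ j, -(1 / 4) < (K.yc j).re
  y1 : ∀ j, (K.yc j).re < 1 / 2
  dz0 : ∀ i, 0 < K.dz i
  zd : ∀ i, C.ty i = Ty.zn → |(K.oc i).im| ≤ K.dz i
  z1 : ∀ i, C.ty i = Ty.zn → |(K.oc i).re| < K.z1 i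
  z2 : ∀ i, K.z1 i < 1 / 2
  z3 : ∀ i, C.ty i = Ty.zn → 1 / 4 ≤ K.z1 i
  v0 : ∀ i, C.ty i = Ty.vn → 0 < (K.oc i).im
  v1 : ∀ i, C.ty i = Ty.vn → |(K.oc i).re| < K.x1 i
  x0 : ∀ i, C.ty i = Ty.vn → 0 < K.x1 i
  x1 : ∀ i, C.ty i = Ty.vn → K.x1 i < 1 / 2

/-- The edge `j` is at the node `i`. -/
def At {m : ℕ} (j : Fin m) (i : Fin (m + 1)) : Prop := j.castSucc = i ∨ j.succ = i

/-- The node `i` is at an edge with a small index. -/
def Tch {m : ℕ} (S : Finset (Fin m)) (i : Fin (m + 1)) : Prop := ∃ j ∈ S, At j i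

/-- No two adjacent edges have small indices. -/
def Sep {m : ℕ} (S : Finset (Fin m)) : Prop :=
  ∀ j ∈ S, ∀ j' ∈ S, ∀ i, At j i → At j' i → j = j'

/-- The edge of the slot of the Bailey step. -/
def IsYs {m : ℕ} (C : Ch m) (i : Fin (m + 1)) (j : Fin m) : Prop :=
  if C.fl i = true then j.castSucc = i else j.succ = i

/-- The edge of the other slot. -/
def IsYt {m : ℕ} (C : Ch m) (i : Fin (m + 1)) (j : Fin m) : Prop :=
  if C.fl i = true then j.succ = i else j.castSucc = i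

/-- A pattern: the edges in `S` have small indices; `H i = 1`, `H i = -1`: the variable of the node
`zn` is in `[z1, 1/2]`, in `[-1/2, -z1]`. -/
structure Pat (m : ℕ) where
  S : Finset (Fin m)
  H : Fin (m + 1) → SignType

/-- The pattern of the large indices. -/
def Pat.zero {m : ℕ} : Pat m := ⟨∅, fun _ => 0⟩

/-- The patterns which occur. -/
structure Pat.OK {m : ℕ} (P : Pat m) (C : Ch m) : Prop where
  sep : Sep P.S
  H : ∀ i, P.H i ≠ 0 → C.ty i = Ty.zn ∧ ¬ Tch P.S i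

/-- The variable of the edge `j` is forced to be real and large: by an edge with a small index at a
closed node or a node `zn`, or by the variable of a node `zn`. -/
def Prt {m : ℕ} (C : Ch m) (P : Pat m) (j : Fin m) : Prop :=
  j ∉ P.S ∧ ∃ i, At j i ∧ C.ty i ≠ Ty.vn ∧ (Tch P.S i ∨ (P.H i = 1 ∧ IsYs C i j) ∨
    (P.H i = -1 ∧ IsYt C i j))

/-- The slots of the Bailey step and the other slot. -/
noncomputable def ys (fl : Bool) (a b : ℂ) : ℂ := if fl then b else a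

noncomputable def yt (fl : Bool) (a b : ℂ) : ℂ := if fl then a else b

/-- The admissible limit configurations of a pattern. The weights of the variables which are not on
contours are `0`. -/
structure AdmC {m : ℕ} (C : Ch m) (K : Cn m) (P : Pat m) (o : Fin (m + 1) → ℂ)
    (y : Fin m → ℂ) (wo : Fin (m + 1) → ℝ) (wy : Fin m → ℝ) : Prop where
  low : ∀ j ∈ P.S, (y j).im = 0 ∧ -(1 / 2) ≤ (y j).re ∧ (y j).re ≤ -(1 / 4) ∧ wy j = 0
  prt : ∀ j, Prt C P j → (y j).im = 0 ∧ 1 / 4 ≤ (y j).re ∧ (y j).re ≤ 1 / 2 ∧ wy j = 0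
  hi : ∀ j, j ∉ P.S → ¬ Prt C P j → LimY (-(1 / 4)) K.d (K.yc j).im (y j) (wy j)
  cl : ∀ i, C.ty i = Ty.cl → wo i = 0 ∧ (Tch P.S i → 0 ≤ (ye y i + ye y (i + 1)).re)
  zl : ∀ i, C.ty i = Ty.zn → Tch P.S i → wo i = 0 ∧ (o i).im = 0 ∧ -(1 / 2) ≤ (o i).re ∧
    (o i).re ≤ 1 / 2 ∧ (o i).re ≤ (ys (C.fl i) (ye y i) (ye y (i + 1))).re ∧
      0 ≤ (o i).re + (yt (C.fl i) (ye y i) (ye y (i + 1))).re
  zm : ∀ i, C.ty i = Ty.zn → ¬ Tch P.S i → P.H i = 0 →
    LimR (-K.z1 i) (K.z1 i) (K.dz i) (K.oc i).im (o i) (wo i)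
  zp : ∀ i, C.ty i = Ty.zn → ¬ Tch P.S i → P.H i = 1 → wo i = 0 ∧ (o i).im = 0 ∧
    K.z1 i ≤ (o i).re ∧ (o i).re ≤ 1 / 2 ∧ (o i).re ≤ (ys (C.fl i) (ye y i) (ye y (i + 1))).re
  zq : ∀ i, C.ty i = Ty.zn → ¬ Tch P.S i → P.H i = -1 → wo i = 0 ∧ (o i).im = 0 ∧
    -(1 / 2) ≤ (o i).re ∧ (o i).re ≤ -K.z1 i ∧
      0 ≤ (o i).re + (yt (C.fl i) (ye y i) (ye y (i + 1))).re
  vl : ∀ i, C.ty i = Ty.vn → Tch P.S i → wo i = 0 ∧ (o i).im = 0 ∧ (o i).re ≤ 1 / 2 ∧
    ∀ j ∈ P.S, At j i → -(y j).re ≤ (o i).re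
  vh : ∀ i, C.ty i = Ty.vn → ¬ Tch P.S i → wo i = 0 ∧ LimV (K.oc i).im (K.x1 i) (o i)

/-- **The inequality**: the growth rate is less than the critical value `e0`, with the weights. -/
structure Inq {m : ℕ} (C : Ch m) (K : Cn m) (e0 : ℝ) : Prop where
  /-- all indices large -/
  high : ∀ o y wo wy, AdmC C K Pat.zero o y wo wy → C.G o y < e0 + ∑ i, wo i + ∑ j, wy j ∨
    ((∀ j, y j = K.yc j ∧ wy j = 0) ∧ ∀ i, wo i = 0 ∧ (C.ty i ≠ Ty.cl → o i = K.oc i))
  /-- the other patterns -/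
  low : ∀ P : Pat m, P.OK C → (P.S.Nonempty ∨ ∃ i, P.H i ≠ 0) → ∀ o y wo wy, AdmC C K P o y wo wy →
    C.G o y < e0 + ∑ i, wo i + ∑ j, wy j
  /-- the quadratic bound on the flats near the critical point -/
  quad : ∃ c : ℝ, 0 < c ∧ ∃ ρ : ℝ, 0 < ρ ∧ ∀ (x : Fin (m + 1) → ℝ) (t : Fin m → ℝ),
    (∀ i, |x i| ≤ ρ) → (∀ j, |t j| ≤ ρ) →
    C.G (fun i => K.oc i + x i) (fun j => K.yc j + t j) ≤
      e0 - c * (∑ j, t j ^ 2 + ∑ i ∈ Finset.univ.filter (fun i => C.ty i ≠ Ty.cl), x i ^ 2)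
  /-- the critical value -/
  crit : C.G K.oc K.yc = e0

/-- The derivatives of the potential vanish at the critical point. -/
structure Crt {m : ℕ} (C : Ch m) (K : Cn m) : Prop where
  edge : ∀ j, HasDerivAt (fun w => C.W K.oc (Function.update K.yc j w)) 0 (K.yc j)
  own : ∀ i, C.ty i ≠ Ty.cl → HasDerivAt (fun w => C.W (Function.update K.oc i w) K.yc) 0 (K.oc i)

/-- The arguments of `fe` at the critical point are in the domain of analyticity. -/
structure Rg {m : ℕ} (C : Ch m) (K : Cn m) : Prop where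
  cl : ∀ i, C.ty i = Ty.cl → fdom (ye K.yc i + ye K.yc (i + 1)) ∧
    |(ye K.yc i + ye K.yc (i + 1)).re| < 1
  zn : ∀ i, C.ty i = Ty.zn → fdom (ys (C.fl i) (ye K.yc i) (ye K.yc (i + 1)) - K.oc i) ∧
    |(ys (C.fl i) (ye K.yc i) (ye K.yc (i + 1)) - K.oc i).re| < 1 ∧
    fdom (K.oc i + yt (C.fl i) (ye K.yc i) (ye K.yc (i + 1))) ∧
    |(K.oc i + yt (C.fl i) (ye K.yc i) (ye K.yc (i + 1))).re| < 1
  vn : ∀ i, C.ty i = Ty.vn → ∀ a ∈ ({ye K.yc i, ye K.yc (i + 1)} : Set ℂ),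
    fdom (a - K.oc i) ∧ |(a - K.oc i).re| < 1 ∧ fdom (a + K.oc i) ∧ |(a + K.oc i).re| < 1

/-! ### The sums -/

/-- The node function at the indices `l` (own variable) and `k`, `k'`. -/
noncomputable def Ch.nd {m : ℕ} (C : Ch m) (M : ℕ) (i : Fin (m + 1)) (l k k' : ℕ) : ℂ :=
  kN (C.c i) (C.ty i) (C.fl i) M (yM M l) (yM M k) (yM M k')

/-- The factor of a node. -/
noncomputable def Ch.nG {m : ℕ} (C : Ch m) (M : ℕ) (i : Fin (m + 1)) (k k' : ℕ) : ℂ :=
  match C.ty i with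
  | .cl => C.nd M i 0 k k'
  | .zn => ∑ l ∈ Finset.range M, C.nd M i l k k'
  | .vn => D2 ((C.c i : ℝ) / 2) M k k'

/-- The sum over the indices in the sets `R j`. -/
noncomputable def Ch.JR {m : ℕ} (C : Ch m) (M : ℕ) (R : Fin m → Finset ℕ) : ℂ :=
  ∑ k ∈ Fintype.piFinset R, (∏ j, Cc 2 1 M (yM M (k j))) *
    ∏ i : Fin (m + 1), C.nG M i (ke M k i) (ke M k (i + 1))

/-- The invariant, up to simple factors. -/
noncomputable def Ch.J {m : ℕ} (C : Ch m) (M : ℕ) : ℂ := C.JR M fun _ => Finset.range M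

/-- The first large index. -/
def kq (M : ℕ) : ℕ := M / 4 + 1

/-- The index sets: the edges in `S` have small indices. -/
def RS {m : ℕ} (M : ℕ) (S : Finset (Fin m)) (j : Fin m) : Finset ℕ :=
  if j ∈ S then Finset.Ico 0 (kq M) else Finset.Ico (kq M) M

/-- The nodes with lattice variables and the nodes with integration variables. -/
abbrev Ch.Zn {m : ℕ} (C : Ch m) : Type := {i : Fin (m + 1) // C.ty i = Ty.zn}

abbrev Ch.Vn {m : ℕ} (C : Ch m) : Type := {i : Fin (m + 1) // C.ty i = Ty.vn}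

/-- The lattice variables. -/
abbrev Ch.Ix {m : ℕ} (C : Ch m) : Type := Fin m ⊕ C.Zn

/-- The own variables of the nodes. -/
noncomputable def Ch.ow {m : ℕ} (C : Ch m) (v : C.Vn → ℂ) (z : C.Ix → ℂ) (i : Fin (m + 1)) : ℂ :=
  if h : C.ty i = Ty.vn then v ⟨i, h⟩ else if h : C.ty i = Ty.zn then z (Sum.inr ⟨i, h⟩) else 0

/-- The potential as a function of all variables. -/
noncomputable def Ch.Wt {m : ℕ} (C : Ch m) (p : C.Vn ⊕ C.Ix → ℂ) : ℂ :=
  C.W (C.ow (fun i => p (Sum.inl i)) (fun j => p (Sum.inr j))) (fun j => p (Sum.inr (Sum.inl j)))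

/-- The integrand as a function of all variables. -/
noncomputable def Ch.Tt {m : ℕ} (C : Ch m) (M : ℕ) (p : C.Vn ⊕ C.Ix → ℂ) : ℂ :=
  C.T M (C.ow (fun i => p (Sum.inl i)) (fun j => p (Sum.inr j))) (fun j => p (Sum.inr (Sum.inl j)))

/-- The critical point. -/
def Cn.pc {m : ℕ} (C : Ch m) (K : Cn m) : C.Vn ⊕ C.Ix → ℂ
  | Sum.inl i => K.oc i
  | Sum.inr (Sum.inl j) => K.yc j
  | Sum.inr (Sum.inr i) => K.oc i

/-- The exponents of `M`. -/
noncomputable def eN (c : ℤ) : Ty → ℝ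
  | .cl => -1 / 2
  | .zn => if |c| = 3 then -2 else -1
  | .vn => -2

/-- The exponent of `M` of the integrand. -/
noncomputable def Ch.eT {m : ℕ} (C : Ch m) : ℝ := 2 * m + ∑ i, eN (C.c i) (C.ty i)

/-- The numbers of the nodes with lattice variables and with integration variables. -/
noncomputable def Ch.nz {m : ℕ} (C : Ch m) : ℕ := (Finset.univ.filter fun i => C.ty i = Ty.zn).card

noncomputable def Ch.nv {m : ℕ} (C : Ch m) : ℕ := (Finset.univ.filter fun i => C.ty i = Ty.vn).card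

/-- The exponent of `M` of the invariant. -/
noncomputable def Ch.eJ {m : ℕ} (C : Ch m) : ℝ :=
  C.eT + (m + C.nz : ℝ) / 2 + 3 / 2 * (C.nv : ℝ)

end Pool.Agent.S5
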