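import Pool.Agent.S5.S.Defs
import Pool.Agent.S3.Chain

/-!
# Abstract kernels on a mixed chain

The soft part of the asymptotics uses only the following properties of the kernels.
-/

set_option autoImplicit false

namespace Pool.Agent.S5

open Complex Filter Topology MeasureTheory
open Pool.Agent.S3 (Rf fe rS qS wr fdom Ctr)
open Pool.Agent.H63.VC3 (ff)

/-- Kernels on a mixed chain: `h0` is the first index, `sh` a shift in the conditions of the supports,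
`w` the weights of the edges, `k` the kernels of the nodes (own variable, slots), `lat` the kernels of a
node with integration variable at an edge with small index (`true`: it is the right one), at a lattice
point, as functions of the other slot; `g` the factors of the nodes; `sg` signs; `cv` the constant of
the integrals; `ew`, `ek` exponents of `M`. -/
structure Krn {m : ℕ} (C : Ch m) where
  h0 : ℕ
  sh : ℕ
  w : Fin m → ℕ → ℂ → ℂ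
  k : Fin (m + 1) → ℕ → ℂ → ℂ → ℂ → ℂ
  lat : Fin (m + 1) → Bool → ℕ → ℕ → ℕ → ℂ → ℂ
  g : Fin (m + 1) → ℕ → ℕ → ℕ → ℂ
  sg : Fin (m + 1) → ℕ → ℂ
  cv : ℂ
  ew : Fin m → ℝ
  ek : Fin (m + 1) → ℝ

variable {m : ℕ} {C : Ch m}

/-- The growth rate of the node `i`. -/
noncomputable def Ch.gn (C : Ch m) (i : Fin (m + 1)) (z a b : ℂ) : ℝ := gN (C.c i) (C.ty i) (C.fl i) z a b

/-- The potential of the node `i`. -/
noncomputable def Ch.pn (C : Ch m) (i : Fin (m + 1)) (z a b : ℂ) : ℂ := pN (C.c i) (C.ty i) (C.fl i) z a b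

/-- The sum over the indices in the sets `R j`. -/
noncomputable def Krn.JR (Q : Krn C) (M : ℕ) (R : Fin m → Finset ℕ) : ℂ :=
  ∑ κ ∈ Fintype.piFinset R, (∏ j, Q.w j M (yM M (κ j))) *
    ∏ i : Fin (m + 1), Q.g i M (ke M κ i) (ke M κ (i + 1))

/-- The index sets: the edges in `S` have small indices. -/
def Krn.RS (Q : Krn C) (M : ℕ) (S : Finset (Fin m)) (j : Fin m) : Finset ℕ :=
  if j ∈ S then Finset.Ico Q.h0 (kq M) else Finset.Ico (kq M) M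

/-- The factor of a node, with the sum removed at the nodes `zn`; `κ` are the indices of the edges and
of these nodes. -/
noncomputable def Krn.hn (Q : Krn C) (M : ℕ) (κ : C.Ix → ℕ) (i : Fin (m + 1)) : ℂ :=
  if h : C.ty i = Ty.zn then
    Q.k i M (yM M (κ (Sum.inr ⟨i, h⟩))) (yM M (ke M (fun j => κ (Sum.inl j)) i))
      (yM M (ke M (fun j => κ (Sum.inl j)) (i + 1)))
  else Q.g i M (ke M (fun j => κ (Sum.inl j)) i) (ke M (fun j => κ (Sum.inl j)) (i + 1))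

/-- The ends of the ranges of the variables of the nodes `zn`. -/
noncomputable def kz0 (M : ℕ) (z1 : ℝ) : ℕ := ⌊(M : ℝ) * (1 / 2 - z1)⌋₊ + 1

noncomputable def kz1 (M : ℕ) (z1 : ℝ) : ℕ := ⌊(M : ℝ) * (1 / 2 + z1)⌋₊ - 1

open Classical in
/-- The ranges of the variables of the nodes `zn`. -/
noncomputable def Krn.ZS (Q : Krn C) (K : Cn m) (P : Pat m) (M : ℕ) (i : Fin (m + 1)) : Finset ℕ :=
  if Tch P.S i then Finset.Ico Q.h0 M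
  else if P.H i = 0 then Finset.Ico (kz0 M (K.z1 i)) (kz1 M (K.z1 i))
  else if P.H i = 1 then Finset.Ico (kz1 M (K.z1 i)) M
  else Finset.Ico Q.h0 (kz0 M (K.z1 i))

/-- The part of the sum of a pattern. -/
noncomputable def Krn.JP (Q : Krn C) (K : Cn m) (P : Pat m) (M : ℕ) : ℂ :=
  ∑ k ∈ Fintype.piFinset (Q.RS M P.S), ∑ l ∈ Fintype.piFinset (fun i : C.Zn => Q.ZS K P M i),
    (∏ j, Q.w j M (yM M (k j))) * ∏ i, Q.hn M (Sum.elim k l) i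

/-- The whole sum. -/
noncomputable def Krn.J (Q : Krn C) (M : ℕ) : ℂ := Q.JR M fun _ => Finset.Ico Q.h0 M

/-- The properties of the kernels. -/
structure Krn.OK (Q : Krn C) : Prop where
  cv : Q.cv ≠ 0
  sg : ∀ i M, ‖Q.sg i M‖ = 1
  /- bounds -/
  w_bd : ∀ j, ∀ d : ℝ, ∃ A : ℝ, 0 < A ∧ ∃ p : ℕ, ∀ᶠ M : ℕ in atTop, ∀ y ∈ Dm M Q.h0 d,
    ‖Q.w j M y‖ ≤ A * (M : ℝ) ^ p * Real.exp (M * (4 * Rf (y + 1 / 2)))
  k_bd : ∀ i, C.ty i ≠ Ty.vn → ∀ d : ℝ, ∃ A : ℝ, 0 < A ∧ ∃ p : ℕ, ∀ᶠ M : ℕ in atTop, ∀ z a b : ℂ,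
    (C.ty i = Ty.zn → z ∈ Dm M Q.h0 d) → a ∈ Dm M Q.h0 d → b ∈ Dm M Q.h0 d →
    ‖Q.k i M z a b‖ ≤ A * (M : ℝ) ^ p * Real.exp (M * C.gn i z a b)
  v_bd : ∀ i, C.ty i = Ty.vn → ∀ d κ B : ℝ, 0 < κ → ∃ A : ℝ, 0 < A ∧ ∃ p : ℕ, ∀ᶠ M : ℕ in atTop,
    ∀ v a b : ℂ, 0 < v.im → v.im ≤ B → |v.re| ≤ 1 / 2 → κ * (1 / 2 - |v.re|) ≤ v.im →
    a ∈ Dm M Q.h0 d → b ∈ Dm M Q.h0 d →
    ‖Q.k i M v a b‖ ≤ A * (M : ℝ) ^ p * Real.exp (M * C.gn i v a b)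
  lat_bd : ∀ i, C.ty i = Ty.vn → ∀ d : ℝ, ∃ A : ℝ, 0 < A ∧ ∃ p : ℕ, ∀ᶠ M : ℕ in atTop,
    ∀ (sd : Bool) (κ X : ℕ), Q.h0 ≤ κ → κ < kq M → ∀ b ∈ Dm M Q.h0 d, Q.lat i sd M κ X b = 0 ∨
      ∃ v : ℝ, v ≤ 1 / 2 ∧ -(yR M κ) - Q.sh / M ≤ v ∧ ‖Q.lat i sd M κ X b‖ ≤ A * (M : ℝ) ^ p *
        Real.exp (M * C.gn i v (if sd then b else yM M κ) (if sd then yM M κ else b))
  /- supports -/
  z_cl : ∀ i, C.ty i = Ty.cl → ∀ M k k' : ℕ, k < M → k' < M → k + k' + 1 + Q.sh < M →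
    ∀ z, Q.k i M z (yM M k) (yM M k') = 0
  z_zn : ∀ i, C.ty i = Ty.zn → ∀ M l k : ℕ, l < M → k < M → ∀ b : ℂ,
    (k + Q.sh < l → Q.k i M (yM M l) (if C.fl i then b else yM M k) (if C.fl i then yM M k else b) = 0) ∧
    (l + k + 1 + Q.sh < M →
      Q.k i M (yM M l) (if C.fl i then yM M k else b) (if C.fl i then b else yM M k) = 0)
  /- differentiability -/
  w_df : ∀ j, ∀ d : ℝ, ∀ᶠ M : ℕ in atTop, ∀ y ∈ Dm M Q.h0 d, DifferentiableAt ℂ (Q.w j M) y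
  k_df : ∀ i, ∀ d : ℝ, ∀ᶠ M : ℕ in atTop, ∀ z a b : ℂ, (C.ty i = Ty.zn → z ∈ Dm M Q.h0 d) →
    (C.ty i = Ty.vn → 0 < z.im ∧ |z.re| ≤ 1 / 2) → a ∈ Dm M Q.h0 d → b ∈ Dm M Q.h0 d →
    DifferentiableAt ℂ (fun p : ℂ × ℂ × ℂ => Q.k i M p.1 p.2.1 p.2.2) (z, a, b)
  lat_df : ∀ i, C.ty i = Ty.vn → ∀ d : ℝ, ∀ᶠ M : ℕ in atTop, ∀ (sd : Bool) (κ X : ℕ), X < M →
    ∀ b ∈ Dm M Q.h0 d, DifferentiableAt ℂ (Q.lat i sd M κ X) b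
  /- exact values -/
  g_cl : ∀ i, C.ty i = Ty.cl → ∀ᶠ M : ℕ in atTop, ∀ k k' : ℕ, Q.h0 ≤ k → Q.h0 ≤ k' → k < M → k' < M →
    Q.g i M k k' = Q.k i M 0 (yM M k) (yM M k')
  g_zn : ∀ i, C.ty i = Ty.zn → ∀ᶠ M : ℕ in atTop, ∀ k k' : ℕ, Q.h0 ≤ k → Q.h0 ≤ k' → k < M → k' < M →
    Q.g i M k k' = ∑ l ∈ Finset.Ico Q.h0 M, Q.k i M (yM M l) (yM M k) (yM M k')
  g_vn : ∀ i, C.ty i = Ty.vn → ∀ᶠ M : ℕ in atTop, ∀ k k' : ℕ, Q.h0 ≤ k → Q.h0 ≤ k' → k < M → k' < M →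
    ∀ γ γ' : ℝ → ℂ, Ctr γ γ' → (∀ x, |(γ x).re| ≤ 1 / 2) →
    Integrable (fun x => Q.k i M (γ x) (yM M k) (yM M k') * γ' x) ∧
    Q.g i M k k' = Q.cv * M ^ 2 * ∫ x, Q.k i M (γ x) (yM M k) (yM M k') * γ' x
  g_lat : ∀ i, C.ty i = Ty.vn → ∀ᶠ M : ℕ in atTop, ∀ k k' : ℕ, Q.h0 ≤ k → Q.h0 ≤ k' → k < kq M → k' < M →
    Q.g i M k k' = ∑ X ∈ Finset.range M, Q.lat i false M k X (yM M k') ∧
    Q.g i M k' k = ∑ X ∈ Finset.range M, Q.lat i true M k X (yM M k')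
  g_two : ∀ i, C.ty i = Ty.vn → ∀ᶠ M : ℕ in atTop, ∀ k k' : ℕ, Q.h0 ≤ k → Q.h0 ≤ k' → k < kq M → k' < kq M →
    Q.g i M k k' = 0

/-- The limits of the kernels at the critical point. -/
structure Krn.Lm (Q : Krn C) (K : Cn m) : Prop where
  w : ∀ j, ∃ A : ℂ, A ≠ 0 ∧ Tendsto (fun p : ℕ × ℂ => Q.w j p.1 p.2 *
    exp (-(p.1 * (4 * ff (p.2 + 1 / 2)))) / (((p.1 : ℝ) ^ Q.ew j : ℝ) : ℂ))
    (atTop ×ˢ 𝓝 (K.yc j)) (𝓝 A)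
  k : ∀ i, ∃ A : ℂ, A ≠ 0 ∧ Tendsto (fun p : ℕ × (ℂ × ℂ × ℂ) => Q.sg i p.1 *
    Q.k i p.1 p.2.1 p.2.2.1 p.2.2.2 * exp (-(p.1 * C.pn i p.2.1 p.2.2.1 p.2.2.2)) /
      (((p.1 : ℝ) ^ Q.ek i : ℝ) : ℂ))
    (atTop ×ˢ 𝓝 (if C.ty i = Ty.cl then 0 else K.oc i, ye K.yc i, ye K.yc (i + 1))) (𝓝 A)

/-- The exponent of `M` of the whole sum. -/
noncomputable def Krn.eJ (Q : Krn C) : ℝ :=
  (∑ j, Q.ew j) + (∑ i, Q.ek i) + (m + C.nz : ℝ) / 2 + 3 / 2 * (C.nv : ℝ)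

end Pool.Agent.S5
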