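import Pool.Agent.S3.Gr3b
import Pool.Agent.S3.LL1
import Pool.Agent.S3.Low1
import Pool.Agent.S5.S.Defs

/-!
# Bounds of the kernels of the nodes with integration variables
-/

set_option autoImplicit false

namespace Pool.Agent.S5

open Complex Filter Topology
open Pool.Agent.S3 (Rf fe rS qS wr fdom gl ql)
open Pool.Agent.H63.VC3 (LL ff Cc om yk vl)

private theorem BdV_dm {M : ℕ} {d : ℝ} {a : ℂ} (ha : a ∈ Dm M 0 d) : |a.re| ≤ 1 / 2 := by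
  obtain ⟨h1, h2, -⟩ := ha
  unfold al yR at h1
  have h3 : 0 ≤ (((0 : ℕ) : ℝ) - 1 / 2 + 1) / M := by
    apply div_nonneg _ (Nat.cast_nonneg M)
    norm_num
  rw [abs_le]
  constructor <;> linarith

/-- On the contours. -/
theorem bd_kV (r : ℝ) (d κ B : ℝ) (hκ : 0 < κ) : ∃ C : ℝ, 0 < C ∧ ∃ p : ℕ, ∀ M : ℕ, 1 ≤ M →
    ∀ v : ℂ, 0 ≤ v.im → v.im ≤ B → |v.re| ≤ 1 / 2 → κ * (1 / 2 - |v.re|) ≤ v.im →
    ∀ a ∈ Dm M 0 d, ∀ b ∈ Dm M 0 d,
    ‖kV r M v a b‖ ≤ C * (M : ℝ) ^ p * Real.exp (M * gV r v a b) := by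
  obtain ⟨C, hC, h⟩ := Pool.Agent.S3.om_bound hκ
  refine ⟨2 * Real.exp (2 * Real.pi * B) * C * 256 ^ 2, by positivity, 0, fun M hM v h0 hB h1 h2 a ha b hb => ?_⟩
  have hM1 : (1 : ℝ) ≤ M := by exact_mod_cast hM
  have hM0 : (0 : ℝ) < M := by linarith
  have hpi := Real.pi_pos
  have ho := h M v h0 h1 h2
  have hs := Pool.Agent.S3.norm_two_sin_le v
  have hB' : Real.exp (2 * Real.pi * |v.im|) ≤ Real.exp (2 * Real.pi * B) := by
    rw [abs_of_nonneg h0]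
    gcongr
  have h256 : 256 / (M : ℝ) ≤ 256 := div_le_self (by norm_num) hM1
  have qa : ‖qS M a v‖ ≤ 256 * Real.exp (-(M * (Rf (a - v) + Rf (a + v)))) :=
    (Pool.Agent.S3.qS_bound hM (BdV_dm ha) h1).trans (mul_le_mul_of_nonneg_right h256 (Real.exp_pos _).le)
  have qb : ‖qS M b v‖ ≤ 256 * Real.exp (-(M * (Rf (b - v) + Rf (b + v)))) :=
    (Pool.Agent.S3.qS_bound hM (BdV_dm hb) h1).trans (mul_le_mul_of_nonneg_right h256 (Real.exp_pos _).le)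
  have e := Pool.Agent.S3.exp_wr r M v
  unfold kV
  rw [norm_mul (exp (2 * Real.pi * I * r * M * v ^ 2) * (2 * sin (2 * Real.pi * v)) * om 2 M v) (qS M a v * qS M b v),
    norm_mul (exp (2 * Real.pi * I * r * M * v ^ 2) * (2 * sin (2 * Real.pi * v))) (om 2 M v),
    norm_mul (exp (2 * Real.pi * I * r * M * v ^ 2)) (2 * sin (2 * Real.pi * v)), norm_mul (qS M a v) (qS M b v),
    pow_zero, mul_one]
  calc ‖exp (2 * Real.pi * I * r * M * v ^ 2)‖ * ‖2 * sin (2 * Real.pi * v)‖ * ‖om 2 M v‖ * (‖qS M a v‖ * ‖qS M b v‖)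
      ≤ ‖exp (2 * Real.pi * I * r * M * v ^ 2)‖ * (2 * Real.exp (2 * Real.pi * B)) *
        (C * Real.exp (-(2 * Real.pi * (M * v.im)))) *
        ((256 * Real.exp (-(M * (Rf (a - v) + Rf (a + v))))) * (256 * Real.exp (-(M * (Rf (b - v) + Rf (b + v)))))) := by
        gcongr
        exact hs.trans (by gcongr)
    _ = 2 * Real.exp (2 * Real.pi * B) * C * 256 ^ 2 * ((‖exp (2 * Real.pi * I * r * M * v ^ 2)‖ *
        Real.exp (-(2 * Real.pi * (M * v.im)))) *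
        (Real.exp (-(M * (Rf (a - v) + Rf (a + v)))) * Real.exp (-(M * (Rf (b - v) + Rf (b + v)))))) := by ring
    _ = 2 * Real.exp (2 * Real.pi * B) * C * 256 ^ 2 * Real.exp (M * gV r v a b) := by
        rw [e, ← Real.exp_add, ← Real.exp_add]
        congr 2
        unfold gV
        ring

private theorem BdV_gl (r : ℝ) (M X : ℕ) : ‖gl r M X‖ ≤ 4 := by
  have h1 : ‖exp (2 * Real.pi * I * r * M * ((vl 2 M X : ℝ) : ℂ) ^ 2)‖ = 1 := by
    have : (2 * Real.pi * I * r * M * ((vl 2 M X : ℝ) : ℂ) ^ 2 : ℂ) =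
        ((2 * Real.pi * r * M * (vl 2 M X) ^ 2 : ℝ) : ℂ) * I := by
      push_cast; ring
    rw [this, norm_exp_ofReal_mul_I]
  have h2 : ‖sin (2 * Real.pi * ((vl 2 M X : ℝ) : ℂ))‖ ≤ 1 := by
    have : (2 * Real.pi * ((vl 2 M X : ℝ) : ℂ) : ℂ) = ((2 * Real.pi * vl 2 M X : ℝ) : ℂ) := by
      push_cast; ring
    rw [this, ← ofReal_sin, norm_real, Real.norm_eq_abs]
    exact Real.abs_sin_le_one _
  unfold gl
  rw [norm_mul, norm_mul, h1, norm_mul, norm_ofNat]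
  linarith

private theorem BdV_neg_real (x : ℝ) : Rf ((-x : ℝ) : ℂ) = -Rf (x : ℂ) := by
  have h := Pool.Agent.S3.Rf_neg (x : ℂ)
  rw [ofReal_im, abs_zero, mul_zero, sub_zero] at h
  rw [ofReal_neg, h]

private theorem BdV_S {M k : ℕ} (hk : k < M) : Pool.Agent.H63.VC.S M k = Real.exp (LL M k).re := by
  have h := congrArg norm (Pool.Agent.H63.VC3.LL_nat M k hk)
  rw [norm_exp, norm_real, Real.norm_eq_abs, abs_of_pos (Pool.Agent.H63.VC.S_pos hk)] at h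
  exact h.symm

private theorem BdV_vl (M X : ℕ) : vl 2 M X = (X + 1 / 2) / M - 1 / 2 := by
  unfold Pool.Agent.H63.VC3.vl Pool.Agent.H63.VC3.bt
  norm_num

private theorem BdV_yM (M k : ℕ) : yM M k = (((k + 1) / M - 1 / 2 : ℝ) : ℂ) := by
  unfold yM
  push_cast
  ring

/-- The lattice slot. -/
private theorem BdV_ql {M : ℕ} (hM : 1 ≤ M) {k X : ℕ} (h2k : 2 * k + 2 ≤ M) (hX : X ≤ k) :
    ‖ql M k X‖ ≤ Real.exp 11 *
      Real.exp (-(M * (Rf (yM M k - ((vl 2 M X : ℝ) : ℂ)) + Rf (yM M k + ((vl 2 M X : ℝ) : ℂ))))) := by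
  have hM0 : (0 : ℝ) < M := by exact_mod_cast hM
  have hMc : (M : ℂ) ≠ 0 := by exact_mod_cast hM0.ne'
  have hpi := Real.pi_pos
  have a1 : k - X < M := by omega
  have a2 : M - 2 - k - X < M := by omega
  have r1 := Pool.Agent.S3.LL_Rf hM (z := ((k - X : ℕ) : ℂ)) (by
    rw [natCast_re]; have : (0 : ℝ) ≤ ((k - X : ℕ) : ℝ) := Nat.cast_nonneg _; linarith) (by
    rw [natCast_re]
    have : ((k - X : ℕ) : ℝ) + 1 ≤ M := by exact_mod_cast a1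
    linarith)
  have r2 := Pool.Agent.S3.LL_Rf hM (z := ((M - 2 - k - X : ℕ) : ℂ)) (by
    rw [natCast_re]; have : (0 : ℝ) ≤ ((M - 2 - k - X : ℕ) : ℝ) := Nat.cast_nonneg _; linarith) (by
    rw [natCast_re]
    have : ((M - 2 - k - X : ℕ) : ℝ) + 1 ≤ M := by exact_mod_cast a2
    linarith)
  have c1 : (((k - X : ℕ) : ℂ) + 1 / 2) / M = yM M k - ((vl 2 M X : ℝ) : ℂ) := by
    rw [BdV_yM, BdV_vl, Nat.cast_sub hX]
    push_cast
    field_simp
    ring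
  have c2 : (((M - 2 - k - X : ℕ) : ℂ) + 1 / 2) / M =
      ((-(((k + 1) / M - 1 / 2) + vl 2 M X) : ℝ) : ℂ) := by
    have : ((M - 2 - k - X : ℕ) : ℂ) = M - 2 - k - X := by
      rw [Nat.cast_sub (by omega), Nat.cast_sub (by omega), Nat.cast_sub (by omega)]
      norm_num
    rw [this, BdV_vl]
    push_cast
    field_simp
    ring
  rw [c1] at r1
  rw [c2, BdV_neg_real, ofReal_add, ← BdV_yM] at r2
  have hq : |Pool.Agent.H25.RK.qd M k X| = 2 * Real.pi * Real.exp ((LL M ((M - 2 - k - X : ℕ) : ℂ)).re -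
      (LL M ((k - X : ℕ) : ℂ)).re) := by
    unfold Pool.Agent.H25.RK.qd
    have p1 : |(-1 : ℝ) ^ (M - 2 - k - X)| = 1 := by rw [abs_pow, abs_neg, abs_one, one_pow]
    rw [abs_div, abs_mul, abs_mul (_ ^ _), p1, one_mul,
      BdV_S a1, BdV_S a2, abs_of_pos (Real.exp_pos _), abs_of_pos (Real.exp_pos _),
      abs_of_pos (by positivity : 0 < 2 * Real.pi), Real.exp_sub]
    ring
  have hp : 2 * Real.pi ≤ Real.exp 7 := by
    have := Real.add_one_le_exp (7 : ℝ)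
    have := Real.pi_lt_d2
    linarith
  unfold ql
  rw [if_pos hX, norm_real, Real.norm_eq_abs, hq]
  rw [abs_le] at r1 r2
  calc 2 * Real.pi * Real.exp ((LL M ((M - 2 - k - X : ℕ) : ℂ)).re - (LL M ((k - X : ℕ) : ℂ)).re)
      ≤ Real.exp 7 * Real.exp ((LL M ((M - 2 - k - X : ℕ) : ℂ)).re - (LL M ((k - X : ℕ) : ℂ)).re) := by
        gcongr
    _ = Real.exp (7 + ((LL M ((M - 2 - k - X : ℕ) : ℂ)).re - (LL M ((k - X : ℕ) : ℂ)).re)) := by
        rw [Real.exp_add]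
    _ ≤ Real.exp (11 + -(M * (Rf (yM M k - ((vl 2 M X : ℝ) : ℂ)) + Rf (yM M k + ((vl 2 M X : ℝ) : ℂ))))) := by
        apply Real.exp_le_exp.2
        nlinarith [r1.1, r1.2, r2.1, r2.2]
    _ = _ := by rw [Real.exp_add]

/-- Lattice values, at a small index `k`. The growth function is even in the real variable `v`. -/
theorem bd_lat (r : ℝ) (d : ℝ) : ∃ C : ℝ, 0 < C ∧ ∃ p : ℕ, ∀ M : ℕ, 1 ≤ M → ∀ k X : ℕ,
    2 * k + 2 ≤ M → X ≤ k → ∀ b ∈ Dm M 0 d,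
    ‖gl r M X * (ql M k X * qS M b (vl 2 M X : ℝ))‖ ≤
      C * (M : ℝ) ^ p * Real.exp (M * gV r ((-(vl 2 M X) : ℝ) : ℂ) (yM M k) b) := by
  refine ⟨4 * (Real.exp 11 * 256), by positivity, 0, fun M hM k X h2k hX b hb => ?_⟩
  have hM1 : (1 : ℝ) ≤ M := by exact_mod_cast hM
  have hM0 : (0 : ℝ) < M := by linarith
  have hv : |(((vl 2 M X : ℝ) : ℂ)).re| ≤ 1 / 2 := by
    rw [ofReal_re, BdV_vl]
    have hXr : (X : ℝ) + 1 / 2 ≤ M := by
      have : (X : ℝ) + 1 ≤ M := by exact_mod_cast (by omega : X + 1 ≤ M)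
      linarith
    have h1 : 0 ≤ ((X : ℝ) + 1 / 2) / M := by positivity
    have h2 : ((X : ℝ) + 1 / 2) / M ≤ 1 := by
      rw [div_le_one hM0]
      exact hXr
    rw [abs_le]
    constructor <;> linarith
  have h256 : 256 / (M : ℝ) ≤ 256 := div_le_self (by norm_num) hM1
  have qb : ‖qS M b ((vl 2 M X : ℝ) : ℂ)‖ ≤ 256 * Real.exp (-(M * (Rf (b - ((vl 2 M X : ℝ) : ℂ)) + Rf (b + ((vl 2 M X : ℝ) : ℂ))))) :=
    (Pool.Agent.S3.qS_bound hM (BdV_dm hb) hv).trans (mul_le_mul_of_nonneg_right h256 (Real.exp_pos _).le)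
  have qq := BdV_ql hM h2k hX
  have hw : (wr r ((-(vl 2 M X) : ℝ) : ℂ)).re = 0 := by
    rw [Pool.Agent.S3.wr_re]
    have : (((-(vl 2 M X) : ℝ) : ℂ) ^ 2).im = 0 := by
      rw [← ofReal_pow, ofReal_im]
    rw [this, ofReal_im]
    ring
  have hg : gV r ((-(vl 2 M X) : ℝ) : ℂ) (yM M k) b =
      -(Rf (yM M k - ((vl 2 M X : ℝ) : ℂ)) + Rf (yM M k + ((vl 2 M X : ℝ) : ℂ))) -
        (Rf (b - ((vl 2 M X : ℝ) : ℂ)) + Rf (b + ((vl 2 M X : ℝ) : ℂ))) := by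
    unfold gV
    rw [hw, ofReal_neg, sub_neg_eq_add, sub_neg_eq_add, ← sub_eq_add_neg, ← sub_eq_add_neg]
    ring
  rw [norm_mul, norm_mul, pow_zero, mul_one]
  calc ‖gl r M X‖ * (‖ql M k X‖ * ‖qS M b ((vl 2 M X : ℝ) : ℂ)‖)
      ≤ 4 * ((Real.exp 11 * Real.exp (-(M * (Rf (yM M k - ((vl 2 M X : ℝ) : ℂ)) + Rf (yM M k + ((vl 2 M X : ℝ) : ℂ)))))) *
        (256 * Real.exp (-(M * (Rf (b - ((vl 2 M X : ℝ) : ℂ)) + Rf (b + ((vl 2 M X : ℝ) : ℂ))))))) := by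
        gcongr
        exact BdV_gl r M X
    _ = 4 * (Real.exp 11 * 256) * (Real.exp (-(M * (Rf (yM M k - ((vl 2 M X : ℝ) : ℂ)) + Rf (yM M k + ((vl 2 M X : ℝ) : ℂ))))) *
        Real.exp (-(M * (Rf (b - ((vl 2 M X : ℝ) : ℂ)) + Rf (b + ((vl 2 M X : ℝ) : ℂ)))))) := by ring
    _ = _ := by
        rw [← Real.exp_add, hg]
        congr 2
        ring

theorem gV_swap (r : ℝ) (v a b : ℂ) : gV r v a b = gV r v b a := by
  unfold gV; ring

end Pool.Agent.S5
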