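import Pool.Agent.H25.RK.DGf
import Pool.Agent.S3.Gr6
import Pool.Agent.S5.S.Defs

/-!
# The kernels near the critical point
-/

set_option autoImplicit false

namespace Pool.Agent.S5

open Complex Filter Topology
open Pool.Agent.S3 (Rf fe rS qS wr fdom)
open Pool.Agent.H63.VC3 (LL ff Cc om yk)

variable {α : Type*} {l : Filter α} {M : α → ℕ}

private theorem LmA_tend (hM : Tendsto M l atTop) {ζ : α → ℂ} {ζ0 : ℂ} (hζ : Tendsto ζ l (𝓝 ζ0)) (c : ℂ) :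
    Tendsto (fun x => ζ x + c / M x) l (𝓝 ζ0) := by
  have h1 : Tendsto (fun x => c / (M x : ℂ)) l (𝓝 0) :=
    (tendsto_const_div_atTop_nhds_zero_nat c).comp hM
  have h2 := hζ.add h1
  rwa [add_zero] at h2

private theorem LmA_step (hM : Tendsto M l atTop) {ζ : α → ℂ} {ζ0 : ℂ} (hζ : Tendsto ζ l (𝓝 ζ0))
    (h : fdom ζ0) (c : ℂ) :
    Tendsto (fun x => M x * (fe (ζ x + c / M x) - fe (ζ x))) l (𝓝 (c * Pool.Agent.S3.he ζ0)) := by
  have hs : HasStrictDerivAt fe (Pool.Agent.S3.he ζ0) ζ0 := by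
    have h1 := (Pool.Agent.S3.fe_an h).hasStrictDerivAt
    rwa [(Pool.Agent.S3.fe_hasDerivAt h).deriv] at h1
  have h2 : Tendsto (fun x => (ζ x + c / M x, ζ x)) l (𝓝 (ζ0, ζ0)) :=
    (LmA_tend hM hζ c).prodMk_nhds hζ
  have h3 := hs.isLittleO.comp_tendsto h2
  have hM1 : ∀ᶠ x in l, 1 ≤ M x := hM.eventually (eventually_ge_atTop 1)
  have h4 : (fun x => M x * (fe (ζ x + c / M x) - fe (ζ x)) - c * Pool.Agent.S3.he ζ0) =o[l]
      (fun _ => (1 : ℂ)) := by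
    have h5 : (fun x => (M x : ℂ) * (fe (ζ x + c / M x) - fe (ζ x) -
        (ζ x + c / M x - ζ x) • Pool.Agent.S3.he ζ0)) =o[l]
        (fun x => (M x : ℂ) * (ζ x + c / M x - ζ x)) :=
      (Asymptotics.isBigO_refl _ _).mul_isLittleO h3
    have h6 : (fun x => (M x : ℂ) * (ζ x + c / M x - ζ x)) =O[l] (fun _ => (1 : ℂ)) := by
      apply Asymptotics.IsBigO.of_bound ‖c‖
      filter_upwards [hM1] with x hx
      have hMx : (M x : ℂ) ≠ 0 := by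
        have : (0 : ℝ) < M x := by exact_mod_cast hx
        exact_mod_cast this.ne'
      have e : (M x : ℂ) * (ζ x + c / M x - ζ x) = c := by
        field_simp
        ring
      rw [e, norm_one, mul_one]
    refine (h5.trans_isBigO h6).congr' ?_ EventuallyEq.rfl
    filter_upwards [hM1] with x hx
    have hMx : (M x : ℂ) ≠ 0 := by
      have : (0 : ℝ) < M x := by exact_mod_cast hx
      exact_mod_cast this.ne'
    rw [smul_eq_mul]
    field_simp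
    ring
  have h5 := ((Asymptotics.isLittleO_one_iff ℂ).mp h4).add_const (c * Pool.Agent.S3.he ζ0)
  simp only [sub_add_cancel, zero_add] at h5
  exact h5

private theorem LmA_half {n : ℕ} (hn : 1 ≤ n) :
    (((n : ℝ) ^ (-1 / 2 : ℝ) : ℝ) : ℂ) = ((√(n : ℝ) : ℝ) : ℂ)⁻¹ := by
  have hM0 : (0 : ℝ) ≤ n := Nat.cast_nonneg n
  rw [show (-1 / 2 : ℝ) = -(1 / 2) by norm_num, Real.rpow_neg hM0, ← Real.sqrt_eq_rpow]
  push_cast
  rfl

private theorem LmA_sq {n : ℕ} : (((√(n : ℝ) : ℝ) : ℂ)) ^ 2 = n := by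
  have h : √(n : ℝ) ^ 2 = n := Real.sq_sqrt (Nat.cast_nonneg n)
  exact_mod_cast congrArg (fun t : ℝ => (t : ℂ)) h

private theorem LmA_sne {n : ℕ} (hn : 1 ≤ n) : ((√(n : ℝ) : ℝ) : ℂ) ≠ 0 := by
  have hM0 : (0 : ℝ) < n := by exact_mod_cast hn
  exact_mod_cast (Real.sqrt_pos.mpr hM0).ne'

private theorem LmA_two {n : ℕ} : (((n : ℝ) ^ (2 : ℝ) : ℝ) : ℂ) = ((√(n : ℝ) : ℝ) : ℂ) ^ 4 := by
  rw [show (4 : ℕ) = 2 * 2 from rfl, pow_mul, LmA_sq]
  rw [show (2 : ℝ) = ((2 : ℕ) : ℝ) by norm_num, Real.rpow_natCast]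
  push_cast
  rfl

private theorem LmA_mtwo {n : ℕ} : (((n : ℝ) ^ (-2 : ℝ) : ℝ) : ℂ) = (((√(n : ℝ) : ℝ) : ℂ) ^ 4)⁻¹ := by
  rw [Real.rpow_neg (Nat.cast_nonneg n), ← LmA_two]
  push_cast
  rfl

private theorem LmA_m32 {n : ℕ} : (((n : ℝ) ^ (-3 / 2 : ℝ) : ℝ) : ℂ) =
    (((√(n : ℝ) : ℝ) : ℂ) ^ 3)⁻¹ := by
  have hM0 : (0 : ℝ) ≤ n := Nat.cast_nonneg n
  rw [show (-3 / 2 : ℝ) = -((1 / 2 : ℝ) * (3 : ℕ)) by norm_num, Real.rpow_neg hM0,
    Real.rpow_mul hM0, ← Real.sqrt_eq_rpow, Real.rpow_natCast]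
  push_cast
  rfl

private theorem LmA_a1 {R w1 w2 E1 E2 E3 E4 q : ℂ} (g1 : E1 ≠ 0) (g2 : E2 ≠ 0) (hs : q ≠ 0) :
    E3 * (w1⁻¹ * w2⁻¹) * (R * E4 / q⁻¹) =
      E3 * E1 * E2 * E4 * ((w1 * q * E1)⁻¹ * (w2 * q * E2)⁻¹) * R / (q ^ 3)⁻¹ := by
  rw [div_inv_eq_mul, div_inv_eq_mul, mul_inv, mul_inv, mul_inv, mul_inv]
  have f1 : E1 * E1⁻¹ = 1 := mul_inv_cancel₀ g1
  have f2 : E2 * E2⁻¹ = 1 := mul_inv_cancel₀ g2
  have f3 : q * q⁻¹ = 1 := mul_inv_cancel₀ hs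
  have e : E3 * E1 * E2 * E4 * (w1⁻¹ * q⁻¹ * E1⁻¹ * (w2⁻¹ * q⁻¹ * E2⁻¹)) * R * q ^ 3 =
      E3 * E4 * w1⁻¹ * w2⁻¹ * R * q * (E1 * E1⁻¹) * (E2 * E2⁻¹) * (q * q⁻¹) ^ 2 := by ring
  rw [e, f1, f2, f3]
  ring

private theorem LmA_a2 {R1 R2 R3 R4 E1 E2 E3 E4 E7 q O S N : ℂ} :
    2 * S * (N * O * E7) * (R1 * E1 / q⁻¹ * (R2 * E2 / q⁻¹) * (R3 * E3 / q⁻¹ * (R4 * E4 / q⁻¹))) =
    E7 * (E1 * E2 * (E3 * E4)) * N * (2 * S) * O * (R1 * R2 * (R3 * R4)) / (q ^ 4)⁻¹ := by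
  simp only [div_inv_eq_mul]
  ring

/-- A shifted argument of the interpolation. -/
theorem lm_rS (hM : Tendsto M l atTop) (c : ℂ) {ζ : α → ℂ} {ζ0 : ℂ} (hζ : Tendsto ζ l (𝓝 ζ0))
    (h : fdom ζ0) (hre : |ζ0.re| < 1) : ∃ A : ℂ, A ≠ 0 ∧
    Tendsto (fun x => rS (M x) (M x * ζ x + c) * exp (-(M x * -fe (ζ x))) /
      (((M x : ℝ) ^ (-1 / 2 : ℝ) : ℝ) : ℂ)) l (𝓝 A) := by
  refine ⟨exp (-((c + 1 / 2) * Pool.Agent.S3.he ζ0)), exp_ne_zero _, ?_⟩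
  have hM1 : ∀ᶠ x in l, 1 ≤ M x := hM.eventually (eventually_ge_atTop 1)
  have h1 := (Pool.Agent.S3.hS_lim h hre).comp (hM.prodMk (LmA_tend hM hζ (c + 1 / 2)))
  have h2 := (continuous_exp.tendsto _).comp (LmA_step hM hζ h (c + 1 / 2)).neg
  have h3 := h1.mul h2
  rw [one_mul] at h3
  refine h3.congr' ?_
  filter_upwards [hM1] with x hx
  have hMx : (M x : ℂ) ≠ 0 := by
    have : (0 : ℝ) < M x := by exact_mod_cast hx
    exact_mod_cast this.ne'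
  simp only [Function.comp_apply]
  unfold Pool.Agent.S3.hS
  have e1 : (M x : ℂ) * (ζ x + (c + 1 / 2) / M x) - 1 / 2 = M x * ζ x + c := by
    field_simp
    ring
  have e2 : exp (M x * fe (ζ x + (c + 1 / 2) / M x)) *
      exp (-(M x * (fe (ζ x + (c + 1 / 2) / M x) - fe (ζ x)))) = exp (-(M x * -fe (ζ x))) := by
    rw [← exp_add]
    congr 1
    ring
  rw [e1, LmA_half hx, ← e2, div_inv_eq_mul]
  ring

theorem lm_Cc (hM : Tendsto M l atTop) {y : α → ℂ} {y0 : ℂ} (hy : Tendsto y l (𝓝 y0))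
    (h0 : -1 / 2 < y0.re) (h1 : y0.re < 1 / 2) : ∃ A : ℂ, A ≠ 0 ∧
    Tendsto (fun x => Cc 2 1 (M x) (y x) * exp (-(M x * (4 * ff (y x + 1 / 2)))) /
      (((M x : ℝ) ^ (2 : ℝ) : ℝ) : ℂ)) l (𝓝 A) := by
  refine ⟨exp (-Pool.Agent.H63.VC3.hh (y0 + 1 / 2) / 2) ^ 4, pow_ne_zero _ (exp_ne_zero _), ?_⟩
  have hM1 : ∀ᶠ x in l, 1 ≤ M x := hM.eventually (eventually_ge_atTop 1)
  have h2 := ((Pool.Agent.S3.wS_lim h0 h1).comp (hM.prodMk hy)).pow 4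
  refine h2.congr' ?_
  filter_upwards [hM1] with x hx
  simp only [Function.comp_apply]
  have hs := LmA_sne hx
  have e1 : exp (4 * LL (M x) (M x * (y x + 1 / 2) - 1)) =
      exp (LL (M x) (M x * (y x + 1 / 2) - 1)) ^ 4 := by
    rw [← exp_nat_mul]
    congr 1
  have e2 : exp (-(M x * (4 * ff (y x + 1 / 2)))) = (exp (M x * ff (y x + 1 / 2)) ^ 4)⁻¹ := by
    rw [← exp_nat_mul, ← exp_neg]
    congr 1
    push_cast
    ring
  rw [Pool.Agent.S3.Cc_eq, e1, e2, Pool.Agent.S3.exp_LL_wS hx, LmA_two]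
  have h3 := exp_ne_zero (M x * ff (y x + 1 / 2))
  field_simp

theorem lm_kC (s : ℤ) (hM : Tendsto M l atTop) {a b : α → ℂ} {a0 b0 : ℂ}
    (ha : Tendsto a l (𝓝 a0)) (hb : Tendsto b l (𝓝 b0)) (h : fdom (a0 + b0))
    (hre : |(a0 + b0).re| < 1) : ∃ A : ℂ, A ≠ 0 ∧
    Tendsto (fun x => kC s (M x) (a x) (b x) * exp (-(M x * pC s (a x) (b x))) /
      (((M x : ℝ) ^ (-1 / 2 : ℝ) : ℝ) : ℂ)) l (𝓝 A) := by
  obtain ⟨A, hA, h1⟩ := lm_rS hM (-1) (ha.add hb) h hre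
  refine ⟨exp (-(s * Real.pi * I * ((1 - a0 - b0) / 2))) * A, mul_ne_zero (exp_ne_zero _) hA, ?_⟩
  have h2 : Tendsto (fun x => exp (-(s * Real.pi * I * ((1 - a x - b x) / 2)))) l
      (𝓝 (exp (-(s * Real.pi * I * ((1 - a0 - b0) / 2))))) :=
    (continuous_exp.tendsto _).comp
      ((((ha.const_sub 1).sub hb).div_const 2).const_mul (s * Real.pi * I : ℂ)).neg
  refine (h2.mul h1).congr fun x => ?_
  have e1 : exp (s * Real.pi * I * (M x * ((a x - b x) ^ 2 / 2 + (1 - a x - b x) / 2) -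
      (1 - a x - b x) / 2)) * exp (-(M x * pC s (a x) (b x))) =
      exp (-(s * Real.pi * I * ((1 - a x - b x) / 2))) * exp (-(M x * -fe (a x + b x))) := by
    rw [← exp_add, ← exp_add]
    congr 1
    unfold pC qC
    ring
  have e2 : (M x : ℂ) * (a x + b x) + -1 = M x * (a x + b x) - 1 := by ring
  unfold kC
  rw [e2]
  calc exp (-(s * Real.pi * I * ((1 - a x - b x) / 2))) *
        (rS (M x) (M x * (a x + b x) - 1) * exp (-(M x * -fe (a x + b x))) /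
          (((M x : ℝ) ^ (-1 / 2 : ℝ) : ℝ) : ℂ))
      = (exp (-(s * Real.pi * I * ((1 - a x - b x) / 2))) * exp (-(M x * -fe (a x + b x)))) *
        rS (M x) (M x * (a x + b x) - 1) / (((M x : ℝ) ^ (-1 / 2 : ℝ) : ℝ) : ℂ) := by ring
    _ = _ := by
        rw [← e1]
        ring

theorem lm_kB (s : ℤ) (hM : Tendsto M l atTop) {y z : α → ℂ} {y0 z0 : ℂ}
    (hy : Tendsto y l (𝓝 y0)) (hz : Tendsto z l (𝓝 z0)) (h : fdom (y0 - z0))
    (hre : |(y0 - z0).re| < 1) : ∃ A : ℂ, A ≠ 0 ∧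
    Tendsto (fun x => kB s (M x) (y x) (z x) * exp (-(M x * pB s (y x) (z x))) /
      (((M x : ℝ) ^ (-1 / 2 : ℝ) : ℝ) : ℂ)) l (𝓝 A) := by
  obtain ⟨A, hA, h1⟩ := lm_rS hM 0 (hy.sub hz) h hre
  refine ⟨exp (-(s * Real.pi * I * ((y0 + 3 * z0) / 2))) * A, mul_ne_zero (exp_ne_zero _) hA, ?_⟩
  have h2 : Tendsto (fun x => exp (-(s * Real.pi * I * ((y x + 3 * z x) / 2)))) l
      (𝓝 (exp (-(s * Real.pi * I * ((y0 + 3 * z0) / 2))))) :=
    (continuous_exp.tendsto _).comp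
      (((hy.add (hz.const_mul 3)).div_const 2).const_mul (s * Real.pi * I : ℂ)).neg
  refine (h2.mul h1).congr fun x => ?_
  have e1 : exp (s * Real.pi * I * (M x * ((y x + z x) ^ 2 / 2 - (y x - z x) / 2) -
      (y x + 3 * z x) / 2)) * exp (-(M x * pB s (y x) (z x))) =
      exp (-(s * Real.pi * I * ((y x + 3 * z x) / 2))) * exp (-(M x * -fe (y x - z x))) := by
    rw [← exp_add, ← exp_add]
    congr 1
    unfold pB qB
    ring
  unfold kB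
  rw [add_zero]
  calc exp (-(s * Real.pi * I * ((y x + 3 * z x) / 2))) *
        (rS (M x) (M x * (y x - z x)) * exp (-(M x * -fe (y x - z x))) /
          (((M x : ℝ) ^ (-1 / 2 : ℝ) : ℝ) : ℂ))
      = (exp (-(s * Real.pi * I * ((y x + 3 * z x) / 2))) * exp (-(M x * -fe (y x - z x)))) *
        rS (M x) (M x * (y x - z x)) / (((M x : ℝ) ^ (-1 / 2 : ℝ) : ℝ) : ℂ) := by ring
    _ = _ := by
        rw [← e1]
        ring

theorem lm_kH (s : ℤ) (hM : Tendsto M l atTop) {z b : α → ℂ} {z0 b0 : ℂ}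
    (hz : Tendsto z l (𝓝 z0)) (hb : Tendsto b l (𝓝 b0)) (h : fdom (z0 + b0))
    (hre : |(z0 + b0).re| < 1) (h1 : |z0.re| < 1 / 2) (h2 : |b0.re| < 1 / 2) : ∃ A : ℂ, A ≠ 0 ∧
    Tendsto (fun x => kH s (M x) (z x) (b x) * exp (-(M x * pH s (z x) (b x))) /
      (((M x : ℝ) ^ (-3 / 2 : ℝ) : ℝ) : ℂ)) l (𝓝 A) := by
  obtain ⟨A, hA, h3⟩ := lm_rS hM (-1) (hz.add hb) h hre
  have hM1 : ∀ᶠ x in l, 1 ≤ M x := hM.eventually (eventually_ge_atTop 1)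
  rw [abs_lt] at h1 h2
  have hw1 := (Pool.Agent.S3.wS_lim (y0 := z0) (by linarith [h1.1]) h1.2).comp (hM.prodMk hz)
  have hw2 := (Pool.Agent.S3.wS_lim (y0 := b0) (by linarith [h2.1]) h2.2).comp (hM.prodMk hb)
  refine ⟨exp (s * Real.pi * I * (z0 + b0)) *
    ((exp (-Pool.Agent.H63.VC3.hh (z0 + 1 / 2) / 2))⁻¹ * (exp (-Pool.Agent.H63.VC3.hh (b0 + 1 / 2) / 2))⁻¹) * A,
    mul_ne_zero (mul_ne_zero (exp_ne_zero _) (mul_ne_zero (inv_ne_zero (exp_ne_zero _))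
      (inv_ne_zero (exp_ne_zero _)))) hA, ?_⟩
  have h4 : Tendsto (fun x => exp (s * Real.pi * I * (z x + b x))) l
      (𝓝 (exp (s * Real.pi * I * (z0 + b0)))) :=
    (continuous_exp.tendsto _).comp ((hz.add hb).const_mul (s * Real.pi * I : ℂ))
  have h5 := (h4.mul ((hw1.inv₀ (exp_ne_zero _)).mul (hw2.inv₀ (exp_ne_zero _)))).mul h3
  refine h5.congr' ?_
  filter_upwards [hM1] with x hx
  simp only [Function.comp_apply]
  have hs := LmA_sne hx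
  have e0 : (M x : ℂ) * (z x + b x) + -1 = M x * (z x + b x) - 1 := by ring
  have e1 : exp (-(s * Real.pi * I * (M x * (z x + 1 / 2) * (b x + 1 / 2) - z x - b x))) *
      exp (-(M x * pH s (z x) (b x))) =
      exp (s * Real.pi * I * (z x + b x)) * exp (M x * ff (z x + 1 / 2)) *
        exp (M x * ff (b x + 1 / 2)) * exp (-(M x * -fe (z x + b x))) := by
    rw [← exp_add, ← exp_add, ← exp_add, ← exp_add]
    congr 1
    unfold pH qH
    ring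
  have hL1 : exp (-LL (M x) (M x * (z x + 1 / 2) - 1)) =
      (Pool.Agent.S3.wS (M x) (z x) * (√(M x : ℝ) : ℝ) * exp (M x * ff (z x + 1 / 2)))⁻¹ := by
    rw [exp_neg, Pool.Agent.S3.exp_LL_wS hx]
  have hL2 : exp (-LL (M x) (M x * (b x + 1 / 2) - 1)) =
      (Pool.Agent.S3.wS (M x) (b x) * (√(M x : ℝ) : ℝ) * exp (M x * ff (b x + 1 / 2)))⁻¹ := by
    rw [exp_neg, Pool.Agent.S3.exp_LL_wS hx]
  have hn1 : Pool.Agent.S3.wS (M x) (z x) ≠ 0 := div_ne_zero (exp_ne_zero _) hs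
  have hn2 : Pool.Agent.S3.wS (M x) (b x) ≠ 0 := div_ne_zero (exp_ne_zero _) hs
  unfold kH
  rw [e0, hL1, hL2, LmA_half hx, LmA_m32]
  have g1 := exp_ne_zero (M x * ff (z x + 1 / 2))
  have g2 := exp_ne_zero (M x * ff (b x + 1 / 2))
  generalize rS (M x) (M x * (z x + b x) - 1) = R at *
  generalize Pool.Agent.S3.wS (M x) (z x) = w1 at *
  generalize Pool.Agent.S3.wS (M x) (b x) = w2 at *
  generalize exp (M x * ff (z x + 1 / 2)) = E1 at *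
  generalize exp (M x * ff (b x + 1 / 2)) = E2 at *
  generalize exp (s * Real.pi * I * (z x + b x)) = E3 at *
  generalize exp (-(M x * -fe (z x + b x))) = E4 at *
  generalize exp (-(s * Real.pi * I * (M x * (z x + 1 / 2) * (b x + 1 / 2) - z x - b x))) = E5 at *
  generalize exp (-(M x * pH s (z x) (b x))) = E6 at *
  generalize ((√(M x : ℝ) : ℝ) : ℂ) = q at *
  have e2 : E5 * ((w1 * q * E1)⁻¹ * (w2 * q * E2)⁻¹) * R * E6 / (q ^ 3)⁻¹ =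
      (E5 * E6) * ((w1 * q * E1)⁻¹ * (w2 * q * E2)⁻¹) * R / (q ^ 3)⁻¹ := by ring
  rw [e2, e1]
  exact LmA_a1 g1 g2 hs

/-- The nodes with integration variables. The slots may be the dummy `1 / 2`. -/
theorem lm_kV (r : ℝ) (hM : Tendsto M l atTop) {v a b : α → ℂ} {v0 a0 b0 : ℂ}
    (hv : Tendsto v l (𝓝 v0)) (ha : Tendsto a l (𝓝 a0)) (hb : Tendsto b l (𝓝 b0))
    (h0 : 0 < v0.im) (h1 : |v0.re| < 1 / 2)
    (hd : ∀ c ∈ ({a0, b0} : Set ℂ), fdom (c - v0) ∧ |(c - v0).re| < 1 ∧ fdom (c + v0) ∧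
      |(c + v0).re| < 1) : ∃ A : ℂ, A ≠ 0 ∧
    Tendsto (fun x => (-1) ^ (M x + 1) * kV r (M x) (v x) (a x) (b x) *
      exp (-(M x * pV r (v x) (a x) (b x))) / (((M x : ℝ) ^ (-2 : ℝ) : ℝ) : ℂ)) l (𝓝 A) := by
  have hM1 : ∀ᶠ x in l, 1 ≤ M x := hM.eventually (eventually_ge_atTop 1)
  obtain ⟨d1, d2, d3, d4⟩ := hd a0 (by simp)
  obtain ⟨d5, d6, d7, d8⟩ := hd b0 (by simp)
  obtain ⟨A1, hA1, g1⟩ := lm_rS hM (-1 / 2) (ha.sub hv) d1 d2
  obtain ⟨A2, hA2, g2⟩ := lm_rS hM (-1 / 2) (ha.add hv) d3 d4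
  obtain ⟨A3, hA3, g3⟩ := lm_rS hM (-1 / 2) (hb.sub hv) d5 d6
  obtain ⟨A4, hA4, g4⟩ := lm_rS hM (-1 / 2) (hb.add hv) d7 d8
  have g5 := Pool.Agent.S3.om_lim hM hv h0
  have hsin : sin (2 * Real.pi * v0) ≠ 0 := by
    rw [sin_ne_zero_iff]
    intro k hk
    have h3 := congrArg Complex.im hk
    have e1 : (2 * Real.pi * v0 : ℂ).im = 2 * Real.pi * v0.im := by
      have : (2 * Real.pi * v0 : ℂ) = ((2 * Real.pi : ℝ) : ℂ) * v0 := by push_cast; ring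
      rw [this, im_ofReal_mul]
    have e2 : ((k : ℂ) * Real.pi).im = 0 := by
      have : ((k : ℂ) * Real.pi) = ((k * Real.pi : ℝ) : ℂ) := by push_cast; ring
      rw [this, ofReal_im]
    rw [e1, e2] at h3
    have : 0 < 2 * Real.pi * v0.im := by
      have := Real.pi_pos
      positivity
    linarith
  have g6 : Tendsto (fun x => 2 * sin (2 * Real.pi * v x)) l (𝓝 (2 * sin (2 * Real.pi * v0))) :=
    ((continuous_sin.tendsto _).comp (hv.const_mul (2 * Real.pi : ℂ))).const_mul 2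
  refine ⟨2 * sin (2 * Real.pi * v0) * 1 * (A1 * A2 * (A3 * A4)),
    mul_ne_zero (mul_ne_zero (mul_ne_zero two_ne_zero hsin) one_ne_zero)
      (mul_ne_zero (mul_ne_zero hA1 hA2) (mul_ne_zero hA3 hA4)), ?_⟩
  have h5 := (g6.mul g5).mul ((g1.mul g2).mul (g3.mul g4))
  refine h5.congr' ?_
  filter_upwards [hM1] with x hx
  have hs := LmA_sne hx
  have e1 : exp (2 * Real.pi * I * r * M x * v x ^ 2) * exp (-(M x * pV r (v x) (a x) (b x))) =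
      exp (-(2 * Real.pi * I * M x * v x)) * (exp (-(M x * -fe (a x - v x))) *
        exp (-(M x * -fe (a x + v x))) * (exp (-(M x * -fe (b x - v x))) *
          exp (-(M x * -fe (b x + v x))))) := by
    rw [← exp_add, ← exp_add, ← exp_add, ← exp_add, ← exp_add]
    congr 1
    unfold pV wr
    ring
  unfold kV qS
  have c1 : ∀ t : ℂ, (M x : ℂ) * t + -1 / 2 = M x * t - 1 / 2 := fun t => by ring
  rw [c1, c1, c1, c1, LmA_half hx, LmA_mtwo]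
  generalize rS (M x) (M x * (a x - v x) - 1 / 2) = R1 at *
  generalize rS (M x) (M x * (a x + v x) - 1 / 2) = R2 at *
  generalize rS (M x) (M x * (b x - v x) - 1 / 2) = R3 at *
  generalize rS (M x) (M x * (b x + v x) - 1 / 2) = R4 at *
  generalize exp (-(M x * -fe (a x - v x))) = E1 at *
  generalize exp (-(M x * -fe (a x + v x))) = E2 at *
  generalize exp (-(M x * -fe (b x - v x))) = E3 at *
  generalize exp (-(M x * -fe (b x + v x))) = E4 at *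
  generalize exp (2 * Real.pi * I * r * M x * v x ^ 2) = E5 at *
  generalize exp (-(M x * pV r (v x) (a x) (b x))) = E6 at *
  generalize exp (-(2 * Real.pi * I * M x * v x)) = E7 at *
  generalize ((√(M x : ℝ) : ℝ) : ℂ) = q at *
  generalize om 2 (M x) (v x) = O at *
  generalize sin (2 * Real.pi * v x) = S at *
  generalize ((-1 : ℂ)) ^ (M x + 1) = N at *
  have e2 : N * (E5 * (2 * S) * O * (R1 * R2 * (R3 * R4))) * E6 / (q ^ 4)⁻¹ =
      (E5 * E6) * N * (2 * S) * O * (R1 * R2 * (R3 * R4)) / (q ^ 4)⁻¹ := by ring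
  rw [e2, e1]
  exact LmA_a2

end Pool.Agent.S5
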