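import Pool.Agent.S5.S.LowI

/-!
# Small indices

PLAN. `notSep`: some node has two edges in `S`; all terms vanish (`g_two`, `z_cl`, `z_zn`; the
indices of both edges are less than `kq M`). `low`: expand the factors of the nodes `vn`
(`g_lat` at the nodes with `Tch P.S i`, `g_vn` with the contour `tab ν x1 ε` at the other nodes; `g_cl`
at the closed nodes), exchange the sums and the integrals (`integral_fintype_prod_volume_eq_prod`,
`Integrable.fintype_prod`, see S5/S/HighA.lean). The following indices are fixed (at most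
`M ^ (2 m + 1)` values): of the edges in `P.S` and of the forced edges (`Prt C P j`), of the nodes
`zn` with `Tch P.S i` or `P.H i ≠ 0`, of the lattice points at the nodes `vn` with `Tch P.S i`; for
fixed values and a fixed point of the contours the sum over the other indices is bounded by
`multiI_le` (`k0 = kq M`, `k1 = M`, `d = K.d` at the edges; `kz0`, `kz1`, `K.dz i` at the nodes `zn`).
The terms vanish unless the conditions of `AdmC` hold up to `O(1/M)` (`z_cl`, `z_zn`, `lat_bd`), and then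
they are bounded by `exp (M (C.G + weights))`, with `Inq.lowU` (`ε` there also bounds the shifts of
size `1/M`: `al M (kq M)` is next to `-1/4`, `br M` next to `1/2`, `al M (kz0 M z1)` next to `-z1`,
`al M (kz1 M z1)` next to `z1`; the contours `tab` are at distance `ε` of `LimV`).
The weights of the integrals are the norms of `tab'`.
-/

set_option autoImplicit false

namespace Pool.Agent.S5

open Complex Filter Topology MeasureTheory

variable {m : ℕ} {C : Ch m} {K : Cn m} {e0 : ℝ}

/-- Adjacent edges with small indices. -/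
theorem Krn.notSep (hC : C.OK) (Q : Krn C) (hQ : Q.OK) {S : Finset (Fin m)} (hS : ¬ Sep S) :
    ∀ᶠ M : ℕ in atTop, Q.JR M (Q.RS M S) = 0 := by
  unfold Sep at hS
  push Not at hS
  obtain ⟨j, hj, j', hj', i, hji, hji', hne⟩ := hS
  -- the slots of the node
  have hslots : ∀ (M : ℕ) (κ : Fin m → ℕ), (ke M κ i = κ j ∧ ke M κ (i + 1) = κ j') ∨
      (ke M κ i = κ j' ∧ ke M κ (i + 1) = κ j) := by
    intro M κ
    have hv : (j : ℕ) ≠ j' := fun h => hne (Fin.ext h)
    rcases at_iff.1 hji with h1 | h1 <;> rcases at_iff.1 hji' with h2 | h2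
    · omega
    · exact Or.inl ⟨ke_edge _ _ h1, ke_edge _ _ h2⟩
    · exact Or.inr ⟨ke_edge _ _ h2, ke_edge _ _ h1⟩
    · omega
  have hg2 : ∀ᶠ M : ℕ in atTop, C.ty i = Ty.vn → ∀ k k' : ℕ, Q.h0 ≤ k → Q.h0 ≤ k' →
      k < kq M → k' < kq M → Q.g i M k k' = 0 := ev_imp fun h => hQ.g_two i h
  have hgc := ev_imp fun h => hQ.g_cl i h
  have hgz := ev_imp fun h => hQ.g_zn i h
  filter_upwards [hg2, hgc, hgz, eventually_ge_atTop (8 * Q.sh + 4 * Q.h0 + 16)] with M hg2 hgc hgz hM
  have hkq : 4 * kq M ≤ M + 4 := by unfold kq; omega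
  have hzero : ∀ k k' : ℕ, Q.h0 ≤ k → Q.h0 ≤ k' → k < kq M → k' < kq M → Q.g i M k k' = 0 := by
    intro k k' h1 h2 h3 h4
    rcases hty : C.ty i with _ | _ | _
    · rw [hgc hty k k' h1 h2 (by omega) (by omega)]
      exact hQ.z_cl i hty M k k' (by omega) (by omega) (by omega) 0
    · rw [hgz hty k k' h1 h2 (by omega) (by omega)]
      refine Finset.sum_eq_zero fun l hl => ?_
      have hlM := (Finset.mem_Ico.1 hl).2
      by_cases hfl : C.fl i = true
      · by_cases h5 : k' + Q.sh < l
        · have h6 := (hQ.z_zn i hty M l k' hlM (by omega) (yM M k)).1 h5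
          simpa only [if_pos hfl] using h6
        · have h6 := (hQ.z_zn i hty M l k hlM (by omega) (yM M k')).2 (by omega)
          simpa only [if_pos hfl] using h6
      · by_cases h5 : k + Q.sh < l
        · have h6 := (hQ.z_zn i hty M l k hlM (by omega) (yM M k')).1 h5
          simpa only [if_neg hfl] using h6
        · have h6 := (hQ.z_zn i hty M l k' hlM (by omega) (yM M k)).2 (by omega)
          simpa only [if_neg hfl] using h6
    · exact hg2 hty k k' h1 h2 h3 h4
  unfold Krn.JR
  refine Finset.sum_eq_zero fun κ hκ => ?_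
  rw [Fintype.mem_piFinset] at hκ
  have hb : ∀ j ∈ S, Q.h0 ≤ κ j ∧ κ j < kq M := by
    intro j hj
    have h2 := hκ j
    unfold Krn.RS at h2
    rw [if_pos hj, Finset.mem_Ico] at h2
    exact h2
  have h1 : Q.g i M (ke M κ i) (ke M κ (i + 1)) = 0 := by
    rcases hslots M κ with ⟨e1, e2⟩ | ⟨e1, e2⟩
    · rw [e1, e2]
      exact hzero _ _ (hb j hj).1 (hb j' hj').1 (hb j hj).2 (hb j' hj').2
    · rw [e1, e2]
      exact hzero _ _ (hb j' hj').1 (hb j hj).1 (hb j' hj').2 (hb j hj).2
  rw [Finset.prod_eq_zero (Finset.mem_univ i) h1, mul_zero]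

/-- The other patterns. -/
theorem Krn.low (hC : C.OK) (hK : Cn.OK C K) (hI : Inq C K e0) (Q : Krn C) (hQ : Q.OK)
    {P : Pat m} (hP : P.OK C) (hS : P.S.Nonempty ∨ ∃ i, P.H i ≠ 0) :
    ∃ δ : ℝ, 0 < δ ∧ ∃ A : ℝ, 0 < A ∧ ∃ p : ℕ,
    ∀ᶠ M : ℕ in atTop, ‖Q.JP K P M‖ ≤ A * (M : ℝ) ^ p * Real.exp (M * (e0 - δ)) := by
  classical
  obtain ⟨ε, hε, hfree⟩ := Krn.free_le hK hI Q hQ hP hS
  -- the height of the contours near the real axis
  obtain ⟨ε1, hε1, hε1ε, hε1v⟩ : ∃ ε1 : ℝ, 0 < ε1 ∧ ε1 ≤ ε ∧ ∀ i, C.ty i = Ty.vn → ε1 < (K.oc i).im := by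
    have h1 : ∀ i : Fin (m + 1), ∃ t : ℝ, 0 < t ∧ (C.ty i = Ty.vn → t < (K.oc i).im) := by
      intro i
      by_cases h : C.ty i = Ty.vn
      · have := hK.v0 i h
        exact ⟨(K.oc i).im / 2, by linarith, fun _ => by linarith⟩
      · exact ⟨1, one_pos, fun h' => absurd h' h⟩
    choose t ht1 ht2 using h1
    obtain ⟨i0, hi0⟩ := Finite.exists_min t
    refine ⟨min ε (t i0), lt_min hε (ht1 i0), min_le_left _ _, fun i hi => ?_⟩
    exact (min_le_right _ _).trans_lt ((hi0 i).trans_lt (ht2 i hi))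
  set B : ℝ := ∑ i, |(K.oc i).im| with hB
  obtain ⟨δ, hδ, A, hA, q, hle⟩ := hfree ε1 B hε1
  set W : ℝ := ∏ i, ∫ x, ‖gam' C K P ε1 i x‖ with hW
  have hW0 : 0 ≤ W := Finset.prod_nonneg fun i _ => integral_nonneg fun x => norm_nonneg _
  have hωi : ∀ i, Integrable (gam' C K P ε1 i) := by
    intro i
    by_cases h : C.ty i = Ty.vn ∧ ¬ Tch P.S i
    · have e : gam' C K P ε1 i = tab' (K.oc i).im (K.x1 i) ε1 := by
        funext x
        unfold gam'
        rw [if_pos h]
      rw [e]
      exact (tab_ctr hε1 (hε1v i h.1) (hK.x0 i h.1) (hK.x1 i h.1)).int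
    · have e : gam' C K P ε1 i = fun x => (Set.Ico (0 : ℝ) 1).indicator (fun _ => (1 : ℂ)) x := by
        funext x
        unfold gam'
        rw [if_neg h]
      rw [e]
      exact ind_int
  refine ⟨δ, hδ, (‖Q.cv‖ + 1) ^ (m + 1) * (A * (W + 1)), by positivity,
    2 * (m + 1) + ((m + 1) + (Fintype.card C.Ix + q)), ?_⟩
  filter_upwards [hle, Krn.node_exp (Q := Q) (P := P) hK hQ hε1 hε1v, hK.rng Q.h0 (D := ∑ a, LowDd C K a)
    (fun a => Finset.single_le_sum (fun a _ => (hK.Dd_pos a).le) (Finset.mem_univ a))] with M hle hexp hR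
  have hM4 := hR.M4
  have hM' : 0 < M := by omega
  have hM0 : (0 : ℝ) < M := by exact_mod_cast hM'
  have hM1 : (1 : ℝ) ≤ M := by exact_mod_cast hM'
  rw [Krn.JP_eq, Finset.sum_congr rfl fun κ hκ =>
    Krn.term_exp (P := P) (hexp κ (fun a => (Fintype.mem_piFinset.1 hκ) a)), ← Finset.mul_sum,
    Finset.sum_comm, norm_mul]
  -- the constants
  have hΦ : ‖∏ i, Q.ph P M i‖ ≤ ((‖Q.cv‖ + 1) * (M : ℝ) ^ 2) ^ (m + 1) := by
    rw [norm_prod]
    refine (prod_le_pow (c := (‖Q.cv‖ + 1) * (M : ℝ) ^ 2) (fun i => norm_nonneg _) fun i => ?_).trans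
      (le_of_eq ?_)
    · unfold Krn.ph
      have h1 : (1 : ℝ) ≤ (M : ℝ) ^ 2 := one_le_pow₀ hM1
      split_ifs
      · rw [norm_mul, norm_pow, Complex.norm_natCast]
        have := norm_nonneg Q.cv
        nlinarith
      · rw [norm_one]
        have := norm_nonneg Q.cv
        nlinarith
    · rw [Fintype.card_fin]
  -- the integrals
  have hint : ∀ X ∈ Fintype.piFinset (RX C P M), ‖∑ κ ∈ Fintype.piFinset (Q.RG K P M),
      ∫ x : Fin (m + 1) → ℝ, Q.Tl P.S M (fun j => κ (Sum.inl j)) X (fun i => gam C K P ε1 i (x i))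
        (fun a => yM M (κ a)) * ∏ i, gam' C K P ε1 i (x i)‖ ≤
      (M : ℝ) ^ Fintype.card C.Ix * (A * (M : ℝ) ^ q * Real.exp (M * (e0 - δ)) * (W + 1)) := by
    intro X hX
    have hXM : ∀ i, X i < M := by
      intro i
      have h1 := (Fintype.mem_piFinset.1 hX) i
      unfold RX at h1
      split_ifs at h1
      · exact Finset.mem_range.1 h1
      · rw [Finset.mem_singleton] at h1
        omega
    have h1 := bd_split (I := Fin (m + 1)) (Fr C P) (Q.RG K P M)
      (fun κ x => Q.Tl P.S M (fun j => κ (Sum.inl j)) X (fun i => gam C K P ε1 i (x i))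
        (fun a => yM M (κ a))) (gam' C K P ε1) (A * (M : ℝ) ^ q * Real.exp (M * (e0 - δ))) hωi
      (fun κ hκ => Krn.term_int (fun i X => (hexp κ (fun a => (Fintype.mem_piFinset.1 hκ) a) i).1 X) X) ?_
    · refine h1.trans ?_
      have hcard : ((Fintype.piFinset (fun a => if Fr C P a then {0} else Q.RG K P M a)).card : ℝ) ≤
          (M : ℝ) ^ Fintype.card C.Ix := by
        rw [Fintype.card_piFinset]
        push_cast
        refine prod_le_pow (c := (M : ℝ)) (fun a => by positivity) fun a => ?_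
        · split_ifs with h
          · simpa using hM1
          · have h2 : Q.RG K P M a ⊆ Finset.range M := by
              intro k hk
              rw [Finset.mem_range]
              exact Rng.lt (κ := fun _ => k) hK hR hk
            have h4 := Finset.card_le_card h2
            rw [Finset.card_range] at h4
            exact_mod_cast h4
      refine mul_le_mul hcard ?_ (by positivity) (by positivity)
      exact mul_le_mul_of_nonneg_left (by linarith) (by positivity)
    · intro κ₁ hκ₁ x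
      have hκ₁' : ∀ a, ¬ Fr C P a → κ₁ a ∈ Q.RG K P M a := by
        intro a ha
        have h2 := (Fintype.mem_piFinset.1 hκ₁) a
        rwa [if_neg ha] at h2
      have h2 := hle κ₁ X (fun i => gam C K P ε1 i (x i)) hκ₁' hXM (fun i hi ht => ?_) (fun i hi ht => ?_)
      · refine le_trans (le_of_eq ?_) h2
        congr 1
        have hRGf : (fun a : {a : C.Ix // Fr C P a} => Q.RG K P M a) =
            fun a : {a : C.Ix // Fr C P a} => Finset.Ico (K0 C K M a) (K1 C K M a) := by
          funext ⟨a, ha⟩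
          rcases a with j | i
          · show Q.RS M P.S j = Finset.Ico (kq M) M
            unfold Krn.RS
            rw [if_neg ha.1]
          · show Q.ZS K P M i = Finset.Ico (kz0 M (K.z1 i)) (kz1 M (K.z1 i))
            unfold Krn.ZS
            rw [if_neg ha.1, if_pos ha.2]
        rw [hRGf]
        refine Finset.sum_congr rfl fun κ₂ _ => ?_
        have e1 : (fun a => yM M (if h : Fr C P a then κ₂ ⟨a, h⟩ else κ₁ a)) =
            pz C P M κ₁ (fun a => ((yR M (κ₂ a) : ℝ) : ℂ)) := by
          funext a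
          unfold pz
          split_ifs
          · rw [yM_eq]
          · rfl
        rw [e1]
        refine Krn.Tl_congr (fun j hj => ?_) _ _ _
        exact dif_neg (fun h : Fr C P (Sum.inl j) => h.1 hj)
      · have e : gam C K P ε1 i (x i) = tab (K.oc i).im (K.x1 i) ε1 (x i) := by
          unfold gam
          rw [if_pos ⟨hi, ht⟩]
        rw [e]
        have h3 := tab_bd hε1 (hε1v i hi) (hK.x0 i hi) (hK.x1 i hi) (x i)
        refine ⟨h3.1, h3.2.1.trans ?_, h3.2.2.1, h3.2.2.2⟩
        exact (le_abs_self _).trans (Finset.single_le_sum (f := fun i => |(K.oc i).im|)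
          (fun i _ => abs_nonneg _) (Finset.mem_univ i))
      · have e : gam C K P ε1 i (x i) = tab (K.oc i).im (K.x1 i) ε1 (x i) := by
          unfold gam
          rw [if_pos ⟨hi, ht⟩]
        rw [e]
        rcases tab_near hε1 (hε1v i hi) (hK.x0 i hi) (hK.x1 i hi) (x i) with h3 | ⟨v, h3, -, h4⟩
        · exact ⟨_, h3, by rw [sub_self, norm_zero]; exact hε.le⟩
        · exact ⟨v, h3, h4.trans hε1ε⟩
  have hcX : ((Fintype.piFinset (RX C P M)).card : ℝ) ≤ (M : ℝ) ^ (m + 1) := by
    rw [Fintype.card_piFinset]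
    push_cast
    refine (prod_le_pow (c := (M : ℝ)) (fun i => by positivity) fun i => ?_).trans (le_of_eq ?_)
    · unfold RX
      split_ifs
      · rw [Finset.card_range]
      · simpa using hM1
    · rw [Fintype.card_fin]
  have hsum := (norm_sum_le _ _).trans (Finset.sum_le_card_nsmul _ _ _ hint)
  rw [nsmul_eq_mul] at hsum
  calc _ ≤ ((‖Q.cv‖ + 1) * (M : ℝ) ^ 2) ^ (m + 1) * ((M : ℝ) ^ (m + 1) *
        ((M : ℝ) ^ Fintype.card C.Ix * (A * (M : ℝ) ^ q * Real.exp (M * (e0 - δ)) * (W + 1)))) := by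
        refine mul_le_mul hΦ (hsum.trans ?_) (norm_nonneg _) (by positivity)
        exact mul_le_mul_of_nonneg_right hcX (by positivity)
    _ = _ := by
        rw [mul_pow, ← pow_mul]
        ring

end Pool.Agent.S5
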