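import Pool.Agent.S5.S.High
import Pool.Agent.S5.S.Low

/-!
# Mixed chains, soft part: the asymptotics of the whole sum
-/

set_option autoImplicit false

namespace Pool.Agent.S5

open Complex Filter Topology MeasureTheory

variable {m : ℕ} {C : Ch m} {K : Cn m} {e0 : ℝ}

/-- Negligible parts. -/
theorem ngl {F : ℕ → ℂ} {e : ℝ} {W : ℂ} (hW : W.re = e0)
    (h : ∃ δ : ℝ, 0 < δ ∧ ∃ A : ℝ, 0 < A ∧ ∃ p : ℕ, ∀ᶠ M : ℕ in atTop,
      ‖F M‖ ≤ A * (M : ℝ) ^ p * Real.exp (M * (e0 - δ))) :
    Tendsto (fun M : ℕ => F M / ((((M : ℝ) ^ e : ℝ) : ℂ) * exp (M * W))) atTop (𝓝 0) := by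
  obtain ⟨δ, hδ, A, hA, p, hF⟩ := h
  have t1 : Tendsto (fun M : ℕ => A * ((M : ℝ) ^ ((p : ℝ) - e) * Real.exp (-δ * M))) atTop (𝓝 0) := by
    have := ((tendsto_rpow_mul_exp_neg_mul_atTop_nhds_zero ((p : ℝ) - e) δ hδ).comp
      tendsto_natCast_atTop_atTop).const_mul A
    rw [mul_zero] at this
    exact this
  refine squeeze_zero_norm' ?_ t1
  filter_upwards [hF, eventually_gt_atTop 0] with M hM hM0
  have hM1 : (0 : ℝ) < M := by exact_mod_cast hM0
  have e1 : (((M : ℕ) : ℂ) * W).re = M * e0 := by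
    rw [← ofReal_natCast, re_ofReal_mul, hW]
  have hr := Real.rpow_pos_of_pos hM1 e
  have hE := Real.exp_pos ((M : ℝ) * e0)
  rw [norm_div, norm_mul, norm_real, Real.norm_eq_abs, abs_of_pos hr, norm_exp, e1,
    div_le_iff₀ (mul_pos hr hE)]
  refine hM.trans (le_of_eq ?_)
  rw [Real.rpow_sub hM1, Real.rpow_natCast, mul_sub, Real.exp_sub, show -δ * (M : ℝ) = -((M : ℝ) * δ) by ring,
    Real.exp_neg]
  field_simp

theorem Wt_pc : C.Wt (K.pc C) = C.W K.oc K.yc := by
  unfold Ch.Wt Ch.W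
  congr 1
  refine Finset.sum_congr rfl fun i _ => ?_
  by_cases h : C.ty i = Ty.cl
  · rw [h]
    rfl
  · congr 1
    unfold Ch.ow
    by_cases h1 : C.ty i = Ty.vn
    · rw [dif_pos h1]
      rfl
    · have h2 : C.ty i = Ty.zn := by
        revert h h1
        cases C.ty i <;> simp
      rw [dif_neg h1, dif_pos h2]
      rfl

/-! ### The decomposition -/

/-- The small indices. -/
theorem Krn.J_S (Q : Krn C) {M : ℕ} (h1 : Q.h0 ≤ kq M) (h2 : kq M ≤ M) :
    Q.J M = ∑ S : Finset (Fin m), Q.JR M (Q.RS M S) := by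
  unfold Krn.J Krn.JR
  rw [← Finset.sum_fiberwise _ (fun κ : Fin m → ℕ => Finset.univ.filter fun j => κ j < kq M)]
  refine Finset.sum_congr rfl fun S _ => ?_
  refine Finset.sum_congr ?_ fun _ _ => rfl
  ext κ
  rw [Finset.mem_filter, Fintype.mem_piFinset, Fintype.mem_piFinset]
  constructor
  · rintro ⟨h, rfl⟩ j
    have h3 := Finset.mem_Ico.1 (h j)
    unfold Krn.RS
    by_cases h4 : κ j < kq M
    · rw [if_pos (by simpa using h4)]
      exact Finset.mem_Ico.2 ⟨h3.1, h4⟩
    · rw [if_neg (by simpa using h4)]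
      exact Finset.mem_Ico.2 ⟨not_lt.1 h4, h3.2⟩
  · intro h
    refine ⟨fun j => ?_, ?_⟩
    · have h3 := h j
      unfold Krn.RS at h3
      split_ifs at h3
      · have h4 := Finset.mem_Ico.1 h3
        exact Finset.mem_Ico.2 ⟨h4.1, lt_of_lt_of_le h4.2 h2⟩
      · have h4 := Finset.mem_Ico.1 h3
        exact Finset.mem_Ico.2 ⟨h1.trans h4.1, h4.2⟩
    · ext j
      have h3 := h j
      unfold Krn.RS at h3
      rw [Finset.mem_filter]
      split_ifs at h3 with h5
      · have h4 := Finset.mem_Ico.1 h3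
        simp [h4.2, h5]
      · have h4 := Finset.mem_Ico.1 h3
        simp [h4.1, h5]

open Classical in
/-- The pattern of `S` and the signs of the nodes `zn`. -/
noncomputable def pat (C : Ch m) (S : Finset (Fin m)) (H : C.Zn → SignType) : Pat m :=
  ⟨S, fun i => if h : C.ty i = Ty.zn ∧ ¬ Tch S i then H ⟨i, h.1⟩ else 0⟩

theorem pat_ok {S : Finset (Fin m)} (hS : Sep S) (H : C.Zn → SignType) : (pat C S H).OK C := by
  classical
  refine ⟨hS, fun i hi => ?_⟩
  unfold pat at hi ⊢
  by_contra hc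
  exact hi (dif_neg hc)

open Classical in
/-- The sign of an index of a node `zn`. -/
noncomputable def sgl (C : Ch m) (K : Cn m) (S : Finset (Fin m)) (M : ℕ) (l : C.Zn → ℕ) (i : C.Zn) : SignType :=
  if Tch S (i : Fin (m + 1)) then 0 else if l i < kz0 M (K.z1 i) then -1 else if l i < kz1 M (K.z1 i) then 0 else 1

/-- The signs are those of a pattern. -/
def Adh (C : Ch m) (S : Finset (Fin m)) (H : C.Zn → SignType) : Prop :=
  ∀ i : C.Zn, Tch S (i : Fin (m + 1)) → H i = 0

open Classical in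
/-- The signs of the nodes. -/
theorem Krn.JR_H (Q : Krn C) {M : ℕ} (hE : Q.EX M) (hM : Q.h0 < M) (h1 : Q.h0 ≤ kq M) (h2 : kq M ≤ M)
    (h3 : ∀ i : C.Zn, Q.h0 ≤ kz0 M (K.z1 i) ∧ kz0 M (K.z1 i) ≤ kz1 M (K.z1 i) ∧ kz1 M (K.z1 i) ≤ M)
    (S : Finset (Fin m)) :
    Q.JR M (Q.RS M S) = ∑ H : C.Zn → SignType, if Adh C S H then Q.JP K (pat C S H) M else 0 := by
  have e1 : Q.JR M (Q.RS M S) = ∑ k ∈ Fintype.piFinset (Q.RS M S),
      ∑ l ∈ Fintype.piFinset (fun _ : C.Zn => Finset.Ico Q.h0 M),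
        (∏ j, Q.w j M (yM M (k j))) * ∏ i, Q.hn M (Sum.elim k l) i := by
    unfold Krn.JR
    refine Finset.sum_congr rfl fun k hk => ?_
    rw [← Finset.mul_sum, Krn.sum_hn Q hE (by omega) k _ hM]
    intro j
    have h4 := (Fintype.mem_piFinset.1 hk) j
    unfold Krn.RS at h4
    split_ifs at h4
    · have h5 := Finset.mem_Ico.1 h4
      exact ⟨h5.1, lt_of_lt_of_le h5.2 h2⟩
    · have h5 := Finset.mem_Ico.1 h4
      exact ⟨h1.trans h5.1, h5.2⟩
  rw [e1]
  have e2 : ∀ k : Fin m → ℕ, ∑ l ∈ Fintype.piFinset (fun _ : C.Zn => Finset.Ico Q.h0 M),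
      (∏ j, Q.w j M (yM M (k j))) * ∏ i, Q.hn M (Sum.elim k l) i =
      ∑ H : C.Zn → SignType, if Adh C S H then
        ∑ l ∈ Fintype.piFinset (fun i : C.Zn => Q.ZS K (pat C S H) M i),
          (∏ j, Q.w j M (yM M (k j))) * ∏ i, Q.hn M (Sum.elim k l) i else 0 := by
    intro k
    rw [← Finset.sum_fiberwise _ (fun l : C.Zn → ℕ => sgl C K S M l)]
    refine Finset.sum_congr rfl fun H _ => ?_
    by_cases hH : Adh C S H
    · rw [if_pos hH]
      refine Finset.sum_congr ?_ fun _ _ => rfl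
      ext l
      rw [Finset.mem_filter, Fintype.mem_piFinset, Fintype.mem_piFinset, funext_iff, ← forall_and]
      refine forall_congr' fun i => ?_
      obtain ⟨h4, h5, h6⟩ := h3 i
      have hp : (pat C S H).S = S := rfl
      unfold Krn.ZS sgl
      rw [hp]
      by_cases ht : Tch S (i : Fin (m + 1))
      · rw [if_pos ht, if_pos ht, hH i ht]
        simp
      · have hHi : (pat C S H).H i = H i :=
          dif_pos (⟨i.2, ht⟩ : C.ty i = Ty.zn ∧ ¬ Tch S (i : Fin (m + 1)))
        rw [if_neg ht, if_neg ht, hHi]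
        rcases lt_or_ge (l i) (kz0 M (K.z1 i)) with h7 | h7
        · rw [if_pos h7]
          constructor
          · rintro ⟨h8, h9⟩
            rw [← h9, if_neg (by decide), if_neg (by decide)]
            exact Finset.mem_Ico.2 ⟨(Finset.mem_Ico.1 h8).1, h7⟩
          · intro h8
            split_ifs at h8 with h9 h10
            · exact absurd (Finset.mem_Ico.1 h8).1 (not_le.2 h7)
            · exact absurd (Finset.mem_Ico.1 h8).1 (not_le.2 (lt_of_lt_of_le h7 h5))
            · refine ⟨Finset.mem_Ico.2 ⟨(Finset.mem_Ico.1 h8).1, by omega⟩, ?_⟩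
              revert h9 h10
              generalize H i = s
              revert s
              decide
        · rw [if_neg (not_lt.2 h7)]
          rcases lt_or_ge (l i) (kz1 M (K.z1 i)) with h8 | h8
          · rw [if_pos h8]
            constructor
            · rintro ⟨h9, h10⟩
              rw [← h10, if_pos rfl]
              exact Finset.mem_Ico.2 ⟨h7, h8⟩
            · intro h9
              split_ifs at h9 with h10 h11
              · exact ⟨Finset.mem_Ico.2 ⟨by omega, by omega⟩, h10.symm⟩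
              · exact absurd (Finset.mem_Ico.1 h9).1 (not_le.2 h8)
              · exact absurd (Finset.mem_Ico.1 h9).2 (not_lt.2 h7)
          · rw [if_neg (not_lt.2 h8)]
            constructor
            · rintro ⟨h9, h10⟩
              rw [← h10, if_neg (by decide), if_pos rfl]
              exact Finset.mem_Ico.2 ⟨h8, (Finset.mem_Ico.1 h9).2⟩
            · intro h9
              split_ifs at h9 with h10 h11
              · exact absurd (Finset.mem_Ico.1 h9).2 (not_lt.2 h8)
              · exact ⟨Finset.mem_Ico.2 ⟨by omega, (Finset.mem_Ico.1 h9).2⟩, h11.symm⟩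
              · exact absurd (Finset.mem_Ico.1 h9).2 (not_lt.2 h7)
    · rw [if_neg hH]
      refine Finset.sum_eq_zero fun l hl => ?_
      exfalso
      rw [Finset.mem_filter] at hl
      apply hH
      intro i hi
      rw [← hl.2]
      unfold sgl
      rw [if_pos hi]
  simp only [e2]
  rw [Finset.sum_comm]
  refine Finset.sum_congr rfl fun H _ => ?_
  by_cases hH : Adh C S H
  · simp only [if_pos hH]
    rfl
  · simp only [if_neg hH]
    exact Finset.sum_const_zero

theorem pat_zero : pat C ∅ (fun _ => 0) = Pat.zero := by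
  unfold pat Pat.zero
  congr 1
  funext i
  split_ifs <;> rfl

/-- **The asymptotics of the sum over a mixed chain.** -/
theorem Krn.fin (hC : C.OK) (hK : Cn.OK C K) (hI : Inq C K e0) (hR : Rg C K) (hcr : Crt C K)
    (Q : Krn C) (hQ : Q.OK) (hL : Q.Lm K) : ∃ κ : ℂ, κ ≠ 0 ∧ Tendsto (fun M : ℕ =>
      (∏ i, Q.sg i M) * Q.J M /
        ((((M : ℝ) ^ Q.eJ : ℝ) : ℂ) * exp (M * C.W K.oc K.yc))) atTop (𝓝 κ) := by
  classical
  have hW0 : (C.W K.oc K.yc).re = e0 := by
    rw [← Wt_pc]
    exact Wt_val hC hK hR hI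
  obtain ⟨κ, hκ, hh⟩ := Krn.high hC hK hI hR hcr Q hQ hL
  rw [Wt_pc] at hh
  refine ⟨κ, hκ, ?_⟩
  have hsg : ∀ M, ‖∏ i, Q.sg i M‖ = 1 := by
    intro M
    rw [norm_prod]
    exact Finset.prod_eq_one fun i _ => hQ.sg i M
  have low : ∀ P : Pat m, P.OK C → (P.S.Nonempty ∨ ∃ i, P.H i ≠ 0) → Tendsto (fun M : ℕ =>
      (∏ i, Q.sg i M) * Q.JP K P M / ((((M : ℝ) ^ Q.eJ : ℝ) : ℂ) * exp (M * C.W K.oc K.yc)))
      atTop (𝓝 0) := by
    intro P hP hS
    obtain ⟨δ, hδ, A, hA, p, h⟩ := Krn.low hC hK hI Q hQ hP hS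
    exact ngl hW0 ⟨δ, hδ, A, hA, p, h.mono fun M hM => by
      rw [norm_mul, hsg, one_mul]
      exact hM⟩
  have hev : ∀ᶠ M : ℕ in atTop, Q.EX M ∧ Q.h0 < M ∧ Q.h0 ≤ kq M ∧ kq M ≤ M ∧
      ∀ i : C.Zn, Q.h0 ≤ kz0 M (K.z1 i) ∧ kz0 M (K.z1 i) ≤ kz1 M (K.z1 i) ∧ kz1 M (K.z1 i) ≤ M := by
    filter_upwards [hQ.ex, eventually_gt_atTop Q.h0, ev_kq Q.h0, ix_ev hK Q.h0] with M h1 h2 h3 h4
    refine ⟨h1, h2, h3.1, by omega, fun i => ⟨(h4 (Sum.inr i)).h0, ?_, (h4 (Sum.inr i)).k1⟩⟩
    exact le_trans (Nat.le_add_right _ 2) (h4 (Sum.inr i)).k0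
  have key : ∀ S : Finset (Fin m), Tendsto (fun M : ℕ => (∏ i, Q.sg i M) * Q.JR M (Q.RS M S) /
      ((((M : ℝ) ^ Q.eJ : ℝ) : ℂ) * exp (M * C.W K.oc K.yc))) atTop (𝓝 (if S = ∅ then κ else 0)) := by
    intro S
    by_cases hS : Sep S
    · have hlim : Tendsto (fun M : ℕ => ∑ H : C.Zn → SignType, if Adh C S H then
          (∏ i, Q.sg i M) * Q.JP K (pat C S H) M /
            ((((M : ℝ) ^ Q.eJ : ℝ) : ℂ) * exp (M * C.W K.oc K.yc)) else 0) atTop
          (𝓝 (∑ H : C.Zn → SignType, if H = fun _ => 0 then (if S = ∅ then κ else 0) else 0)) := by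
        refine tendsto_finset_sum _ fun H _ => ?_
        by_cases hA : Adh C S H
        · simp only [if_pos hA]
          by_cases h1 : H = (fun _ => 0) ∧ S = ∅
          · obtain ⟨h1, h2⟩ := h1
            rw [if_pos h1, if_pos h2, h1, h2, pat_zero]
            exact hh
          · have h2 : (if H = fun _ => 0 then (if S = ∅ then κ else 0) else 0) = (0 : ℂ) := by
              split_ifs with h3 h4
              · exact absurd ⟨h3, h4⟩ h1
              · rfl
              · rfl
            rw [h2]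
            refine low _ (pat_ok hS H) ?_
            by_cases h3 : S = ∅
            · right
              have h4 : H ≠ fun _ => 0 := fun h => h1 ⟨h, h3⟩
              obtain ⟨i, hi⟩ := Function.ne_iff.1 h4
              refine ⟨i, ?_⟩
              have ht : ¬ Tch S (i : Fin (m + 1)) := fun h => hi (hA i h)
              have h5 : (pat C S H).H i = H i :=
                dif_pos (⟨i.2, ht⟩ : C.ty i = Ty.zn ∧ ¬ Tch S (i : Fin (m + 1)))
              rw [h5]
              exact hi
            · exact Or.inl (Finset.nonempty_iff_ne_empty.2 h3)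
        · simp only [if_neg hA]
          have h2 : (if H = fun _ => 0 then (if S = ∅ then κ else 0) else 0) = (0 : ℂ) := by
            rw [if_neg]
            intro h
            apply hA
            intro i _
            rw [h]
          rw [h2]
          exact tendsto_const_nhds
      rw [Finset.sum_ite_eq' Finset.univ (fun _ => 0 : C.Zn → SignType) (fun _ => if S = ∅ then κ else 0),
        if_pos (Finset.mem_univ _)] at hlim
      refine hlim.congr' ?_
      filter_upwards [hev] with M ⟨h1, h2, h3, h4, h5⟩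
      rw [Krn.JR_H (K := K) Q h1 h2 h3 h4 h5 S, Finset.mul_sum, Finset.sum_div]
      refine Finset.sum_congr rfl fun H _ => ?_
      split_ifs
      · rfl
      · rw [mul_zero, zero_div]
    · have h1 : S ≠ ∅ := by
        rintro rfl
        apply hS
        intro j hj
        simp at hj
      rw [if_neg h1]
      refine tendsto_const_nhds.congr' ?_
      filter_upwards [Krn.notSep hC Q hQ hS] with M hM
      rw [hM, mul_zero, zero_div]
  have hsum := tendsto_finset_sum (Finset.univ : Finset (Finset (Fin m))) fun S _ => key S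
  rw [Finset.sum_ite_eq' Finset.univ (∅ : Finset (Fin m)) (fun _ => κ), if_pos (Finset.mem_univ _)] at hsum
  refine hsum.congr' ?_
  filter_upwards [hev] with M ⟨h1, h2, h3, h4, h5⟩
  rw [Krn.J_S Q h3 h4, Finset.mul_sum, Finset.sum_div]

end Pool.Agent.S5
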