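import Pool.Agent.H25.RK.DGf
import Pool.Agent.S3.Gr3b
import Pool.Agent.S5.S.Defs

/-!
# Differentiability of the kernels
-/

set_option autoImplicit false

namespace Pool.Agent.S5

open Complex Filter Topology
open Pool.Agent.S3 (Rf fe rS qS wr fdom)
open Pool.Agent.H63.VC3 (LL ff Cc om yk)

variable {E : Type} [NormedAddCommGroup E] [NormedSpace ℂ E]

private theorem al0 {M : ℕ} (hM : 2 ≤ M) : al M 0 = -1 / 2 + 1 / (2 * M) := by
  have hM0 : (0 : ℝ) < M := by exact_mod_cast (by omega : 0 < M)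
  unfold al yR
  push_cast
  field_simp
  ring

private theorem dm_lo {M : ℕ} (hM : 2 ≤ M) {d : ℝ} {z : ℂ} (h : z ∈ Dm M 0 d) :
    (M : ℝ) * z.re ≥ -(M : ℝ) / 2 + 1 / 2 := by
  have hM0 : (0 : ℝ) < M := by exact_mod_cast (by omega : 0 < M)
  have h1 := h.1
  rw [al0 hM] at h1
  have h2 := mul_le_mul_of_nonneg_left h1 hM0.le
  have h3 : (M : ℝ) * (-1 / 2 + 1 / (2 * M)) = -(M : ℝ) / 2 + 1 / 2 := by
    field_simp
  linarith

private theorem dm_hi {M : ℕ} (hM : 2 ≤ M) {d : ℝ} {z : ℂ} (h : z ∈ Dm M 0 d) :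
    (M : ℝ) * z.re ≤ (M : ℝ) / 2 := by
  have hM0 : (0 : ℝ) < M := by exact_mod_cast (by omega : 0 < M)
  have h2 := mul_le_mul_of_nonneg_left h.2.1 hM0.le
  linarith

private theorem re_add1 (M : ℕ) (a b : ℂ) : ((M : ℂ) * (a + b) - 1).re = M * a.re + M * b.re - 1 := by
  rw [sub_re, ← ofReal_natCast, re_ofReal_mul, add_re, one_re]
  ring

private theorem re_sub0 (M : ℕ) (a b : ℂ) : ((M : ℂ) * (a - b)).re = M * a.re - M * b.re := by
  rw [← ofReal_natCast, re_ofReal_mul, sub_re]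
  ring

private theorem re_half (M : ℕ) (a : ℂ) : ((M : ℂ) * (a + 1 / 2) - 1).re = M * a.re + M / 2 - 1 := by
  rw [sub_re, ← ofReal_natCast, re_ofReal_mul, add_re, one_re]
  norm_num
  ring

theorem Cc_df {M : ℕ} (hM : 2 ≤ M) {d : ℝ} {g : E → ℂ} {p : E} (hg : DifferentiableAt ℂ g p)
    (h : g p ∈ Dm M 0 d) : DifferentiableAt ℂ (fun x => Cc 2 1 M (g x)) p := by
  have hM0 : (0 : ℝ) < M := by exact_mod_cast (by omega : 0 < M)
  have h1 := h.1
  have h2 := h.2.1
  rw [al0 hM] at h1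
  have h3 : (0 : ℝ) < 1 / (2 * M) := by positivity
  have h4 : (0 : ℝ) < 1 / M := by positivity
  exact DifferentiableAt.comp (g := Cc 2 1 M) (f := g) p
    (Pool.Agent.S3.Cc_differentiableAt (by omega) (by linarith) (by linarith)) hg

theorem qS_df {M : ℕ} (hM : 2 ≤ M) {d : ℝ} {f g : E → ℂ} {p : E} (hf : DifferentiableAt ℂ f p)
    (hg : DifferentiableAt ℂ g p) (h : g p ∈ Dm M 0 d) (h1 : |(f p).re| ≤ 1 / 2) :
    DifferentiableAt ℂ (fun x => qS M (g x) (f x)) p := by
  have hM0 : (0 : ℝ) < M := by exact_mod_cast (by omega : 0 < M)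
  have h2 := h.1
  have h3 := h.2.1
  rw [al0 hM] at h2
  have h4 : (0 : ℝ) < 1 / (2 * M) := by positivity
  have h5 : |(g p).re| ≤ 1 / 2 := abs_le.mpr ⟨by linarith, h3⟩
  exact DifferentiableAt.comp (g := fun p : ℂ × ℂ => qS M p.1 p.2) (f := fun x => (g x, f x)) p
    (Pool.Agent.S3.qS_differentiableAt (by omega) (by simpa using (by linarith :
      |(g p).re| + |(f p).re| < 1 + 1 / (2 * (M : ℝ))))) (hg.prodMk hf)

private theorem rS_df {M : ℕ} (hM : 2 ≤ M) {f : E → ℂ} {p : E} (hf : DifferentiableAt ℂ f p)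
    (h0 : -(M : ℝ) - 1 < (f p).re) (h1 : (f p).re < M) :
    DifferentiableAt ℂ (fun x => rS M (f x)) p :=
  DifferentiableAt.comp (g := rS M) (f := f) p
    (Pool.Agent.S3.rS_differentiableAt (by omega) h0 h1) hf

private theorem LL_df {M : ℕ} (hM : 2 ≤ M) {f : E → ℂ} {p : E} (hf : DifferentiableAt ℂ f p)
    (h0 : -1 < (f p).re) (h1 : (f p).re < M) :
    DifferentiableAt ℂ (fun x => LL M (f x)) p :=
  DifferentiableAt.comp (g := LL M) (f := f) p
    (Pool.Agent.H63.VC3.LL_differentiableAt M (by omega) _ h0 h1) hf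

private theorem kC_df {M : ℕ} (hM : 2 ≤ M) (s : ℤ) {d : ℝ} {f g : E → ℂ} {p : E}
    (hf : DifferentiableAt ℂ f p) (hg : DifferentiableAt ℂ g p) (h1 : f p ∈ Dm M 0 d)
    (h2 : g p ∈ Dm M 0 d) : DifferentiableAt ℂ (fun x => kC s M (f x) (g x)) p := by
  have a1 := dm_lo hM h1
  have a2 := dm_hi hM h1
  have a3 := dm_lo hM h2
  have a4 := dm_hi hM h2
  unfold kC
  apply DifferentiableAt.mul
  · apply DifferentiableAt.cexp
    fun_prop
  · apply rS_df hM (by fun_prop)
    · rw [re_add1]; linarith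
    · rw [re_add1]; linarith

private theorem kB_df {M : ℕ} (hM : 2 ≤ M) (s : ℤ) {d : ℝ} {f g : E → ℂ} {p : E}
    (hf : DifferentiableAt ℂ f p) (hg : DifferentiableAt ℂ g p) (h1 : f p ∈ Dm M 0 d)
    (h2 : g p ∈ Dm M 0 d) : DifferentiableAt ℂ (fun x => kB s M (f x) (g x)) p := by
  have a1 := dm_lo hM h1
  have a2 := dm_hi hM h1
  have a3 := dm_lo hM h2
  have a4 := dm_hi hM h2
  unfold kB
  apply DifferentiableAt.mul
  · apply DifferentiableAt.cexp
    fun_prop
  · apply rS_df hM (by fun_prop)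
    · rw [re_sub0]; linarith
    · rw [re_sub0]; linarith

private theorem kH_df {M : ℕ} (hM : 2 ≤ M) (s : ℤ) {d : ℝ} {f g : E → ℂ} {p : E}
    (hf : DifferentiableAt ℂ f p) (hg : DifferentiableAt ℂ g p) (h1 : f p ∈ Dm M 0 d)
    (h2 : g p ∈ Dm M 0 d) : DifferentiableAt ℂ (fun x => kH s M (f x) (g x)) p := by
  have hM0 : (0 : ℝ) < M := by exact_mod_cast (by omega : 0 < M)
  have a1 := dm_lo hM h1
  have a2 := dm_hi hM h1
  have a3 := dm_lo hM h2
  have a4 := dm_hi hM h2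
  unfold kH
  apply DifferentiableAt.mul
  · apply DifferentiableAt.mul
    · apply DifferentiableAt.cexp
      fun_prop
    · apply DifferentiableAt.mul
      · apply DifferentiableAt.cexp
        apply DifferentiableAt.neg
        apply LL_df hM (by fun_prop)
        · rw [re_half]; linarith
        · rw [re_half]; linarith
      · apply DifferentiableAt.cexp
        apply DifferentiableAt.neg
        apply LL_df hM (by fun_prop)
        · rw [re_half]; linarith
        · rw [re_half]; linarith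
  · apply rS_df hM (by fun_prop)
    · rw [re_add1]; linarith
    · rw [re_add1]; linarith

private theorem om_df {M : ℕ} (hM : 2 ≤ M) {f : E → ℂ} {p : E}
    (hf : DifferentiableAt ℂ f p) (h : 0 < (f p).im) :
    DifferentiableAt ℂ (fun x => om 2 M (f x)) p := by
  have h1 := Pool.Agent.H25.RK.ww_ne_one (M := M) (by omega) h
  have h2 : DifferentiableAt ℂ (fun x => Pool.Agent.H63.VC3.ww 2 M (f x)) p := by
    unfold Pool.Agent.H63.VC3.ww
    apply DifferentiableAt.cexp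
    fun_prop
  unfold om
  have h3 : DifferentiableAt ℂ (fun x => (1 - Pool.Agent.H63.VC3.ww 2 M (f x)) ^ 2) p := by
    fun_prop
  have h4 : (1 - Pool.Agent.H63.VC3.ww 2 M (f p)) ^ 2 ≠ 0 :=
    pow_ne_zero 2 (sub_ne_zero.mpr (Ne.symm h1))
  simp only [div_eq_mul_inv]
  exact h2.mul (DifferentiableAt.fun_inv (h := fun x => (1 - Pool.Agent.H63.VC3.ww 2 M (f x)) ^ 2) h3 h4)

private theorem kV_df {M : ℕ} (hM : 2 ≤ M) (r : ℝ) {d : ℝ} {f g h : E → ℂ} {p : E}
    (hf : DifferentiableAt ℂ f p) (hg : DifferentiableAt ℂ g p) (hh : DifferentiableAt ℂ h p)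
    (h1 : g p ∈ Dm M 0 d) (h2 : h p ∈ Dm M 0 d) (h4 : 0 < (f p).im ∧ |(f p).re| ≤ 1 / 2) :
    DifferentiableAt ℂ (fun x => kV r M (f x) (g x) (h x)) p := by
  unfold kV
  apply DifferentiableAt.mul
  · apply DifferentiableAt.mul
    · apply DifferentiableAt.mul
      · apply DifferentiableAt.cexp
        fun_prop
      · apply DifferentiableAt.mul
        · fun_prop
        · apply DifferentiableAt.csin
          fun_prop
    · exact om_df hM hf h4.1
  · exact (qS_df hM hf hg h1 h4.2).mul (qS_df hM hf hh h2 h4.2)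

/-- The kernels of the nodes are differentiable functions of all their variables. -/
theorem kN_df {M : ℕ} (hM : 2 ≤ M) (c : ℤ) (ty : Ty) (fl : Bool) {d : ℝ} {f g h : E → ℂ} {p : E}
    (hf : DifferentiableAt ℂ f p) (hg : DifferentiableAt ℂ g p) (hh : DifferentiableAt ℂ h p)
    (h1 : g p ∈ Dm M 0 d) (h2 : h p ∈ Dm M 0 d) (h3 : ty = Ty.zn → f p ∈ Dm M 0 d)
    (h4 : ty = Ty.vn → 0 < (f p).im ∧ |(f p).re| ≤ 1 / 2) :
    DifferentiableAt ℂ (fun x => kN c ty fl M (f x) (g x) (h x)) p := by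
  cases ty with
  | cl => exact kC_df hM _ hg hh h1 h2
  | zn =>
    have h5 := h3 rfl
    unfold kN
    simp only
    split_ifs
    · exact (kB_df hM _ hh hf h2 h5).mul (kH_df hM _ hf hg h5 h1)
    · exact (kB_df hM _ hg hf h1 h5).mul (kH_df hM _ hf hh h5 h2)
    · exact (kB_df hM _ hh hf h2 h5).mul (kC_df hM _ hf hg h5 h1)
    · exact (kB_df hM _ hg hf h1 h5).mul (kC_df hM _ hf hh h5 h2)
  | vn => exact kV_df hM _ hf hg hh h1 h2 (h4 rfl)

end Pool.Agent.S5
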