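import Pool.Agent.S5.S.MultiI
import Pool.Agent.S5.D.Asm

/-!
# Lattice sums and integrals: assembly on a product of flat contours, any finite set of variables

`T M x z` is the integrand: `x` are the parameters of the contours of the integration variables `V`,
`z` the lattice variables `ι`. The high part of the invariant is
`∫ x, ∑ κ, T M x (yR M ∘ κ)`, the sum over all `κ j` with `k0 M j ≤ κ j < M`.
-/

set_option autoImplicit false

namespace Pool.Agent.S5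

open Complex Filter Topology MeasureTheory Pool.Agent.H63.GO Pool.Agent.S3.Asm
open scoped Interval

/-- The data of the assembly theorem: bounds of the integrand on the contours, better bounds away from
the critical point. -/
structure DDataI {V ι : Type} [Fintype V] [Fintype ι] [DecidableEq ι] (k0 k1 : ℕ → ι → ℕ) (d : ι → ℝ)
    (η t0 : ι → ℝ) (xc : V → ℝ) (T : ℕ → (V → ℝ) → (ι → ℂ) → ℂ) (ω : V → ℝ → ℝ) (e0 : ℝ) : Prop where
  d_pos : ∀ j, 0 < d j
  η_le : ∀ j, |η j| ≤ d j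
  k0_le : ∀ᶠ M in atTop, ∀ j, k0 M j + 2 ≤ k1 M j
  k1_le : ∀ᶠ M in atTop, ∀ j, k1 M j ≤ M
  left : ∃ ε : ℝ, 0 < ε ∧ ∀ᶠ M in atTop, ∀ j, al M (k0 M j) ≤ t0 j - ε
  right : ∃ ε : ℝ, 0 < ε ∧ ∀ᶠ M in atTop, ∀ j, t0 j + ε ≤ rb M (k1 M j)
  ok : ∀ᶠ M in atTop, ∀ x, TOKI M (k0 M) d (T M x)
  meas : ∀ᶠ M in atTop, ∀ κ ∈ Fintype.piFinset (fun j : ι => Finset.Ico (k0 M j) (k1 M j)),
    AEStronglyMeasurable (fun x => T M x (fun j => (yR M (κ j) : ℝ)))
  w_int : ∀ v, Integrable (ω v)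
  w_nn : ∀ v x, 0 ≤ ω v x
  bd : ∃ C : ℝ, 0 < C ∧ ∃ p : ℕ, ∀ᶠ M : ℕ in atTop, ∀ (x : V → ℝ) (z : ι → ℂ) (w : ι → ℝ),
    (∀ j, PtU M (k0 M j) (k1 M j) (d j) (η j) (t0 j) 0 (z j) (w j)) →
    ‖T M x z‖ ≤ C * (M : ℝ) ^ p * Real.exp (M * (e0 + ∑ j, w j)) * ∏ v, ω v (x v)
  far : ∀ r : ℝ, 0 < r → ∃ δ : ℝ, 0 < δ ∧ ∃ C : ℝ, 0 < C ∧ ∃ p : ℕ, ∀ᶠ M : ℕ in atTop,
    ∀ (x : V → ℝ) (z : ι → ℂ) (w : ι → ℝ),
    (∀ j, PtU M (k0 M j) (k1 M j) (d j) (η j) (t0 j) 0 (z j) (w j)) →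
    ((∃ v, r ≤ |x v - xc v|) ∨ ∃ j, PtU M (k0 M j) (k1 M j) (d j) (η j) (t0 j) r (z j) (w j)) →
    ‖T M x z‖ ≤ C * (M : ℝ) ^ p * Real.exp (M * (e0 - δ + ∑ j, w j)) * ∏ v, ω v (x v)

private theorem bx_eq {ι : Type} (a R : ι → ℝ) :
    bx a R = Set.pi Set.univ (fun j => Set.Icc (a j - R j) (a j + R j)) := by
  ext x
  simp only [bx, Set.mem_ofPred_eq, Set.mem_univ_pi, Set.mem_Icc]
  refine forall_congr' fun j => ?_
  rw [abs_le]
  constructor
  · rintro ⟨h1, h2⟩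
    exact ⟨by linarith, by linarith⟩
  · rintro ⟨h1, h2⟩
    exact ⟨by linarith, by linarith⟩

private theorem bx_compact {ι : Type} [Fintype ι] (a R : ι → ℝ) : IsCompact (bx a R) := by
  rw [bx_eq]
  exact isCompact_univ_pi fun _ => isCompact_Icc

variable {V ι : Type} [Fintype V] [Fintype ι] [DecidableEq ι] {k0 k1 : ℕ → ι → ℕ} {d : ι → ℝ}
  {η t0 : ι → ℝ} {xc : V → ℝ} {T : ℕ → (V → ℝ) → (ι → ℂ) → ℂ} {ω : V → ℝ → ℝ} {e0 : ℝ}

/-- The bounds of the sums over the edges. -/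
theorem DDataI.sums (hD : DDataI k0 k1 d η t0 xc T ω e0) : ∃ r1 : ℝ, 0 < r1 ∧ ∀ r : ℝ, 0 < r → r ≤ r1 →
    ∃ δ : ℝ, 0 < δ ∧ ∃ C : ℝ, 0 < C ∧ ∃ p : ℕ, ∀ᶠ M : ℕ in atTop, ∀ x : V → ℝ,
      (x ∈ bx xc (fun _ => r) → ‖(∑ κ ∈ Fintype.piFinset (fun j : ι => Finset.Ico (k0 M j) (k1 M j)),
          T M x (fun j => (yR M (κ j) : ℝ))) - M ^ Fintype.card ι * ∫ t in bx t0 (fun _ => r), T M x (fun j => t j + η j * I)‖ ≤
        C * (M : ℝ) ^ p * Real.exp (M * (e0 - δ)) * ∏ v, ω v (x v)) ∧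
      (x ∉ bx xc (fun _ => r) → ‖∑ κ ∈ Fintype.piFinset (fun j : ι => Finset.Ico (k0 M j) (k1 M j)),
          T M x (fun j => (yR M (κ j) : ℝ))‖ ≤
        C * (M : ℝ) ^ p * Real.exp (M * (e0 - δ)) * ∏ v, ω v (x v)) := by
  obtain ⟨ε, hε, hl⟩ := hD.left
  obtain ⟨D, hDD, hDle⟩ : ∃ D : ℝ, 0 ≤ D ∧ ∀ j, d j ≤ D :=
    ⟨∑ j, d j, Finset.sum_nonneg fun j _ => (hD.d_pos j).le,
      fun j => Finset.single_le_sum (fun j _ => (hD.d_pos j).le) (Finset.mem_univ j)⟩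
  obtain ⟨ε2, hε2, hr2⟩ := hD.right
  refine ⟨min ε ε2, lt_min hε hε2, fun r hr hr1 => ?_⟩
  obtain ⟨δ, hδ, C, hC, p, hfar⟩ := hD.far r hr
  refine ⟨δ, hδ, (Fintype.card ι + 1) * (12 * (1 + |D|)) ^ Fintype.card ι * C, by positivity,
    Fintype.card ι + p, ?_⟩
  have hbr : ∀ᶠ M : ℕ in atTop, ∀ j, t0 j + r ≤ rb M (k1 M j) := by
    filter_upwards [hr2] with M hM j
    linarith [hM j, hr1.trans (min_le_right ε ε2)]
  have hd1 : ∀ᶠ M : ℕ in atTop, ∀ j, 1 ≤ M * d j := by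
    refine eventually_all.2 fun j => ?_
    have h1 : Tendsto (fun M : ℕ => (M : ℝ) * d j) atTop atTop :=
      tendsto_natCast_atTop_atTop.atTop_mul_const (hD.d_pos j)
    exact h1.eventually_ge_atTop 1
  filter_upwards [hfar, hbr, hd1, hl, hD.k0_le, hD.k1_le, hD.ok, eventually_ge_atTop 1] with M hfar hbr hd1 hl hk hk1 hok hM1 x
  have hM0 : (1 : ℝ) ≤ M := by exact_mod_cast hM1
  have hω : 0 ≤ ∏ v, ω v (x v) := Finset.prod_nonneg fun v _ => hD.w_nn v _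
  set S : ℝ := C * (M : ℝ) ^ p * Real.exp (M * (e0 - δ)) * ∏ v, ω v (x v) with hS
  have hS0 : 0 ≤ S := by positivity
  have hexp : ∀ w : ι → ℝ, C * (M : ℝ) ^ p * Real.exp (M * (e0 - δ + ∑ j, w j)) * ∏ v, ω v (x v) =
      S * Real.exp (M * ∑ j, w j) := by
    intro w
    rw [hS, mul_add, Real.exp_add]
    ring
  have hfin : ∀ c : ℝ, c ≤ Fintype.card ι + 1 → c * (12 * (1 + |D|) * M) ^ Fintype.card ι * S ≤
      (Fintype.card ι + 1) * (12 * (1 + |D|)) ^ Fintype.card ι * C * (M : ℝ) ^ (Fintype.card ι + p) * Real.exp (M * (e0 - δ)) * ∏ v, ω v (x v) := by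
    intro c hc
    have h1 : c * (12 * (1 + |D|) * M) ^ Fintype.card ι * S ≤ (Fintype.card ι + 1) * (12 * (1 + |D|) * M) ^ Fintype.card ι * S := by
      apply mul_le_mul_of_nonneg_right _ hS0
      apply mul_le_mul_of_nonneg_right hc
      positivity
    refine h1.trans (le_of_eq ?_)
    rw [hS, mul_pow, pow_add]
    ring
  constructor
  · intro hx
    have h := multiI (t0 := t0) (by omega) hr.le D hk hk1 hd1 hDle hD.η_le
      (fun j => by linarith [hl j, min_le_left ε ε2]) hbr (T M x) S hS0 (hok x) (by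
        intro z w hz hz'
        rw [← hexp]
        exact hfar x z w hz (Or.inr hz'))
    exact h.trans (hfin (Fintype.card ι) (by linarith))
  · intro hx
    have hx' : ∃ v, r ≤ |x v - xc v| := by
      by_contra h
      push Not at h
      exact hx fun v => (h v).le
    have h := multiI_le (t0 := t0) (by omega) D hk hk1 hd1 hDle hD.η_le
      (fun j => by linarith [hl j, min_le_left ε ε2, hr]) (fun j => by linarith [hbr j]) (T M x) S hS0 (hok x) (by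
        intro z w hz
        rw [← hexp]
        exact hfar x z w hz (Or.inl hx'))
    refine h.trans ?_
    have := hfin 1 (by
      have : (0 : ℝ) ≤ Fintype.card ι := Nat.cast_nonneg _
      linarith)
    rwa [one_mul] at this

/-- The asymptotics of the high part. -/
theorem DDataI.lim [DecidableEq V] (hD : DDataI k0 k1 d η t0 xc T ω e0)
    {W : (V ⊕ ι → ℂ) → ℂ} {U : Set (V ⊕ ι → ℂ)} (hU : IsOpen U) (hW : AnalyticOnNhd ℂ W U)
    (bc : V ⊕ ι → ℝ) (hbc : ∀ j, bc (Sum.inr j) = η j) (hz : cp (Sum.elim xc t0) bc ∈ U)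
    (hg : ∀ ξ : V ⊕ ι → ℝ, fderiv ℂ W (cp (Sum.elim xc t0) bc) (rc ξ) = 0)
    (hneg : ∀ ξ : V ⊕ ι → ℝ, ξ ≠ 0 → (D2 W (cp (Sum.elim xc t0) bc) (rc ξ)).re < 0)
    (hm : (W (cp (Sum.elim xc t0) bc)).re = e0)
    (Φ : ℕ → (V ⊕ ι → ℂ) → ℂ) (e : ℝ)
    (hcont : ∀ᶠ M in atTop, ContinuousOn (Φ M) U)
    (hbd : ∃ C : ℝ, 0 < C ∧ ∀ᶠ M : ℕ in atTop, ∀ z ∈ U,
      ‖Φ M z‖ ≤ C * (M : ℝ) ^ e * Real.exp (M * (W z).re))
    (hL : ALim W Φ e (cp (Sum.elim xc t0) bc))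
    (hΦ : ∀ᶠ M in atTop, ∀ a : V ⊕ ι → ℝ, cp a bc ∈ U → Φ M (cp a bc) =
      M ^ Fintype.card ι * T M (fun v => a (Sum.inl v)) (fun j => a (Sum.inr j) + η j * I)) :
    ∃ κ : ℂ, κ ≠ 0 ∧ Tendsto (fun M : ℕ =>
      (((M : ℝ) ^ ((Fintype.card (V ⊕ ι) : ℝ) / 2) : ℝ) : ℂ) *
        (∫ x : V → ℝ, ∑ κ ∈ Fintype.piFinset (fun j : ι => Finset.Ico (k0 M j) (k1 M j)),
          T M x (fun j => (yR M (κ j) : ℝ))) /
      ((((M : ℝ) ^ e : ℝ) : ℂ) * exp (M * W (cp (Sum.elim xc t0) bc)))) atTop (𝓝 κ) := by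
  obtain ⟨r0, hr0, c, hc, hdec⟩ := dec_loc hU hW (Sum.elim xc t0) bc hz hg hneg
  obtain ⟨r1, hr1, hsums⟩ := hD.sums
  set r : ℝ := min r0 r1 with hrdef
  have hr : 0 < r := lt_min hr0 hr1
  obtain ⟨δ, hδ, C, hC, p, hs⟩ := hsums r hr (min_le_right _ _)
  set ac : V ⊕ ι → ℝ := Sum.elim xc t0 with hac
  have hdec' : ∀ a ∈ bx ac (fun _ => r), cp a bc ∈ U ∧
      (W (cp a bc)).re ≤ (W (cp ac bc)).re - c * ∑ j, (a j - ac j) ^ 2 :=
    fun a ha => hdec a (fun j => (ha j).trans (min_le_left _ _))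
  have hcpc : Continuous (fun a : V ⊕ ι → ℝ => cp a bc) := by
    unfold cp
    fun_prop
  have hcontB : ∀ᶠ M in atTop, ContinuousOn (fun a => Φ M (cp a bc)) (bx ac (fun _ => r)) := by
    filter_upwards [hcont] with M hM
    exact hM.comp hcpc.continuousOn (fun a ha => (hdec' a ha).1)
  have hbdB : ∃ C : ℝ, 0 < C ∧ ∀ᶠ M : ℕ in atTop, ∀ a ∈ bx ac (fun _ => r),
      ‖Φ M (cp a bc)‖ ≤ C * (M : ℝ) ^ e * Real.exp (M * (W (cp a bc)).re) := by
    obtain ⟨C, hC, h⟩ := hbd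
    exact ⟨C, hC, h.mono fun M hM a ha => hM _ (hdec' a ha).1⟩
  obtain ⟨κ, hκ, hlim⟩ := lap_loc hU hW ac bc hz hg (fun _ => r) (fun _ => hr) c hc hdec' Φ e hcontB hbdB hL
  refine ⟨κ, hκ, ?_⟩
  -- the weights
  have hwint : Integrable (fun x : V → ℝ => ∏ i, ω i (x i)) :=
    Integrable.fintype_prod (fun i => hD.w_int i)
  have hwnn : ∀ x : V → ℝ, 0 ≤ ∏ i, ω i (x i) :=
    fun x => Finset.prod_nonneg fun i _ => hD.w_nn i (x i)
  set Ω : ℝ := ∫ x : V → ℝ, ∏ i, ω i (x i) with hΩ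
  have hΩ0 : 0 ≤ Ω := integral_nonneg hwnn
  have hmB : MeasurableSet (bx xc (fun _ : V => r)) := (bx_compact _ _).measurableSet
  obtain ⟨C3, hC3, p3, hb3⟩ := hD.bd
  set Sm : ℕ → (V → ℝ) → ℂ := fun M x =>
    ∑ κ ∈ Fintype.piFinset (fun j : ι => Finset.Ico (k0 M j) (k1 M j)), T M x (fun j => (yR M (κ j) : ℝ)) with hSm
  have hd1 : ∀ᶠ M : ℕ in atTop, ∀ j, 1 ≤ M * d j := by
    refine eventually_all.2 fun j => ?_
    have h1 : Tendsto (fun M : ℕ => (M : ℝ) * d j) atTop atTop :=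
      tendsto_natCast_atTop_atTop.atTop_mul_const (hD.d_pos j)
    exact h1.eventually_ge_atTop 1
  obtain ⟨ε, hε, hl⟩ := hD.left
  obtain ⟨D, hDD, hDle⟩ : ∃ D : ℝ, 0 ≤ D ∧ ∀ j, d j ≤ D :=
    ⟨∑ j, d j, Finset.sum_nonneg fun j _ => (hD.d_pos j).le,
      fun j => Finset.single_le_sum (fun j _ => (hD.d_pos j).le) (Finset.mem_univ j)⟩
  obtain ⟨ε2, hε2, hr2⟩ := hD.right
  have hbr : ∀ᶠ M : ℕ in atTop, ∀ j, t0 j ≤ rb M (k1 M j) := by
    filter_upwards [hr2] with M hM j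
    linarith [hM j]
  have hint : ∀ᶠ M : ℕ in atTop, Integrable (Sm M) := by
    filter_upwards [hD.meas, hb3, hd1, hl, hD.k0_le, hD.k1_le, hD.ok, hbr, eventually_ge_atTop 1] with M hme hb hd1 hl hk hk1 hok hbr hM1
    have hmeas : AEStronglyMeasurable (Sm M) := by
      simp only [hSm]
      exact Finset.aestronglyMeasurable_fun_sum _ hme
    refine (hwint.const_mul ((12 * (1 + |D|) * M) ^ Fintype.card ι * (C3 * (M : ℝ) ^ p3 * Real.exp (M * e0)))).mono' hmeas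
      (Eventually.of_forall fun x => ?_)
    have h := multiI_le (t0 := t0) (by omega) D hk hk1 hd1 hDle hD.η_le
      (fun j => by linarith [hl j, hε]) hbr (T M x)
      (C3 * (M : ℝ) ^ p3 * Real.exp (M * e0) * ∏ v, ω v (x v)) (by have := hwnn x; positivity) (hok x) (by
        intro z w hz
        refine (hb x z w hz).trans (le_of_eq ?_)
        rw [mul_add, Real.exp_add]
        ring)
    refine h.trans (le_of_eq ?_)
    ring
  -- the error
  have herr : ∀ᶠ M : ℕ in atTop,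
      ‖(∫ x, Sm M x) - ∫ a in bx ac (fun _ => r), Φ M (cp a bc)‖ ≤
        (2 * C * Ω) * (M : ℝ) ^ p * Real.exp (M * (e0 - δ)) := by
    filter_upwards [hs, hint, hΦ, hcontB] with M hsM hiM hΦM hcM
    have hcongr : Set.EqOn (fun a : V ⊕ ι → ℝ => Φ M (cp a bc))
        (fun a => M ^ Fintype.card ι * T M (fun v => a (Sum.inl v)) (fun j => a (Sum.inr j) + η j * I)) (bx ac (fun _ => r)) :=
      fun a ha => hΦM a (hdec' a ha).1
    obtain ⟨hfubi, hfube⟩ := fubS (fun (x : V → ℝ) (t : ι → ℝ) => (M : ℂ) ^ Fintype.card ι * T M x (fun j => t j + η j * I))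
      xc t0 r (hcM.congr hcongr.symm)
    have hI : ∫ a in bx ac (fun _ => r), Φ M (cp a bc) =
        ∫ x in bx xc (fun _ => r), (M : ℂ) ^ Fintype.card ι * ∫ t in bx t0 (fun _ => r), T M x (fun j => t j + η j * I) := by
      rw [setIntegral_congr_fun (bx_compact _ _).measurableSet hcongr, ← hfube]
      congr 1
      funext x
      rw [integral_const_mul]
    have hfubi' : IntegrableOn (fun x => (M : ℂ) ^ Fintype.card ι * ∫ t in bx t0 (fun _ => r), T M x (fun j => t j + η j * I))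
        (bx xc (fun _ => r)) := by
      have h5 : (fun x : V → ℝ => (M : ℂ) ^ Fintype.card ι * ∫ t in bx t0 (fun _ => r), T M x (fun j => t j + η j * I)) =
          fun x => ∫ t in bx t0 (fun _ => r), (M : ℂ) ^ Fintype.card ι * T M x (fun j => t j + η j * I) := by
        funext x
        rw [integral_const_mul]
      rw [h5]
      exact hfubi
    have hsplit : ∫ x, Sm M x = (∫ x in bx xc (fun _ => r), Sm M x) + ∫ x in (bx xc (fun _ => r))ᶜ, Sm M x :=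
      (integral_add_compl hmB hiM).symm
    have e : (∫ x, Sm M x) - ∫ a in bx ac (fun _ => r), Φ M (cp a bc) =
        (∫ x in bx xc (fun _ => r), (Sm M x - (M : ℂ) ^ Fintype.card ι * ∫ t in bx t0 (fun _ => r), T M x (fun j => t j + η j * I))) +
          ∫ x in (bx xc (fun _ => r))ᶜ, Sm M x := by
      rw [integral_sub hiM.integrableOn hfubi', hI, hsplit]
      ring
    rw [e]
    have b1 : ‖∫ x in bx xc (fun _ => r), (Sm M x - (M : ℂ) ^ Fintype.card ι * ∫ t in bx t0 (fun _ => r), T M x (fun j => t j + η j * I))‖ ≤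
        C * (M : ℝ) ^ p * Real.exp (M * (e0 - δ)) * Ω := by
      calc _ ≤ ∫ x in bx xc (fun _ => r), C * (M : ℝ) ^ p * Real.exp (M * (e0 - δ)) * ∏ v, ω v (x v) := by
            refine norm_integral_le_of_norm_le (hwint.const_mul _).integrableOn ?_
            exact (ae_restrict_iff' hmB).2 (Eventually.of_forall fun x hx => (hsM x).1 hx)
        _ ≤ ∫ x : V → ℝ, C * (M : ℝ) ^ p * Real.exp (M * (e0 - δ)) * ∏ v, ω v (x v) := by
            refine setIntegral_le_integral (hwint.const_mul _) (Eventually.of_forall fun x => ?_)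
            have := hwnn x
            positivity
        _ = _ := by rw [integral_const_mul]
    have b2 : ‖∫ x in (bx xc (fun _ => r))ᶜ, Sm M x‖ ≤
        C * (M : ℝ) ^ p * Real.exp (M * (e0 - δ)) * Ω := by
      calc _ ≤ ∫ x in (bx xc (fun _ => r))ᶜ, C * (M : ℝ) ^ p * Real.exp (M * (e0 - δ)) * ∏ v, ω v (x v) := by
            refine norm_integral_le_of_norm_le (hwint.const_mul _).integrableOn ?_
            exact (ae_restrict_iff' hmB.compl).2 (Eventually.of_forall fun x hx => (hsM x).2 hx)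
        _ ≤ ∫ x : V → ℝ, C * (M : ℝ) ^ p * Real.exp (M * (e0 - δ)) * ∏ v, ω v (x v) := by
            refine setIntegral_le_integral (hwint.const_mul _) (Eventually.of_forall fun x => ?_)
            have := hwnn x
            positivity
        _ = _ := by rw [integral_const_mul]
    refine (norm_add_le_of_le b1 b2).trans (le_of_eq ?_)
    ring
  -- the limit
  set N : ℝ := (Fintype.card (V ⊕ ι) : ℝ) / 2 with hN
  have hz0 : Tendsto (fun M : ℕ => (((M : ℝ) ^ N : ℝ) : ℂ) *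
      ((∫ x, Sm M x) - ∫ a in bx ac (fun _ => r), Φ M (cp a bc)) /
      ((((M : ℝ) ^ e : ℝ) : ℂ) * exp (M * W (cp ac bc)))) atTop (𝓝 0) := by
    refine squeeze_zero_norm' ?_ (small_tend N e e0 δ (2 * C * Ω) p hδ)
    filter_upwards [herr, eventually_gt_atTop 0] with M hM hM0
    have hMp : (0 : ℝ) < M := by exact_mod_cast hM0
    rw [norm_div, norm_mul, norm_mul, Complex.norm_real, Complex.norm_real,
      Real.norm_of_nonneg (Real.rpow_pos_of_pos hMp _).le, Real.norm_of_nonneg (Real.rpow_pos_of_pos hMp _).le,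
      Complex.norm_exp]
    have h2 : ((M : ℂ) * W (cp ac bc)).re = M * e0 := by
      rw [← Complex.ofReal_natCast, Complex.re_ofReal_mul, hm]
    rw [h2]
    gcongr
  have h3 := hlim.add hz0
  rw [add_zero] at h3
  refine h3.congr' (Eventually.of_forall fun M => ?_)
  rw [← add_div, ← mul_add]
  congr 2
  ring

end Pool.Agent.S5
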