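import Pool.Agent.H25.RK.DGf
import Pool.Agent.S3.Gr3b
import Pool.Agent.S5.S.Defs

/-!
# Bounds of the kernels by the growth functions
-/

set_option autoImplicit false

namespace Pool.Agent.S5

open Complex Filter Topology
open Pool.Agent.S3 (Rf fe rS qS wr fdom)
open Pool.Agent.H63.VC3 (LL ff Cc om yk)
private theorem BdA_re (s : ℝ) (X : ℂ) : ((s : ℂ) * Real.pi * I * X).re = -(s * Real.pi * X.im) := by
  simp [mul_re, mul_im]

private theorem BdA_al (M : ℕ) {z : ℂ} {d : ℝ} (hz : z ∈ Dm M 0 d) :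
    -1 / 2 + 1 / (2 * (M : ℝ)) ≤ z.re ∧ z.re ≤ 1 / 2 ∧ |z.im| ≤ d ∧ 0 ≤ d := by
  obtain ⟨h1, h2, h3⟩ := hz
  refine ⟨?_, h2, h3, (abs_nonneg _).trans h3⟩
  unfold al yR at h1
  refine le_trans (le_of_eq ?_) h1
  push_cast
  ring

/-- the form of the final bounds -/
private theorem BdA_fin {K d : ℝ} (_hK : 0 ≤ K) : ∃ C : ℝ, 0 < C ∧ ∃ p : ℕ, ∀ M : ℕ, 1 ≤ M →
    Real.exp (K * (1 + Real.log M + d)) ≤ C * (M : ℝ) ^ p := by
  refine ⟨Real.exp (K * (1 + d)), Real.exp_pos _, ⌈K⌉₊, fun M hM => ?_⟩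
  have hM0 : (0 : ℝ) < M := by exact_mod_cast hM
  have hlM : 0 ≤ Real.log M := Real.log_natCast_nonneg M
  have hMp : Real.exp (K * Real.log M) ≤ (M : ℝ) ^ ⌈K⌉₊ := by
    calc Real.exp (K * Real.log M) ≤ Real.exp ((⌈K⌉₊ : ℝ) * Real.log M) :=
          Real.exp_le_exp.2 (mul_le_mul_of_nonneg_right (Nat.le_ceil _) hlM)
      _ = _ := by rw [Real.exp_nat_mul, Real.exp_log hM0]
  calc Real.exp (K * (1 + Real.log M + d)) = Real.exp (K * (1 + d)) * Real.exp (K * Real.log M) := by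
        rw [← Real.exp_add]
        congr 1
        ring
    _ ≤ _ := mul_le_mul_of_nonneg_left hMp (Real.exp_pos _).le

/-- the bound of `rS` in terms of `Rf`, up to a shift -/
private theorem BdA_rS : ∃ C : ℝ, 0 < C ∧ ∀ M : ℕ, 1 ≤ M → ∀ ζ : ℂ,
    (-(M : ℝ) ≤ M * ζ.re - 1 → M * ζ.re - 1 ≤ M - 1 / 2 →
      ‖rS M (M * ζ - 1)‖ ≤ Real.exp (C * (1 + Real.log M + |ζ.im|)) * Real.exp (-(M * Rf ζ))) ∧
    (-(M : ℝ) - 1 / 2 ≤ M * ζ.re → M * ζ.re ≤ M - 1 / 2 →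
      ‖rS M (M * ζ)‖ ≤ Real.exp (C * (1 + Real.log M + |ζ.im|)) * Real.exp (-(M * Rf ζ))) := by
  obtain ⟨C, hC, h⟩ := Pool.Agent.S3.Rf_shift
  refine ⟨C + 16, by positivity, fun M hM ζ => ?_⟩
  have hM0 : (0 : ℝ) < M := by exact_mod_cast hM
  have hM1 : (1 : ℝ) ≤ M := by exact_mod_cast hM
  have hMc : (M : ℂ) ≠ 0 := by exact_mod_cast hM0.ne'
  have hlM : 0 ≤ Real.log M := Real.log_natCast_nonneg M
  have hre : ((M : ℂ) * ζ).re = M * ζ.re := by
    rw [← ofReal_natCast, re_ofReal_mul]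
  have h16 : 16 / √(M : ℝ) ≤ Real.exp (16 * (1 + Real.log M + |ζ.im|)) := by
    have h1 : (1 : ℝ) ≤ √(M : ℝ) := Real.one_le_sqrt.2 hM1
    have h2 : 16 / √(M : ℝ) ≤ 16 := div_le_self (by norm_num) h1
    have h3 := Real.add_one_le_exp (16 * (1 + Real.log M + |ζ.im|))
    have h4 := abs_nonneg ζ.im
    linarith
  have hgen : ∀ (t z : ℂ), ‖rS M z‖ ≤ 16 / √M * Real.exp (-(M * Rf t)) →
      |M * Rf t - M * Rf ζ| ≤ C * (1 + Real.log M + |ζ.im|) →
      ‖rS M z‖ ≤ Real.exp ((C + 16) * (1 + Real.log M + |ζ.im|)) * Real.exp (-(M * Rf ζ)) := by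
    intro t z h1 h2
    rw [abs_le] at h2
    refine h1.trans ?_
    calc 16 / √M * Real.exp (-(M * Rf t)) ≤ Real.exp (16 * (1 + Real.log M + |ζ.im|)) *
          Real.exp (-(M * Rf ζ) + C * (1 + Real.log M + |ζ.im|)) := by
          apply mul_le_mul h16 _ (Real.exp_pos _).le (Real.exp_pos _).le
          exact Real.exp_le_exp.2 (by linarith [h2.1])
      _ = _ := by
          rw [← Real.exp_add, ← Real.exp_add]
          congr 1
          ring
  constructor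
  · intro h0 h1
    have e1 : ((M : ℂ) * ζ - 1).re = M * ζ.re - 1 := by rw [sub_re, hre, one_re]
    have hb := Pool.Agent.S3.rS_bound hM (z := M * ζ - 1) (by rw [e1]; linarith) (by rw [e1]; exact h1)
    have e2 : ((M : ℂ) * ζ - 1 + 1 / 2) / M = ζ - 1 / (2 * M) := by
      field_simp
      ring
    rw [e2] at hb
    exact hgen _ _ hb (h M hM ζ)
  · intro h0 h1
    have hb := Pool.Agent.S3.rS_bound hM (z := M * ζ) (by rw [hre]; exact h0) (by rw [hre]; exact h1)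
    have e2 : ((M : ℂ) * ζ + 1 / 2) / M = ζ + 1 / (2 * M) := by
      field_simp
    rw [e2] at hb
    have h2 := h M hM (ζ + 1 / (2 * M))
    have e3 : ζ + 1 / (2 * M) - 1 / (2 * M) = ζ := by ring
    have e4 : (ζ + 1 / (2 * (M : ℂ))).im = ζ.im := by
      have : (1 / (2 * (M : ℂ))) = ((1 / (2 * (M : ℝ)) : ℝ) : ℂ) := by push_cast; rfl
      rw [this, add_im, ofReal_im, add_zero]
    rw [e3, e4, abs_sub_comm] at h2
    exact hgen _ _ hb h2

theorem bd_Cc (d : ℝ) : ∃ C : ℝ, 0 < C ∧ ∃ p : ℕ, ∀ M : ℕ, 1 ≤ M → ∀ y ∈ Dm M 0 d,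
    ‖Cc 2 1 M y‖ ≤ C * (M : ℝ) ^ p * Real.exp (M * (4 * Rf (y + 1 / 2))) := by
  obtain ⟨C, hC, h⟩ := Pool.Agent.S3.LL_weight
  obtain ⟨C', hC', p, hp⟩ := BdA_fin (K := 4 * C) (d := d) (by positivity)
  refine ⟨C', hC', p, fun M hM y hy => ?_⟩
  obtain ⟨h1, h2, h3, h4⟩ := BdA_al M hy
  have hM0 : (0 : ℝ) < M := by exact_mod_cast hM
  have h5 := h M hM y h1 (by linarith [show 0 < 1 / (2 * (M : ℝ)) by positivity])
  rw [abs_le] at h5
  rw [Pool.Agent.S3.Cc_eq, norm_exp]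
  have e1 : (4 * LL M (M * (y + 1 / 2) - 1)).re = 4 * (LL M (M * (y + 1 / 2) - 1)).re := by simp
  rw [e1]
  calc Real.exp (4 * (LL M (M * (y + 1 / 2) - 1)).re)
      ≤ Real.exp (4 * C * (1 + Real.log M + d) + M * (4 * Rf (y + 1 / 2))) := by
        apply Real.exp_le_exp.2
        nlinarith [h5.2]
    _ = Real.exp (4 * C * (1 + Real.log M + d)) * Real.exp (M * (4 * Rf (y + 1 / 2))) := Real.exp_add _ _
    _ ≤ _ := mul_le_mul_of_nonneg_right (hp M hM) (Real.exp_pos _).le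

theorem bd_kC (s : ℤ) (d : ℝ) : ∃ C : ℝ, 0 < C ∧ ∃ p : ℕ, ∀ M : ℕ, 1 ≤ M → ∀ a ∈ Dm M 0 d,
    ∀ b ∈ Dm M 0 d, ‖kC s M a b‖ ≤ C * (M : ℝ) ^ p * Real.exp (M * gC s a b) := by
  obtain ⟨C, hC, h⟩ := BdA_rS
  obtain ⟨C', hC', p, hp⟩ := BdA_fin (K := 2 * C + |(s : ℝ)| * Real.pi) (d := d) (by positivity)
  refine ⟨C', hC', p, fun M hM a ha b hb => ?_⟩
  obtain ⟨a1, a2, a3, h4⟩ := BdA_al M ha
  obtain ⟨b1, b2, b3, -⟩ := BdA_al M hb
  have hM0 : (0 : ℝ) < M := by exact_mod_cast hM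
  have hlM : 0 ≤ Real.log M := Real.log_natCast_nonneg M
  have hMd : (M : ℝ) * (1 / (2 * M)) = 1 / 2 := by field_simp
  have h5 := (h M hM (a + b)).1 (by rw [add_re]; nlinarith) (by rw [add_re]; nlinarith)
  have h6 : |(a + b).im| ≤ 2 * d := by
    rw [add_im]
    exact (abs_add_le _ _).trans (by linarith)
  have e1 : ‖exp (s * Real.pi * I * (M * ((a - b) ^ 2 / 2 + (1 - a - b) / 2) - (1 - a - b) / 2))‖ =
      Real.exp (M * (qC s a b).re + s * Real.pi * ((1 - a - b) / 2).im) := by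
    rw [norm_exp]
    congr 1
    unfold qC
    have e2 := BdA_re (s : ℝ) (M * ((a - b) ^ 2 / 2 + (1 - a - b) / 2) - (1 - a - b) / 2)
    have e3 := BdA_re (s : ℝ) ((a - b) ^ 2 / 2 + (1 - a - b) / 2)
    have e4 : ((s : ℝ) : ℂ) = (s : ℂ) := by push_cast; rfl
    rw [e4] at e2 e3
    rw [e2, e3, sub_im]
    have e5 : ((M : ℂ) * ((a - b) ^ 2 / 2 + (1 - a - b) / 2)).im = (M : ℝ) * ((a - b) ^ 2 / 2 + (1 - a - b) / 2).im := by
      rw [← ofReal_natCast, im_ofReal_mul]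
    rw [e5]
    ring
  have h7 : s * Real.pi * ((1 - a - b) / 2).im ≤ |(s : ℝ)| * Real.pi * d := by
    refine (le_abs_self _).trans ?_
    rw [abs_mul, abs_mul, abs_of_pos Real.pi_pos]
    apply mul_le_mul_of_nonneg_left _ (by positivity)
    have e6 : ((1 - a - b) / 2).im = -(a.im + b.im) / 2 := by
      have : (1 - a - b) / 2 = ((1 / 2 : ℝ) : ℂ) * (1 - a - b) := by push_cast; ring
      rw [this, im_ofReal_mul]
      simp
      ring
    rw [e6, abs_div, abs_neg, abs_two, div_le_iff₀ (by norm_num)]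
    exact (abs_add_le _ _).trans (by linarith)
  unfold kC
  rw [norm_mul, e1]
  calc Real.exp (M * (qC s a b).re + s * Real.pi * ((1 - a - b) / 2).im) * ‖rS M (M * (a + b) - 1)‖
      ≤ Real.exp (M * (qC s a b).re + |(s : ℝ)| * Real.pi * d) *
        (Real.exp (C * (1 + Real.log M + |(a + b).im|)) * Real.exp (-(M * Rf (a + b)))) :=
        mul_le_mul (Real.exp_le_exp.2 (by linarith)) h5 (norm_nonneg _) (Real.exp_pos _).le
    _ = Real.exp (|(s : ℝ)| * Real.pi * d + C * (1 + Real.log M + |(a + b).im|)) *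
        Real.exp (M * gC s a b) := by
        rw [← Real.exp_add, ← Real.exp_add, ← Real.exp_add]
        congr 1
        unfold gC
        ring
    _ ≤ Real.exp ((2 * C + |(s : ℝ)| * Real.pi) * (1 + Real.log M + d)) * Real.exp (M * gC s a b) := by
        apply mul_le_mul_of_nonneg_right _ (Real.exp_pos _).le
        apply Real.exp_le_exp.2
        have h8 : 0 ≤ |(s : ℝ)| * Real.pi := by positivity
        nlinarith [mul_nonneg h8 hlM, mul_nonneg hC.le hlM, mul_nonneg hC.le h4]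
    _ ≤ _ := mul_le_mul_of_nonneg_right (hp M hM) (Real.exp_pos _).le

theorem bd_kB (s : ℤ) (d : ℝ) : ∃ C : ℝ, 0 < C ∧ ∃ p : ℕ, ∀ M : ℕ, 1 ≤ M → ∀ y ∈ Dm M 0 d,
    ∀ z ∈ Dm M 0 d, ‖kB s M y z‖ ≤ C * (M : ℝ) ^ p * Real.exp (M * gB s y z) := by
  obtain ⟨C, hC, h⟩ := BdA_rS
  obtain ⟨C', hC', p, hp⟩ := BdA_fin (K := 2 * C + 2 * (|(s : ℝ)| * Real.pi)) (d := d) (by positivity)
  refine ⟨C', hC', p, fun M hM y hy z hz => ?_⟩
  obtain ⟨a1, a2, a3, h4⟩ := BdA_al M hy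
  obtain ⟨b1, b2, b3, -⟩ := BdA_al M hz
  have hM0 : (0 : ℝ) < M := by exact_mod_cast hM
  have hlM : 0 ≤ Real.log M := Real.log_natCast_nonneg M
  have hMd : (M : ℝ) * (1 / (2 * M)) = 1 / 2 := by field_simp
  have h5 := (h M hM (y - z)).2 (by rw [sub_re]; nlinarith) (by rw [sub_re]; nlinarith)
  have h6 : |(y - z).im| ≤ 2 * d := by
    rw [sub_im]
    exact (abs_sub _ _).trans (by linarith)
  have e1 : ‖exp (s * Real.pi * I * (M * ((y + z) ^ 2 / 2 - (y - z) / 2) - (y + 3 * z) / 2))‖ =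
      Real.exp (M * (qB s y z).re + s * Real.pi * ((y + 3 * z) / 2).im) := by
    rw [norm_exp]
    congr 1
    unfold qB
    have e2 := BdA_re (s : ℝ) (M * ((y + z) ^ 2 / 2 - (y - z) / 2) - (y + 3 * z) / 2)
    have e3 := BdA_re (s : ℝ) ((y + z) ^ 2 / 2 - (y - z) / 2)
    have e4 : ((s : ℝ) : ℂ) = (s : ℂ) := by push_cast; rfl
    rw [e4] at e2 e3
    rw [e2, e3, sub_im]
    have e5 : ((M : ℂ) * ((y + z) ^ 2 / 2 - (y - z) / 2)).im = (M : ℝ) * ((y + z) ^ 2 / 2 - (y - z) / 2).im := by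
      rw [← ofReal_natCast, im_ofReal_mul]
    rw [e5]
    ring
  have h7 : s * Real.pi * ((y + 3 * z) / 2).im ≤ |(s : ℝ)| * Real.pi * (2 * d) := by
    refine (le_abs_self _).trans ?_
    rw [abs_mul, abs_mul, abs_of_pos Real.pi_pos]
    apply mul_le_mul_of_nonneg_left _ (by positivity)
    have e6 : ((y + 3 * z) / 2).im = (y.im + 3 * z.im) / 2 := by
      have : (y + 3 * z) / 2 = ((1 / 2 : ℝ) : ℂ) * (y + ((3 : ℝ) : ℂ) * z) := by push_cast; ring
      rw [this, im_ofReal_mul, add_im, im_ofReal_mul]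
      ring
    rw [e6, abs_div, abs_two, div_le_iff₀ (by norm_num)]
    refine (abs_add_le _ _).trans ?_
    rw [abs_mul, abs_of_pos (by norm_num : (0 : ℝ) < 3)]
    linarith
  unfold kB
  rw [norm_mul, e1]
  calc Real.exp (M * (qB s y z).re + s * Real.pi * ((y + 3 * z) / 2).im) * ‖rS M (M * (y - z))‖
      ≤ Real.exp (M * (qB s y z).re + |(s : ℝ)| * Real.pi * (2 * d)) *
        (Real.exp (C * (1 + Real.log M + |(y - z).im|)) * Real.exp (-(M * Rf (y - z)))) :=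
        mul_le_mul (Real.exp_le_exp.2 (by linarith)) h5 (norm_nonneg _) (Real.exp_pos _).le
    _ = Real.exp (|(s : ℝ)| * Real.pi * (2 * d) + C * (1 + Real.log M + |(y - z).im|)) *
        Real.exp (M * gB s y z) := by
        rw [← Real.exp_add, ← Real.exp_add, ← Real.exp_add]
        congr 1
        unfold gB
        ring
    _ ≤ Real.exp ((2 * C + 2 * (|(s : ℝ)| * Real.pi)) * (1 + Real.log M + d)) * Real.exp (M * gB s y z) := by
        apply mul_le_mul_of_nonneg_right _ (Real.exp_pos _).le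
        apply Real.exp_le_exp.2
        have h8 : 0 ≤ |(s : ℝ)| * Real.pi := by positivity
        nlinarith [mul_nonneg h8 hlM, mul_nonneg hC.le hlM, mul_nonneg hC.le h4]
    _ ≤ _ := mul_le_mul_of_nonneg_right (hp M hM) (Real.exp_pos _).le

theorem bd_kH (s : ℤ) (d : ℝ) : ∃ C : ℝ, 0 < C ∧ ∃ p : ℕ, ∀ M : ℕ, 1 ≤ M → ∀ z ∈ Dm M 0 d,
    ∀ b ∈ Dm M 0 d, ‖kH s M z b‖ ≤ C * (M : ℝ) ^ p * Real.exp (M * gH s z b) := by
  obtain ⟨C, hC, h⟩ := BdA_rS
  obtain ⟨C₁, hC₁, h'⟩ := Pool.Agent.S3.LL_weight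
  obtain ⟨C', hC', p, hp⟩ := BdA_fin (K := 2 * C + 2 * C₁ + 2 * (|(s : ℝ)| * Real.pi)) (d := d) (by positivity)
  refine ⟨C', hC', p, fun M hM z hz b hb => ?_⟩
  obtain ⟨a1, a2, a3, h4⟩ := BdA_al M hz
  obtain ⟨b1, b2, b3, -⟩ := BdA_al M hb
  have hM0 : (0 : ℝ) < M := by exact_mod_cast hM
  have hlM : 0 ≤ Real.log M := Real.log_natCast_nonneg M
  have hMd : (M : ℝ) * (1 / (2 * M)) = 1 / 2 := by field_simp
  have hd0 : 0 < 1 / (2 * (M : ℝ)) := by positivity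
  have h5 := (h M hM (z + b)).1 (by rw [add_re]; nlinarith) (by rw [add_re]; nlinarith)
  have h6 : |(z + b).im| ≤ 2 * d := by
    rw [add_im]
    exact (abs_add_le _ _).trans (by linarith)
  have hz5 := h' M hM z a1 (by linarith)
  have hb5 := h' M hM b b1 (by linarith)
  rw [abs_le] at hz5 hb5
  have e1 : ‖exp (-(s * Real.pi * I * (M * (z + 1 / 2) * (b + 1 / 2) - z - b)))‖ =
      Real.exp (M * (qH s z b).re - s * Real.pi * (z.im + b.im)) := by
    rw [norm_exp]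
    congr 1
    unfold qH
    have e2 := BdA_re (s : ℝ) (M * (z + 1 / 2) * (b + 1 / 2) - z - b)
    have e3 := BdA_re (s : ℝ) ((z + 1 / 2) * (b + 1 / 2))
    have e4 : ((s : ℝ) : ℂ) = (s : ℂ) := by push_cast; rfl
    rw [e4] at e2 e3
    rw [neg_re, neg_re, e2, e3, sub_im, sub_im]
    have e5 : ((M : ℂ) * (z + 1 / 2) * (b + 1 / 2)).im = (M : ℝ) * ((z + 1 / 2) * (b + 1 / 2)).im := by
      rw [mul_assoc, ← ofReal_natCast, im_ofReal_mul]
    rw [e5]
    ring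
  have h7 : -(s * Real.pi * (z.im + b.im)) ≤ |(s : ℝ)| * Real.pi * (2 * d) := by
    refine (neg_le_abs _).trans ?_
    rw [abs_mul, abs_mul, abs_of_pos Real.pi_pos]
    apply mul_le_mul_of_nonneg_left _ (by positivity)
    exact (abs_add_le _ _).trans (by linarith)
  unfold kH
  rw [norm_mul, norm_mul, norm_mul, e1, norm_exp, norm_exp, neg_re, neg_re, ← Real.exp_add]
  calc Real.exp (M * (qH s z b).re - s * Real.pi * (z.im + b.im)) *
        Real.exp (-(LL M (M * (z + 1 / 2) - 1)).re + -(LL M (M * (b + 1 / 2) - 1)).re) * ‖rS M (M * (z + b) - 1)‖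
      ≤ Real.exp (M * (qH s z b).re + |(s : ℝ)| * Real.pi * (2 * d)) *
        Real.exp (-(M * Rf (z + 1 / 2)) + C₁ * (1 + Real.log M + d) + (-(M * Rf (b + 1 / 2)) + C₁ * (1 + Real.log M + d))) *
        (Real.exp (C * (1 + Real.log M + |(z + b).im|)) * Real.exp (-(M * Rf (z + b)))) := by
        apply mul_le_mul _ h5 (norm_nonneg _) (by positivity)
        apply mul_le_mul (Real.exp_le_exp.2 (by linarith)) _ (Real.exp_pos _).le (Real.exp_pos _).le
        apply Real.exp_le_exp.2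
        nlinarith [hz5.1, hb5.1]
    _ = Real.exp (|(s : ℝ)| * Real.pi * (2 * d) + 2 * C₁ * (1 + Real.log M + d) + C * (1 + Real.log M + |(z + b).im|)) *
        Real.exp (M * gH s z b) := by
        simp only [← Real.exp_add]
        congr 1
        unfold gH
        ring
    _ ≤ Real.exp ((2 * C + 2 * C₁ + 2 * (|(s : ℝ)| * Real.pi)) * (1 + Real.log M + d)) * Real.exp (M * gH s z b) := by
        apply mul_le_mul_of_nonneg_right _ (Real.exp_pos _).le
        apply Real.exp_le_exp.2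
        have h8 : 0 ≤ |(s : ℝ)| * Real.pi := by positivity
        nlinarith [mul_nonneg h8 hlM, mul_nonneg hC.le hlM, mul_nonneg hC.le h4]
    _ ≤ _ := mul_le_mul_of_nonneg_right (hp M hM) (Real.exp_pos _).le

end Pool.Agent.S5
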