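import Pool.Agent.S5.S.Defs
import Pool.Agent.S3.Gr1

/-!
# Compactness: the inequality is uniform near the limit contours
-/

set_option autoImplicit false

namespace Pool.Agent.S5

open Complex Filter Topology

variable {m : ℕ} {C : Ch m} {K : Cn m} {e0 : ℝ}

/-! ### Continuity -/

private theorem ye_cont (n : ℕ) : Continuous fun y : Fin m → ℂ => ye y n := by
  unfold ye
  split_ifs with h
  · exact continuous_apply _
  · exact continuous_const

private theorem gC_cont (s : ℤ) {X : Type} [TopologicalSpace X] {f g : X → ℂ} (hf : Continuous f)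
    (hg : Continuous g) : Continuous fun x => gC s (f x) (g x) := by
  unfold gC qC
  refine Continuous.sub (Complex.continuous_re.comp ?_) (S3.Rf_continuous.comp (hf.add hg))
  fun_prop

private theorem gB_cont (s : ℤ) {X : Type} [TopologicalSpace X] {f g : X → ℂ} (hf : Continuous f)
    (hg : Continuous g) : Continuous fun x => gB s (f x) (g x) := by
  unfold gB qB
  refine Continuous.sub (Complex.continuous_re.comp ?_) (S3.Rf_continuous.comp (hf.sub hg))
  fun_prop

private theorem gH_cont (s : ℤ) {X : Type} [TopologicalSpace X] {f g : X → ℂ} (hf : Continuous f)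
    (hg : Continuous g) : Continuous fun x => gH s (f x) (g x) := by
  unfold gH qH
  refine Continuous.sub (Continuous.sub (Continuous.sub (Complex.continuous_re.comp ?_)
    (S3.Rf_continuous.comp (hf.add continuous_const)))
      (S3.Rf_continuous.comp (hg.add continuous_const))) (S3.Rf_continuous.comp (hf.add hg))
  fun_prop

private theorem gV_cont (r : ℝ) {X : Type} [TopologicalSpace X] {v f g : X → ℂ} (hv : Continuous v)
    (hf : Continuous f) (hg : Continuous g) : Continuous fun x => gV r (v x) (f x) (g x) := by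
  unfold gV S3.wr
  refine Continuous.sub (Continuous.sub (Continuous.sub (Continuous.sub
    (Complex.continuous_re.comp ?_)
    (S3.Rf_continuous.comp (hf.sub hv))) (S3.Rf_continuous.comp (hf.add hv)))
      (S3.Rf_continuous.comp (hg.sub hv))) (S3.Rf_continuous.comp (hg.add hv))
  fun_prop

private theorem gN_cont (c : ℤ) (ty : Ty) (fl : Bool) {X : Type} [TopologicalSpace X]
    {v f g : X → ℂ} (hv : Continuous v) (hf : Continuous f) (hg : Continuous g) :
    Continuous fun x => gN c ty fl (v x) (f x) (g x) := by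
  unfold gN
  cases ty with
  | cl => exact gC_cont _ hf hg
  | zn =>
    simp only
    split_ifs
    · exact (gB_cont _ hg hv).add (gH_cont _ hv hf)
    · exact (gB_cont _ hf hv).add (gH_cont _ hv hg)
    · exact (gB_cont _ hg hv).add (gC_cont _ hv hf)
    · exact (gB_cont _ hf hv).add (gC_cont _ hv hg)
  | vn => exact gV_cont _ hv hf hg

/-- The growth rate is continuous. -/
theorem Ch.G_cont (C : Ch m) :
    Continuous fun p : (Fin (m + 1) → ℂ) × (Fin m → ℂ) => C.G p.1 p.2 := by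
  unfold Ch.G
  refine Continuous.add (continuous_finsetSum _ fun j _ => ?_)
    (continuous_finsetSum _ fun i _ => ?_)
  · refine continuous_const.mul (S3.Rf_continuous.comp ?_)
    exact ((continuous_apply j).comp continuous_snd).add continuous_const
  · exact gN_cont _ _ _ ((continuous_apply i).comp continuous_fst)
      ((ye_cont _).comp continuous_snd) ((ye_cont _).comp continuous_snd)

/-! ### The abstract form -/

private theorem cpt_gen {X : Type} [MetricSpace X] {A F : Set X} (hA : IsCompact A)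
    (hF : IsClosed F) {Φ : X → ℝ} (hΦ : Continuous Φ) (hneg : ∀ p ∈ A, p ∈ F → Φ p < 0) :
    ∃ ε : ℝ, 0 < ε ∧ ∃ δ : ℝ, 0 < δ ∧ ∀ p, p ∈ F → (∃ q ∈ A, dist p q ≤ ε) → Φ p ≤ -δ := by
  obtain ⟨δ, hδ, hδ'⟩ : ∃ δ : ℝ, 0 < δ ∧ ∀ p ∈ A, p ∈ F → Φ p < -δ := by
    rcases (A ∩ F).eq_empty_or_nonempty with h | h
    · refine ⟨1, one_pos, fun p hp hp' => ?_⟩
      have h' : p ∈ A ∩ F := ⟨hp, hp'⟩
      rw [h] at h'
      exact absurd h' (Set.notMem_empty p)
    · obtain ⟨q, hq, hmax⟩ := (hA.inter_right hF).exists_isMaxOn h hΦ.continuousOn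
      have hq0 := hneg q hq.1 hq.2
      refine ⟨-(Φ q) / 2, by linarith, fun p hp hp' => ?_⟩
      have h1 : Φ p ≤ Φ q := hmax ⟨hp, hp'⟩
      linarith
  have hV : IsOpen (Fᶜ ∪ {p | Φ p < -δ}) :=
    hF.isOpen_compl.union (isOpen_lt hΦ continuous_const)
  obtain ⟨ε, hε, hsub⟩ := hA.exists_cthickening_subset_open hV (fun p hp => by
    by_cases hpF : p ∈ F
    · exact Or.inr (hδ' p hp hpF)
    · exact Or.inl hpF)
  refine ⟨ε, hε, δ, hδ, fun p hpF ⟨q, hq, hpq⟩ => ?_⟩
  rcases hsub (Metric.mem_cthickening_of_dist_le p q ε A hq hpq) with h | h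
  · exact absurd hpF h
  · exact le_of_lt h

/-- Abstract form. -/
theorem cpt_abs {X : Type} [MetricSpace X] {A : Set X} (hA : IsCompact A) {Φ : X → ℝ}
    (hΦ : Continuous Φ) (c : X) (hneg : ∀ p ∈ A, p ≠ c → Φ p < 0) (r : ℝ) (hr : 0 < r) :
    ∃ ε : ℝ, 0 < ε ∧ ∃ δ : ℝ, 0 < δ ∧ ∀ p, (∃ q ∈ A, dist p q ≤ ε) → r ≤ dist p c → Φ p ≤ -δ := by
  obtain ⟨ε, hε, δ, hδ, h⟩ := cpt_gen (F := {p | r ≤ dist p c}) hA
    (isClosed_le continuous_const (continuous_id.dist continuous_const)) hΦ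
    (fun p hp hpF => hneg p hp (fun h => by
      have hpF' : r ≤ dist p c := hpF
      rw [h, dist_self] at hpF'
      linarith))
  exact ⟨ε, hε, δ, hδ, fun p hq hr' => h p hr' hq⟩

/-! ### The closed nodes -/

private theorem gN_cl {c : ℤ} {ty : Ty} (h : ty = Ty.cl) (fl : Bool) (z z' a b : ℂ) :
    gN c ty fl z a b = gN c ty fl z' a b := by
  subst h
  rfl

private theorem G_congr (C : Ch m) {o o' : Fin (m + 1) → ℂ} (y : Fin m → ℂ)
    (h : ∀ i, C.ty i ≠ Ty.cl → o i = o' i) : C.G o y = C.G o' y := by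
  unfold Ch.G
  congr 1
  refine Finset.sum_congr rfl fun i _ => ?_
  by_cases hi : C.ty i = Ty.cl
  · exact gN_cl hi _ _ _ _ _
  · rw [h i hi]

/-- The variables of the closed nodes are put to `0`. -/
private noncomputable def oz (C : Ch m) (o : Fin (m + 1) → ℂ) (i : Fin (m + 1)) : ℂ :=
  if C.ty i = Ty.cl then 0 else o i

private theorem oz_of {C : Ch m} {o : Fin (m + 1) → ℂ} {i : Fin (m + 1)} (h : C.ty i ≠ Ty.cl) :
    oz C o i = o i := by
  simp [oz, h]

private theorem oz_cl {C : Ch m} {o : Fin (m + 1) → ℂ} {i : Fin (m + 1)} (h : C.ty i = Ty.cl) :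
    oz C o i = 0 := by
  simp [oz, h]

private theorem G_oz (C : Ch m) (o : Fin (m + 1) → ℂ) (y : Fin m → ℂ) :
    C.G (oz C o) y = C.G o y := G_congr C y fun _ hi => oz_of hi

private theorem AdmC.oz {P : Pat m} {o : Fin (m + 1) → ℂ} {y : Fin m → ℂ}
    {wo : Fin (m + 1) → ℝ} {wy : Fin m → ℝ} (h : AdmC C K P o y wo wy) :
    AdmC C K P (oz C o) y wo wy where
  low := h.low
  prt := h.prt
  hi := h.hi
  cl := h.cl
  zl i hi ht := by
    rw [oz_of (by simp [hi])]
    exact h.zl i hi ht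
  zm i hi ht hH := by
    rw [oz_of (by simp [hi])]
    exact h.zm i hi ht hH
  zp i hi ht hH := by
    rw [oz_of (by simp [hi])]
    exact h.zp i hi ht hH
  zq i hi ht hH := by
    rw [oz_of (by simp [hi])]
    exact h.zq i hi ht hH
  vl i hi ht := by
    rw [oz_of (by simp [hi])]
    exact h.vl i hi ht
  vh i hi ht := by
    rw [oz_of (by simp [hi])]
    exact h.vh i hi ht

/-! ### The admissible sets are compact -/

/-- The space of configurations. -/
private abbrev Xs (m : ℕ) : Type :=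
  (Fin (m + 1) → ℂ) × (Fin m → ℂ) × (Fin (m + 1) → ℝ) × (Fin m → ℝ)

/-- The admissible set. -/
private def As (C : Ch m) (K : Cn m) (P : Pat m) : Set (Xs m) :=
  {p | AdmC C K P p.1 p.2.1 p.2.2.1 p.2.2.2 ∧ ∀ i, C.ty i = Ty.cl → p.1 i = 0}

private theorem cl_or {X : Type} [TopologicalSpace X] {Q R : X → Prop} (h : IsClosed {p | Q p})
    (h' : IsClosed {p | R p}) : IsClosed {p | Q p ∨ R p} := h.union h'

private theorem cl_and {X : Type} [TopologicalSpace X] {Q R : X → Prop} (h : IsClosed {p | Q p})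
    (h' : IsClosed {p | R p}) : IsClosed {p | Q p ∧ R p} := h.inter h'

private theorem cl_all {X : Type} [TopologicalSpace X] {ι : Sort*} {Q : ι → X → Prop}
    (h : ∀ i, IsClosed {p | Q i p}) : IsClosed {p | ∀ i, Q i p} := by
  rw [Set.ofPred_forall]
  exact isClosed_iInter h

private theorem cl_ex {X : Type} [TopologicalSpace X] {ι : Type} [Finite ι] {Q : ι → X → Prop}
    (h : ∀ i, IsClosed {p | Q i p}) : IsClosed {p | ∃ i, Q i p} := by
  rw [Set.ofPred_exists]
  exact isClosed_iUnion_of_finite h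

private theorem LimR_closed {X : Type} [TopologicalSpace X] {f : X → ℂ} {g : X → ℝ}
    (hf : Continuous f) (hg : Continuous g) (x0 x1 d η : ℝ) :
    IsClosed {p | LimR x0 x1 d η (f p) (g p)} := by
  have hre : Continuous fun p => (f p).re := Complex.continuous_re.comp hf
  have him : Continuous fun p => (f p).im := Complex.continuous_im.comp hf
  have hc : ∀ a : ℝ, Continuous fun _ : X => a := fun a => continuous_const
  unfold LimR
  refine cl_or ?_ (cl_or ?_ (cl_or ?_ ?_))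
  · refine cl_and (isClosed_eq hg (hc _)) (cl_and (isClosed_eq him (hc _))
      (cl_and (isClosed_le (hc _) hre) (isClosed_le hre (hc _))))
  · refine cl_and (isClosed_eq hg (hc _)) (cl_and (cl_or (isClosed_eq hre (hc _))
      (isClosed_eq hre (hc _))) ?_)
    exact isClosed_Icc.preimage him
  · exact cl_and (isClosed_eq hg (continuous_const.mul him.abs))
      (cl_and (cl_or (isClosed_eq hre (hc _)) (isClosed_eq hre (hc _))) (isClosed_le him.abs (hc _)))
  · exact cl_and (isClosed_eq hg (hc _)) (cl_and (isClosed_eq him.abs (hc _))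
      (cl_and (isClosed_le (hc _) hre) (isClosed_le hre (hc _))))

private theorem LimV_closed {X : Type} [TopologicalSpace X] {f : X → ℂ}
    (hf : Continuous f) (ν x1 : ℝ) : IsClosed {p | LimV ν x1 (f p)} := by
  have hre : Continuous fun p => (f p).re := Complex.continuous_re.comp hf
  have him : Continuous fun p => (f p).im := Complex.continuous_im.comp hf
  have hc : ∀ a : ℝ, Continuous fun _ : X => a := fun a => continuous_const
  unfold LimV
  refine cl_or ?_ (cl_or ?_ ?_)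
  · exact cl_and (isClosed_eq him (hc _)) (isClosed_le hre.abs (hc _))
  · exact cl_and (isClosed_eq hre.abs (hc _)) (cl_and (isClosed_le (hc _) him)
      (isClosed_le him (hc _)))
  · exact cl_and (isClosed_eq him (hc _)) (cl_and (isClosed_le (hc _) hre.abs)
      (isClosed_le hre.abs (hc _)))

private theorem ho_c (i : Fin (m + 1)) : Continuous fun p : Xs m => p.1 i :=
  (continuous_apply i).comp continuous_fst

private theorem hy_c (j : Fin m) : Continuous fun p : Xs m => p.2.1 j :=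
  (continuous_apply j).comp (continuous_fst.comp continuous_snd)

private theorem hye_c (n : ℕ) : Continuous fun p : Xs m => ye p.2.1 n :=
  (ye_cont n).comp (continuous_fst.comp continuous_snd)

private theorem hwo_c (i : Fin (m + 1)) : Continuous fun p : Xs m => p.2.2.1 i :=
  (continuous_apply i).comp (continuous_fst.comp (continuous_snd.comp continuous_snd))

private theorem hwy_c (j : Fin m) : Continuous fun p : Xs m => p.2.2.2 j :=
  (continuous_apply j).comp (continuous_snd.comp (continuous_snd.comp continuous_snd))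

private theorem hys_c (C : Ch m) (i : Fin (m + 1)) : Continuous fun p : Xs m =>
    ys (C.fl i) (ye p.2.1 i) (ye p.2.1 (i + 1)) := by
  unfold ys
  split_ifs
  · exact hye_c _
  · exact hye_c _

private theorem hyt_c (C : Ch m) (i : Fin (m + 1)) : Continuous fun p : Xs m =>
    yt (C.fl i) (ye p.2.1 i) (ye p.2.1 (i + 1)) := by
  unfold yt
  split_ifs
  · exact hye_c _
  · exact hye_c _

private theorem re_c {X : Type} [TopologicalSpace X] {f : X → ℂ} (hf : Continuous f) :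
    Continuous fun p => (f p).re := Complex.continuous_re.comp hf

private theorem im_c {X : Type} [TopologicalSpace X] {f : X → ℂ} (hf : Continuous f) :
    Continuous fun p => (f p).im := Complex.continuous_im.comp hf

/-- `y` real in an interval with weight `0`. -/
private theorem seg_cl {X : Type} [TopologicalSpace X] {f : X → ℂ} {g : X → ℝ} (hf : Continuous f)
    (hg : Continuous g) (a b : ℝ) :
    IsClosed {p | (f p).im = 0 ∧ a ≤ (f p).re ∧ (f p).re ≤ b ∧ g p = 0} :=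
  cl_and (isClosed_eq (im_c hf) continuous_const) (cl_and (isClosed_le continuous_const (re_c hf))
    (cl_and (isClosed_le (re_c hf) continuous_const) (isClosed_eq hg continuous_const)))

private theorem As_eq (C : Ch m) (K : Cn m) (P : Pat m) : As C K P = {p : Xs m |
      (∀ j, j ∈ P.S → ((p.2.1 j).im = 0 ∧ -(1 / 2) ≤ (p.2.1 j).re ∧ (p.2.1 j).re ≤ -(1 / 4) ∧
        p.2.2.2 j = 0)) ∧
      (∀ j, Prt C P j → ((p.2.1 j).im = 0 ∧ 1 / 4 ≤ (p.2.1 j).re ∧ (p.2.1 j).re ≤ 1 / 2 ∧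
        p.2.2.2 j = 0)) ∧
      (∀ j, j ∉ P.S → ¬ Prt C P j →
        LimR (-(1 / 4)) (1 / 2) K.d (K.yc j).im (p.2.1 j) (p.2.2.2 j)) ∧
      (∀ i, C.ty i = Ty.cl → (p.2.2.1 i = 0 ∧
        (Tch P.S i → 0 ≤ (ye p.2.1 i + ye p.2.1 (i + 1)).re))) ∧
      (∀ i, C.ty i = Ty.zn → Tch P.S i → (p.2.2.1 i = 0 ∧ (p.1 i).im = 0 ∧
        -(1 / 2) ≤ (p.1 i).re ∧ (p.1 i).re ≤ 1 / 2 ∧
        (p.1 i).re ≤ (ys (C.fl i) (ye p.2.1 i) (ye p.2.1 (i + 1))).re ∧
          0 ≤ (p.1 i).re + (yt (C.fl i) (ye p.2.1 i) (ye p.2.1 (i + 1))).re)) ∧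
      (∀ i, C.ty i = Ty.zn → ¬ Tch P.S i → P.H i = 0 →
        LimR (-K.z1 i) (K.z1 i) (K.dz i) (K.oc i).im (p.1 i) (p.2.2.1 i)) ∧
      (∀ i, C.ty i = Ty.zn → ¬ Tch P.S i → P.H i = 1 → (p.2.2.1 i = 0 ∧ (p.1 i).im = 0 ∧
        K.z1 i ≤ (p.1 i).re ∧ (p.1 i).re ≤ 1 / 2 ∧
          (p.1 i).re ≤ (ys (C.fl i) (ye p.2.1 i) (ye p.2.1 (i + 1))).re)) ∧
      (∀ i, C.ty i = Ty.zn → ¬ Tch P.S i → P.H i = -1 → (p.2.2.1 i = 0 ∧ (p.1 i).im = 0 ∧
        -(1 / 2) ≤ (p.1 i).re ∧ (p.1 i).re ≤ -K.z1 i ∧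
          0 ≤ (p.1 i).re + (yt (C.fl i) (ye p.2.1 i) (ye p.2.1 (i + 1))).re)) ∧
      (∀ i, C.ty i = Ty.vn → Tch P.S i → (p.2.2.1 i = 0 ∧ (p.1 i).im = 0 ∧ (p.1 i).re ≤ 1 / 2 ∧
        ∀ j, j ∈ P.S → At j i → -(p.2.1 j).re ≤ (p.1 i).re)) ∧
      (∀ i, C.ty i = Ty.vn → ¬ Tch P.S i → (p.2.2.1 i = 0 ∧
        LimV (K.oc i).im (K.x1 i) (p.1 i))) ∧
      ∀ i, C.ty i = Ty.cl → p.1 i = 0} := by
  ext p
  constructor
  · rintro ⟨h, h'⟩
    exact ⟨h.low, h.prt, h.hi, h.cl, h.zl, h.zm, h.zp, h.zq, h.vl, h.vh, h'⟩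
  · rintro ⟨h1, h2, h3, h4, h5, h6, h7, h8, h9, h10, h'⟩
    exact ⟨⟨h1, h2, h3, h4, h5, h6, h7, h8, h9, h10⟩, h'⟩

private theorem As_closed (C : Ch m) (K : Cn m) (P : Pat m) : IsClosed (As C K P) := by
  rw [As_eq]
  have hc : ∀ a : ℝ, Continuous fun _ : Xs m => a := fun a => continuous_const
  refine cl_and ?_ (cl_and ?_ (cl_and ?_ (cl_and ?_ (cl_and ?_
    (cl_and ?_ (cl_and ?_ (cl_and ?_ (cl_and ?_ (cl_and ?_ ?_)))))))))
  · refine cl_all fun j => cl_all fun _ => ?_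
    exact seg_cl (hy_c j) (hwy_c j) _ _
  · refine cl_all fun j => cl_all fun _ => ?_
    exact seg_cl (hy_c j) (hwy_c j) _ _
  · refine cl_all fun j => cl_all fun _ => cl_all fun _ => ?_
    exact LimR_closed (hy_c j) (hwy_c j) _ _ _ _
  · refine cl_all fun i => cl_all fun _ => cl_and (isClosed_eq (hwo_c i) (hc _)) ?_
    refine cl_all fun _ => ?_
    exact isClosed_le (hc _) (re_c ((hye_c _).add (hye_c _)))
  · refine cl_all fun i => cl_all fun _ => cl_all fun _ => ?_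
    refine cl_and (isClosed_eq (hwo_c i) (hc _)) (cl_and (isClosed_eq (im_c (ho_c i)) (hc _))
      (cl_and (isClosed_le (hc _) (re_c (ho_c i))) (cl_and (isClosed_le (re_c (ho_c i)) (hc _))
        (cl_and (isClosed_le (re_c (ho_c i)) (re_c (hys_c C i))) ?_))))
    exact isClosed_le (hc _) ((re_c (ho_c i)).add (re_c (hyt_c C i)))
  · refine cl_all fun i => cl_all fun _ => cl_all fun _ => cl_all fun _ => ?_
    exact LimR_closed (ho_c i) (hwo_c i) _ _ _ _
  · refine cl_all fun i => cl_all fun _ => cl_all fun _ => cl_all fun _ => ?_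
    refine cl_and (isClosed_eq (hwo_c i) (hc _)) (cl_and (isClosed_eq (im_c (ho_c i)) (hc _))
      (cl_and (isClosed_le (hc _) (re_c (ho_c i))) (cl_and (isClosed_le (re_c (ho_c i)) (hc _)) ?_)))
    exact isClosed_le (re_c (ho_c i)) (re_c (hys_c C i))
  · refine cl_all fun i => cl_all fun _ => cl_all fun _ => cl_all fun _ => ?_
    refine cl_and (isClosed_eq (hwo_c i) (hc _)) (cl_and (isClosed_eq (im_c (ho_c i)) (hc _))
      (cl_and (isClosed_le (hc _) (re_c (ho_c i))) (cl_and (isClosed_le (re_c (ho_c i)) (hc _)) ?_)))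
    exact isClosed_le (hc _) ((re_c (ho_c i)).add (re_c (hyt_c C i)))
  · refine cl_all fun i => cl_all fun _ => cl_all fun _ => ?_
    refine cl_and (isClosed_eq (hwo_c i) (hc _)) (cl_and (isClosed_eq (im_c (ho_c i)) (hc _))
      (cl_and (isClosed_le (re_c (ho_c i)) (hc _)) ?_))
    refine cl_all fun j => cl_all fun _ => cl_all fun _ => ?_
    exact isClosed_le (re_c (hy_c j)).neg (re_c (ho_c i))
  · refine cl_all fun i => cl_all fun _ => cl_all fun _ => ?_
    exact cl_and (isClosed_eq (hwo_c i) (hc _)) (LimV_closed (ho_c i) _ _)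
  · refine cl_all fun i => cl_all fun _ => ?_
    exact isClosed_eq (ho_c i) continuous_const

private theorem LimR_bd {x0 x1 d η : ℝ} {z : ℂ} {w : ℝ} (h : LimR x0 x1 d η z w) :
    ‖z‖ ≤ |x0| + |x1| + |d| + |η| ∧ |w| ≤ 2 * Real.pi * |d| := by
  have hpi := Real.pi_pos
  have h1 := le_abs_self x0
  have h2 := neg_abs_le x0
  have h3 := le_abs_self x1
  have h4 := neg_abs_le x1
  have h5 := le_abs_self d
  have h6 := abs_nonneg d
  have h7 := abs_nonneg η
  have h8 : 0 ≤ 2 * Real.pi * |d| := by positivity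
  have hz := Complex.norm_le_abs_re_add_abs_im z
  rcases h with ⟨hw, hi, hx, hx'⟩ | ⟨hw, hx, hi⟩ | ⟨hw, hx, hi⟩ | ⟨hw, hi, hx, hx'⟩
  · have hr : |z.re| ≤ |x0| + |x1| := abs_le.mpr ⟨by linarith, by linarith⟩
    rw [hi] at hz
    refine ⟨by linarith, ?_⟩
    rw [hw, abs_zero]
    exact h8
  · have hr : |z.re| ≤ |x0| + |x1| := by
      rcases hx with hx | hx <;> rw [hx] <;> linarith
    have hi' : |z.im| ≤ |η| := by
      rcases Set.mem_uIcc.mp hi with ⟨ha, hb⟩ | ⟨ha, hb⟩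
      · rw [abs_of_nonneg ha]
        exact hb.trans (le_abs_self η)
      · rw [abs_of_nonpos hb]
        exact (neg_le_neg ha).trans (neg_le_abs η)
    refine ⟨by linarith, ?_⟩
    rw [hw, abs_zero]
    exact h8
  · have hr : |z.re| ≤ |x0| + |x1| := by
      rcases hx with hx | hx <;> rw [hx] <;> linarith
    refine ⟨by linarith, ?_⟩
    rw [hw, abs_of_nonneg (by positivity)]
    exact mul_le_mul_of_nonneg_left (hi.trans h5) (by positivity)
  · have hr : |z.re| ≤ |x0| + |x1| := abs_le.mpr ⟨by linarith, by linarith⟩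
    refine ⟨by linarith, ?_⟩
    rw [hw, abs_mul, abs_of_nonneg (by positivity : (0 : ℝ) ≤ 2 * Real.pi)]

private theorem LimV_bd {ν x1 : ℝ} {v : ℂ} (h : LimV ν x1 v) : ‖v‖ ≤ |ν| + |x1| + 1 / 2 := by
  have hz := Complex.norm_le_abs_re_add_abs_im v
  have h3 := le_abs_self x1
  have h5 := le_abs_self ν
  have h7 := abs_nonneg ν
  have h8 := abs_nonneg x1
  rcases h with ⟨hi, hr⟩ | ⟨hr, hi, hi'⟩ | ⟨hi, hr, hr'⟩
  · rw [hi] at hz
    linarith
  · rw [abs_of_nonneg hi] at hz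
    linarith
  · rw [hi, abs_zero] at hz
    linarith

private theorem real_bd {z : ℂ} (hi : z.im = 0) (h1 : -(1 / 2) ≤ z.re) (h2 : z.re ≤ 1 / 2) :
    ‖z‖ ≤ 1 / 2 := by
  have hz := Complex.norm_le_abs_re_add_abs_im z
  rw [hi, abs_zero, add_zero] at hz
  exact hz.trans (abs_le.mpr ⟨h1, h2⟩)

/-- The bound of the coordinates. -/
private noncomputable def Bd (K : Cn m) : ℝ :=
  1 + (1 + 2 * Real.pi) * (|K.d| + ∑ i, |K.dz i|) + ∑ j, |(K.yc j).im| +
    ∑ i, (|(K.oc i).im| + 2 * |K.z1 i| + |K.x1 i|)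

private theorem Bd_nn (K : Cn m) : 1 ≤ Bd K := by
  have hpi := Real.pi_pos
  have h1 : 0 ≤ (1 + 2 * Real.pi) * (|K.d| + ∑ i, |K.dz i|) :=
    mul_nonneg (by positivity) (add_nonneg (abs_nonneg _) (Finset.sum_nonneg fun _ _ => abs_nonneg _))
  have h2 : 0 ≤ ∑ j, |(K.yc j).im| := Finset.sum_nonneg fun _ _ => abs_nonneg _
  have h3 : 0 ≤ ∑ i, (|(K.oc i).im| + 2 * |K.z1 i| + |K.x1 i|) :=
    Finset.sum_nonneg fun _ _ => by positivity
  unfold Bd
  linarith

private theorem Bd_y (K : Cn m) (j : Fin m) :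
    1 + |K.d| + |(K.yc j).im| ≤ Bd K ∧ 2 * Real.pi * |K.d| ≤ Bd K := by
  have hpi := Real.pi_pos
  have h0 : 0 ≤ ∑ i, |K.dz i| := Finset.sum_nonneg fun _ _ => abs_nonneg _
  have h2 : |(K.yc j).im| ≤ ∑ j, |(K.yc j).im| :=
    Finset.single_le_sum (f := fun j => |(K.yc j).im|) (fun _ _ => abs_nonneg _) (Finset.mem_univ j)
  have h3 : 0 ≤ ∑ i, (|(K.oc i).im| + 2 * |K.z1 i| + |K.x1 i|) :=
    Finset.sum_nonneg fun _ _ => by positivity
  have h4 : 0 ≤ 2 * Real.pi * |K.d| := by positivity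
  have h5 : 0 ≤ 2 * Real.pi * ∑ i, |K.dz i| := by positivity
  have h6 := abs_nonneg (K.yc j).im
  have h7 := abs_nonneg K.d
  unfold Bd
  constructor <;> nlinarith

private theorem Bd_o (K : Cn m) (i : Fin (m + 1)) :
    1 + |K.dz i| + |(K.oc i).im| + 2 * |K.z1 i| + |K.x1 i| ≤ Bd K ∧
      2 * Real.pi * |K.dz i| ≤ Bd K := by
  have hpi := Real.pi_pos
  have h0 : |K.dz i| ≤ ∑ i, |K.dz i| :=
    Finset.single_le_sum (f := fun i => |K.dz i|) (fun _ _ => abs_nonneg _) (Finset.mem_univ i)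
  have h2 : 0 ≤ ∑ j, |(K.yc j).im| := Finset.sum_nonneg fun _ _ => abs_nonneg _
  have h3 : |(K.oc i).im| + 2 * |K.z1 i| + |K.x1 i| ≤
      ∑ i, (|(K.oc i).im| + 2 * |K.z1 i| + |K.x1 i|) :=
    Finset.single_le_sum (f := fun i => |(K.oc i).im| + 2 * |K.z1 i| + |K.x1 i|)
      (fun _ _ => by positivity) (Finset.mem_univ i)
  have h4 : 0 ≤ 2 * Real.pi * |K.d| := by positivity
  have h5 : 2 * Real.pi * |K.dz i| ≤ 2 * Real.pi * ∑ i, |K.dz i| :=
    mul_le_mul_of_nonneg_left h0 (by positivity)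
  have h6 := abs_nonneg (K.oc i).im
  have h7 := abs_nonneg K.d
  have h8 := abs_nonneg (K.z1 i)
  have h9 := abs_nonneg (K.x1 i)
  have h10 := abs_nonneg (K.dz i)
  have h11 : 0 ≤ 2 * Real.pi * |K.dz i| := by positivity
  unfold Bd
  constructor <;> nlinarith

private theorem As_bd {P : Pat m} {p : Xs m} (h : p ∈ As C K P) : ‖p‖ ≤ Bd K := by
  obtain ⟨h, hcl⟩ := h
  have hB := Bd_nn K
  have hB0 : 0 ≤ Bd K := by linarith
  have hpi := Real.pi_pos
  have hY : ∀ j, ‖p.2.1 j‖ ≤ Bd K ∧ |p.2.2.2 j| ≤ Bd K := by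
    intro j
    obtain ⟨hb1, hb2⟩ := Bd_y K j
    by_cases hj : j ∈ P.S
    · obtain ⟨h1, h2, h3, h4⟩ := h.low j hj
      refine ⟨(real_bd h1 h2 (by linarith)).trans (by linarith), ?_⟩
      rw [h4, abs_zero]
      exact hB0
    by_cases hj' : Prt C P j
    · obtain ⟨h1, h2, h3, h4⟩ := h.prt j hj'
      refine ⟨(real_bd h1 (by linarith) h3).trans (by linarith), ?_⟩
      rw [h4, abs_zero]
      exact hB0
    · obtain ⟨h1, h2⟩ := LimR_bd (h.hi j hj hj')
      have e1 : |(-(1 / 4) : ℝ)| = 1 / 4 := by rw [abs_neg]; norm_num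
      have e2 : |(1 / 2 : ℝ)| = 1 / 2 := by norm_num
      rw [e1, e2] at h1
      exact ⟨by linarith, by linarith⟩
  have hO : ∀ i, ‖p.1 i‖ ≤ Bd K ∧ |p.2.2.1 i| ≤ Bd K := by
    intro i
    obtain ⟨hb1, hb2⟩ := Bd_o K i
    have p1 := abs_nonneg (K.dz i)
    have p2 := abs_nonneg (K.oc i).im
    have p3 := abs_nonneg (K.z1 i)
    have p4 := abs_nonneg (K.x1 i)
    rcases hty : C.ty i with _ | _ | _
    · rw [hcl i hty, norm_zero, (h.cl i hty).1, abs_zero]
      exact ⟨hB0, hB0⟩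
    · by_cases ht : Tch P.S i
      · obtain ⟨h1, h2, h3, h4, -⟩ := h.zl i hty ht
        refine ⟨(real_bd h2 h3 h4).trans (by linarith), ?_⟩
        rw [h1, abs_zero]
        exact hB0
      · rcases hH : P.H i with _ | _ | _
        · obtain ⟨h1, h2⟩ := LimR_bd (h.zm i hty ht hH)
          rw [abs_neg] at h1
          exact ⟨by linarith, by linarith⟩
        · obtain ⟨h1, h2, h3, h4, -⟩ := h.zq i hty ht hH
          have hz := Complex.norm_le_abs_re_add_abs_im (p.1 i)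
          rw [h2, abs_zero, add_zero] at hz
          have q1 := neg_abs_le (K.z1 i)
          have q2 : |(p.1 i).re| ≤ 1 / 2 + |K.z1 i| := abs_le.mpr ⟨by linarith, by linarith⟩
          refine ⟨by linarith, ?_⟩
          rw [h1, abs_zero]
          exact hB0
        · obtain ⟨h1, h2, h3, h4, -⟩ := h.zp i hty ht hH
          have hz := Complex.norm_le_abs_re_add_abs_im (p.1 i)
          rw [h2, abs_zero, add_zero] at hz
          have q1 := neg_abs_le (K.z1 i)
          have q2 : |(p.1 i).re| ≤ 1 / 2 + |K.z1 i| := abs_le.mpr ⟨by linarith, by linarith⟩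
          refine ⟨by linarith, ?_⟩
          rw [h1, abs_zero]
          exact hB0
    · by_cases ht : Tch P.S i
      · obtain ⟨h1, h2, h3, h4⟩ := h.vl i hty ht
        obtain ⟨j, hj, hji⟩ := ht
        have h5 := h4 j hj hji
        obtain ⟨-, -, h6, -⟩ := h.low j hj
        refine ⟨(real_bd h2 (by linarith) h3).trans (by linarith), ?_⟩
        rw [h1, abs_zero]
        exact hB0
      · obtain ⟨h1, h2⟩ := h.vh i hty ht
        refine ⟨(LimV_bd h2).trans (by linarith), ?_⟩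
        rw [h1, abs_zero]
        exact hB0
  rw [Prod.norm_def, Prod.norm_def, Prod.norm_def]
  refine max_le ?_ (max_le ?_ (max_le ?_ ?_))
  · exact (pi_norm_le_iff_of_nonneg hB0).mpr fun i => (hO i).1
  · exact (pi_norm_le_iff_of_nonneg hB0).mpr fun j => (hY j).1
  · exact (pi_norm_le_iff_of_nonneg hB0).mpr fun i => (hO i).2
  · exact (pi_norm_le_iff_of_nonneg hB0).mpr fun j => (hY j).2

private theorem As_cpt (C : Ch m) (K : Cn m) (P : Pat m) : IsCompact (As C K P) := by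
  refine (isCompact_closedBall (0 : Xs m) (Bd K)).of_isClosed_subset (As_closed C K P) ?_
  intro p hp
  rw [mem_closedBall_zero_iff]
  exact As_bd hp

/-- The function. -/
private noncomputable def Ps (C : Ch m) (e0 : ℝ) (p : Xs m) : ℝ :=
  C.G p.1 p.2.1 - e0 - ∑ i, p.2.2.1 i - ∑ j, p.2.2.2 j

private theorem Ps_cont (C : Ch m) (e0 : ℝ) : Continuous (Ps C e0) := by
  unfold Ps
  refine Continuous.sub (Continuous.sub (Continuous.sub ?_ continuous_const) ?_) ?_
  · have h1 : Continuous fun p : Xs m => ((p.1, p.2.1) : (Fin (m + 1) → ℂ) × (Fin m → ℂ)) :=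
      continuous_fst.prodMk (continuous_fst.comp continuous_snd)
    have h2 := C.G_cont.comp h1
    exact h2
  · exact continuous_finsetSum _ fun i _ => hwo_c i
  · exact continuous_finsetSum _ fun j _ => hwy_c j

private theorem dist_bd {o o' : Fin (m + 1) → ℂ} {y y' : Fin m → ℂ} {wo : Fin (m + 1) → ℝ}
    {wy : Fin m → ℝ} {ε : ℝ} (hε : 0 < ε) (ho : ∀ i, ‖o i - o' i‖ ≤ ε)
    (hy : ∀ j, ‖y j - y' j‖ ≤ ε) :
    dist ((oz C o, y, wo, wy) : Xs m) ((oz C o', y', wo, wy) : Xs m) ≤ ε := by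
  rw [Prod.dist_eq, Prod.dist_eq, Prod.dist_eq]
  refine max_le ?_ (max_le ?_ (max_le ?_ ?_))
  · refine (dist_pi_le_iff hε.le).mpr fun i => ?_
    change dist (oz C o i) (oz C o' i) ≤ ε
    by_cases hi : C.ty i = Ty.cl
    · rw [oz_cl hi, oz_cl hi, dist_self]
      exact hε.le
    · rw [oz_of hi, oz_of hi, dist_eq_norm]
      exact ho i
  · refine (dist_pi_le_iff hε.le).mpr fun j => ?_
    change dist (y j) (y' j) ≤ ε
    rw [dist_eq_norm]
    exact hy j
  · simp only [dist_self]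
    exact hε.le
  · simp only [dist_self]
    exact hε.le

/-- The other patterns. (At the closed nodes `C.G` does not depend on `o i`.) -/
theorem Inq.lowU (hI : Inq C K e0) (_hK : Cn.OK C K) {P : Pat m} (hP : P.OK C)
    (hS : P.S.Nonempty ∨ ∃ i, P.H i ≠ 0) : ∃ ε : ℝ, 0 < ε ∧ ∃ δ : ℝ, 0 < δ ∧ ∀ (o o' : Fin (m + 1) → ℂ) (y y' : Fin m → ℂ)
      (wo : Fin (m + 1) → ℝ) (wy : Fin m → ℝ), AdmC C K P o' y' wo wy →
      (∀ i, ‖o i - o' i‖ ≤ ε) → (∀ j, ‖y j - y' j‖ ≤ ε) →
      C.G o y ≤ e0 - δ + ∑ i, wo i + ∑ j, wy j := by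
  obtain ⟨ε, hε, δ, hδ, h⟩ := cpt_gen (F := Set.univ) (As_cpt C K P) isClosed_univ
    (Ps_cont C e0) (fun p hp _ => by
      have := hI.low P hP hS _ _ _ _ hp.1
      unfold Ps
      linarith)
  refine ⟨ε, hε, δ, hδ, fun o o' y y' wo wy hadm ho hy => ?_⟩
  have h1 := h (oz C o, y, wo, wy) (Set.mem_univ _) ⟨(oz C o', y', wo, wy),
    ⟨AdmC.oz hadm, fun i hi => oz_cl hi⟩, dist_bd hε ho hy⟩
  unfold Ps at h1
  simp only [G_oz] at h1
  linarith

/-- Large indices, away from the critical point. -/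
theorem Inq.highU (hI : Inq C K e0) (_hK : Cn.OK C K) (r : ℝ) (hr : 0 < r) :
    ∃ ε : ℝ, 0 < ε ∧ ∃ δ : ℝ, 0 < δ ∧ ∀ (o o' : Fin (m + 1) → ℂ) (y y' : Fin m → ℂ)
      (wo : Fin (m + 1) → ℝ) (wy : Fin m → ℝ), AdmC C K Pat.zero o' y' wo wy →
      (∀ i, ‖o i - o' i‖ ≤ ε) → (∀ j, ‖y j - y' j‖ ≤ ε) →
      ((∃ j, r ≤ ‖y j - K.yc j‖ ∨ r ≤ |wy j|) ∨
        ∃ i, C.ty i ≠ Ty.cl ∧ (r ≤ ‖o i - K.oc i‖ ∨ r ≤ |wo i|)) →
      C.G o y ≤ e0 - δ + ∑ i, wo i + ∑ j, wy j := by
  have hF : IsClosed {p : Xs m | (∃ j, r ≤ ‖p.2.1 j - K.yc j‖ ∨ r ≤ |p.2.2.2 j|) ∨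
      ∃ i, C.ty i ≠ Ty.cl ∧ (r ≤ ‖p.1 i - K.oc i‖ ∨ r ≤ |p.2.2.1 i|)} := by
    refine cl_or (cl_ex fun j => ?_) (cl_ex fun i => ?_)
    · exact cl_or (isClosed_le continuous_const ((hy_c j).sub continuous_const).norm)
        (isClosed_le continuous_const (hwy_c j).abs)
    · by_cases hi : C.ty i = Ty.cl
      · simp [hi]
      · have : {p : Xs m | C.ty i ≠ Ty.cl ∧ (r ≤ ‖p.1 i - K.oc i‖ ∨ r ≤ |p.2.2.1 i|)} =
            {p : Xs m | r ≤ ‖p.1 i - K.oc i‖ ∨ r ≤ |p.2.2.1 i|} := by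
          ext p
          simp [hi]
        rw [this]
        exact cl_or (isClosed_le continuous_const ((ho_c i).sub continuous_const).norm)
          (isClosed_le continuous_const (hwo_c i).abs)
  obtain ⟨ε, hε, δ, hδ, h⟩ := cpt_gen (As_cpt C K Pat.zero) hF (Ps_cont C e0) (fun p hp hpF => by
    rcases hI.high _ _ _ _ hp.1 with h1 | ⟨h1, h2⟩
    · unfold Ps
      linarith
    · exfalso
      rcases hpF with ⟨j, hj⟩ | ⟨i, hi, hj⟩
      · rw [(h1 j).1, (h1 j).2, sub_self, norm_zero, abs_zero] at hj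
        rcases hj with hj | hj <;> linarith
      · rw [(h2 i).2 hi, (h2 i).1, sub_self, norm_zero, abs_zero] at hj
        rcases hj with hj | hj <;> linarith)
  refine ⟨ε, hε, δ, hδ, fun o o' y y' wo wy hadm ho hy hfar => ?_⟩
  have h1 := h (oz C o, y, wo, wy) (by
    rcases hfar with hfar | ⟨i, hi, hfar⟩
    · exact Or.inl hfar
    · refine Or.inr ⟨i, hi, ?_⟩
      simp only [oz_of hi]
      exact hfar) ⟨(oz C o', y', wo, wy),
    ⟨AdmC.oz hadm, fun i hi => oz_cl hi⟩, dist_bd hε ho hy⟩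
  unfold Ps at h1
  simp only [G_oz] at h1
  linarith

/-- The bound on the limit contours. -/
theorem Inq.high0 (hI : Inq C K e0) {o : Fin (m + 1) → ℂ} {y : Fin m → ℂ}
    {wo : Fin (m + 1) → ℝ} {wy : Fin m → ℝ} (h : AdmC C K Pat.zero o y wo wy) :
    C.G o y ≤ e0 + ∑ i, wo i + ∑ j, wy j := by
  rcases hI.high _ _ _ _ h with h1 | ⟨h1, h2⟩
  · exact h1.le
  · have e1 : y = K.yc := funext fun j => (h1 j).1
    have e2 : C.G o y = e0 := by
      rw [e1, G_congr C K.yc (o' := K.oc) fun i hi => (h2 i).2 hi]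
      exact hI.crit
    rw [e2, Finset.sum_eq_zero fun i _ => (h2 i).1, Finset.sum_eq_zero fun j _ => (h1 j).2]
    linarith

end Pool.Agent.S5
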