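import Pool.Agent.S5.S.Defs
import Pool.Agent.S3.Chain

/-!
# The contours of the integration variables

Flat part at the height `ν` over `|re v| ≤ x1`, vertical parts down to the height `ε`, then straight to
`±1/2` (parametrized by an exponential function).
-/

set_option autoImplicit false

namespace Pool.Agent.S5

open Complex Filter Topology MeasureTheory
open Pool.Agent.S3 (Ctr)

/-- The right half. -/
noncomputable def tabR (ν x1 ε x : ℝ) : ℂ :=
  if x ≤ x1 then (x : ℂ) + ν * I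
  else if x ≤ x1 + (ν - ε) then (x1 : ℂ) + ((ν - (x - x1) : ℝ) : ℂ) * I
  else 1 / 2 - (((1 / 2 - x1 : ℝ) : ℂ) - ε * I) * (Real.exp (-(x - x1 - (ν - ε))) : ℝ)

noncomputable def tabR' (ν x1 ε x : ℝ) : ℂ :=
  if x ≤ x1 then 1
  else if x ≤ x1 + (ν - ε) then -I
  else (((1 / 2 - x1 : ℝ) : ℂ) - ε * I) * (Real.exp (-(x - x1 - (ν - ε))) : ℝ)

/-- The contour. -/
noncomputable def tab (ν x1 ε x : ℝ) : ℂ :=
  if 0 ≤ x then tabR ν x1 ε x else -(starRingEnd ℂ) (tabR ν x1 ε (-x))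

/-- Its derivative. -/
noncomputable def tab' (ν x1 ε x : ℝ) : ℂ :=
  if 0 ≤ x then tabR' ν x1 ε x else (starRingEnd ℂ) (tabR' ν x1 ε (-x))

variable {ν x1 ε : ℝ}

private theorem ctr_exp_abs_int : MeasureTheory.Integrable fun x : ℝ => Real.exp (-|x|) := by
  refine ((integrable_inv_one_add_sq.const_mul 4)).mono'
    (Continuous.aestronglyMeasurable (by fun_prop)) (Eventually.of_forall fun x => ?_)
  rw [Real.norm_eq_abs, abs_of_pos (Real.exp_pos _)]
  have h0 := abs_nonneg x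
  have h1 : (|x| / 2 + 1) ^ 2 ≤ Real.exp |x| := by
    have h2 : |x| / 2 + 1 ≤ Real.exp (|x| / 2) := Real.add_one_le_exp _
    have h3 : Real.exp (|x| / 2) ^ 2 = Real.exp |x| := by
      rw [← Real.exp_nat_mul]
      congr 1
      push_cast
      ring
    rw [← h3]
    exact pow_le_pow_left₀ (by linarith) h2 2
  have h4 : (1 + x ^ 2) ≤ 4 * Real.exp |x| := by
    have h5 := sq_abs x
    nlinarith
  rw [Real.exp_neg, ← one_div, ← div_eq_mul_inv, div_le_div_iff₀ (Real.exp_pos _) (by positivity)]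
  linarith

private theorem ctr_R_re (ν x1 ε x : ℝ) : (tabR ν x1 ε x).re =
    if x ≤ x1 then x else if x ≤ x1 + (ν - ε) then x1
      else 1 / 2 - (1 / 2 - x1) * Real.exp (-(x - x1 - (ν - ε))) := by
  unfold tabR
  split_ifs
  · simp
  · simp
  · rw [sub_re, mul_re, ofReal_re, ofReal_im]
    simp

private theorem ctr_R_im (ν x1 ε x : ℝ) : (tabR ν x1 ε x).im =
    if x ≤ x1 then ν else if x ≤ x1 + (ν - ε) then ν - (x - x1)
      else ε * Real.exp (-(x - x1 - (ν - ε))) := by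
  unfold tabR
  split_ifs
  · simp
  · simp
  · rw [sub_im, mul_im, ofReal_re, ofReal_im]
    simp

private theorem ctr_right {x : ℝ} (h : 0 ≤ x) : tab ν x1 ε x = tabR ν x1 ε x := by
  unfold tab
  rw [if_pos h]

private theorem ctr_left {x : ℝ} (h : x < 0) :
    tab ν x1 ε x = -(starRingEnd ℂ) (tabR ν x1 ε (-x)) := by
  unfold tab
  rw [if_neg (not_le.2 h)]

private theorem ctr_right' {x : ℝ} (h : 0 ≤ x) : tab' ν x1 ε x = tabR' ν x1 ε x := by
  unfold tab'
  rw [if_pos h]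

private theorem ctr_left' {x : ℝ} (h : x < 0) :
    tab' ν x1 ε x = (starRingEnd ℂ) (tabR' ν x1 ε (-x)) := by
  unfold tab'
  rw [if_neg (not_le.2 h)]

private theorem ctr_im (x : ℝ) : (tab ν x1 ε x).im = (tabR ν x1 ε |x|).im := by
  rcases le_or_gt 0 x with h | h
  · rw [ctr_right h, abs_of_nonneg h]
  · rw [ctr_left h, abs_of_neg h]
    simp

private theorem ctr_abs_re (x : ℝ) : |(tab ν x1 ε x).re| = |(tabR ν x1 ε |x|).re| := by
  rcases le_or_gt 0 x with h | h
  · rw [ctr_right h, abs_of_nonneg h]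
  · rw [ctr_left h, abs_of_neg h]
    simp

private theorem ctr_facts (h0 : 0 < ε) (h1 : ε < ν) (hx : 0 < x1) (hx' : x1 < 1 / 2) {t : ℝ}
    (ht : 0 ≤ t) : 0 < (tabR ν x1 ε t).im ∧ (tabR ν x1 ε t).im ≤ ν ∧ 0 ≤ (tabR ν x1 ε t).re ∧
      (tabR ν x1 ε t).re ≤ 1 / 2 ∧ ε * (1 / 2 - (tabR ν x1 ε t).re) ≤ (tabR ν x1 ε t).im ∧
      (x1 < t → x1 ≤ (tabR ν x1 ε t).re) := by
  rw [ctr_R_re, ctr_R_im]
  split_ifs with c1 c2
  · refine ⟨by linarith, le_rfl, ht, by linarith, by nlinarith, fun h => ?_⟩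
    linarith
  · push Not at c1
    refine ⟨by linarith, by linarith, by linarith, by linarith, by nlinarith, fun _ => le_rfl⟩
  · push Not at c1 c2
    have hE := Real.exp_pos (-(t - x1 - (ν - ε)))
    have hE1 : Real.exp (-(t - x1 - (ν - ε))) ≤ 1 := Real.exp_le_one_iff.2 (by linarith)
    set E := Real.exp (-(t - x1 - (ν - ε)))
    have hp : 0 < (1 / 2 - x1) * E := mul_pos (by linarith) hE
    have hq : (1 / 2 - x1) * E ≤ (1 / 2 - x1) * 1 := mul_le_mul_of_nonneg_left hE1 (by linarith)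
    have hr : 0 < ε * E := mul_pos h0 hE
    have hs : ε * E ≤ ε * 1 := mul_le_mul_of_nonneg_left hE1 h0.le
    refine ⟨hr, by linarith, by linarith, by linarith, ?_, fun _ => by linarith⟩
    have : ε * ((1 / 2 - x1) * E) ≤ ε * (1 * E) :=
      mul_le_mul_of_nonneg_left (mul_le_mul_of_nonneg_right (by linarith) hE.le) h0.le
    calc ε * (1 / 2 - (1 / 2 - (1 / 2 - x1) * E)) = ε * ((1 / 2 - x1) * E) := by ring
      _ ≤ ε * (1 * E) := this
      _ = ε * E := by ring

private theorem ctr_R_cont (h1 : ε < ν) : Continuous (tabR ν x1 ε) := by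
  unfold tabR
  refine Continuous.if_le (by fun_prop) ?_ continuous_id continuous_const ?_
  · refine Continuous.if_le (by fun_prop) (by fun_prop) continuous_id continuous_const ?_
    intro x hx
    rw [hx]
    have : -(x1 + (ν - ε) - x1 - (ν - ε)) = 0 := by ring
    rw [this, Real.exp_zero]
    push_cast
    ring
  · intro x hx
    rw [if_pos (by linarith), hx]
    push_cast
    ring

private theorem ctr_cont (h1 : ε < ν) (hx : 0 < x1) : Continuous (tab ν x1 ε) := by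
  unfold tab
  refine Continuous.if_le (ctr_R_cont h1) ?_ continuous_const continuous_id ?_
  · exact (Complex.continuous_conj.comp ((ctr_R_cont h1).comp continuous_neg)).neg
  · intro x hx0
    have hx0' : x = 0 := hx0.symm
    rw [hx0', neg_zero]
    unfold tabR
    rw [if_pos hx.le]
    simp

private theorem ctr_R_top : Tendsto (tabR ν x1 ε) atTop (𝓝 (1 / 2)) := by
  have e : (fun x : ℝ => (1 : ℂ) / 2 - (((1 / 2 - x1 : ℝ) : ℂ) - ε * I) *
      (Real.exp (-(x - x1 - (ν - ε))) : ℝ)) =ᶠ[atTop] tabR ν x1 ε := by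
    filter_upwards [eventually_gt_atTop x1, eventually_gt_atTop (x1 + (ν - ε))] with t h2 h3
    unfold tabR
    rw [if_neg (not_le.2 h2), if_neg (not_le.2 h3)]
  refine Tendsto.congr' e ?_
  have h1 : Tendsto (fun x : ℝ => Real.exp (-(x - x1 - (ν - ε)))) atTop (𝓝 0) := by
    refine Real.tendsto_exp_atBot.comp (tendsto_neg_atTop_atBot.comp ?_)
    have := tendsto_atTop_add_const_right atTop (-x1 - (ν - ε)) (tendsto_id (α := ℝ))
    refine this.congr fun t => ?_
    simp only [id]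
    ring
  have h2 := ((continuous_ofReal.tendsto _).comp h1).const_mul (((1 / 2 - x1 : ℝ) : ℂ) - ε * I)
  have h3 := h2.const_sub ((1 : ℂ) / 2)
  simpa using h3

private theorem ctr_top : Tendsto (tab ν x1 ε) atTop (𝓝 (1 / 2)) := by
  refine Tendsto.congr' ?_ (ctr_R_top (ν := ν) (x1 := x1) (ε := ε))
  filter_upwards [eventually_ge_atTop 0] with x hx
  exact (ctr_right hx).symm

private theorem ctr_bot : Tendsto (tab ν x1 ε) atBot (𝓝 (-1 / 2)) := by
  have e : (fun x : ℝ => -(starRingEnd ℂ) (tabR ν x1 ε (-x))) =ᶠ[atBot] tab ν x1 ε := by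
    filter_upwards [eventually_lt_atBot 0] with x hx
    exact (ctr_left hx).symm
  refine Tendsto.congr' e ?_
  have h2 := ((continuous_conj.tendsto _).comp
    ((ctr_R_top (ν := ν) (x1 := x1) (ε := ε)).comp tendsto_neg_atBot_atTop)).neg
  have e2 : -(starRingEnd ℂ) (1 / 2 : ℂ) = -1 / 2 := by
    rw [map_div₀, map_one, map_ofNat]
    ring
  rw [e2] at h2
  exact h2

private theorem ctr_R_der {t : ℝ} (n1 : t ≠ x1) (n2 : t ≠ x1 + (ν - ε)) :
    HasDerivAt (tabR ν x1 ε) (tabR' ν x1 ε t) t := by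
  unfold tabR'
  split_ifs with c1 c2
  · have hlt : t < x1 := lt_of_le_of_ne c1 n1
    have e : tabR ν x1 ε =ᶠ[𝓝 t] fun x : ℝ => (x : ℂ) + ν * I := by
      filter_upwards [Iio_mem_nhds hlt] with y hy
      unfold tabR
      rw [if_pos (le_of_lt hy)]
    refine HasDerivAt.congr_of_eventuallyEq ?_ e
    exact (ofRealCLM.hasDerivAt (x := t)).add_const _
  · have hlt : t < x1 + (ν - ε) := lt_of_le_of_ne c2 n2
    have e : tabR ν x1 ε =ᶠ[𝓝 t] fun x : ℝ => (x1 : ℂ) + ((ν - (x - x1) : ℝ) : ℂ) * I := by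
      filter_upwards [Iio_mem_nhds hlt, Ioi_mem_nhds (not_le.1 c1)] with y hy hy'
      unfold tabR
      rw [if_neg (not_le.2 hy'), if_pos (le_of_lt hy)]
    refine HasDerivAt.congr_of_eventuallyEq ?_ e
    have h2 : HasDerivAt (fun x : ℝ => ν - (x - x1)) (-1) t := by
      simpa using ((hasDerivAt_id t).sub_const x1).const_sub ν
    have h3 := (h2.ofReal_comp.mul_const I).const_add (x1 : ℂ)
    simpa using h3
  · have e : tabR ν x1 ε =ᶠ[𝓝 t] fun x : ℝ => 1 / 2 - (((1 / 2 - x1 : ℝ) : ℂ) - ε * I) *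
        (Real.exp (-(x - x1 - (ν - ε))) : ℝ) := by
      filter_upwards [Ioi_mem_nhds (not_le.1 c1), Ioi_mem_nhds (not_le.1 c2)] with y hy hy'
      unfold tabR
      rw [if_neg (not_le.2 hy), if_neg (not_le.2 hy')]
    refine HasDerivAt.congr_of_eventuallyEq ?_ e
    have h2 : HasDerivAt (fun x : ℝ => Real.exp (-(x - x1 - (ν - ε))))
        (-Real.exp (-(t - x1 - (ν - ε)))) t := by
      have h3 : HasDerivAt (fun x : ℝ => -(x - x1 - (ν - ε))) (-1) t :=
        (((hasDerivAt_id t).sub_const x1).sub_const (ν - ε)).fun_neg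
      have h4 := h3.exp
      rw [mul_neg_one] at h4
      exact h4
    have h3 := (h2.ofReal_comp.const_mul (((1 / 2 - x1 : ℝ) : ℂ) - ε * I)).const_sub ((1 : ℂ) / 2)
    refine h3.congr_deriv ?_
    push_cast
    ring

private theorem ctr_der {x : ℝ} (hx : x ∉ ({0, x1, x1 + (ν - ε), -x1, -(x1 + (ν - ε))} : Set ℝ)) :
    HasDerivAt (tab ν x1 ε) (tab' ν x1 ε x) x := by
  simp only [Set.mem_insert_iff, Set.mem_singleton_iff, not_or] at hx
  obtain ⟨n0, n1, n2, n3, n4⟩ := hx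
  rcases lt_or_gt_of_ne n0 with h | h
  · have e : tab ν x1 ε =ᶠ[𝓝 x] fun y => -(starRingEnd ℂ) (tabR ν x1 ε (-y)) := by
      filter_upwards [Iio_mem_nhds h] with y hy
      exact ctr_left hy
    rw [ctr_left' h]
    have d1 : HasDerivAt (tabR ν x1 ε) (tabR' ν x1 ε (-x)) (-x) :=
      ctr_R_der (fun h3 => n3 (by linarith)) (fun h3 => n4 (by linarith))
    have hi : HasDerivAt (fun y : ℝ => -y) (-1) x := (hasDerivAt_id' x).fun_neg
    have d2 : HasDerivAt (fun y => tabR ν x1 ε (-y)) ((-1 : ℝ) • tabR' ν x1 ε (-x)) x := by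
      have d := HasDerivAt.scomp x d1 hi
      exact d
    have d3 : HasDerivAt (fun y => -(starRingEnd ℂ) (tabR ν x1 ε (-y))) _ x :=
      ((Complex.conjCLE.toContinuousLinearMap.hasFDerivAt.comp_hasDerivAt x d2)).neg
    refine (d3.congr_of_eventuallyEq e).congr_deriv ?_
    simp
  · have e : tab ν x1 ε =ᶠ[𝓝 x] tabR ν x1 ε := by
      filter_upwards [Ioi_mem_nhds h] with y hy
      exact ctr_right (le_of_lt hy)
    rw [ctr_right' h.le]
    exact (ctr_R_der n1 n2).congr_of_eventuallyEq e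

private theorem ctr_R'_meas (ν x1 ε : ℝ) : Measurable (tabR' ν x1 ε) := by
  unfold tabR'
  refine Measurable.ite measurableSet_Iic measurable_const ?_
  refine Measurable.ite measurableSet_Iic measurable_const ?_
  exact Continuous.measurable (by fun_prop)

private theorem ctr_R'_norm (h1 : ε < ν) (t : ℝ) :
    ‖tabR' ν x1 ε t‖ ≤ (1 + ‖((1 / 2 - x1 : ℝ) : ℂ) - ε * I‖) *
      Real.exp (x1 + (ν - ε)) * Real.exp (-t) := by
  set A := ‖((1 / 2 - x1 : ℝ) : ℂ) - ε * I‖ with hA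
  have hA0 : 0 ≤ A := norm_nonneg _
  have hE : Real.exp (x1 + (ν - ε)) * Real.exp (-t) = Real.exp (-(t - x1 - (ν - ε))) := by
    rw [← Real.exp_add]
    congr 1
    ring
  rw [mul_assoc, hE]
  have hE0 := Real.exp_pos (-(t - x1 - (ν - ε)))
  unfold tabR'
  split_ifs with c1 c2
  · have h2 : 1 ≤ Real.exp (-(t - x1 - (ν - ε))) := Real.one_le_exp (by linarith)
    rw [norm_one]
    nlinarith
  · have h2 : 1 ≤ Real.exp (-(t - x1 - (ν - ε))) := Real.one_le_exp (by linarith)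
    rw [norm_neg, norm_I]
    nlinarith
  · rw [norm_mul, ← hA, norm_real, Real.norm_eq_abs, abs_of_pos hE0]
    nlinarith

private theorem ctr_int (h1 : ε < ν) : MeasureTheory.Integrable (tab' ν x1 ε) := by
  have hm : Measurable (tab' ν x1 ε) := by
    unfold tab'
    refine Measurable.ite measurableSet_Ici (ctr_R'_meas ν x1 ε) ?_
    exact (Complex.continuous_conj.measurable).comp ((ctr_R'_meas ν x1 ε).comp (by fun_prop))
  refine (ctr_exp_abs_int.const_mul ((1 + ‖((1 / 2 - x1 : ℝ) : ℂ) - ε * I‖) *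
    Real.exp (x1 + (ν - ε)))).mono' hm.aestronglyMeasurable (Eventually.of_forall fun x => ?_)
  rcases le_or_gt 0 x with h | h
  · rw [ctr_right' h, abs_of_nonneg h]
    exact ctr_R'_norm h1 x
  · rw [ctr_left' h, abs_of_neg h, norm_conj]
    exact ctr_R'_norm h1 (-x)

theorem tab_ctr (h0 : 0 < ε) (h1 : ε < ν) (hx : 0 < x1) (hx' : x1 < 1 / 2) :
    Ctr (tab ν x1 ε) (tab' ν x1 ε) where
  cont := ctr_cont h1 hx
  der := ⟨{0, x1, x1 + (ν - ε), -x1, -(x1 + (ν - ε))}, Set.Finite.countable (Set.toFinite _),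
    fun _ hx => ctr_der hx⟩
  pos x := by
    rw [ctr_im]
    exact (ctr_facts h0 h1 hx hx' (abs_nonneg x)).1
  top := ctr_top
  bot := ctr_bot
  int := ctr_int h1

theorem tab_bd (h0 : 0 < ε) (h1 : ε < ν) (hx : 0 < x1) (hx' : x1 < 1 / 2) (x : ℝ) :
    0 < (tab ν x1 ε x).im ∧ (tab ν x1 ε x).im ≤ ν ∧ |(tab ν x1 ε x).re| ≤ 1 / 2 ∧
      ε * (1 / 2 - |(tab ν x1 ε x).re|) ≤ (tab ν x1 ε x).im := by
  obtain ⟨f1, f2, f3, f4, f5, -⟩ := ctr_facts h0 h1 hx hx' (abs_nonneg x)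
  rw [ctr_im, ctr_abs_re, abs_of_nonneg f3]
  exact ⟨f1, f2, f4, f5⟩

theorem tab_near (h0 : 0 < ε) (h1 : ε < ν) (hx : 0 < x1) (hx' : x1 < 1 / 2) (x : ℝ) :
    LimV ν x1 (tab ν x1 ε x) ∨ ∃ v, LimV ν x1 v ∧ v.im = 0 ∧ ‖tab ν x1 ε x - v‖ ≤ ε := by
  obtain ⟨f1, f2, f3, f4, f5, f6⟩ := ctr_facts h0 h1 hx hx' (abs_nonneg x)
  have g1 := ctr_im (ν := ν) (x1 := x1) (ε := ε) x
  have g2 := ctr_abs_re (ν := ν) (x1 := x1) (ε := ε) x
  rw [abs_of_nonneg f3] at g2
  have hre := ctr_R_re ν x1 ε |x|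
  have him := ctr_R_im ν x1 ε |x|
  by_cases c1 : |x| ≤ x1
  · rw [if_pos c1] at hre him
    left; left
    rw [g1, g2, hre, him]
    exact ⟨rfl, c1⟩
  · by_cases c2 : |x| ≤ x1 + (ν - ε)
    · rw [if_neg c1, if_pos c2] at hre him
      left; right; left
      rw [g1, g2, hre]
      exact ⟨rfl, f1.le, f2⟩
    · rw [if_neg c1, if_neg c2] at hre him
      right
      refine ⟨((tab ν x1 ε x).re : ℂ), Or.inr (Or.inr ⟨ofReal_im _, ?_, ?_⟩), ofReal_im _, ?_⟩
      · rw [ofReal_re, g2]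
        exact f6 (not_le.1 c1)
      · rw [ofReal_re, g2]
        exact f4
      · have e : tab ν x1 ε x - ((tab ν x1 ε x).re : ℂ) = ((tab ν x1 ε x).im : ℂ) * I := by
          apply Complex.ext <;> simp
        rw [e, norm_mul, norm_I, mul_one, norm_real, Real.norm_eq_abs, g1, abs_of_pos f1, him]
        refine mul_le_of_le_one_right h0.le ?_
        exact Real.exp_le_one_iff.2 (by linarith [not_le.1 c2])

theorem tab_flat (hx : 0 < x1) {x : ℝ} (h : |x| ≤ x1) :
    tab ν x1 ε x = x + ν * I ∧ tab' ν x1 ε x = 1 := by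
  rcases le_or_gt 0 x with h2 | h2
  · rw [abs_of_nonneg h2] at h
    rw [ctr_right h2, ctr_right' h2]
    unfold tabR tabR'
    rw [if_pos h, if_pos h]
    exact ⟨rfl, rfl⟩
  · rw [abs_of_neg h2] at h
    rw [ctr_left h2, ctr_left' h2]
    unfold tabR tabR'
    rw [if_pos h, if_pos h]
    refine ⟨?_, map_one _⟩
    apply Complex.ext <;> simp

theorem tab_dist (h0 : 0 < ε) (h1 : ε < ν) (hx : 0 < x1) (hx' : x1 < 1 / 2) {xc r x : ℝ}
    (hc : |xc| < x1) (hr : r ≤ |x - xc|) :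
    min r (x1 - |xc|) ≤ ‖tab ν x1 ε x - (xc + ν * I)‖ := by
  by_cases c1 : |x| ≤ x1
  · refine (min_le_left _ _).trans (hr.trans ?_)
    rw [(tab_flat hx c1).1]
    have e : (x : ℂ) + ν * I - (xc + ν * I) = ((x - xc : ℝ) : ℂ) := by
      push_cast
      ring
    rw [e, norm_real, Real.norm_eq_abs]
  · refine (min_le_right _ _).trans ?_
    obtain ⟨f1, f2, f3, f4, f5, f6⟩ := ctr_facts h0 h1 hx hx' (abs_nonneg x)
    have g2 := ctr_abs_re (ν := ν) (x1 := x1) (ε := ε) x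
    rw [abs_of_nonneg f3] at g2
    have h3 := f6 (not_le.1 c1)
    rw [← g2] at h3
    refine le_trans ?_ (Complex.abs_re_le_norm _)
    have e : (tab ν x1 ε x - (xc + ν * I)).re = (tab ν x1 ε x).re - xc := by simp
    rw [e]
    have := abs_sub_abs_le_abs_sub (tab ν x1 ε x).re xc
    linarith

end Pool.Agent.S5
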