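import Pool.Agent.S3.Gr3b
import Pool.Agent.S3.LL1
import Pool.Agent.S3.Low1
import Pool.Agent.S5.S.Defs
import Pool.Agent.S5.X.Nod

/-!
# The nodes with integration variables: integrals over contours, lattice sums
-/

set_option autoImplicit false

namespace Pool.Agent.S5

open Complex Filter Topology MeasureTheory
open Pool.Agent.S3 (Rf fe rS qS wr fdom gl ql Ctr)
open Pool.Agent.H63.VC3 (LL ff Cc om yk vl)
open Pool.Agent.H63.VC7 (DG)

private theorem qc_yM {M k : ℕ} (hk : k < M) {v : ℂ} (hv : |v.re| ≤ 1 / 2) :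
    H63.VC7.qc M k v = qS M (yM M k) v := by
  rw [Pool.Agent.S3.qc_eq_qS hk hv, Pool.Agent.S3.yk_two]
  congr 1
  rw [yM]
  push_cast
  ring

private theorem vl_abs {M X : ℕ} (hX : X < M) : |((vl 2 M X : ℝ) : ℂ).re| ≤ 1 / 2 := by
  have hM : (0 : ℝ) < M := by exact_mod_cast (by omega : 0 < M)
  have h1 : ((X : ℝ) + 1) ≤ M := by exact_mod_cast hX
  have h2 : (0 : ℝ) ≤ X := Nat.cast_nonneg X
  have e : vl 2 M X = ((X : ℝ) + 1 / 2) / M - 1 / 2 := by
    unfold H63.VC3.vl H63.VC3.bt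
    norm_num
  rw [ofReal_re, e, abs_le]
  have h3 : 0 ≤ ((X : ℝ) + 1 / 2) / M := by positivity
  have h4 : ((X : ℝ) + 1 / 2) / M ≤ 1 := by
    rw [div_le_one hM]
    linarith
  constructor <;> linarith

theorem nG_ctr (r : ℝ) {M : ℕ} {k k' : ℕ} (hk : k < M) (hk' : k' < M) {γ γ' : ℝ → ℂ}
    (hγ : Ctr γ γ') (hre : ∀ x, |(γ x).re| ≤ 1 / 2) :
    Integrable (fun x => kV r M (γ x) (yM M k) (yM M k') * γ' x) ∧
    D2 r M k k' = -(4 * Real.pi * I) * M ^ 2 *
      ∫ x, kV r M (γ x) (yM M k) (yM M k') * γ' x := by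
  have hM : 0 < M := by omega
  have e : ∀ x, H63.VC7.NT r M (Finset.univ : Finset (Fin 2)) ![k, k'] (γ x) * om 2 M (γ x) =
      kV r M (γ x) (yM M k) (yM M k') := by
    intro x
    unfold H63.VC7.NT kV
    rw [Fin.prod_univ_two]
    simp only [Matrix.cons_val_zero, Matrix.cons_val_one]
    rw [qc_yM hk (hre x), qc_yM hk' (hre x)]
    ring
  have h1 := Pool.Agent.S3.NTom_integrable r hM (Finset.univ : Finset (Fin 2)) ![k, k'] hγ
  have h2 := Pool.Agent.S3.DG_ctr r hM (Finset.univ : Finset (Fin 2)) ![k, k'] hγ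
  simp only [e] at h1 h2
  exact ⟨h1, h2⟩

theorem nG_lat (r : ℝ) {M : ℕ} {k k' : ℕ} (hk : 2 * k + 2 ≤ M) (hk' : k' < M) :
    D2 r M k k' =
      ∑ X ∈ Finset.range M, gl r M X * (ql M k X * qS M (yM M k') (vl 2 M X : ℝ)) := by
  have h := Pool.Agent.S3.DG_lat r (A := (Finset.univ : Finset (Fin 2))) ![k, k']
    (fun j _ => by
      fin_cases j
      · show k < M
        omega
      · show k' < M
        omega) (j0 := 0) (Finset.mem_univ _) (by simpa using hk)
  rw [D2, h]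
  refine Finset.sum_congr rfl fun X hX => ?_
  have hX' := Finset.mem_range.1 hX
  have e : (Finset.univ : Finset (Fin 2)).erase 0 = {1} := by decide
  rw [e, Finset.prod_singleton]
  simp only [Matrix.cons_val_zero, Matrix.cons_val_one]
  rw [qc_yM hk' (vl_abs hX')]

theorem nG_lat' (r : ℝ) {M : ℕ} {k k' : ℕ} (hk : 2 * k + 2 ≤ M) (hk' : k' < M) :
    D2 r M k' k =
      ∑ X ∈ Finset.range M, gl r M X * (ql M k X * qS M (yM M k') (vl 2 M X : ℝ)) := by
  rw [D2_comm]
  exact nG_lat r hk hk'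

theorem nG_two (r : ℝ) {M : ℕ} {k k' : ℕ} (hk : 2 * k + 2 ≤ M) (hk' : 2 * k' + 2 ≤ M) :
    D2 r M k k' = 0 := by
  rw [D2]
  refine Pool.Agent.S3.DG_two r ![k, k'] (fun j _ => ?_) (Finset.mem_univ 0) (Finset.mem_univ 1)
    (by decide) (by simpa using hk) (by simpa using hk')
  fin_cases j
  · show k < M
    omega
  · show k' < M
    omega

/-- The closed kernel vanishes below the antidiagonal. -/
theorem kC_zero (s : ℤ) {M : ℕ} {k k' : ℕ} (h : k + k' + 1 < M) :
    kC s M (yM M k) (yM M k') = 0 := by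
  have hM : 0 < M := by omega
  rw [kC, yM_sum hM, rS_sum (by omega) (by omega), if_neg (by omega), mul_zero]

theorem kH_zero (s : ℤ) {M : ℕ} {k k' : ℕ} (h : k + k' + 1 < M) :
    kH s M (yM M k) (yM M k') = 0 := by
  have hM : 0 < M := by omega
  rw [kH, yM_sum hM, rS_sum (by omega) (by omega), if_neg (by omega), mul_zero]

theorem kB_zero (s : ℤ) {M : ℕ} {k l : ℕ} (h : k < l) (hl : l < M) :
    kB s M (yM M k) (yM M l) = 0 := by
  have hM : 0 < M := by omega
  rw [kB, yM_dif hM, rS_dif (by omega), if_neg (by omega), mul_zero]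

end Pool.Agent.S5
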