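import Pool.Agent.H25.RK.DGf
import Pool.Agent.S3.Gr3b
import Pool.Agent.S3.Gr5
import Pool.Agent.S5.S.Defs

/-!
# The potential near the critical point
-/

set_option autoImplicit false

namespace Pool.Agent.S5

open Complex Filter Topology
open Pool.Agent.S3 (Rf fe rS qS wr fdom)
open Pool.Agent.H63.VC3 (LL ff Cc om yk)
open Pool.Agent.H63.GO (rc cp)

variable {m : ℕ} {C : Ch m} {K : Cn m} {e0 : ℝ}

/-! ### One node -/

/-- The domain of the potential of a node. -/
private def PtlD (ty : Ty) (fl : Bool) (z a b : ℂ) : Prop :=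
  match ty with
  | .cl => fdom (a + b)
  | .zn => fdom (ys fl a b - z) ∧ fdom (z + yt fl a b) ∧ (0 < z.re + 1 / 2 ∧ z.re + 1 / 2 < 1) ∧
      (0 < (yt fl a b).re + 1 / 2 ∧ (yt fl a b).re + 1 / 2 < 1)
  | .vn => fdom (a - z) ∧ fdom (a + z) ∧ fdom (b - z) ∧ fdom (b + z)

private theorem Ptl_half_re (z : ℂ) : (z + 1 / 2).re = z.re + 1 / 2 := by simp

private theorem Ptl_Rfh {z : ℂ} (h : 0 < z.re + 1 / 2 ∧ z.re + 1 / 2 < 1) :
    Rf (z + 1 / 2) = (ff (z + 1 / 2)).re :=
  Pool.Agent.S3.Rf_eq_ff (by rw [Ptl_half_re]; exact h.1) (by rw [Ptl_half_re]; exact h.2)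

private theorem Ptl_re {c : ℤ} {ty : Ty} {fl : Bool} {z a b : ℂ} (h : PtlD ty fl z a b) :
    (pN c ty fl z a b).re = gN c ty fl z a b := by
  cases ty with
  | cl =>
    have h1 : fdom (a + b) := h
    show (pC c.sign a b).re = gC c.sign a b
    unfold pC gC
    rw [Pool.Agent.S3.Rf_eq_fe h1, sub_re]
  | zn =>
    obtain ⟨h1, h2, h3, h4⟩ := h
    have e1 := Pool.Agent.S3.Rf_eq_fe h1
    have e2 := Pool.Agent.S3.Rf_eq_fe h2
    have e3 := Ptl_Rfh h3
    have e4 := Ptl_Rfh h4
    unfold ys at e1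
    unfold yt at e2 e4
    unfold pN gN
    cases fl with
    | true =>
      simp only [if_true] at e1 e2 e4 ⊢
      by_cases hc : |c| = 3
      · simp only [if_pos hc]
        unfold pB pH gB gH
        rw [e1, e2, e3, e4]
        simp only [add_re, sub_re]
      · simp only [if_neg hc]
        unfold pB pC gB gC
        rw [e1, e2]
        simp only [add_re, sub_re]
    | false =>
      simp only [Bool.false_eq_true, if_false] at e1 e2 e4 ⊢
      by_cases hc : |c| = 3
      · simp only [if_pos hc]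
        unfold pB pH gB gH
        rw [e1, e2, e3, e4]
        simp only [add_re, sub_re]
      · simp only [if_neg hc]
        unfold pB pC gB gC
        rw [e1, e2]
        simp only [add_re, sub_re]
  | vn =>
    obtain ⟨h1, h2, h3, h4⟩ := h
    show (pV ((c : ℝ) / 2) z a b).re = gV ((c : ℝ) / 2) z a b
    unfold pV gV
    rw [Pool.Agent.S3.Rf_eq_fe h1, Pool.Agent.S3.Rf_eq_fe h2, Pool.Agent.S3.Rf_eq_fe h3,
      Pool.Agent.S3.Rf_eq_fe h4]
    simp only [sub_re]

private theorem Ptl_fe {E : Type*} [NormedAddCommGroup E] [NormedSpace ℂ E] {f : E → ℂ} {p : E}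
    (hf : AnalyticAt ℂ f p) (h : fdom (f p)) : AnalyticAt ℂ (fun q => fe (f q)) p :=
  (Pool.Agent.S3.fe_an h).comp hf

private theorem Ptl_ff {E : Type*} [NormedAddCommGroup E] [NormedSpace ℂ E] {f : E → ℂ} {p : E}
    (hf : AnalyticAt ℂ f p) (h : 0 < (f p).re + 1 / 2 ∧ (f p).re + 1 / 2 < 1) :
    AnalyticAt ℂ (fun q => ff (f q + 1 / 2)) p := by
  have h1 : AnalyticAt ℂ ff (f p + 1 / 2) :=
    Pool.Agent.S3.Pot_ff_an (by rw [Ptl_half_re]; exact h.1) (by rw [Ptl_half_re]; exact h.2)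
  exact AnalyticAt.comp (f := fun q => f q + 1 / 2) h1 (hf.add analyticAt_const)

private theorem Ptl_pB {E : Type*} [NormedAddCommGroup E] [NormedSpace ℂ E] {f g : E → ℂ} {p : E}
    (s : ℤ) (hf : AnalyticAt ℂ f p) (hg : AnalyticAt ℂ g p) (h : fdom (g p - f p)) :
    AnalyticAt ℂ (fun q => pB s (g q) (f q)) p := by
  unfold pB qB
  exact (analyticAt_const.mul ((((hg.add hf).pow 2).div_const).sub ((hg.sub hf).div_const))).sub
    (Ptl_fe (hg.sub hf) h)

private theorem Ptl_pC {E : Type*} [NormedAddCommGroup E] [NormedSpace ℂ E] {f g : E → ℂ} {p : E}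
    (s : ℤ) (hf : AnalyticAt ℂ f p) (hg : AnalyticAt ℂ g p) (h : fdom (f p + g p)) :
    AnalyticAt ℂ (fun q => pC s (f q) (g q)) p := by
  unfold pC qC
  exact (analyticAt_const.mul ((((hf.sub hg).pow 2).div_const).add
    (((analyticAt_const.sub hf).sub hg).div_const))).sub (Ptl_fe (hf.add hg) h)

private theorem Ptl_pH {E : Type*} [NormedAddCommGroup E] [NormedSpace ℂ E] {f g : E → ℂ} {p : E}
    (s : ℤ) (hf : AnalyticAt ℂ f p) (hg : AnalyticAt ℂ g p) (h : fdom (f p + g p))
    (h1 : 0 < (f p).re + 1 / 2 ∧ (f p).re + 1 / 2 < 1)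
    (h2 : 0 < (g p).re + 1 / 2 ∧ (g p).re + 1 / 2 < 1) :
    AnalyticAt ℂ (fun q => pH s (f q) (g q)) p := by
  unfold pH qH
  exact ((((analyticAt_const.mul ((hf.add analyticAt_const).mul
    (hg.add analyticAt_const))).neg).sub (Ptl_ff hf h1)).sub (Ptl_ff hg h2)).sub
    (Ptl_fe (hf.add hg) h)

private theorem Ptl_pV {E : Type*} [NormedAddCommGroup E] [NormedSpace ℂ E] {f g k : E → ℂ} {p : E}
    (r : ℝ) (hf : AnalyticAt ℂ f p) (hg : AnalyticAt ℂ g p) (hk : AnalyticAt ℂ k p)
    (h1 : fdom (g p - f p)) (h2 : fdom (g p + f p)) (h3 : fdom (k p - f p))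
    (h4 : fdom (k p + f p)) : AnalyticAt ℂ (fun q => pV r (f q) (g q) (k q)) p := by
  unfold pV wr
  exact (((((analyticAt_const.mul ((analyticAt_const.mul (hf.pow 2)).add hf))).sub
    (Ptl_fe (hg.sub hf) h1)).sub (Ptl_fe (hg.add hf) h2)).sub (Ptl_fe (hk.sub hf) h3)).sub
    (Ptl_fe (hk.add hf) h4)

private theorem Ptl_pN {E : Type*} [NormedAddCommGroup E] [NormedSpace ℂ E] {f g k : E → ℂ} {p : E}
    (c : ℤ) (ty : Ty) (fl : Bool) (hf : AnalyticAt ℂ f p) (hg : AnalyticAt ℂ g p)
    (hk : AnalyticAt ℂ k p) (h : PtlD ty fl (f p) (g p) (k p)) :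
    AnalyticAt ℂ (fun q => pN c ty fl (f q) (g q) (k q)) p := by
  cases ty with
  | cl => exact Ptl_pC c.sign hg hk h
  | zn =>
    obtain ⟨h1, h2, h3, h4⟩ := h
    unfold ys at h1
    unfold yt at h2 h4
    unfold pN
    cases fl with
    | true =>
      simp only [if_true] at h1 h2 h4 ⊢
      by_cases hc : |c| = 3
      · simp only [if_pos hc]
        exact (Ptl_pB c.sign hf hk h1).add (Ptl_pH c.sign hf hg h2 h3 h4)
      · simp only [if_neg hc]
        exact (Ptl_pB c.sign hf hk h1).add (Ptl_pC c.sign hf hg h2)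
    | false =>
      simp only [Bool.false_eq_true, if_false] at h1 h2 h4 ⊢
      by_cases hc : |c| = 3
      · simp only [if_pos hc]
        exact (Ptl_pB c.sign hf hg h1).add (Ptl_pH c.sign hf hk h2 h3 h4)
      · simp only [if_neg hc]
        exact (Ptl_pB c.sign hf hg h1).add (Ptl_pC c.sign hf hk h2)
  | vn =>
    obtain ⟨h1, h2, h3, h4⟩ := h
    exact Ptl_pV ((c : ℝ) / 2) hf hg hk h1 h2 h3 h4

private theorem Ptl_open {E : Type*} [TopologicalSpace E] {f g k : E → ℂ}
    (ty : Ty) (fl : Bool) (hf : Continuous f) (hg : Continuous g) (hk : Continuous k) :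
    IsOpen {p | PtlD ty fl (f p) (g p) (k p)} := by
  have hs : ∀ {u : E → ℂ}, Continuous u → IsOpen {p | 0 < (u p).re + 1 / 2 ∧ (u p).re + 1 / 2 < 1} :=
    fun {u} hu => (isOpen_lt continuous_const
      ((Complex.continuous_re.comp hu).add continuous_const)).inter
      (isOpen_lt ((Complex.continuous_re.comp hu).add continuous_const) continuous_const)
  have hd : ∀ {u : E → ℂ}, Continuous u → IsOpen {p | fdom (u p)} := fun {u} hu =>
    Pool.Agent.S3.fdom_open.preimage hu
  have hys : Continuous fun p => ys fl (g p) (k p) := by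
    unfold ys
    split_ifs
    · exact hk
    · exact hg
  have hyt : Continuous fun p => yt fl (g p) (k p) := by
    unfold yt
    split_ifs
    · exact hg
    · exact hk
  cases ty with
  | cl => exact hd (hg.add hk)
  | zn => exact (hd (hys.sub hf)).inter ((hd (hf.add hyt)).inter ((hs hf).inter (hs hyt)))
  | vn => exact (hd (hg.sub hf)).inter ((hd (hg.add hf)).inter ((hd (hk.sub hf)).inter
      (hd (hk.add hf))))

/-! ### The variables -/

private theorem Ptl_ye_an (C : Ch m) (n : ℕ) (p : C.Vn ⊕ C.Ix → ℂ) :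
    AnalyticAt ℂ (fun p : C.Vn ⊕ C.Ix → ℂ => ye (fun j => p (Sum.inr (Sum.inl j))) n) p := by
  unfold ye
  by_cases h : 0 < n ∧ n ≤ m
  · simp only [dif_pos h]
    exact (ContinuousLinearMap.proj (R := ℂ) (φ := fun _ : C.Vn ⊕ C.Ix => ℂ)
      (Sum.inr (Sum.inl ⟨n - 1, by omega⟩))).analyticAt p
  · simp only [dif_neg h]
    exact analyticAt_const

private theorem Ptl_ow_an (C : Ch m) (i : Fin (m + 1)) (p : C.Vn ⊕ C.Ix → ℂ) :
    AnalyticAt ℂ (fun p : C.Vn ⊕ C.Ix → ℂ =>
      C.ow (fun i => p (Sum.inl i)) (fun j => p (Sum.inr j)) i) p := by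
  unfold Ch.ow
  by_cases h : C.ty i = Ty.vn
  · simp only [dif_pos h]
    exact (ContinuousLinearMap.proj (R := ℂ) (φ := fun _ : C.Vn ⊕ C.Ix => ℂ)
      (Sum.inl ⟨i, h⟩)).analyticAt p
  · simp only [dif_neg h]
    by_cases h' : C.ty i = Ty.zn
    · simp only [dif_pos h']
      exact (ContinuousLinearMap.proj (R := ℂ) (φ := fun _ : C.Vn ⊕ C.Ix => ℂ)
        (Sum.inr (Sum.inr ⟨i, h'⟩))).analyticAt p
    · simp only [dif_neg h']
      exact analyticAt_const

private theorem Ptl_ye_pc (n : ℕ) : ye (fun j => K.pc C (Sum.inr (Sum.inl j))) n = ye K.yc n := rfl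

private theorem Ptl_ow_pc {i : Fin (m + 1)} (h : C.ty i ≠ Ty.cl) :
    C.ow (fun i => K.pc C (Sum.inl i)) (fun j => K.pc C (Sum.inr j)) i = K.oc i := by
  unfold Ch.ow
  by_cases h1 : C.ty i = Ty.vn
  · rw [dif_pos h1]
    rfl
  · rw [dif_neg h1]
    by_cases h2 : C.ty i = Ty.zn
    · rw [dif_pos h2]
      rfl
    · exfalso
      cases h3 : C.ty i with
      | cl => exact h h3
      | zn => exact h2 h3
      | vn => exact h1 h3

/-- The own variables of the closed nodes do not matter. -/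
private theorem Ptl_W_congr {o o' : Fin (m + 1) → ℂ} (h : ∀ i, C.ty i ≠ Ty.cl → o i = o' i)
    (y : Fin m → ℂ) : C.W o y = C.W o' y := by
  unfold Ch.W
  congr 1
  refine Finset.sum_congr rfl fun i _ => ?_
  by_cases hi : C.ty i = Ty.cl
  · rw [hi]
    rfl
  · rw [h i hi]

private theorem Ptl_G_congr {o o' : Fin (m + 1) → ℂ} (h : ∀ i, C.ty i ≠ Ty.cl → o i = o' i)
    (y : Fin m → ℂ) : C.G o y = C.G o' y := by
  unfold Ch.G
  congr 1
  refine Finset.sum_congr rfl fun i _ => ?_
  by_cases hi : C.ty i = Ty.cl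
  · rw [hi]
    rfl
  · rw [h i hi]

/-- The slot which is not the one of the Bailey step is not the dummy. -/
private theorem Ptl_yt (hC : C.OK) {i : Fin (m + 1)} (hi : C.ty i = Ty.zn) (y : Fin m → ℂ) :
    ∃ j, yt (C.fl i) (ye y i) (ye y (i + 1)) = y j := by
  have hm := hC.m1
  have hlt := i.2
  unfold yt
  cases hf : C.fl i with
  | true =>
    simp only [if_true]
    have h0 : 0 < i.1 := by
      by_contra h
      have h1 : i = 0 := Fin.ext (by show i.1 = 0; omega)
      rw [h1] at hi hf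
      rw [hC.zl hi] at hf
      exact Bool.false_ne_true hf
    refine ⟨⟨i.1 - 1, by omega⟩, ?_⟩
    unfold ye
    rw [dif_pos ⟨h0, by omega⟩]
  | false =>
    simp only [Bool.false_eq_true, if_false]
    have h0 : i.1 + 1 ≤ m := by
      by_contra h
      have h1 : i = Fin.last m := Fin.ext (by show i.1 = m; omega)
      rw [h1] at hi hf
      rw [hC.zr hi] at hf
      exact Bool.false_ne_true hf.symm
    refine ⟨⟨i.1, by omega⟩, ?_⟩
    unfold ye
    rw [dif_pos ⟨by omega, h0⟩]
    rfl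

/-- The critical point is in the domain. -/
private theorem Ptl_pc (hC : C.OK) (hK : Cn.OK C K) (hR : Rg C K) (i : Fin (m + 1)) :
    PtlD (C.ty i) (C.fl i) (C.ow (fun i => K.pc C (Sum.inl i)) (fun j => K.pc C (Sum.inr j)) i)
      (ye K.yc i) (ye K.yc (i + 1)) := by
  cases h : C.ty i with
  | cl => exact (hR.cl i h).1
  | zn =>
    have h1 : C.ow (fun i => K.pc C (Sum.inl i)) (fun j => K.pc C (Sum.inr j)) i = K.oc i :=
      Ptl_ow_pc (by rw [h]; exact fun h => nomatch h)
    rw [h1]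
    obtain ⟨h2, -, h3, -⟩ := hR.zn i h
    refine ⟨h2, h3, ?_, ?_⟩
    · have h4 := abs_lt.1 ((hK.z1 i h).trans (hK.z2 i))
      constructor <;> linarith [h4.1, h4.2]
    · obtain ⟨j, hj⟩ := Ptl_yt hC h K.yc
      rw [hj]
      have h4 := hK.y0 j
      have h5 := hK.y1 j
      constructor <;> linarith
  | vn =>
    have h1 : C.ow (fun i => K.pc C (Sum.inl i)) (fun j => K.pc C (Sum.inr j)) i = K.oc i :=
      Ptl_ow_pc (by rw [h]; exact fun h => nomatch h)
    rw [h1]
    obtain ⟨h2, -, h3, -⟩ := hR.vn i h (ye K.yc i) (by simp)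
    obtain ⟨h4, -, h5, -⟩ := hR.vn i h (ye K.yc (i + 1)) (by simp)
    exact ⟨h2, h3, h4, h5⟩

/-- The potential is analytic near the critical point, and its real part is the growth rate. -/
theorem Wt_an (hC : C.OK) (hK : Cn.OK C K) (hR : Rg C K) : ∃ U : Set (C.Vn ⊕ C.Ix → ℂ),
    IsOpen U ∧ K.pc C ∈ U ∧ AnalyticOnNhd ℂ C.Wt U ∧ ∀ p ∈ U, (C.Wt p).re =
      C.G (C.ow (fun i => p (Sum.inl i)) (fun j => p (Sum.inr j))) (fun j => p (Sum.inr (Sum.inl j))) := by
  set o : Fin (m + 1) → (C.Vn ⊕ C.Ix → ℂ) → ℂ := fun i p =>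
    C.ow (fun i => p (Sum.inl i)) (fun j => p (Sum.inr j)) i with ho
  set y : ℕ → (C.Vn ⊕ C.Ix → ℂ) → ℂ := fun n p => ye (fun j => p (Sum.inr (Sum.inl j))) n with hy
  have ho_c : ∀ i, Continuous (o i) := fun i => continuous_iff_continuousAt.2 fun p =>
    (Ptl_ow_an C i p).continuousAt
  have hy_c : ∀ n, Continuous (y n) := fun n => continuous_iff_continuousAt.2 fun p =>
    (Ptl_ye_an C n p).continuousAt
  set U : Set (C.Vn ⊕ C.Ix → ℂ) := (⋂ j : Fin m, {p | 0 < (p (Sum.inr (Sum.inl j))).re + 1 / 2 ∧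
      (p (Sum.inr (Sum.inl j))).re + 1 / 2 < 1}) ∩
    ⋂ i : Fin (m + 1), {p | PtlD (C.ty i) (C.fl i) (o i p) (y i p) (y (i + 1) p)} with hU
  refine ⟨U, ?_, ?_, ?_, ?_⟩
  · refine IsOpen.inter (isOpen_iInter_of_finite fun j => ?_)
      (isOpen_iInter_of_finite fun i => Ptl_open _ _ (ho_c i) (hy_c _) (hy_c _))
    have hc : Continuous fun p : C.Vn ⊕ C.Ix → ℂ => (p (Sum.inr (Sum.inl j))).re + 1 / 2 :=
      (Complex.continuous_re.comp (continuous_apply _)).add continuous_const
    exact (isOpen_lt continuous_const hc).inter (isOpen_lt hc continuous_const)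
  · refine ⟨Set.mem_iInter.2 fun j => ?_, Set.mem_iInter.2 fun i => Ptl_pc hC hK hR i⟩
    have h4 := hK.y0 j
    have h5 := hK.y1 j
    show 0 < (K.yc j).re + 1 / 2 ∧ (K.yc j).re + 1 / 2 < 1
    constructor <;> linarith
  · intro p hp
    have hp1 := fun j => Set.mem_iInter.1 hp.1 j
    have hp2 := fun i => Set.mem_iInter.1 hp.2 i
    have e : C.Wt = fun p => (∑ j, 4 * ff (p (Sum.inr (Sum.inl j)) + 1 / 2)) +
        ∑ i : Fin (m + 1), pN (C.c i) (C.ty i) (C.fl i) (o i p) (y i p) (y (i + 1) p) := rfl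
    rw [e]
    refine AnalyticAt.add ?_ ?_
    · refine Finset.analyticAt_fun_sum _ fun j _ => analyticAt_const.mul ?_
      exact Ptl_ff ((ContinuousLinearMap.proj (R := ℂ) (φ := fun _ : C.Vn ⊕ C.Ix => ℂ)
        (Sum.inr (Sum.inl j))).analyticAt p) (hp1 j)
    · exact Finset.analyticAt_fun_sum _ fun i _ =>
        Ptl_pN _ _ _ (Ptl_ow_an C i p) (Ptl_ye_an C _ p) (Ptl_ye_an C _ p) (hp2 i)
  · intro p hp
    have hp1 := fun j => Set.mem_iInter.1 hp.1 j
    have hp2 := fun i => Set.mem_iInter.1 hp.2 i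
    show ((∑ j, 4 * ff (p (Sum.inr (Sum.inl j)) + 1 / 2)) +
        ∑ i : Fin (m + 1), pN (C.c i) (C.ty i) (C.fl i) (o i p) (y i p) (y (i + 1) p)).re = _
    unfold Ch.G
    rw [add_re, re_sum, re_sum]
    congr 1
    · refine Finset.sum_congr rfl fun j _ => ?_
      rw [Ptl_Rfh (hp1 j)]
      simp
    · exact Finset.sum_congr rfl fun i _ => Ptl_re (hp2 i)

/-- The derivative vanishes at the critical point. -/
theorem Wt_crit (hC : C.OK) (hK : Cn.OK C K) (hR : Rg C K) (hc : Crt C K) (ξ : C.Vn ⊕ C.Ix → ℂ) :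
    fderiv ℂ C.Wt (K.pc C) ξ = 0 := by
  classical
  obtain ⟨U, -, hU, hA, -⟩ := Wt_an hC hK hR
  have hd : HasFDerivAt C.Wt (fderiv ℂ C.Wt (K.pc C)) (K.pc C) :=
    (hA _ hU).differentiableAt.hasFDerivAt
  have h1 : ∀ k, HasDerivAt (fun w => C.Wt (Function.update (K.pc C) k w))
      (fderiv ℂ C.Wt (K.pc C) (Pi.single k 1)) (K.pc C k) := by
    intro k
    have h2 : HasDerivAt (Function.update (K.pc C) k) (Pi.single k 1) (K.pc C k) :=
      hasDerivAt_update _ _ _
    have h3 : HasFDerivAt C.Wt (fderiv ℂ C.Wt (K.pc C))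
        (Function.update (K.pc C) k (K.pc C k)) := by
      rw [Function.update_eq_self]
      exact hd
    exact h3.comp_hasDerivAt (K.pc C k) h2
  have key : ∀ k, fderiv ℂ C.Wt (K.pc C) (Pi.single k 1) = 0 := by
    intro k
    rcases k with ⟨i, hi⟩ | (j | ⟨i, hi⟩)
    · have h2 : (fun w => C.Wt (Function.update (K.pc C) (Sum.inl ⟨i, hi⟩) w)) =
          fun w => C.W (Function.update K.oc i w) K.yc := by
        funext w
        unfold Ch.Wt
        have e : (fun j => Function.update (K.pc C) (Sum.inl ⟨i, hi⟩) w (Sum.inr (Sum.inl j))) =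
            K.yc := by
          funext j
          rw [Function.update_of_ne (by simp)]
          rfl
        rw [e]
        refine Ptl_W_congr (fun i' hi' => ?_) _
        unfold Ch.ow
        by_cases h1 : C.ty i' = Ty.vn
        · rw [dif_pos h1]
          beta_reduce
          by_cases h2 : i' = i
          · subst h2
            rw [Function.update_self, Function.update_self]
          · rw [Function.update_of_ne h2, Function.update_of_ne]
            · rfl
            · intro h3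
              exact h2 (congrArg Subtype.val (Sum.inl_injective h3))
        · rw [dif_neg h1]
          have h3 : i' ≠ i := fun h => h1 (h ▸ hi)
          by_cases h2 : C.ty i' = Ty.zn
          · rw [dif_pos h2]
            beta_reduce
            rw [Function.update_of_ne h3, Function.update_of_ne (by simp)]
            rfl
          · exfalso
            cases h4 : C.ty i' with
            | cl => exact hi' h4
            | zn => exact h2 h4
            | vn => exact h1 h4
      have h3 := h1 (Sum.inl ⟨i, hi⟩)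
      rw [h2] at h3
      exact h3.unique (hc.own i (by rw [hi]; exact fun h => nomatch h))
    · have h2 : (fun w => C.Wt (Function.update (K.pc C) (Sum.inr (Sum.inl j)) w)) =
          fun w => C.W K.oc (Function.update K.yc j w) := by
        funext w
        unfold Ch.Wt
        have e : (fun j' => Function.update (K.pc C) (Sum.inr (Sum.inl j)) w (Sum.inr (Sum.inl j'))) =
            Function.update K.yc j w := by
          funext j'
          by_cases h : j' = j
          · subst h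
            rw [Function.update_self, Function.update_self]
          · rw [Function.update_of_ne h, Function.update_of_ne]
            · rfl
            · intro h3
              exact h (Sum.inl_injective (Sum.inr_injective h3))
        rw [e]
        refine Ptl_W_congr (fun i' hi' => ?_) _
        unfold Ch.ow
        by_cases h1 : C.ty i' = Ty.vn
        · rw [dif_pos h1]
          beta_reduce
          rw [Function.update_of_ne (by simp)]
          rfl
        · rw [dif_neg h1]
          by_cases h2 : C.ty i' = Ty.zn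
          · rw [dif_pos h2]
            beta_reduce
            rw [Function.update_of_ne (by simp)]
            rfl
          · exfalso
            cases h4 : C.ty i' with
            | cl => exact hi' h4
            | zn => exact h2 h4
            | vn => exact h1 h4
      have h3 := h1 (Sum.inr (Sum.inl j))
      rw [h2] at h3
      exact h3.unique (hc.edge j)
    · have h2 : (fun w => C.Wt (Function.update (K.pc C) (Sum.inr (Sum.inr ⟨i, hi⟩)) w)) =
          fun w => C.W (Function.update K.oc i w) K.yc := by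
        funext w
        unfold Ch.Wt
        have e : (fun j => Function.update (K.pc C) (Sum.inr (Sum.inr ⟨i, hi⟩)) w
            (Sum.inr (Sum.inl j))) = K.yc := by
          funext j
          rw [Function.update_of_ne (by simp)]
          rfl
        rw [e]
        refine Ptl_W_congr (fun i' hi' => ?_) _
        unfold Ch.ow
        by_cases h1 : C.ty i' = Ty.vn
        · have h3 : i' ≠ i := by
            rintro rfl
            rw [hi] at h1
            exact absurd h1 (by decide)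
          rw [dif_pos h1]
          beta_reduce
          rw [Function.update_of_ne h3, Function.update_of_ne (by simp)]
          rfl
        · rw [dif_neg h1]
          by_cases h2 : C.ty i' = Ty.zn
          · rw [dif_pos h2]
            beta_reduce
            by_cases h3 : i' = i
            · subst h3
              rw [Function.update_self, Function.update_self]
            · rw [Function.update_of_ne h3, Function.update_of_ne]
              · rfl
              · intro h4
                exact h3 (congrArg Subtype.val (Sum.inr_injective (Sum.inr_injective h4)))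
          · exfalso
            cases h4 : C.ty i' with
            | cl => exact hi' h4
            | zn => exact h2 h4
            | vn => exact h1 h4
      have h3 := h1 (Sum.inr (Sum.inr ⟨i, hi⟩))
      rw [h2] at h3
      exact h3.unique (hc.own i (by rw [hi]; exact fun h => nomatch h))
  have h2 := Finset.univ_sum_single ξ
  rw [← h2, map_sum]
  refine Finset.sum_eq_zero fun k _ => ?_
  have h3 : (Pi.single k (ξ k) : C.Vn ⊕ C.Ix → ℂ) = ξ k • Pi.single k 1 := by
    rw [← Pi.single_smul, smul_eq_mul, mul_one]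
  rw [h3, map_smul, key k, smul_zero]

/-- The second derivative test. -/
private theorem Ptl_test {f f' : ℝ → ℝ} {A k e : ℝ} (h1 : ∀ᶠ s in 𝓝 (0 : ℝ), HasDerivAt f (f' s) s)
    (h0 : f' 0 = 0) (h2 : HasDerivAt f' A 0) (he : f 0 = e)
    (h3 : ∀ᶠ s in 𝓝 (0 : ℝ), f s ≤ e - k * s ^ 2) : A ≤ -(2 * k) := by
  by_contra hcon
  push Not at hcon
  set g : ℝ → ℝ := fun s => f s + k * s ^ 2 with hg
  have hq : ∀ s : ℝ, HasDerivAt (fun s : ℝ => k * s ^ 2) (2 * k * s) s := by
    intro s
    exact ((hasDerivAt_pow 2 s).const_mul k).congr_deriv (by push_cast; ring)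
  have hg1 : ∀ᶠ s in 𝓝 (0 : ℝ), HasDerivAt g (f' s + 2 * k * s) s :=
    h1.mono fun s hs => hs.add (hq s)
  have hg2 : deriv g =ᶠ[𝓝 0] fun s => f' s + 2 * k * s := hg1.mono fun s hs => hs.deriv
  have hg3 : HasDerivAt (fun s => f' s + 2 * k * s) (A + 2 * k) 0 := by
    have h4 : HasDerivAt (fun s : ℝ => 2 * k * s) (2 * k) 0 := by
      have := (hasDerivAt_id (0 : ℝ)).const_mul (2 * k)
      rwa [mul_one] at this
    exact h2.add h4
  have hg4 : deriv (deriv g) 0 = A + 2 * k := by
    rw [hg2.deriv_eq]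
    exact hg3.deriv
  have hmin : IsLocalMin g 0 := by
    refine isLocalMin_of_deriv_deriv_pos ?_ ?_ hg1.self_of_nhds.continuousAt
    · rw [hg4]
      linarith
    · rw [hg1.self_of_nhds.deriv, h0]
      ring
  have hmax : ∀ᶠ s in 𝓝 (0 : ℝ), g s ≤ g 0 := by
    refine h3.mono fun s hs => ?_
    show f s + k * s ^ 2 ≤ f 0 + k * 0 ^ 2
    rw [he]
    linarith
  have hconst : g =ᶠ[𝓝 0] fun _ => g 0 := by
    filter_upwards [hmin, hmax] with s h4 h5
    exact le_antisymm h5 h4
  have h6 : deriv g =ᶠ[𝓝 0] deriv fun _ : ℝ => g 0 := hconst.deriv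
  have h7 : deriv (deriv g) 0 = 0 := by
    rw [h6.deriv_eq]
    simp
  rw [hg4] at h7
  linarith

/-- The second derivative is negative in the real directions. -/
theorem Wt_neg (hC : C.OK) (hK : Cn.OK C K) (hR : Rg C K) (hc : Crt C K) (hI : Inq C K e0)
    (ξ : C.Vn ⊕ C.Ix → ℝ) (hξ : ξ ≠ 0) : (Pool.Agent.H63.GO.D2 C.Wt (K.pc C) (rc ξ)).re < 0 := by
  classical
  obtain ⟨U, hUo, hU, hA, hre⟩ := Wt_an hC hK hR
  obtain ⟨c, hc0, ρ, hρ, hquad⟩ := hI.quad
  set x : Fin (m + 1) → ℝ := fun i => if h : C.ty i = Ty.vn then ξ (Sum.inl ⟨i, h⟩) else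
    if h : C.ty i = Ty.zn then ξ (Sum.inr (Sum.inr ⟨i, h⟩)) else 0 with hx
  set t : Fin m → ℝ := fun j => ξ (Sum.inr (Sum.inl j)) with ht
  set Q : ℝ := ∑ j, t j ^ 2 + ∑ i ∈ Finset.univ.filter (fun i => C.ty i ≠ Ty.cl), x i ^ 2 with hQ
  have hQ0 : 0 < Q := by
    obtain ⟨k, hk⟩ : ∃ k, ξ k ≠ 0 := by
      by_contra h
      push Not at h
      exact hξ (funext h)
    have h1 : 0 ≤ ∑ j, t j ^ 2 := Finset.sum_nonneg fun _ _ => sq_nonneg _
    have h2 : 0 ≤ ∑ i ∈ Finset.univ.filter (fun i => C.ty i ≠ Ty.cl), x i ^ 2 :=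
      Finset.sum_nonneg fun _ _ => sq_nonneg _
    have hk2 : 0 < ξ k ^ 2 := by positivity
    rcases k with ⟨i, hi⟩ | (j | ⟨i, hi⟩)
    · have h3 : x i = ξ (Sum.inl ⟨i, hi⟩) := by
        show (if h : C.ty i = Ty.vn then ξ (Sum.inl ⟨i, h⟩) else _) = _
        rw [dif_pos hi]
      have h4 : x i ^ 2 ≤ ∑ i ∈ Finset.univ.filter (fun i => C.ty i ≠ Ty.cl), x i ^ 2 :=
        Finset.single_le_sum (f := fun i => x i ^ 2) (fun _ _ => sq_nonneg _)
          (Finset.mem_filter.2 ⟨Finset.mem_univ i, by rw [hi]; exact fun h => nomatch h⟩)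
      rw [h3] at h4
      linarith
    · have h4 : t j ^ 2 ≤ ∑ j, t j ^ 2 :=
        Finset.single_le_sum (f := fun j => t j ^ 2) (fun _ _ => sq_nonneg _) (Finset.mem_univ j)
      have h5 : t j ^ 2 = ξ (Sum.inr (Sum.inl j)) ^ 2 := rfl
      linarith
    · have h3 : x i = ξ (Sum.inr (Sum.inr ⟨i, hi⟩)) := by
        show (if h : C.ty i = Ty.vn then ξ (Sum.inl ⟨i, h⟩) else
          if h : C.ty i = Ty.zn then ξ (Sum.inr (Sum.inr ⟨i, h⟩)) else 0) = _
        rw [dif_neg (by rw [hi]; exact fun h => nomatch h), dif_pos hi]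
      have h4 : x i ^ 2 ≤ ∑ i ∈ Finset.univ.filter (fun i => C.ty i ≠ Ty.cl), x i ^ 2 :=
        Finset.single_le_sum (f := fun i => x i ^ 2) (fun _ _ => sq_nonneg _)
          (Finset.mem_filter.2 ⟨Finset.mem_univ i, by rw [hi]; exact fun h => nomatch h⟩)
      rw [h3] at h4
      linarith
  set L : ℂ → (C.Vn ⊕ C.Ix → ℂ) := fun s => K.pc C + s • rc ξ with hL
  have hLd : ∀ s, HasDerivAt L (rc ξ) s := by
    intro s
    have h1 := ((hasDerivAt_id s).smul_const (rc ξ)).const_add (K.pc C)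
    rw [one_smul] at h1
    exact h1
  have hL0 : L 0 = K.pc C := by
    show K.pc C + (0 : ℂ) • rc ξ = K.pc C
    rw [zero_smul, add_zero]
  have hLU : ∀ᶠ s in 𝓝 (0 : ℂ), L s ∈ U := by
    refine (hLd 0).continuousAt.eventually ?_
    rw [hL0]
    exact hUo.mem_nhds hU
  have hd1 : ∀ᶠ s in 𝓝 (0 : ℂ), HasDerivAt (fun s => C.Wt (L s)) (fderiv ℂ C.Wt (L s) (rc ξ)) s :=
    hLU.mono fun s hs => ((hA _ hs).differentiableAt.hasFDerivAt).comp_hasDerivAt s (hLd s)
  have hd2 : HasDerivAt (fun s => fderiv ℂ C.Wt (L s) (rc ξ))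
      (Pool.Agent.H63.GO.D2 C.Wt (K.pc C) (rc ξ)) 0 := by
    have h1 : DifferentiableAt ℂ (fun w => fderiv ℂ C.Wt w (rc ξ)) (K.pc C) :=
      ((hA _ hU).fderiv.differentiableAt).clm_apply (differentiableAt_const _)
    have h2 : HasFDerivAt (fun w => fderiv ℂ C.Wt w (rc ξ))
        (fderiv ℂ (fun w => fderiv ℂ C.Wt w (rc ξ)) (K.pc C)) (L 0) := by
      rw [hL0]
      exact h1.hasFDerivAt
    exact h2.comp_hasDerivAt (0 : ℂ) (hLd 0)
  -- the real function
  have hco : Tendsto (fun s : ℝ => (s : ℂ)) (𝓝 0) (𝓝 0) := by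
    have := (Complex.continuous_ofReal.tendsto (0 : ℝ))
    rwa [Complex.ofReal_zero] at this
  have hr1 : ∀ᶠ s : ℝ in 𝓝 (0 : ℝ), HasDerivAt (fun s : ℝ => (C.Wt (L s)).re)
      ((fderiv ℂ C.Wt (L s) (rc ξ)).re) s :=
    (hco.eventually hd1).mono fun s hs => hs.real_of_complex
  have hr2 : HasDerivAt (fun s : ℝ => (fderiv ℂ C.Wt (L s) (rc ξ)).re)
      (Pool.Agent.H63.GO.D2 C.Wt (K.pc C) (rc ξ)).re 0 := by
    have h1 : HasDerivAt (fun s => fderiv ℂ C.Wt (L s) (rc ξ))
        (Pool.Agent.H63.GO.D2 C.Wt (K.pc C) (rc ξ)) ((0 : ℝ) : ℂ) := by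
      rw [Complex.ofReal_zero]
      exact hd2
    exact h1.real_of_complex
  have h00 : (fderiv ℂ C.Wt (L ((0 : ℝ) : ℂ)) (rc ξ)).re = 0 := by
    rw [Complex.ofReal_zero, hL0, Wt_crit hC hK hR hc, Complex.zero_re]
  have hval : (C.Wt (L ((0 : ℝ) : ℂ))).re = e0 := by
    rw [Complex.ofReal_zero, hL0]
    rw [hre _ hU, ← hI.crit]
    exact Ptl_G_congr (fun i hi => Ptl_ow_pc hi) _
  have hle : ∀ᶠ s : ℝ in 𝓝 (0 : ℝ), (C.Wt (L s)).re ≤ e0 - c * Q * s ^ 2 := by
    have hx1 : ∀ᶠ s in 𝓝 (0 : ℝ), ∀ i, |s * x i| ≤ ρ := by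
      rw [eventually_all]
      intro i
      have h1 : Tendsto (fun s : ℝ => |s * x i|) (𝓝 0) (𝓝 |0 * x i|) :=
        (((continuous_id.mul continuous_const).abs).tendsto 0)
      rw [zero_mul, abs_zero] at h1
      exact h1.eventually (eventually_le_nhds hρ)
    have ht1 : ∀ᶠ s in 𝓝 (0 : ℝ), ∀ j, |s * t j| ≤ ρ := by
      rw [eventually_all]
      intro j
      have h1 : Tendsto (fun s : ℝ => |s * t j|) (𝓝 0) (𝓝 |0 * t j|) :=
        (((continuous_id.mul continuous_const).abs).tendsto 0)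
      rw [zero_mul, abs_zero] at h1
      exact h1.eventually (eventually_le_nhds hρ)
    filter_upwards [hx1, ht1, hco.eventually hLU] with s h1 h2 h3
    rw [hre _ h3]
    have h4 := hquad (fun i => s * x i) (fun j => s * t j) h1 h2
    have h5 : (fun j => L s (Sum.inr (Sum.inl j))) = fun j => K.yc j + ((s * t j : ℝ) : ℂ) := by
      funext j
      show K.yc j + (s : ℂ) * ((ξ (Sum.inr (Sum.inl j)) : ℝ) : ℂ) = _
      rw [Complex.ofReal_mul]
    have h6 : ∀ i, C.ty i ≠ Ty.cl → C.ow (fun i => L s (Sum.inl i)) (fun j => L s (Sum.inr j)) i =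
        K.oc i + ((s * x i : ℝ) : ℂ) := by
      intro i hi
      rw [Complex.ofReal_mul]
      unfold Ch.ow
      by_cases h7 : C.ty i = Ty.vn
      · have e1 : x i = ξ (Sum.inl ⟨i, h7⟩) := by
          show (if h : C.ty i = Ty.vn then ξ (Sum.inl ⟨i, h⟩) else _) = _
          rw [dif_pos h7]
        rw [dif_pos h7, e1]
        rfl
      · rw [dif_neg h7]
        by_cases h8 : C.ty i = Ty.zn
        · have e1 : x i = ξ (Sum.inr (Sum.inr ⟨i, h8⟩)) := by
            show (if h : C.ty i = Ty.vn then ξ (Sum.inl ⟨i, h⟩) else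
              if h : C.ty i = Ty.zn then ξ (Sum.inr (Sum.inr ⟨i, h⟩)) else 0) = _
            rw [dif_neg h7, dif_pos h8]
          rw [dif_pos h8, e1]
          rfl
        · exfalso
          cases h9 : C.ty i with
          | cl => exact hi h9
          | zn => exact h8 h9
          | vn => exact h7 h9
    rw [h5, Ptl_G_congr h6]
    refine h4.trans (le_of_eq ?_)
    have e1 : ∑ j, (s * t j) ^ 2 = s ^ 2 * ∑ j, t j ^ 2 := by
      rw [Finset.mul_sum]
      exact Finset.sum_congr rfl fun j _ => by ring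
    have e2 : ∑ i ∈ Finset.univ.filter (fun i => C.ty i ≠ Ty.cl), (s * x i) ^ 2 =
        s ^ 2 * ∑ i ∈ Finset.univ.filter (fun i => C.ty i ≠ Ty.cl), x i ^ 2 := by
      rw [Finset.mul_sum]
      exact Finset.sum_congr rfl fun i _ => by ring
    rw [e1, e2, hQ]
    ring
  have hfin := Ptl_test (k := c * Q) hr1 h00 hr2 hval hle
  have hcQ : 0 < c * Q := mul_pos hc0 hQ0
  linarith

theorem Wt_val (hC : C.OK) (hK : Cn.OK C K) (hR : Rg C K) (hI : Inq C K e0) :
    (C.Wt (K.pc C)).re = e0 := by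
  obtain ⟨U, -, hU, -, h⟩ := Wt_an hC hK hR
  rw [h _ hU, ← hI.crit]
  exact Ptl_G_congr (fun i hi => Ptl_ow_pc hi) _

end Pool.Agent.S5
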