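import Pool.Agent.S5.S.HighB
import Pool.Agent.S5.S.Ptl

/-!
# Large indices: asymptotics
-/

set_option autoImplicit false

namespace Pool.Agent.S5

open Complex Filter Topology MeasureTheory
open Pool.Agent.S3 (Rf Ctr ALim_of_prod bound_of_prod)
open Pool.Agent.H63.VC3 (ff)
open Pool.Agent.H63.GO (cp rc)

variable {m : ℕ} {C : Ch m} {K : Cn m} {e0 : ℝ}

/-- The contours of the integration variables. -/
noncomputable def gm (C : Ch m) (K : Cn m) (ε : ℝ) (v : C.Vn) (x : ℝ) : ℂ :=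
  tab (K.oc v).im (K.x1 v) ε x

noncomputable def gm' (C : Ch m) (K : Cn m) (ε : ℝ) (v : C.Vn) (x : ℝ) : ℂ :=
  tab' (K.oc v).im (K.x1 v) ε x

theorem Dm_mono {M k k' : ℕ} {d d' : ℝ} (h : k' ≤ k) (hd : d ≤ d') {z : ℂ} (hz : z ∈ Dm M k d) :
    z ∈ Dm M k' d' :=
  ⟨(al_mono h).trans hz.1, hz.2.1, hz.2.2.trans hd⟩

theorem dx_sum (hK : Cn.OK C K) : 0 ≤ ∑ e, dx C K e ∧ ∀ e, dx C K e ≤ ∑ e, dx C K e :=
  ⟨Finset.sum_nonneg fun e _ => (lx_lt hK e).2.2.2.1.le,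
    fun e => Finset.single_le_sum (fun e _ => (lx_lt hK e).2.2.2.1.le) (Finset.mem_univ e)⟩

section

variable {ε : ℝ} (hK : Cn.OK C K) (Q : Krn C) (hQ : Q.OK) (hε : 0 < ε)
  (hεv : ∀ v : C.Vn, ε < (K.oc v).im)

include hK hQ hε hεv

/-- The bound of the integrand on the contours. -/
theorem Krn.TH_bd : ∃ A : ℝ, 0 < A ∧ ∃ p : ℕ, ∀ᶠ M : ℕ in atTop,
    ∀ (x : C.Vn → ℝ) (z : C.Ix → ℂ) (w : C.Ix → ℝ) (r : ℝ), 0 ≤ r →
    (∀ e, PtU M (ix0 C K M e) (ix1 C K M e) (dx C K e) (hx C K e) (tx C K e) 0 (z e) (w e)) →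
    ∀ g : ℝ, C.G (C.ow (fun v => tab (K.oc v).im (K.x1 v) ε (x v)) z) (fun j => z (Sum.inl j)) ≤ g →
    ‖Q.TH (gm C K ε) (gm' C K ε) M x z‖ ≤ A * (M : ℝ) ^ p * Real.exp (M * g) *
      ∏ v, ‖gm' C K ε v (x v)‖ := by
  obtain ⟨hD, hDe⟩ := dx_sum hK
  obtain ⟨B, hB⟩ : ∃ B : ℝ, ∀ v : C.Vn, (K.oc v).im ≤ B := by
    refine ⟨∑ v : C.Vn, (K.oc v).im, fun v => ?_⟩
    exact Finset.single_le_sum (f := fun v : C.Vn => (K.oc v).im) (fun v _ => (hK.v0 v v.2).le)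
      (Finset.mem_univ v)
  obtain ⟨A, hA, p, hp⟩ := Q.TF_bd hQ (D := ∑ e, dx C K e) (κ := ε) (B := B) hD hε
  refine ⟨A * (‖Q.cv‖ + 1) ^ Fintype.card C.Vn, by positivity, p + 2 * Fintype.card C.Vn, ?_⟩
  filter_upwards [hp, ix_ev hK Q.h0, eventually_ge_atTop 1] with M hp hix hM x z w r _ hz g hg
  have hM1 : (1 : ℝ) ≤ M := by exact_mod_cast hM
  have hq : InB C Q.h0 (∑ e, dx C K e) ε B M (Sum.elim (fun v => gm C K ε v (x v)) z) := by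
    refine ⟨⟨fun e => ?_, fun v => ?_⟩, fun v => ?_⟩
    · exact Dm_mono (hix e).h0 (hDe e) ((hz e).mem (hix e).k0 (hix e).k1 (lx_lt hK e).2.2.1)
    · have h := tab_bd hε (hεv v) (hK.x0 v v.2) (hK.x1 v v.2) (x v)
      exact ⟨h.1, h.2.2.1⟩
    · have h := tab_bd hε (hεv v) (hK.x0 v v.2) (hK.x1 v v.2) (x v)
      exact ⟨h.2.1.trans (hB v), h.2.2.2⟩
  have h1 := hp _ hq
  rw [Krn.TH_eq, norm_mul, norm_prod]
  have h2 : ∏ v : C.Vn, ‖Q.cv * M ^ 2 * gm' C K ε v (x v)‖ =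
      (‖Q.cv‖ * (M : ℝ) ^ 2) ^ Fintype.card C.Vn * ∏ v, ‖gm' C K ε v (x v)‖ := by
    rw [← Finset.card_univ, ← Finset.prod_const, ← Finset.prod_mul_distrib]
    refine Finset.prod_congr rfl fun v _ => ?_
    rw [norm_mul, norm_mul, norm_pow, norm_natCast]
  rw [h2]
  have hP : 0 ≤ ∏ v, ‖gm' C K ε v (x v)‖ := Finset.prod_nonneg fun v _ => norm_nonneg _
  have h3 : ‖Q.TF M (Sum.elim (fun v => gm C K ε v (x v)) z)‖ ≤ A * (M : ℝ) ^ p * Real.exp (M * g) := by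
    refine h1.trans ?_
    apply mul_le_mul_of_nonneg_left _ (by positivity)
    apply Real.exp_le_exp.2
    exact mul_le_mul_of_nonneg_left hg (by linarith)
  have h4 : (‖Q.cv‖ * (M : ℝ) ^ 2) ^ Fintype.card C.Vn ≤
      (‖Q.cv‖ + 1) ^ Fintype.card C.Vn * (M : ℝ) ^ (2 * Fintype.card C.Vn) := by
    rw [mul_pow, ← pow_mul]
    gcongr
    linarith
  calc ‖Q.TF M (Sum.elim (fun v => gm C K ε v (x v)) z)‖ *
        ((‖Q.cv‖ * (M : ℝ) ^ 2) ^ Fintype.card C.Vn * ∏ v, ‖gm' C K ε v (x v)‖)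
      ≤ (A * (M : ℝ) ^ p * Real.exp (M * g)) * (((‖Q.cv‖ + 1) ^ Fintype.card C.Vn *
        (M : ℝ) ^ (2 * Fintype.card C.Vn)) * ∏ v, ‖gm' C K ε v (x v)‖) := by
        gcongr
    _ = A * (‖Q.cv‖ + 1) ^ Fintype.card C.Vn * (M : ℝ) ^ (p + 2 * Fintype.card C.Vn) *
        Real.exp (M * g) * ∏ v, ‖gm' C K ε v (x v)‖ := by
        rw [pow_add]
        ring

/-- Differentiability. -/
theorem Krn.TH_ok : ∀ᶠ M : ℕ in atTop, ∀ x : C.Vn → ℝ,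
    TOKI M (ix0 C K M) (dx C K) (Q.TH (gm C K ε) (gm' C K ε) M x) := by
  obtain ⟨hD, hDe⟩ := dx_sum hK
  filter_upwards [Q.TF_df hQ hD, ix_ev hK Q.h0] with M h1 h2 x
  have key : ∀ z : C.Ix → ℂ, (∀ e, z e ∈ Dm M (ix0 C K M e) (dx C K e)) →
      DifferentiableAt ℂ (Q.TH (gm C K ε) (gm' C K ε) M x) z := by
    intro z hz
    have h3 := h1 (Sum.elim (fun v => gm C K ε v (x v)) z) ⟨fun e => Dm_mono (h2 e).h0 (hDe e) (hz e),
      fun v => by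
        have h := tab_bd hε (hεv v) (hK.x0 v v.2) (hK.x1 v v.2) (x v)
        exact ⟨h.1, h.2.2.1⟩⟩
    have h4 : DifferentiableAt ℂ (fun z : C.Ix → ℂ =>
        (Sum.elim (fun v => gm C K ε v (x v)) z : C.Vn ⊕ C.Ix → ℂ)) z := by
      refine differentiableAt_pi.2 fun e => ?_
      rcases e with v | e
      · exact differentiableAt_const _
      · exact differentiableAt_apply e z
    exact (DifferentiableAt.comp z h3 h4).mul_const _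
  refine ⟨fun z hz => (key z hz).continuousAt.continuousWithinAt, fun z hz j _ => ?_⟩
  have h5 : DifferentiableAt ℂ (fun w => Function.update z j w) (z j) :=
    (hasFDerivAt_update z (z j)).differentiableAt
  have h6 : DifferentiableAt ℂ (Q.TH (gm C K ε) (gm' C K ε) M x) (Function.update z j (z j)) := by
    rw [Function.update_eq_self]
    exact key z hz
  exact DifferentiableAt.comp (z j) h6 h5

/-- The data of the assembly. -/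
theorem Krn.ddata (hG : (∀ᶠ M : ℕ in atTop, ∀ (x : C.Vn → ℝ) (z : C.Ix → ℂ) (w : C.Ix → ℝ),
      (∀ e, PtU M (ix0 C K M e) (ix1 C K M e) (dx C K e) (hx C K e) (tx C K e) 0 (z e) (w e)) →
      C.G (C.ow (fun v => tab (K.oc v).im (K.x1 v) ε (x v)) z) (fun j => z (Sum.inl j)) ≤
        e0 + ∑ e, w e) ∧
    ∀ r : ℝ, 0 < r → ∃ δ : ℝ, 0 < δ ∧ ∀ᶠ M : ℕ in atTop, ∀ (x : C.Vn → ℝ) (z : C.Ix → ℂ) (w : C.Ix → ℝ),
      (∀ e, PtU M (ix0 C K M e) (ix1 C K M e) (dx C K e) (hx C K e) (tx C K e) 0 (z e) (w e)) →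
      ((∃ v : C.Vn, r ≤ |x v - (K.oc v).re|) ∨
        ∃ e, PtU M (ix0 C K M e) (ix1 C K M e) (dx C K e) (hx C K e) (tx C K e) r (z e) (w e)) →
      C.G (C.ow (fun v => tab (K.oc v).im (K.x1 v) ε (x v)) z) (fun j => z (Sum.inl j)) ≤
        e0 - δ + ∑ e, w e) :
    DDataI (ix0 C K) (ix1 C K) (dx C K) (hx C K) (tx C K) (fun v : C.Vn => (K.oc v).re)
      (Q.TH (gm C K ε) (gm' C K ε)) (fun v x => ‖gm' C K ε v x‖) e0 := by
  obtain ⟨ρ, hρ⟩ := bsR hK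
  obtain ⟨A, hA, p, hb⟩ := Krn.TH_bd hK Q hQ hε hεv
  refine ⟨fun e => (lx_lt hK e).2.2.2.1, fun e => (lx_lt hK e).2.2.1, ?_, ?_, ?_, ?_,
    Krn.TH_ok hK Q hQ hε hεv, ?_, ?_, fun v x => norm_nonneg _, ?_, ?_⟩
  · exact (ix_ev hK Q.h0).mono fun M h e => (h e).k0
  · exact (ix_ev hK Q.h0).mono fun M h e => (h e).k1
  · refine ⟨ρ, hρ.pos, ?_⟩
    filter_upwards [ix_ev hK Q.h0, two_div_ev hρ.pos] with M h h2 e
    have h3 := (h e).l0'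
    have h4 := hρ.e2 e
    linarith
  · refine ⟨ρ, hρ.pos, ?_⟩
    filter_upwards [ix_ev hK Q.h0, two_div_ev hρ.pos] with M h h2 e
    have h3 := (h e).l1'
    have h4 := hρ.e3 e
    linarith
  · filter_upwards [ix_ev hK Q.h0, hQ.ex, eventually_gt_atTop Q.h0] with M h hE hM κ hκ
    rw [Fintype.mem_piFinset] at hκ
    refine (Krn.int_term Q hE (fun v => tab_ctr hε (hεv v) (hK.x0 v v.2) (hK.x1 v v.2))
      (fun v x => (tab_bd hε (hεv v) (hK.x0 v v.2) (hK.x1 v v.2) x).2.2.1) (by omega) hM κ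
      (fun e => ?_)).1.aestronglyMeasurable
    have h1 := Finset.mem_Ico.1 (hκ e)
    exact ⟨(h e).h0.trans h1.1, lt_of_lt_of_le h1.2 (h e).k1⟩
  · exact fun v => (tab_ctr hε (hεv v) (hK.x0 v v.2) (hK.x1 v v.2)).int.norm
  · refine ⟨A, hA, p, ?_⟩
    filter_upwards [hb, hG.1] with M hb hG x z w hz
    exact hb x z w 0 le_rfl hz _ (hG x z w hz)
  · intro r hr
    obtain ⟨δ, hδ, hGr⟩ := hG.2 r hr
    refine ⟨δ, hδ, A, hA, p, ?_⟩
    filter_upwards [hb, hGr] with M hb hG x z w hz hfar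
    exact hb x z w 0 le_rfl hz _ (hG x z w hz hfar)

end

/-! ### The limit -/

/-- A neighbourhood of the critical point. -/
structure InU (C : Ch m) (K : Cn m) (ρ : ℝ) (p : C.Vn ⊕ C.Ix → ℂ) : Prop where
  e1 : ∀ e : C.Ix, lx0 C K e + ρ < (p (Sum.inr e)).re
  e2 : ∀ e : C.Ix, (p (Sum.inr e)).re < lx1 C K e
  e3 : ∀ e : C.Ix, |(p (Sum.inr e)).im| < dx C K e + 1
  v1 : ∀ v : C.Vn, 0 < (p (Sum.inl v)).im
  v2 : ∀ v : C.Vn, |(p (Sum.inl v)).re| < K.x1 v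

theorem pc_inr (e : C.Ix) : K.pc C (Sum.inr e) = (tx C K e : ℂ) + (hx C K e : ℂ) * I := by
  rcases e with j | i
  · rw [tx_hx]
    rfl
  · rw [tx_hx']
    rfl

theorem InU_ev (hK : Cn.OK C K) {ρ : ℝ} (hρ : BsR C K ρ) : ∀ᶠ p in 𝓝 (K.pc C), InU C K ρ p := by
  have hc : ∀ e, Tendsto (fun p : C.Vn ⊕ C.Ix → ℂ => p e) (𝓝 (K.pc C)) (𝓝 (K.pc C e)) :=
    fun e => (continuous_apply e).tendsto _
  have hre : ∀ e, Tendsto (fun p : C.Vn ⊕ C.Ix → ℂ => (p e).re) (𝓝 (K.pc C)) (𝓝 (K.pc C e).re) :=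
    fun e => (continuous_re.tendsto _).comp (hc e)
  have him : ∀ e, Tendsto (fun p : C.Vn ⊕ C.Ix → ℂ => (p e).im) (𝓝 (K.pc C)) (𝓝 (K.pc C e).im) :=
    fun e => (continuous_im.tendsto _).comp (hc e)
  have r1 : ∀ e : C.Ix, (K.pc C (Sum.inr e)).re = tx C K e := by
    intro e
    rw [pc_inr]
    simp
  have i1 : ∀ e : C.Ix, (K.pc C (Sum.inr e)).im = hx C K e := by
    intro e
    rw [pc_inr]
    simp
  have a1 : ∀ᶠ p in 𝓝 (K.pc C), ∀ e : C.Ix, lx0 C K e + ρ < (p (Sum.inr e)).re := by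
    refine eventually_all.2 fun e => (hre _).eventually (lt_mem_nhds ?_)
    rw [r1]
    linarith [hρ.e2 e, hρ.pos]
  have a2 : ∀ᶠ p in 𝓝 (K.pc C), ∀ e : C.Ix, (p (Sum.inr e)).re < lx1 C K e := by
    refine eventually_all.2 fun e => (hre _).eventually (gt_mem_nhds ?_)
    rw [r1]
    exact (lx_lt hK e).2.1
  have a3 : ∀ᶠ p in 𝓝 (K.pc C), ∀ e : C.Ix, |(p (Sum.inr e)).im| < dx C K e + 1 := by
    refine eventually_all.2 fun e => (him _).abs.eventually (gt_mem_nhds ?_)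
    rw [i1]
    linarith [(lx_lt hK e).2.2.1]
  have a4 : ∀ᶠ p in 𝓝 (K.pc C), ∀ v : C.Vn, 0 < (p (Sum.inl v)).im :=
    eventually_all.2 fun v => (him _).eventually (lt_mem_nhds (hK.v0 v v.2))
  have a5 : ∀ᶠ p in 𝓝 (K.pc C), ∀ v : C.Vn, |(p (Sum.inl v)).re| < K.x1 v :=
    eventually_all.2 fun v => (hre _).abs.eventually (gt_mem_nhds (hK.v1 v v.2))
  filter_upwards [a1, a2, a3, a4, a5] with p a1 a2 a3 a4 a5
  exact ⟨a1, a2, a3, a4, a5⟩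

theorem card_Zn : (Fintype.card C.Zn : ℝ) = C.nz := by
  rw [Ch.nz, Fintype.card_subtype]

theorem card_Vn : (Fintype.card C.Vn : ℝ) = C.nv := by
  rw [Ch.nv, Fintype.card_subtype]

/-- **The asymptotics of the part of the large indices.** -/
theorem Krn.high (hC : C.OK) (hK : Cn.OK C K) (hI : Inq C K e0) (hR : Rg C K) (hcr : Crt C K)
    (Q : Krn C) (hQ : Q.OK) (hL : Q.Lm K) : ∃ κ : ℂ, κ ≠ 0 ∧ Tendsto (fun M : ℕ =>
      (∏ i, Q.sg i M) * Q.JP K Pat.zero M /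
        ((((M : ℝ) ^ Q.eJ : ℝ) : ℂ) * exp (M * C.Wt (K.pc C)))) atTop (𝓝 κ) := by
  obtain ⟨ε, hε, hεv, hG⟩ := hI.G_bd hK Q.h0
  have hD := Krn.ddata hK Q hQ hε hεv (hG ε hε le_rfl)
  obtain ⟨ρ, hρ⟩ := bsR hK
  obtain ⟨U1, hU1, hU1c, hW, -⟩ := Wt_an hC hK hR
  obtain ⟨A, hA, hT⟩ := Q.TF_lim hL
  obtain ⟨D, hD0, hDe⟩ : ∃ D : ℝ, 0 ≤ D ∧ ∀ e, dx C K e + 1 ≤ D :=
    ⟨∑ e, dx C K e + 1, by linarith [(dx_sum hK).1], fun e => by linarith [(dx_sum hK).2 e]⟩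
  obtain ⟨Φ, hΦd⟩ : ∃ Φ : ℕ → (C.Vn ⊕ C.Ix → ℂ) → ℂ, Φ = fun (M : ℕ) p =>
    (M : ℂ) ^ Fintype.card C.Ix * (Q.TF M p * (Q.cv * M ^ 2) ^ Fintype.card C.Vn) := ⟨_, rfl⟩
  obtain ⟨e, he⟩ : ∃ e : ℝ, e = (∑ j, Q.ew j + ∑ i, Q.ek i) + (Fintype.card C.Ix + 2 * Fintype.card C.Vn : ℕ) :=
    ⟨_, rfl⟩
  have hpc : cp (Sum.elim (fun v : C.Vn => (K.oc v).re) (tx C K))
      (Sum.elim (fun v : C.Vn => (K.oc v).im) (hx C K)) = K.pc C := by
    funext q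
    rcases q with v | q
    · exact Complex.re_add_im _
    · rw [pc_inr]
      rfl
  have hΦ : Tendsto (fun p : ℕ × (C.Vn ⊕ C.Ix → ℂ) => Φ p.1 p.2 * exp (-(p.1 * C.Wt p.2)) /
      (((p.1 : ℝ) ^ e : ℝ) : ℂ)) (atTop ×ˢ 𝓝 (K.pc C)) (𝓝 (Q.cv ^ Fintype.card C.Vn * A)) := by
    refine (hT.const_mul (Q.cv ^ Fintype.card C.Vn)).congr' ?_
    have hev : ∀ᶠ p : ℕ × (C.Vn ⊕ C.Ix → ℂ) in atTop ×ˢ 𝓝 (K.pc C), 0 < p.1 :=
      tendsto_fst.eventually (eventually_gt_atTop 0)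
    filter_upwards [hev] with p hp
    have hp0 : (0 : ℝ) < p.1 := by exact_mod_cast hp
    have hpc0 : (p.1 : ℂ) ≠ 0 := by exact_mod_cast hp0.ne'
    have hr : (((p.1 : ℝ) ^ (∑ j, Q.ew j + ∑ i, Q.ek i) : ℝ) : ℂ) ≠ 0 := by
      exact_mod_cast (Real.rpow_pos_of_pos hp0 _).ne'
    rw [he, Real.rpow_add hp0 (∑ j, Q.ew j + ∑ i, Q.ek i), Real.rpow_natCast, hΦd]
    push_cast
    rw [pow_add, pow_mul, mul_pow]
    field_simp
  obtain ⟨U2, hU2, hU2c, B, hB, hb⟩ := bound_of_prod hΦ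
  have hnh : U1 ∩ U2 ∩ {p | InU C K ρ p} ∈ 𝓝 (K.pc C) :=
    inter_mem (inter_mem (hU1.mem_nhds hU1c) (hU2.mem_nhds hU2c)) (InU_ev hK hρ)
  obtain ⟨U, hUs, hU, hUc⟩ := mem_nhds_iff.1 hnh
  have hDf := Q.TF_df hQ hD0
  have hcont : ∀ᶠ M in atTop, ContinuousOn (Φ M) U := by
    filter_upwards [hDf, ix_ev hK Q.h0, two_div_ev hρ.pos] with M h1 h2 h3 p hp
    have hu : InU C K ρ p := (hUs hp).2
    have hin : InD C Q.h0 D M p := by
      refine ⟨fun e => ⟨?_, ?_, ?_⟩, fun v => ⟨hu.v1 v, (hu.v2 v).le.trans (hK.x1 v v.2).le⟩⟩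
      · exact (al_mono (h2 e).h0).trans ((h2 e).l0'.trans (by linarith [hu.e1 e]))
      · exact (hu.e2 e).le.trans (lx_lt hK e).2.2.2.2
      · exact (hu.e3 e).le.trans (hDe e)
    rw [hΦd]
    exact (((h1 p hin).mul_const _).const_mul _).continuousAt.continuousWithinAt
  have hΦT : ∀ᶠ M : ℕ in atTop, ∀ a : C.Vn ⊕ C.Ix → ℝ,
      cp a (Sum.elim (fun v : C.Vn => (K.oc v).im) (hx C K)) ∈ U →
      Φ M (cp a (Sum.elim (fun v : C.Vn => (K.oc v).im) (hx C K))) =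
        M ^ Fintype.card C.Ix * Q.TH (gm C K ε) (gm' C K ε) M (fun v => a (Sum.inl v))
          (fun j => a (Sum.inr j) + hx C K j * I) := by
    filter_upwards [eventually_gt_atTop 0] with M hM a ha
    have hu : InU C K ρ _ := (hUs ha).2
    have hv : ∀ v : C.Vn, |a (Sum.inl v)| ≤ K.x1 v := by
      intro v
      have h1 := hu.v2 v
      have h2 : (cp a (Sum.elim (fun v : C.Vn => (K.oc v).im) (hx C K)) (Sum.inl v)).re =
          a (Sum.inl v) := by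
        simp [cp]
      rw [h2] at h1
      exact h1.le
    have e1 : (Sum.elim (fun v => gm C K ε v (a (Sum.inl v))) (fun j => a (Sum.inr j) + hx C K j * I) :
        C.Vn ⊕ C.Ix → ℂ) = cp a (Sum.elim (fun v : C.Vn => (K.oc v).im) (hx C K)) := by
      funext q
      rcases q with v | q
      · exact (tab_flat (hK.x0 v v.2) (hv v)).1
      · rfl
    have e2 : ∏ v : C.Vn, (Q.cv * M ^ 2 * gm' C K ε v (a (Sum.inl v))) =
        (Q.cv * M ^ 2) ^ Fintype.card C.Vn := by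
      rw [← Finset.card_univ, ← Finset.prod_const]
      refine Finset.prod_congr rfl fun v _ => ?_
      have h3 : gm' C K ε v (a (Sum.inl v)) = 1 := (tab_flat (hK.x0 v v.2) (hv v)).2
      rw [h3, mul_one]
    rw [hΦd, Krn.TH_eq, e1, e2]
  obtain ⟨κ, hκ, hlim⟩ := hD.lim hU (hW.mono fun p hp => (hUs hp).1.1)
    (Sum.elim (fun v : C.Vn => (K.oc v).im) (hx C K)) (fun j => rfl)
    (by rw [hpc]; exact hUc)
    (fun ξ => by rw [hpc]; exact Wt_crit hC hK hR hcr _)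
    (fun ξ hξ => by rw [hpc]; exact Wt_neg hC hK hR hcr hI ξ hξ)
    (by rw [hpc]; exact Wt_val hC hK hR hI)
    Φ e hcont ⟨B, hB, hb.mono fun M h z hz => h z (hUs hz).1.2⟩
    (by rw [hpc]; exact ALim_of_prod (mul_ne_zero (pow_ne_zero _ hQ.cv) hA) hΦ) hΦT
  refine ⟨κ, hκ, ?_⟩
  rw [hpc] at hlim
  refine hlim.congr' ?_
  have hz0 : ∀ᶠ M : ℕ in atTop, ∀ i : Fin (m + 1), Q.h0 ≤ kz0 M (K.z1 i) ∧ kz1 M (K.z1 i) ≤ M := by
    refine eventually_all.2 fun i => ?_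
    have t1 : Tendsto (fun M : ℕ => (M : ℝ) * (1 / 2 - K.z1 i)) atTop atTop :=
      tendsto_natCast_atTop_atTop.atTop_mul_const (by linarith [hK.z2 i])
    filter_upwards [t1.eventually_ge_atTop (Q.h0 : ℝ), eventually_gt_atTop 0] with M h1 hM
    refine ⟨?_, (kz1_ltH hM (hK.z2 i)).le⟩
    unfold kz0
    have := Nat.le_floor h1
    omega
  filter_upwards [hQ.ex, eventually_gt_atTop Q.h0, ev_kq Q.h0, hz0] with M hE hM hq hz
  have hM0 : (0 : ℝ) < M := by exact_mod_cast (by omega : 0 < M)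
  rw [Krn.high_alg Q hE (fun v => tab_ctr hε (hεv v) (hK.x0 v v.2) (hK.x1 v v.2))
    (fun v x => (tab_bd hε (hεv v) (hK.x0 v v.2) (hK.x1 v v.2) x).2.2.1) K (by omega) hM hq.1
    (fun i => (hz i).1) (fun i => (hz i).2)]
  have e1 : Q.eJ = e - (Fintype.card (C.Vn ⊕ C.Ix) : ℝ) / 2 := by
    have hVI : Fintype.card (C.Vn ⊕ C.Ix) = Fintype.card C.Vn + Fintype.card C.Ix := Fintype.card_sum
    have hIx : (Fintype.card C.Ix : ℝ) = m + C.nz := by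
      have h : Fintype.card C.Ix = Fintype.card (Fin m) + Fintype.card C.Zn := Fintype.card_sum
      rw [h, Fintype.card_fin]
      push_cast
      rw [card_Zn]
    rw [he, Krn.eJ, hVI]
    push_cast
    rw [hIx, card_Vn]
    ring
  rw [e1, Real.rpow_sub hM0, ofReal_div]
  have h1 : (((M : ℝ) ^ ((Fintype.card (C.Vn ⊕ C.Ix) : ℝ) / 2) : ℝ) : ℂ) ≠ 0 := by
    exact_mod_cast (Real.rpow_pos_of_pos hM0 _).ne'
  have h2 : (((M : ℝ) ^ e : ℝ) : ℂ) ≠ 0 := by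
    exact_mod_cast (Real.rpow_pos_of_pos hM0 _).ne'
  have h3 := Complex.exp_ne_zero (M * C.Wt (K.pc C))
  rw [div_mul_eq_mul_div, div_div_eq_mul_div]
  congr 1
  exact mul_comm _ _

end Pool.Agent.S5
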