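import Pool.Agent.S5.D.Multi

/-!
# Lattice sums as integrals over a flat contour, one variable, general rectangles

The indices are `k0 ≤ k < k1`. For `k1 = M` the last lattice point `1 / 2` is on the contour (`Pt`); for
`k1 < M` the rectangle ends at `al M k1` (`PtB`).
-/

set_option autoImplicit false

namespace Pool.Agent.S5

open Complex MeasureTheory
open scoped Interval

/-- The points of the contour with their weights for the indices `k0 ≤ k < k1`, `k1 < M`. -/
def PtB (M k0 k1 : ℕ) (d η t0 r : ℝ) (z : ℂ) (w : ℝ) : Prop :=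
  (w = 0 ∧ z.im = η ∧ z.re ∈ Set.Icc (al M k0) (al M k1) ∧ r ≤ |z.re - t0|) ∨
  (w = 0 ∧ (z.re = al M k0 ∨ z.re = al M k1) ∧ z.im ∈ Set.uIcc 0 η) ∨
  (w = 2 * Real.pi * |z.im| ∧ (z.re = al M k0 ∨ z.re = al M k1) ∧ |z.im| ≤ d) ∨
  (w = 2 * Real.pi * d ∧ |z.im| = d ∧ z.re ∈ Set.Icc (al M k0) (al M k1))

variable {M k0 k1 : ℕ} {d η t0 r : ℝ}

theorem PtB.mono {r' : ℝ} (hr : r' ≤ r) {z : ℂ} {w : ℝ} (h : PtB M k0 k1 d η t0 r z w) :
    PtB M k0 k1 d η t0 r' z w := by
  rcases h with ⟨h1, h2, h3, h4⟩ | h | h | h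
  · exact Or.inl ⟨h1, h2, h3, hr.trans h4⟩
  · exact Or.inr (Or.inl h)
  · exact Or.inr (Or.inr (Or.inl h))
  · exact Or.inr (Or.inr (Or.inr h))

theorem al_mono {a b : ℕ} (h : a ≤ b) : al M a ≤ al M b := by
  have h1 : (a : ℝ) ≤ b := by exact_mod_cast h
  unfold al yR
  gcongr

theorem al_top (hM : 0 < M) : al M (M - 1) = br M := by
  have hM0 : (0 : ℝ) < M := by exact_mod_cast hM
  unfold al yR br
  rw [Nat.cast_sub (by omega)]
  field_simp
  push_cast
  ring

theorem al_ge : -1 / 2 ≤ al M k0 := by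
  rw [al_eq]
  have : 0 ≤ ((k0 : ℝ) + 1 / 2) / M := by positivity
  linarith

/-- The sum of the values of `F` at the lattice points. -/
theorem rectB {F : ℂ → ℂ} {S : ℝ} (hM : k0 + 1 ≤ k1) (hk1 : k1 + 1 ≤ M) (hη : |η| ≤ d) (hd : 1 ≤ M * d)
    (hr : 0 ≤ r) (ht1 : al M k0 ≤ t0 - r) (ht2 : t0 + r ≤ al M k1)
    (hF : ∀ z : ℂ, al M k0 ≤ z.re → z.re ≤ al M k1 → |z.im| ≤ d → DifferentiableAt ℂ F z)
    (hB : ∀ z w, PtB M k0 k1 d η t0 r z w → ‖F z‖ ≤ S * Real.exp (M * w)) :
    ‖(∑ k ∈ Finset.Ico k0 k1, F (yR M k : ℝ)) - M * ∫ t in (t0 - r)..(t0 + r), F (t + η * I)‖ ≤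
      12 * (1 + d) * M * S := by
  have hMpos : 0 < M := by omega
  have hM0 : (0 : ℝ) < M := by exact_mod_cast hMpos
  have hM1 : (1 : ℝ) ≤ M := by exact_mod_cast hMpos
  have hMc : (M : ℂ) ≠ 0 := by exact_mod_cast hM0.ne'
  have hd0 : 0 ≤ d := (abs_nonneg _).trans hη
  have hab : al M k0 ≤ al M k1 := al_mono (by omega)
  have hS : 0 ≤ S := by
    have h := (norm_nonneg _).trans (hB ((al M k0 : ℝ) : ℂ) 0 (Or.inr (Or.inl ⟨rfl, Or.inl (by simp), by simp⟩)))
    simpa using h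
  set A : ℝ := al M k0 with hA
  set B : ℝ := al M k1 with hBr
  -- the function of the index
  set f : ℂ → ℂ := fun z => F ((z + 1) / M - 1 / 2) with hf
  have hfl : ∀ x y : ℝ, f ((x : ℂ) + y * I) = F (((yR M x : ℝ) : ℂ) + ((y / M : ℝ) : ℂ) * I) := by
    intro x y
    rw [hf]
    simp only [yR]
    congr 1
    push_cast
    field_simp
    ring
  set a : ℤ := (k0 : ℤ) with ha
  set b : ℤ := ((k1 - 1 : ℕ) : ℤ) with hb
  have haR : (a : ℝ) = (k0 : ℝ) := by rw [ha]; push_cast; rfl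
  have hbR : (b : ℝ) = (k1 : ℝ) - 1 := by
    rw [hb]
    push_cast [Nat.cast_sub (by omega : 1 ≤ k1)]
    ring
  have ea : yR M ((a : ℝ) - 1 / 2) = A := by rw [haR, hA]; rfl
  have eb : yR M ((b : ℝ) + 1 / 2) = B := by
    rw [hbR, hBr]
    unfold al yR
    congr 2
    ring
  have hmono : ∀ x : ℝ, (a : ℝ) - 1 / 2 ≤ x → x ≤ (b : ℝ) + 1 / 2 → A ≤ yR M x ∧ yR M x ≤ B := by
    intro x hx1 hx2
    rw [← ea, ← eb]
    unfold yR
    constructor <;> gcongr
  have habs : ∀ y : ℝ, (M : ℝ) * (2 * Real.pi * |y / M|) = 2 * Real.pi * |y| := by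
    intro y
    rw [abs_div, abs_of_pos hM0]
    field_simp
  have hre : ∀ x y : ℝ, ((x : ℂ) + y * I).re = x := fun x y => by simp
  have him : ∀ x y : ℝ, ((x : ℂ) + y * I).im = y := fun x y => by simp
  -- the Poisson part
  have key : ‖(∑ m ∈ Finset.Icc a b, f m) - ∫ x in ((a : ℝ) - 1 / 2)..((b : ℝ) + 1 / 2), f x‖ ≤
      10 * ((b : ℝ) - a + 1 + M * d) * S := by
    refine Pool.Agent.H63.TW.sum_int f a b ?_ (M * d) S hd ?_ ?_ ?_ ?_
    · rw [ha, hb]
      exact_mod_cast (by omega : k0 ≤ k1 - 1)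
    · intro z hz1 hz2 hz3
      have h3 := hmono z.re hz1 hz2
      have e3 : ((z + 1) / M - 1 / 2 : ℂ).re = yR M z.re := by
        rw [sub_re, ← ofReal_natCast, div_ofReal_re]
        simp [yR]
      have e4 : ((z + 1) / M - 1 / 2 : ℂ).im = z.im / M := by
        rw [sub_im, ← ofReal_natCast, div_ofReal_im]
        simp
      have d1 : DifferentiableAt ℂ F ((z + 1) / M - 1 / 2) :=
        hF _ (by rw [e3]; exact h3.1) (by rw [e3]; exact h3.2) (by
          rw [e4, abs_div, abs_of_pos hM0, div_le_iff₀ hM0]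
          linarith)
      have d2 : DifferentiableAt ℂ (fun z : ℂ => (z + 1) / M - 1 / 2) z := by fun_prop
      exact DifferentiableAt.comp (f := fun z : ℂ => (z + 1) / M - 1 / 2) (g := F) z d1 d2
    · intro y hy
      rw [hfl, ea, ← habs]
      exact hB _ _ (Or.inr (Or.inr (Or.inl ⟨by rw [him], Or.inl (hre _ _), by
        rw [him, abs_div, abs_of_pos hM0, div_le_iff₀ hM0]; linarith⟩)))
    · intro y hy
      rw [hfl, eb, ← habs]
      exact hB _ _ (Or.inr (Or.inr (Or.inl ⟨by rw [him], Or.inr (hre _ _), by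
        rw [him, abs_div, abs_of_pos hM0, div_le_iff₀ hM0]; linarith⟩)))
    · intro x hx1 hx2
      have h3 := hmono x hx1 hx2
      have hYM : (M : ℝ) * d / M = d := by field_simp
      have e5 : 2 * Real.pi * (M * d) = M * (2 * Real.pi * d) := by ring
      constructor
      · have e6 : (x : ℂ) + ((M * d : ℝ) : ℂ) * I = x + ((M * d : ℝ) : ℂ) * I := rfl
        rw [show (x : ℂ) + ((M : ℝ) * d : ℝ) * I = x + ((M * d : ℝ) : ℂ) * I from rfl, hfl, hYM, e5]
        exact hB _ _ (Or.inr (Or.inr (Or.inr ⟨rfl, by rw [him, abs_of_nonneg hd0],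
          by rw [hre]; exact h3⟩)))
      · rw [show (x : ℂ) - ((M * d : ℝ) : ℂ) * I = x + ((-(M * d) : ℝ) : ℂ) * I by push_cast; ring,
          hfl, neg_div, hYM, e5]
        exact hB _ _ (Or.inr (Or.inr (Or.inr ⟨rfl, by rw [him, abs_neg, abs_of_nonneg hd0],
          by rw [hre]; exact h3⟩)))
  have e1 : ∑ m ∈ Finset.Icc a b, f m = ∑ k ∈ Finset.Ico k0 k1, F (yR M k : ℝ) := by
    symm
    refine Finset.sum_bij (fun k _ => (k : ℤ)) ?_ ?_ ?_ ?_
    · intro k hk
      rw [Finset.mem_Ico] at hk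
      rw [Finset.mem_Icc, ha, hb]
      constructor
      · exact_mod_cast hk.1
      · exact_mod_cast (by omega : k ≤ k1 - 1)
    · intro k1 _ k2 _ h
      exact_mod_cast h
    · intro m hm
      rw [Finset.mem_Icc, ha, hb] at hm
      obtain ⟨k, rfl⟩ := Int.eq_ofNat_of_zero_le
        (show 0 ≤ m from le_trans (by positivity) hm.1)
      refine ⟨k, ?_, rfl⟩
      rw [Finset.mem_Ico]
      have h3 : k0 ≤ k := by exact_mod_cast hm.1
      have h4 : k ≤ k1 - 1 := by exact_mod_cast hm.2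
      omega
    · intro k _
      rw [hf]
      simp only [yR]
      congr 1
      push_cast
      ring
  have e2 : ∫ x in ((a : ℝ) - 1 / 2)..((b : ℝ) + 1 / 2), f x = M * ∫ y in A..B, F (y : ℂ) := by
    have h3 := intervalIntegral.integral_comp_div_add (a := (a : ℝ) - 1 / 2)
      (b := (b : ℝ) + 1 / 2) (fun y : ℝ => F (y : ℂ)) hM0.ne' (1 / M - 1 / 2)
    rw [show ((a : ℝ) - 1 / 2) / M + (1 / M - 1 / 2) = A by rw [← ea]; unfold yR; ring,
      show ((b : ℝ) + 1 / 2) / M + (1 / M - 1 / 2) = B by rw [← eb]; unfold yR; ring] at h3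
    rw [real_smul, ofReal_natCast] at h3
    rw [← h3]
    apply intervalIntegral.integral_congr
    intro x _
    rw [hf]
    simp only
    congr 1
    push_cast
    ring
  rw [e1, e2] at key
  -- Cauchy
  have hcau := Complex.integral_boundary_rect_eq_zero_of_differentiableOn F (A : ℂ) ((B : ℂ) + η * I)
    (by
      intro z hz
      rw [mem_reProdIm] at hz
      simp only [ofReal_re, ofReal_im, add_re, mul_re, I_re, mul_zero, I_im, mul_one, sub_zero,
        add_zero, add_im, mul_im, zero_add, zero_mul] at hz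
      rw [Set.uIcc_of_le hab] at hz
      refine (hF z hz.1.1 hz.1.2 ?_).differentiableWithinAt
      have h5 := Set.mem_uIcc.1 hz.2
      rw [abs_le] at hη ⊢
      rcases h5 with h5 | h5 <;> constructor <;> linarith [hη.1, hη.2])
  simp only [ofReal_re, ofReal_im, add_re, mul_re, I_re, mul_zero, I_im, mul_one, sub_zero,
    add_zero, add_im, mul_im, zero_add, zero_mul, ofReal_zero, smul_eq_mul] at hcau
  have hleg : ∀ c : ℝ, (c = A ∨ c = B) → ‖∫ s in (0 : ℝ)..η, F ((c : ℂ) + s * I)‖ ≤ S * d := by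
    intro c hc
    have h := intervalIntegral.norm_integral_le_of_norm_le_const (a := (0 : ℝ)) (b := η)
      (f := fun s : ℝ => F ((c : ℂ) + s * I)) (C := S) (by
        intro s hs
        have h6 := hB ((c : ℂ) + s * I) 0 (Or.inr (Or.inl ⟨rfl, by rw [hre]; exact hc, by
          rw [him]; exact Set.uIoc_subset_uIcc hs⟩))
        simpa using h6)
    refine h.trans ?_
    rw [sub_zero]
    exact mul_le_mul_of_nonneg_left hη hS
  -- the flat part
  have hcont : ContinuousOn (fun x : ℝ => F ((x : ℂ) + η * I)) (Set.Icc A B) := by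
    intro x hx
    have h7 : DifferentiableAt ℂ F ((x : ℂ) + η * I) :=
      hF _ (by rw [hre]; exact hx.1) (by rw [hre]; exact hx.2) (by rw [him]; exact hη)
    have h8 : ContinuousAt (fun x : ℝ => (x : ℂ) + η * I) x := by fun_prop
    exact (ContinuousAt.comp (f := fun x : ℝ => (x : ℂ) + η * I) (g := F) h7.continuousAt h8).continuousWithinAt
  have hint : ∀ p q : ℝ, A ≤ p → p ≤ q → q ≤ B →
      IntervalIntegrable (fun x : ℝ => F ((x : ℂ) + η * I)) volume p q := by
    intro p q hp hpq hq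
    exact (hcont.mono (by rw [Set.uIcc_of_le hpq]; exact Set.Icc_subset_Icc hp hq)).intervalIntegrable
  have hsplit : ∫ x in A..B, F ((x : ℂ) + η * I) =
      (∫ x in A..(t0 - r), F ((x : ℂ) + η * I)) + (∫ x in (t0 - r)..(t0 + r), F ((x : ℂ) + η * I)) +
        ∫ x in (t0 + r)..B, F ((x : ℂ) + η * I) := by
    rw [intervalIntegral.integral_add_adjacent_intervals (hint _ _ le_rfl ht1 (by linarith))
      (hint _ _ ht1 (by linarith) ht2),
      intervalIntegral.integral_add_adjacent_intervals (hint _ _ le_rfl (by linarith) ht2)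
      (hint _ _ (by linarith) ht2 le_rfl)]
  have hrest : ∀ p q : ℝ, A ≤ p → p ≤ q → q ≤ B → (∀ x ∈ Set.Icc p q, r ≤ |x - t0|) →
      ‖∫ x in p..q, F ((x : ℂ) + η * I)‖ ≤ S * (q - p) := by
    intro p q hp hpq hq hfar
    have h := intervalIntegral.norm_integral_le_of_norm_le_const (a := p) (b := q)
      (f := fun x : ℝ => F ((x : ℂ) + η * I)) (C := S) (by
        intro x hx
        rw [Set.uIoc_of_le hpq] at hx
        have h6 := hB ((x : ℂ) + η * I) 0 (Or.inl ⟨rfl, him _ _, by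
          rw [hre]; exact ⟨by linarith [hx.1], by linarith [hx.2]⟩, by
          rw [hre]; exact hfar x ⟨hx.1.le, hx.2⟩⟩)
        simpa using h6)
    rwa [abs_of_nonneg (by linarith)] at h
  have r1 := hrest A (t0 - r) le_rfl ht1 (by linarith) (by
    intro x hx
    rw [abs_of_nonpos (by linarith [hx.2])]
    linarith [hx.2])
  have r2 := hrest (t0 + r) B (by linarith) ht2 le_rfl (by
    intro x hx
    rw [abs_of_nonneg (by linarith [hx.1])]
    linarith [hx.1])
  have l1 := hleg A (Or.inl rfl)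
  have l2 := hleg B (Or.inr rfl)
  have hcau' : ∫ y in A..B, F (y : ℂ) = (∫ x in A..B, F ((x : ℂ) + η * I)) -
      I * (∫ s in (0 : ℝ)..η, F ((B : ℂ) + s * I)) + I * ∫ s in (0 : ℝ)..η, F ((A : ℂ) + s * I) := by
    linear_combination hcau
  have e : (∑ k ∈ Finset.Ico k0 k1, F (yR M k : ℝ)) - M * ∫ t in (t0 - r)..(t0 + r), F (t + η * I) =
      ((∑ k ∈ Finset.Ico k0 k1, F (yR M k : ℝ)) - M * ∫ y in A..B, F (y : ℂ)) +
      ((M * (∫ x in A..(t0 - r), F ((x : ℂ) + η * I)) +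
        (M * (∫ x in (t0 + r)..B, F ((x : ℂ) + η * I)) +
        (M * (-(I * (∫ s in (0 : ℝ)..η, F ((B : ℂ) + s * I)))) +
          M * (I * ∫ s in (0 : ℝ)..η, F ((A : ℂ) + s * I)))))) := by
    rw [hcau', hsplit]
    ring
  rw [e]
  have n1 : ∀ (z : ℂ) (c : ℝ), ‖z‖ ≤ c → ‖(M : ℂ) * z‖ ≤ M * c := by
    intro z c h
    rw [norm_mul, Complex.norm_natCast]
    exact mul_le_mul_of_nonneg_left h hM0.le
  refine (norm_add_le_of_le key ((norm_add_le_of_le (n1 _ _ r1)
    (norm_add_le_of_le (n1 _ _ r2) (norm_add_le_of_le (n1 _ (S * d) (by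
      rw [norm_neg, norm_mul, norm_I, one_mul]; exact l2)) (n1 _ (S * d) (by
      rw [norm_mul, norm_I, one_mul]; exact l1))))))).trans ?_
  have hBA : B - A ≤ 1 := by
    have h1 : B ≤ br M := by
      rw [← al_top hMpos]
      exact al_mono (by omega)
    have h1' : br M < 1 / 2 := br_lt hMpos
    have h2 : -1 / 2 ≤ A := al_ge
    linarith
  have hbaM : (b : ℝ) - a + 1 ≤ M := by
    rw [hbR, haR]
    have : (0 : ℝ) ≤ k0 := Nat.cast_nonneg _
    have h2 : (k1 : ℝ) + 1 ≤ M := by exact_mod_cast hk1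
    linarith
  have f1 : 10 * ((b : ℝ) - a + 1 + M * d) * S ≤ 10 * (M + M * d) * S := by
    apply mul_le_mul_of_nonneg_right _ hS
    linarith
  have f2 : 0 ≤ M * S := by positivity
  have f3 : (M : ℝ) * (S * (t0 - r - A)) + M * (S * (B - (t0 + r))) ≤ M * S := by
    have h5 : (t0 - r - A) + (B - (t0 + r)) ≤ 1 := by linarith
    have h6 : 0 ≤ (M : ℝ) * S := by positivity
    nlinarith [mul_le_mul_of_nonneg_left h5 h6]
  have f4 : 10 * ((M : ℝ) + M * d) * S + (M * S + (M * S + (M * (S * d) + M * (S * d)))) =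
      12 * (1 + d) * M * S := by ring
  linarith

/-- The right end of the rectangle. -/
noncomputable def rb (M k1 : ℕ) : ℝ := if k1 = M then br M else al M k1

/-- The points of the contour with their weights. -/
def PtU (M k0 k1 : ℕ) (d η t0 r : ℝ) (z : ℂ) (w : ℝ) : Prop :=
  if k1 = M then Pt M k0 d η t0 r z w else PtB M k0 k1 d η t0 r z w

theorem PtU.mono {r' : ℝ} (hr : r' ≤ r) {z : ℂ} {w : ℝ} (h : PtU M k0 k1 d η t0 r z w) :
    PtU M k0 k1 d η t0 r' z w := by
  unfold PtU at h ⊢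
  split_ifs with hk
  · rw [if_pos hk] at h
    exact h.mono hr
  · rw [if_neg hk] at h
    exact h.mono hr

theorem rb_le (hM : 0 < M) (hk : k1 ≤ M) : rb M k1 ≤ br M := by
  unfold rb
  split_ifs with h
  · exact le_rfl
  · rw [← al_top hM]
    exact al_mono (by omega)

theorem al_le_rb (hM : k0 + 2 ≤ k1) (hk : k1 ≤ M) : al M k0 ≤ rb M k1 := by
  unfold rb
  split_ifs with h
  · exact al_le_br (by omega)
  · exact al_mono (by omega)

/-- The sum of the values of `F` at the lattice points. -/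
theorem rectU {F : ℂ → ℂ} {S : ℝ} (hM : k0 + 2 ≤ k1) (hk1 : k1 ≤ M) (hη : |η| ≤ d) (hd : 1 ≤ M * d)
    (hr : 0 ≤ r) (ht1 : al M k0 ≤ t0 - r) (ht2 : t0 + r ≤ rb M k1)
    (hF : ∀ z : ℂ, al M k0 ≤ z.re → z.re ≤ rb M k1 → |z.im| ≤ d → DifferentiableAt ℂ F z)
    (hB : ∀ z w, PtU M k0 k1 d η t0 r z w → ‖F z‖ ≤ S * Real.exp (M * w)) :
    ‖(∑ k ∈ Finset.Ico k0 k1, F (yR M k : ℝ)) - M * ∫ t in (t0 - r)..(t0 + r), F (t + η * I)‖ ≤
      12 * (1 + d) * M * S := by
  by_cases h : k1 = M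
  · subst h
    simp only [rb, PtU, if_true] at ht2 hF hB
    exact rect hM hη hd hr ht1 ht2 hF hB
  · simp only [rb, PtU, if_neg h] at ht2 hF hB
    exact rectB (by omega) (by omega) hη hd hr ht1 ht2 hF hB

/-- The points of the contour are in the domain. -/
theorem PtU.mem (hM : k0 + 2 ≤ k1) (hk1 : k1 ≤ M) (hη : |η| ≤ d) {z : ℂ} {w : ℝ}
    (h : PtU M k0 k1 d η t0 r z w) : z ∈ Dm M k0 d := by
  unfold PtU at h
  split_ifs at h with hk
  · exact h.mem (by omega) hη
  · have hab : al M k0 ≤ al M k1 := al_mono (by omega)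
    have hb : al M k1 ≤ br M := by
      rw [← al_top (by omega)]
      exact al_mono (by omega)
    have hb' : br M < 1 / 2 := br_lt (by omega)
    rcases h with ⟨-, h2, h3, -⟩ | ⟨-, h2, h3⟩ | ⟨-, h2, h3⟩ | ⟨-, h2, h3⟩
    · exact ⟨h3.1, by linarith [h3.2], by rw [h2]; exact hη⟩
    · refine ⟨?_, ?_, ?_⟩
      · rcases h2 with h2 | h2 <;> rw [h2]
        exact hab
      · rcases h2 with h2 | h2 <;> rw [h2]
        · linarith
        · linarith
      · have h5 := Set.mem_uIcc.1 h3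
        rw [abs_le] at hη ⊢
        rcases h5 with h5 | h5 <;> constructor <;> linarith [hη.1, hη.2]
    · refine ⟨?_, ?_, h3⟩
      · rcases h2 with h2 | h2 <;> rw [h2]
        exact hab
      · rcases h2 with h2 | h2 <;> rw [h2]
        · linarith
        · linarith
    · exact ⟨h3.1, by linarith [h3.2], h2.le⟩

end Pool.Agent.S5
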