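import Pool.Agent.H63.VC.Asym
import Pool.Agent.H63.VC.EndB
import Pool.Agent.H63.VC.Riem
import Pool.Agent.H63.VC.SlowL
import Pool.Agent.H63.VC.SlowU
import Pool.Agent.H63.VC.Small
import Pool.Agent.H63.VC.VolA
import Pool.Agent.H63.VC3.StepDefs
import Pool.Agent.H63.VC4.Defs
import Pool.Agent.S3.Asm.Lap
import Pool.Agent.S5.S.RectB

/-!
# Lattice sums as integrals over a product of flat contours, any finite set of variables

The first index and the depth of the rectangle depend on the variable.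
-/

set_option autoImplicit false

namespace Pool.Agent.S5

open Complex MeasureTheory Pool.Agent.S3.Asm
open scoped Interval

/-- Sums over multi-indices. -/
theorem sum_consI {m : ℕ} (s : Fin (m + 1) → Finset ℕ) (g : (Fin (m + 1) → ℕ) → ℂ) :
    ∑ κ ∈ Fintype.piFinset s, g κ =
      ∑ k ∈ s 0, ∑ κ ∈ Fintype.piFinset (fun i : Fin m => s i.succ), g (Fin.cons k κ) := by
  rw [← Finset.sum_product']
  refine Finset.sum_bij' (fun κ _ => (κ 0, fun i => κ i.succ)) (fun p _ => Fin.cons p.1 p.2) ?_ ?_ ?_ ?_ ?_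
  · intro κ hκ
    rw [Fintype.mem_piFinset] at hκ
    rw [Finset.mem_product, Fintype.mem_piFinset]
    exact ⟨hκ 0, fun i => hκ i.succ⟩
  · intro p hp
    rw [Finset.mem_product, Fintype.mem_piFinset] at hp
    rw [Fintype.mem_piFinset]
    intro i
    refine Fin.cases ?_ (fun i => ?_) i
    · simpa using hp.1
    · simpa using hp.2 i
  · intro κ _
    exact Fin.cons_self_tail κ
  · intro p _
    simp
  · intro κ _
    congr 1
    exact (Fin.cons_self_tail κ).symm

variable {M : ℕ} {r : ℝ}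

/-- The properties of the terms. -/
structure TOKI {ι : Type} [DecidableEq ι] (M : ℕ) (k0 : ι → ℕ) (d : ι → ℝ) (T : (ι → ℂ) → ℂ) : Prop where
  cont : ContinuousOn T {z | ∀ i, z i ∈ Dm M (k0 i) (d i)}
  diff : ∀ z : ι → ℂ, (∀ i, z i ∈ Dm M (k0 i) (d i)) → ∀ j, (z j).re ≤ br M →
    DifferentiableAt ℂ (fun w => T (Function.update z j w)) (z j)

theorem TOKI.cons {m : ℕ} {k0 : Fin (m + 1) → ℕ} {d : Fin (m + 1) → ℝ} {T : (Fin (m + 1) → ℂ) → ℂ}
    (h : TOKI M k0 d T) {z : ℂ} (hz : z ∈ Dm M (k0 0) (d 0)) :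
    TOKI M (fun i => k0 i.succ) (fun i => d i.succ) (fun x : Fin m → ℂ => T (Fin.cons z x)) := by
  refine ⟨?_, ?_⟩
  · refine h.cont.comp ?_ ?_
    · refine (continuous_pi fun i => ?_).continuousOn
      refine Fin.cases ?_ (fun i => ?_) i
      · simpa using continuous_const
      · simpa using continuous_apply i
    · intro x hx i
      refine Fin.cases ?_ (fun i => ?_) i
      · simpa using hz
      · simpa using hx i
  · intro x hx j hj
    have h1 := h.diff (Fin.cons z x) (by
      intro i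
      refine Fin.cases ?_ (fun i => ?_) i
      · simpa using hz
      · simpa using hx i) j.succ (by simpa using hj)
    have e : ∀ w, Function.update (Fin.cons z x : Fin (m + 1) → ℂ) j.succ w = Fin.cons z (Function.update x j w) := by
      intro w
      rw [Fin.cons_update]
    simp only [e, Fin.cons_succ] at h1
    exact h1

theorem TOKI.diff0 {m : ℕ} {k0 : Fin (m + 1) → ℕ} {d : Fin (m + 1) → ℝ} {T : (Fin (m + 1) → ℂ) → ℂ}
    (h : TOKI M k0 d T) {x : Fin m → ℂ}
    (hx : ∀ i, x i ∈ Dm M (k0 i.succ) (d i.succ)) {z : ℂ} (hz : z ∈ Dm M (k0 0) (d 0)) (hz1 : z.re ≤ br M) :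
    DifferentiableAt ℂ (fun w => T (Fin.cons w x)) z := by
  have h1 := h.diff (Fin.cons z x) (by
    intro i
    refine Fin.cases ?_ (fun i => ?_) i
    · simpa using hz
    · simpa using hx i) 0 (by simpa using hz1)
  simpa using h1

private theorem d_nonneg {M : ℕ} {d : ℝ} (hM : 0 < M) (h : 1 ≤ M * d) : 0 ≤ d := by
  have hM0 : (0 : ℝ) < M := by exact_mod_cast hM
  by_contra h'
  push Not at h'
  have := mul_neg_of_pos_of_neg hM0 h'
  linarith

/-- The sum is bounded by the terms on the contours. -/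
private theorem multiF_le (hM1 : 0 < M) (D : ℝ) : ∀ (m : ℕ) (k0 k1 : Fin m → ℕ) (d η t0 : Fin m → ℝ),
    (∀ j, k0 j + 2 ≤ k1 j) → (∀ j, k1 j ≤ M) → (∀ j, 1 ≤ M * d j) → (∀ j, d j ≤ D) →
    (∀ j, |η j| ≤ d j) → (∀ j, al M (k0 j) ≤ t0 j) → (∀ j, t0 j ≤ rb M (k1 j)) → ∀ (T : (Fin m → ℂ) → ℂ) (S : ℝ),
    0 ≤ S → TOKI M k0 d T →
    (∀ (z : Fin m → ℂ) (w : Fin m → ℝ), (∀ j, PtU M (k0 j) (k1 j) (d j) (η j) (t0 j) 0 (z j) (w j)) →
      ‖T z‖ ≤ S * Real.exp (M * ∑ j, w j)) →
    ‖∑ κ ∈ Fintype.piFinset (fun j : Fin m => Finset.Ico (k0 j) (k1 j)), T (fun j => (yR M (κ j) : ℝ))‖ ≤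
      (12 * (1 + |D|) * M) ^ m * S := by
  have hM0 : (0 : ℝ) < M := by exact_mod_cast hM1
  intro m
  induction m with
  | zero =>
    intro k0 k1 d η t0 _ _ _ _ _ _ _ T S hS _ hB
    have h := hB Fin.elim0 Fin.elim0 (fun j => j.elim0)
    simp only [Finset.univ_eq_empty, Finset.sum_empty, mul_zero, Real.exp_zero, mul_one] at h
    simp only [pow_zero, one_mul]
    rw [Fintype.piFinset_of_isEmpty, Finset.univ_unique, Finset.sum_singleton]
    have e : ∀ g : Fin 0 → ℂ, T g = T Fin.elim0 := fun g => congrArg T (funext fun j => j.elim0)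
    rw [e]
    exact h
  | succ m ih =>
    intro k0 k1 d η t0 hM hk1 hd hD hη ht1 ht2 T S hS hT hB
    have hdj : ∀ j, 0 ≤ d j := fun j => d_nonneg hM1 (hd j)
    rw [sum_consI]
    have e0 : ∀ k : ℕ, ∑ κ ∈ Fintype.piFinset (fun j : Fin m => Finset.Ico (k0 j.succ) (k1 j.succ)),
        T (fun j => (yR M ((Fin.cons k κ : Fin (m + 1) → ℕ) j) : ℝ)) =
        (fun z : ℂ => ∑ κ ∈ Fintype.piFinset (fun j : Fin m => Finset.Ico (k0 j.succ) (k1 j.succ)),
          T (Fin.cons z (fun j => (yR M (κ j) : ℝ)))) (yR M k : ℝ) := by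
      intro k
      refine Finset.sum_congr rfl fun κ _ => ?_
      congr 1
      funext j
      refine Fin.cases ?_ (fun j => ?_) j <;> simp
    simp only [e0]
    have h1 := rectU (F := fun z : ℂ => ∑ κ ∈ Fintype.piFinset (fun j : Fin m => Finset.Ico (k0 j.succ) (k1 j.succ)),
        T (Fin.cons z (fun j => (yR M (κ j) : ℝ)))) (S := (12 * (1 + |D|) * M) ^ m * S) (t0 := t0 0)
      (hM 0) (hk1 0) (hη 0) (hd 0) le_rfl (by rw [sub_zero]; exact ht1 0) (by rw [add_zero]; exact ht2 0) ?_ ?_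
    · simp only [sub_zero, add_zero, intervalIntegral.integral_same, mul_zero] at h1
      have h2 : 12 * (1 + d 0) * M * ((12 * (1 + |D|) * M) ^ m * S) ≤
          12 * (1 + |D|) * M * ((12 * (1 + |D|) * M) ^ m * S) := by
        apply mul_le_mul_of_nonneg_right _ (by positivity)
        have : d 0 ≤ |D| := (hD 0).trans (le_abs_self D)
        gcongr
      refine (h1.trans h2).trans (le_of_eq ?_)
      ring
    · intro z hz1 hz2 hz3
      refine DifferentiableAt.fun_sum fun κ hκ => ?_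
      rw [Fintype.mem_piFinset] at hκ
      exact hT.diff0 (fun i => yR_mem hM1 (hdj _) (Finset.Ico_subset_Ico le_rfl (hk1 i.succ) (hκ i)))
        ⟨hz1, (hz2.trans (rb_le hM1 (hk1 0))).trans (br_lt hM1).le, hz3⟩ (hz2.trans (rb_le hM1 (hk1 0)))
    · intro z w hz
      have h2 := ih (fun j => k0 j.succ) (fun j => k1 j.succ) (fun j => d j.succ) (fun j => η j.succ) (fun j => t0 j.succ)
        (fun j => hM j.succ) (fun j => hk1 j.succ) (fun j => hd j.succ) (fun j => hD j.succ)
        (fun j => hη j.succ) (fun j => ht1 j.succ)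
        (fun j => ht2 j.succ) (fun x => T (Fin.cons z x)) (S * Real.exp (M * w)) (by positivity)
        (hT.cons (hz.mem (hM 0) (hk1 0) (hη 0))) (by
          intro z' w' h'
          have h3 := hB (Fin.cons z z') (Fin.cons w w') (by
            intro j
            refine Fin.cases ?_ (fun j => ?_) j
            · simpa using hz
            · simpa using h' j)
          rw [Fin.sum_univ_succ] at h3
          simp only [Fin.cons_zero, Fin.cons_succ] at h3
          rw [mul_assoc, ← Real.exp_add, ← mul_add]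
          exact h3)
      refine h2.trans (le_of_eq ?_)
      ring

/-- The sum is the integral over the product of the flat contours near `t0`, up to the terms on the
rest of the contours. -/
private theorem multiF (hM1 : 0 < M) (hr : 0 ≤ r) (D : ℝ) : ∀ (m : ℕ) (k0 k1 : Fin m → ℕ) (d η t0 : Fin m → ℝ),
    (∀ j, k0 j + 2 ≤ k1 j) → (∀ j, k1 j ≤ M) → (∀ j, 1 ≤ M * d j) → (∀ j, d j ≤ D) →
    (∀ j, |η j| ≤ d j) → (∀ j, al M (k0 j) ≤ t0 j - r) → (∀ j, t0 j + r ≤ rb M (k1 j)) →
    ∀ (T : (Fin m → ℂ) → ℂ) (S : ℝ),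
    0 ≤ S → TOKI M k0 d T →
    (∀ (z : Fin m → ℂ) (w : Fin m → ℝ), (∀ j, PtU M (k0 j) (k1 j) (d j) (η j) (t0 j) 0 (z j) (w j)) →
      (∃ j, PtU M (k0 j) (k1 j) (d j) (η j) (t0 j) r (z j) (w j)) → ‖T z‖ ≤ S * Real.exp (M * ∑ j, w j)) →
    ‖(∑ κ ∈ Fintype.piFinset (fun j : Fin m => Finset.Ico (k0 j) (k1 j)), T (fun j => (yR M (κ j) : ℝ))) -
      M ^ m * ∫ x in Bx t0 r, T (fun j => x j + η j * I)‖ ≤ m * (12 * (1 + |D|) * M) ^ m * S := by
  have hM0 : (0 : ℝ) < M := by exact_mod_cast hM1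
  intro m
  induction m with
  | zero =>
    intro k0 k1 d η t0 _ _ _ _ _ _ _ T S _ _ _
    have e1 : (Bx t0 r) = Set.univ := by
      ext x
      simp [Bx]
    have e2 : ∫ x in Bx t0 r, T (fun j => x j + η j * I) = T Fin.elim0 := by
      rw [e1, Measure.restrict_univ, MeasureTheory.volume_pi, MeasureTheory.Measure.pi_of_empty,
        integral_dirac]
      congr 1
      funext j
      exact j.elim0
    rw [e2, Fintype.piFinset_of_isEmpty, Finset.univ_unique, Finset.sum_singleton]
    simp only [pow_zero, one_mul, CharP.cast_eq_zero, zero_mul]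
    rw [norm_le_zero_iff, sub_eq_zero]
    congr 1
    funext j
    exact j.elim0
  | succ m ih =>
    intro k0 k1 d η t0 hM hk1 hd hD hη ht1 ht2 T S hS hT hB
    have hdj : ∀ j, 0 ≤ d j := fun j => d_nonneg hM1 (hd j)
    have hrb : ∀ j, rb M (k1 j) ≤ br M := fun j => rb_le hM1 (hk1 j)
    have h2r : 2 * r ≤ 1 := by
      have h1 := ht1 0
      have h2 := ht2 0
      have h2' := hrb 0
      have h3 : br M < 1 / 2 := br_lt hM1
      have h4 : -1 / 2 ≤ al M (k0 0) := by
        rw [al_eq]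
        have : 0 ≤ ((k0 0 : ℝ) + 1 / 2) / M := by positivity
        linarith
      linarith
    rw [sum_consI]
    set Ψ : ℂ → ℂ := fun z : ℂ => ∑ κ ∈ Fintype.piFinset (fun j : Fin m => Finset.Ico (k0 j.succ) (k1 j.succ)),
          T (Fin.cons z (fun j => (yR M (κ j) : ℝ))) with hΨ
    have e0 : ∀ k : ℕ, ∑ κ ∈ Fintype.piFinset (fun j : Fin m => Finset.Ico (k0 j.succ) (k1 j.succ)),
        T (fun j => (yR M ((Fin.cons k κ : Fin (m + 1) → ℕ) j) : ℝ)) = Ψ (yR M k : ℝ) := by
      intro k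
      refine Finset.sum_congr rfl fun κ _ => ?_
      congr 1
      funext j
      refine Fin.cases ?_ (fun j => ?_) j <;> simp
    simp only [e0]
    have hΨd : ∀ z : ℂ, al M (k0 0) ≤ z.re → z.re ≤ rb M (k1 0) → |z.im| ≤ d 0 → DifferentiableAt ℂ Ψ z := by
      intro z hz1 hz2 hz3
      refine DifferentiableAt.fun_sum fun κ hκ => ?_
      rw [Fintype.mem_piFinset] at hκ
      exact hT.diff0 (fun i => yR_mem hM1 (hdj _) (Finset.Ico_subset_Ico le_rfl (hk1 i.succ) (hκ i)))
        ⟨hz1, (hz2.trans (rb_le hM1 (hk1 0))).trans (br_lt hM1).le, hz3⟩ (hz2.trans (rb_le hM1 (hk1 0)))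
    have hDd : d 0 ≤ |D| := (hD 0).trans (le_abs_self D)
    have h1 := rectU (F := Ψ) (S := (12 * (1 + |D|) * M) ^ m * S)
      (hM 0) (hk1 0) (hη 0) (hd 0) hr (ht1 0) (ht2 0) hΨd (by
        intro z w hz
        have h2 := multiF_le hM1 D m (fun j => k0 j.succ) (fun j => k1 j.succ) (fun j => d j.succ) (fun j => η j.succ)
          (fun j => t0 j.succ) (fun j => hM j.succ) (fun j => hk1 j.succ) (fun j => hd j.succ) (fun j => hD j.succ)
          (fun j => hη j.succ)
          (fun j => by linarith [ht1 j.succ])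
          (fun j => by linarith [ht2 j.succ]) (fun x => T (Fin.cons z x)) (S * Real.exp (M * w))
          (by positivity)
          (hT.cons (hz.mem (hM 0) (hk1 0) (hη 0))) (by
            intro z' w' h'
            have h3 := hB (Fin.cons z z') (Fin.cons w w') (by
              intro j
              refine Fin.cases ?_ (fun j => ?_) j
              · simpa using hz.mono hr
              · simpa using h' j) ⟨0, by simpa using hz⟩
            rw [Fin.sum_univ_succ] at h3
            simp only [Fin.cons_zero, Fin.cons_succ] at h3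
            rw [mul_assoc, ← Real.exp_add, ← mul_add]
            exact h3)
        refine h2.trans (le_of_eq ?_)
        ring)
    -- the integral
    have hmem : ∀ x : Fin (m + 1) → ℝ, x ∈ Bx t0 r → ∀ i, ((x i : ℂ) + η i * I) ∈ Dm M (k0 i) (d i) := by
      intro x hx i
      have h := hx i (Set.mem_univ i)
      refine ⟨?_, ?_, ?_⟩
      · simp only [add_re, ofReal_re, mul_re, I_re, mul_zero, ofReal_im, I_im, mul_one, sub_zero, add_zero]
        linarith [h.1, ht1 i]
      · simp only [add_re, ofReal_re, mul_re, I_re, mul_zero, ofReal_im, I_im, mul_one, sub_zero, add_zero]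
        have h3 : br M < 1 / 2 := br_lt hM1
        linarith [h.2, ht2 i, hrb i]
      · simp only [add_im, ofReal_im, mul_im, ofReal_re, I_im, mul_one, I_re, mul_zero, add_zero, zero_add]
        exact hη i
    have hcontF : ContinuousOn (fun x : Fin (m + 1) → ℝ => T (fun j => x j + η j * I)) (Bx t0 r) := by
      refine hT.cont.comp ?_ hmem
      refine (continuous_pi fun i => ?_).continuousOn
      fun_prop
    obtain ⟨hfub, hfubi⟩ := fub t0 hr hcontF
    have e3 : ∀ (t : ℝ) (x : Fin m → ℝ), (fun j : Fin (m + 1) =>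
        (((Fin.cons t x : Fin (m + 1) → ℝ) j : ℝ) : ℂ) + η j * I) =
        Fin.cons ((t : ℂ) + η 0 * I) (fun j => (x j : ℂ) + η j.succ * I) := by
      intro t x
      funext j
      refine Fin.cases ?_ (fun j => ?_) j <;> simp
    simp only [e3] at hfub hfubi
    have hΨi : IntervalIntegrable (fun t : ℝ => Ψ ((t : ℂ) + η 0 * I)) volume (t0 0 - r) (t0 0 + r) := by
      refine ContinuousOn.intervalIntegrable ?_
      rw [Set.uIcc_of_le (by linarith)]
      intro t ht
      have h7 : DifferentiableAt ℂ Ψ ((t : ℂ) + η 0 * I) := by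
        refine hΨd _ ?_ ?_ ?_
        · simp only [add_re, ofReal_re, mul_re, I_re, mul_zero, ofReal_im, I_im, mul_one, sub_zero, add_zero]
          linarith [ht.1, ht1 0]
        · simp only [add_re, ofReal_re, mul_re, I_re, mul_zero, ofReal_im, I_im, mul_one, sub_zero, add_zero]
          linarith [ht.2, ht2 0]
        · simp only [add_im, ofReal_im, mul_im, ofReal_re, I_im, mul_one, I_re, mul_zero, add_zero, zero_add]
          exact hη 0
      have h8 : ContinuousAt (fun x : ℝ => (x : ℂ) + η 0 * I) t := by fun_prop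
      exact (ContinuousAt.comp (f := fun x : ℝ => (x : ℂ) + η 0 * I) (g := Ψ) h7.continuousAt
        h8).continuousWithinAt
    have hdiff : ∀ t ∈ Set.uIoc (t0 0 - r) (t0 0 + r), ‖Ψ ((t : ℂ) + η 0 * I) -
        M ^ m * ∫ x in Bx (fun i => t0 i.succ) r,
          T (Fin.cons ((t : ℂ) + η 0 * I) (fun j => (x j : ℂ) + η j.succ * I))‖ ≤
        m * (12 * (1 + |D|) * M) ^ m * S := by
      intro t ht
      rw [Set.uIoc_of_le (by linarith)] at ht
      have hp : PtU M (k0 0) (k1 0) (d 0) (η 0) (t0 0) 0 ((t : ℂ) + η 0 * I) 0 := by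
        have h11 : ((t : ℂ) + η 0 * I).re = t := by simp
        have h12 : ((t : ℂ) + η 0 * I).im = η 0 := by simp
        have h13 := ht2 0
        unfold PtU
        unfold rb at h13
        split_ifs at h13 ⊢ with hc
        · refine Or.inl ⟨rfl, h12, ?_, abs_nonneg _⟩
          rw [h11]
          exact ⟨by linarith [ht.1, ht1 0], by linarith [ht.2]⟩
        · refine Or.inl ⟨rfl, h12, ?_, abs_nonneg _⟩
          rw [h11]
          exact ⟨by linarith [ht.1, ht1 0], by linarith [ht.2]⟩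
      exact ih (fun j => k0 j.succ) (fun j => k1 j.succ) (fun j => d j.succ) (fun j => η j.succ) (fun j => t0 j.succ)
        (fun j => hM j.succ) (fun j => hk1 j.succ) (fun j => hd j.succ) (fun j => hD j.succ) (fun j => hη j.succ)
        (fun j => ht1 j.succ)
        (fun j => ht2 j.succ) (fun x => T (Fin.cons ((t : ℂ) + η 0 * I) x)) S hS
        (hT.cons (hp.mem (hM 0) (hk1 0) (hη 0))) (by
          rintro z' w' h' ⟨j, hj⟩
          have h3 := hB (Fin.cons ((t : ℂ) + η 0 * I) z') (Fin.cons 0 w') (by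
            intro j
            refine Fin.cases ?_ (fun j => ?_) j
            · simpa using hp
            · simpa using h' j) ⟨j.succ, by simpa using hj⟩
          rw [Fin.sum_univ_succ] at h3
          simp only [Fin.cons_zero, Fin.cons_succ, zero_add] at h3
          exact h3)
    have h4 := intervalIntegral.norm_integral_le_of_norm_le_const hdiff
    rw [intervalIntegral.integral_sub hΨi (hfubi.const_mul _), intervalIntegral.integral_const_mul,
      ← hfub, show t0 0 + r - (t0 0 - r) = 2 * r by ring, abs_of_nonneg (show (0:ℝ) ≤ 2 * r by linarith)] at h4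
    have h5 : (∑ k ∈ Finset.Ico (k0 0) (k1 0), Ψ (yR M k : ℝ)) - M ^ (m + 1) * ∫ x in Bx t0 r, T (fun j => x j + η j * I) =
        ((∑ k ∈ Finset.Ico (k0 0) (k1 0), Ψ (yR M k : ℝ)) - M * ∫ t in (t0 0 - r)..(t0 0 + r), Ψ ((t : ℂ) + η 0 * I)) +
        M * ((∫ t in (t0 0 - r)..(t0 0 + r), Ψ ((t : ℂ) + η 0 * I)) -
          M ^ m * ∫ x in Bx t0 r, T (fun j => x j + η j * I)) := by
      ring
    rw [h5]
    set K : ℝ := (12 * (1 + |D|) * M) ^ m with hK
    have hK0 : 0 ≤ K := by positivity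
    have h9 : ‖(M : ℂ) * ((∫ t in (t0 0 - r)..(t0 0 + r), Ψ ((t : ℂ) + η 0 * I)) -
          M ^ m * ∫ x in Bx t0 r, T (fun j => x j + η j * I))‖ ≤ M * (m * K * S * (2 * r)) := by
      rw [norm_mul, Complex.norm_natCast]
      exact mul_le_mul_of_nonneg_left h4 hM0.le
    have h6 : (M : ℝ) * (m * K * S * (2 * r)) ≤ 12 * (1 + |D|) * M * (m * K * S) := by
      have h7 : (0 : ℝ) ≤ m * K * S := by positivity
      have h8 : (M : ℝ) * (2 * r) ≤ 12 * (1 + |D|) * M := by nlinarith [abs_nonneg D]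
      calc (M : ℝ) * (m * K * S * (2 * r)) = M * (2 * r) * (m * K * S) := by ring
        _ ≤ _ := mul_le_mul_of_nonneg_right h8 h7
    have h10 : 12 * (1 + d 0) * M * (K * S) ≤ 12 * (1 + |D|) * M * (K * S) := by
      apply mul_le_mul_of_nonneg_right _ (by positivity)
      gcongr
    refine (norm_add_le_of_le (h1.trans h10) h9).trans ?_
    push_cast
    rw [pow_succ, ← hK]
    calc 12 * (1 + |D|) * M * (K * S) + (M : ℝ) * (m * K * S * (2 * r))
        ≤ 12 * (1 + |D|) * M * (K * S) + 12 * (1 + |D|) * M * (m * K * S) := by linarith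
      _ = _ := by ring

variable {ι : Type} [Fintype ι] [DecidableEq ι] {k0 k1 : ι → ℕ} {d η t0 : ι → ℝ}

/-- Transport of a sum over multi-indices. -/
theorem sum_transport {m : ℕ} (e : Fin m ≃ ι) (s : ι → Finset ℕ) (g : (ι → ℕ) → ℂ) :
    ∑ κ ∈ Fintype.piFinset s, g κ =
      ∑ κ ∈ Fintype.piFinset (fun i : Fin m => s (e i)), g (fun j => κ (e.symm j)) := by
  refine Finset.sum_bij' (fun κ _ => fun i => κ (e i)) (fun κ _ => fun j => κ (e.symm j)) ?_ ?_ ?_ ?_ ?_
  · intro κ hκ
    rw [Fintype.mem_piFinset] at hκ ⊢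
    exact fun i => hκ (e i)
  · intro κ hκ
    rw [Fintype.mem_piFinset] at hκ ⊢
    intro j
    have := hκ (e.symm j)
    rwa [Equiv.apply_symm_apply] at this
  · intro κ _
    funext j
    simp
  · intro κ _
    funext j
    simp
  · intro κ _
    congr 1
    funext j
    simp

theorem TOKI.transport {m : ℕ} (e : Fin m ≃ ι) {T : (ι → ℂ) → ℂ} (h : TOKI M k0 d T) :
    TOKI M (fun i => k0 (e i)) (fun i => d (e i)) (fun z : Fin m → ℂ => T (fun j => z (e.symm j))) := by
  refine ⟨?_, ?_⟩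
  · refine h.cont.comp ?_ ?_
    · exact (continuous_pi fun i => continuous_apply _).continuousOn
    · intro z hz j
      have := hz (e.symm j)
      simpa using this
  · intro z hz j hj
    have h1 := h.diff (fun i => z (e.symm i)) (fun i => by simpa using hz (e.symm i)) (e j) (by simpa using hj)
    have e2 : ∀ w, Function.update (fun i => z (e.symm i)) (e j) w =
        fun i => Function.update z j w (e.symm i) := by
      intro w
      funext i
      by_cases hi : i = e j
      · subst hi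
        simp
      · rw [Function.update_of_ne hi, Function.update_of_ne]
        intro h2
        exact hi (by rw [← h2, Equiv.apply_symm_apply])
    simp only [e2, Equiv.symm_apply_apply] at h1
    exact h1

/-- The sum is bounded by the terms on the contours. -/
theorem multiI_le (hM1 : 0 < M) (D : ℝ) (hM : ∀ j, k0 j + 2 ≤ k1 j) (hk1 : ∀ j, k1 j ≤ M) (hd : ∀ j, 1 ≤ M * d j) (hD : ∀ j, d j ≤ D)
    (hη : ∀ j, |η j| ≤ d j) (ht1 : ∀ j, al M (k0 j) ≤ t0 j) (ht2 : ∀ j, t0 j ≤ rb M (k1 j))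
    (T : (ι → ℂ) → ℂ) (S : ℝ) (hS : 0 ≤ S) (hT : TOKI M k0 d T)
    (hB : ∀ (z : ι → ℂ) (w : ι → ℝ), (∀ j, PtU M (k0 j) (k1 j) (d j) (η j) (t0 j) 0 (z j) (w j)) →
      ‖T z‖ ≤ S * Real.exp (M * ∑ j, w j)) :
    ‖∑ κ ∈ Fintype.piFinset (fun j : ι => Finset.Ico (k0 j) (k1 j)), T (fun j => (yR M (κ j) : ℝ))‖ ≤
      (12 * (1 + |D|) * M) ^ Fintype.card ι * S := by
  have e := (Fintype.equivFin ι).symm
  rw [sum_transport e]
  refine multiF_le hM1 D (Fintype.card ι) (fun i => k0 (e i)) (fun i => k1 (e i)) (fun i => d (e i)) (fun i => η (e i))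
    (fun i => t0 (e i)) (fun j => hM _) (fun j => hk1 _) (fun j => hd _) (fun j => hD _) (fun j => hη _) (fun j => ht1 _)
    (fun j => ht2 _) (fun z : Fin (Fintype.card ι) → ℂ => T (fun j => z (e.symm j))) S hS
    (hT.transport e) ?_
  intro z w h
  have h1 := hB (fun j => z (e.symm j)) (fun j => w (e.symm j)) (fun j => by simpa using h (e.symm j))
  rwa [e.symm.sum_comp w] at h1

/-- The sum is the integral over the product of the flat contours near `t0`, up to the terms on the
rest of the contours. -/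
theorem multiI (hM1 : 0 < M) (hr : 0 ≤ r) (D : ℝ) (hM : ∀ j, k0 j + 2 ≤ k1 j) (hk1 : ∀ j, k1 j ≤ M) (hd : ∀ j, 1 ≤ M * d j)
    (hD : ∀ j, d j ≤ D)
    (hη : ∀ j, |η j| ≤ d j) (ht1 : ∀ j, al M (k0 j) ≤ t0 j - r) (ht2 : ∀ j, t0 j + r ≤ rb M (k1 j))
    (T : (ι → ℂ) → ℂ) (S : ℝ) (hS : 0 ≤ S) (hT : TOKI M k0 d T)
    (hB : ∀ (z : ι → ℂ) (w : ι → ℝ), (∀ j, PtU M (k0 j) (k1 j) (d j) (η j) (t0 j) 0 (z j) (w j)) →
      (∃ j, PtU M (k0 j) (k1 j) (d j) (η j) (t0 j) r (z j) (w j)) → ‖T z‖ ≤ S * Real.exp (M * ∑ j, w j)) :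
    ‖(∑ κ ∈ Fintype.piFinset (fun j : ι => Finset.Ico (k0 j) (k1 j)), T (fun j => (yR M (κ j) : ℝ))) -
      M ^ Fintype.card ι * ∫ x in bx t0 (fun _ => r), T (fun j => x j + η j * I)‖ ≤
        Fintype.card ι * (12 * (1 + |D|) * M) ^ Fintype.card ι * S := by
  have e := (Fintype.equivFin ι).symm
  rw [sum_transport e]
  have h := multiF hM1 hr D (Fintype.card ι) (fun i => k0 (e i)) (fun i => k1 (e i)) (fun i => d (e i)) (fun i => η (e i))
    (fun i => t0 (e i)) (fun j => hM _) (fun j => hk1 _) (fun j => hd _) (fun j => hD _) (fun j => hη _) (fun j => ht1 _)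
    (fun j => ht2 _) (fun z : Fin (Fintype.card ι) → ℂ => T (fun j => z (e.symm j))) S hS
    (hT.transport e) (by
      rintro z w h ⟨j, hj⟩
      have h1 := hB (fun j => z (e.symm j)) (fun j => w (e.symm j)) (fun j => by simpa using h (e.symm j))
        ⟨e j, by simpa using hj⟩
      rwa [e.symm.sum_comp w] at h1)
  have hmp := MeasureTheory.volume_measurePreserving_piCongrLeft (fun _ : ι => ℝ) e
  have h2 := hmp.setIntegral_preimage_emb (MeasurableEquiv.measurableEmbedding _)
    (fun x : ι → ℝ => T (fun j => x j + η j * I)) (bx t0 (fun _ => r))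
  have hap : ∀ x : Fin (Fintype.card ι) → ℝ, ∀ j, (MeasurableEquiv.piCongrLeft (fun _ : ι => ℝ) e) x j =
      x (e.symm j) := by
    intro x j
    obtain ⟨i, rfl⟩ := e.surjective j
    rw [Equiv.symm_apply_apply]
    exact Equiv.piCongrLeft_apply_apply (fun _ : ι => ℝ) e x i
  have hset : (MeasurableEquiv.piCongrLeft (fun _ : ι => ℝ) e) ⁻¹' (bx t0 (fun _ => r)) =
      Bx (fun i => t0 (e i)) r := by
    ext x
    simp only [Set.mem_preimage, bx, Set.mem_ofPred_eq, Bx, Set.mem_pi, Set.mem_univ, true_implies, hap,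
      Set.mem_Icc]
    constructor
    · intro hx i
      have := hx (e i)
      rw [Equiv.symm_apply_apply, abs_le] at this
      constructor <;> linarith [this.1, this.2]
    · intro hx j
      have := hx (e.symm j)
      rw [Equiv.apply_symm_apply] at this
      rw [abs_le]
      constructor <;> linarith [this.1, this.2]
  rw [hset] at h2
  simp only [hap] at h2
  rw [← h2]
  have e3 : ∀ x : Fin (Fintype.card ι) → ℝ, (fun j => ((x (e.symm j) : ℝ) : ℂ) + η j * I) =
      fun j => (fun i => ((x i : ℝ) : ℂ) + η (e i) * I) (e.symm j) := by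
    intro x
    funext j
    simp
  simp only [e3]
  exact h

end Pool.Agent.S5
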