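import Pool.Agent.S5.S.Krn
import Pool.Agent.S5.S.MultiI
import Pool.Agent.S5.X.Nod

/-!
# Large indices: the sum as an integral of a lattice sum
-/

set_option autoImplicit false

namespace Pool.Agent.S5

open Complex Filter Topology MeasureTheory
open Pool.Agent.S3 (Ctr)

variable {m : ℕ} {C : Ch m}

theorem yM_yR (M k : ℕ) : yM M k = ((yR M k : ℝ) : ℂ) := by
  rw [yM, yR]
  push_cast
  ring

theorem ye_yM {M : ℕ} (hM : 0 < M) (κ : Fin m → ℕ) (n : ℕ) :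
    ye (fun j => yM M (κ j)) n = yM M (ke M κ n) := by
  unfold ye ke
  by_cases h : 0 < n ∧ n ≤ m
  · rw [dif_pos h, dif_pos (show 1 ≤ n ∧ n ≤ m from h)]
  · rw [dif_neg h, dif_neg (show ¬ (1 ≤ n ∧ n ≤ m) from h), yM_top hM]

/-- The integrand on the contours `γ`. -/
noncomputable def Krn.TH (Q : Krn C) (γ γ' : C.Vn → ℝ → ℂ) (M : ℕ) (x : C.Vn → ℝ) (z : C.Ix → ℂ) : ℂ :=
  (∏ j, Q.w j M (z (Sum.inl j))) *
    (∏ i : Fin (m + 1), (Q.sg i M * Q.k i M (C.ow (fun v => γ v (x v)) z i)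
      (ye (fun j => z (Sum.inl j)) i) (ye (fun j => z (Sum.inl j)) (i + 1)))) *
    ∏ v : C.Vn, (Q.cv * M ^ 2 * γ' v (x v))

/-- The ranges of the lattice variables. -/
noncomputable def ix0 (C : Ch m) (K : Cn m) (M : ℕ) : C.Ix → ℕ :=
  Sum.elim (fun _ => kq M) (fun i => kz0 M (K.z1 i))

noncomputable def ix1 (C : Ch m) (K : Cn m) (M : ℕ) : C.Ix → ℕ :=
  Sum.elim (fun _ => M) (fun i => kz1 M (K.z1 i))

/-- Sums over multi-indices on a sum type. -/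
theorem sum_piSum {α β : Type} [Fintype α] [Fintype β] [DecidableEq α] [DecidableEq β]
    (s : α ⊕ β → Finset ℕ) (f : (α ⊕ β → ℕ) → ℂ) :
    ∑ κ ∈ Fintype.piFinset s, f κ = ∑ κ1 ∈ Fintype.piFinset (fun a => s (Sum.inl a)),
      ∑ κ2 ∈ Fintype.piFinset (fun b => s (Sum.inr b)), f (Sum.elim κ1 κ2) := by
  rw [← Finset.sum_product']
  refine Finset.sum_bij' (fun κ _ => (fun a => κ (Sum.inl a), fun b => κ (Sum.inr b)))
    (fun p _ => Sum.elim p.1 p.2) ?_ ?_ ?_ ?_ ?_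
  · intro κ hκ
    rw [Fintype.mem_piFinset] at hκ
    rw [Finset.mem_product, Fintype.mem_piFinset, Fintype.mem_piFinset]
    exact ⟨fun a => hκ _, fun b => hκ _⟩
  · intro p hp
    rw [Finset.mem_product, Fintype.mem_piFinset, Fintype.mem_piFinset] at hp
    rw [Fintype.mem_piFinset]
    rintro (a | b)
    · exact hp.1 a
    · exact hp.2 b
  · intro κ _
    funext e
    rcases e with a | b <;> rfl
  · intro p _
    rfl
  · intro κ _
    congr 1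
    funext e
    rcases e with a | b <;> rfl

/-- The product over the nodes as products over the types. -/
theorem prod_types {f : Fin (m + 1) → ℂ} (p : Fin (m + 1) → Prop) [DecidablePred p] :
    ∏ i, f i = (∏ i : {i // p i}, f i) * ∏ i : {i // ¬ p i}, f i :=
  (Fintype.prod_subtype_mul_prod_subtype p f).symm

/-- The exact values at `M`. -/
structure Krn.EX (Q : Krn C) (M : ℕ) : Prop where
  g_cl : ∀ i, C.ty i = Ty.cl → ∀ k k' : ℕ, Q.h0 ≤ k → Q.h0 ≤ k' → k < M → k' < M →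
    Q.g i M k k' = Q.k i M 0 (yM M k) (yM M k')
  g_zn : ∀ i, C.ty i = Ty.zn → ∀ k k' : ℕ, Q.h0 ≤ k → Q.h0 ≤ k' → k < M → k' < M →
    Q.g i M k k' = ∑ l ∈ Finset.Ico Q.h0 M, Q.k i M (yM M l) (yM M k) (yM M k')
  g_vn : ∀ i, C.ty i = Ty.vn → ∀ k k' : ℕ, Q.h0 ≤ k → Q.h0 ≤ k' → k < M → k' < M →
    ∀ γ γ' : ℝ → ℂ, Ctr γ γ' → (∀ x, |(γ x).re| ≤ 1 / 2) →
    Integrable (fun x => Q.k i M (γ x) (yM M k) (yM M k') * γ' x) ∧
    Q.g i M k k' = Q.cv * M ^ 2 * ∫ x, Q.k i M (γ x) (yM M k) (yM M k') * γ' x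

theorem Krn.OK.ex {Q : Krn C} (hQ : Q.OK) : ∀ᶠ M : ℕ in atTop, Q.EX M := by
  have h1 : ∀ᶠ M : ℕ in atTop, ∀ i, C.ty i = Ty.cl → ∀ k k' : ℕ, Q.h0 ≤ k → Q.h0 ≤ k' → k < M → k' < M →
      Q.g i M k k' = Q.k i M 0 (yM M k) (yM M k') :=
    eventually_all.2 fun i => eventually_imp_distrib_left.2 fun h => hQ.g_cl i h
  have h2 : ∀ᶠ M : ℕ in atTop, ∀ i, C.ty i = Ty.zn → ∀ k k' : ℕ, Q.h0 ≤ k → Q.h0 ≤ k' → k < M → k' < M →
      Q.g i M k k' = ∑ l ∈ Finset.Ico Q.h0 M, Q.k i M (yM M l) (yM M k) (yM M k') :=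
    eventually_all.2 fun i => eventually_imp_distrib_left.2 fun h => hQ.g_zn i h
  have h3 : ∀ᶠ M : ℕ in atTop, ∀ i, C.ty i = Ty.vn → ∀ k k' : ℕ, Q.h0 ≤ k → Q.h0 ≤ k' → k < M → k' < M →
      ∀ γ γ' : ℝ → ℂ, Ctr γ γ' → (∀ x, |(γ x).re| ≤ 1 / 2) →
      Integrable (fun x => Q.k i M (γ x) (yM M k) (yM M k') * γ' x) ∧
      Q.g i M k k' = Q.cv * M ^ 2 * ∫ x, Q.k i M (γ x) (yM M k) (yM M k') * γ' x :=
    eventually_all.2 fun i => eventually_imp_distrib_left.2 fun h => hQ.g_vn i h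
  filter_upwards [h1, h2, h3] with M h1 h2 h3
  exact ⟨h1, h2, h3⟩

/-- The sum over the lattice variables of the nodes. -/
theorem Krn.sum_hn (Q : Krn C) {M : ℕ} (hQ : Q.EX M) (hM : 0 < M) (k : Fin m → ℕ)
    (hk : ∀ j, Q.h0 ≤ k j ∧ k j < M) (h0 : Q.h0 < M) :
    ∑ l ∈ Fintype.piFinset (fun _ : C.Zn => Finset.Ico Q.h0 M), ∏ i, Q.hn M (Sum.elim k l) i =
      ∏ i : Fin (m + 1), Q.g i M (ke M k i) (ke M k (i + 1)) := by
  have hke : ∀ n, Q.h0 ≤ ke M k n ∧ ke M k n < M := by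
    intro n
    unfold ke
    split_ifs with h
    · exact hk _
    · omega
  have h1 : ∀ l : C.Zn → ℕ, ∏ i, Q.hn M (Sum.elim k l) i =
      (∏ i : C.Zn, Q.k i M (yM M (l i)) (yM M (ke M k (i : Fin (m + 1)))) (yM M (ke M k ((i : Fin (m + 1)) + 1)))) *
        ∏ i : {i : Fin (m + 1) // ¬ C.ty i = Ty.zn}, Q.g i M (ke M k (i : Fin (m + 1))) (ke M k ((i : Fin (m + 1)) + 1)) := by
    intro l
    rw [prod_types (fun i => C.ty i = Ty.zn)]
    congr 1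
    · refine Finset.prod_congr rfl fun i _ => ?_
      rw [Krn.hn, dif_pos i.2]
      rfl
    · refine Finset.prod_congr rfl fun i _ => ?_
      rw [Krn.hn, dif_neg i.2]
      rfl
  simp only [h1]
  rw [← Finset.sum_mul, ← Finset.prod_univ_sum (fun _ : C.Zn => Finset.Ico Q.h0 M)
    (fun (i : C.Zn) l => Q.k i M (yM M l) (yM M (ke M k (i : Fin (m + 1)))) (yM M (ke M k ((i : Fin (m + 1)) + 1)))),
    prod_types (fun i => C.ty i = Ty.zn)]
  congr 1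
  refine Finset.prod_congr rfl fun i _ => ?_
  rw [hQ.g_zn i i.2 _ _ (hke _).1 (hke _).1 (hke _).2 (hke _).2]

variable (Q : Krn C) {M : ℕ} (hQ : Q.EX M) {γ γ' : C.Vn → ℝ → ℂ} (hγ : ∀ v, Ctr (γ v) (γ' v))
  (hre : ∀ v x, |(γ v x).re| ≤ 1 / 2)

include hQ hγ hre

/-- The integral of a term. -/
theorem Krn.int_term (hM : 0 < M) (h0 : Q.h0 < M) (κ : C.Ix → ℕ)
    (hκ : ∀ e, Q.h0 ≤ κ e ∧ κ e < M) :
    Integrable (fun x : C.Vn → ℝ => Q.TH γ γ' M x (fun e => ((yR M (κ e) : ℝ) : ℂ))) ∧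
    ∫ x : C.Vn → ℝ, Q.TH γ γ' M x (fun e => ((yR M (κ e) : ℝ) : ℂ)) =
      (∏ i, Q.sg i M) * ((∏ j, Q.w j M (yM M (κ (Sum.inl j)))) * ∏ i, Q.hn M κ i) := by
  set k : Fin m → ℕ := fun j => κ (Sum.inl j) with hk
  have hke : ∀ n, Q.h0 ≤ ke M k n ∧ ke M k n < M := by
    intro n
    unfold ke
    split_ifs with h
    · exact hκ _
    · omega
  have hye : ∀ n, ye (fun j => ((yR M (κ (Sum.inl j)) : ℝ) : ℂ)) n = yM M (ke M k n) := by
    intro n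
    rw [← ye_yM hM]
    congr 1
    funext j
    rw [yM_yR]
  -- the kernels which do not depend on `x`
  set B : ℂ := ∏ i : {i : Fin (m + 1) // ¬ C.ty i = Ty.vn}, Q.hn M κ i with hB
  set A : ℂ := ∏ j, Q.w j M (yM M (κ (Sum.inl j))) with hA
  have hT : ∀ x : C.Vn → ℝ, Q.TH γ γ' M x (fun e => ((yR M (κ e) : ℝ) : ℂ)) =
      (A * (∏ i, Q.sg i M) * B) * ∏ v : C.Vn, (Q.cv * M ^ 2 *
        (Q.k v M (γ v (x v)) (yM M (ke M k (v : Fin (m + 1)))) (yM M (ke M k ((v : Fin (m + 1)) + 1))) * γ' v (x v))) := by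
    intro x
    unfold Krn.TH
    have e1 : ∏ i : Fin (m + 1), (Q.sg i M * Q.k i M (C.ow (fun v => γ v (x v))
        (fun e => ((yR M (κ e) : ℝ) : ℂ)) i)
        (ye (fun j => ((yR M (κ (Sum.inl j)) : ℝ) : ℂ)) i) (ye (fun j => ((yR M (κ (Sum.inl j)) : ℝ) : ℂ)) (i + 1))) =
        (∏ i, Q.sg i M) * ((∏ v : C.Vn, Q.k v M (γ v (x v)) (yM M (ke M k (v : Fin (m + 1)))) (yM M (ke M k ((v : Fin (m + 1)) + 1)))) * B) := by
      rw [Finset.prod_mul_distrib]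
      congr 1
      rw [prod_types (fun i => C.ty i = Ty.vn)]
      congr 1
      · refine Finset.prod_congr rfl fun i _ => ?_
        rw [hye, hye, Ch.ow, dif_pos i.2]
      · rw [hB]
        refine Finset.prod_congr rfl fun i _ => ?_
        rw [hye, hye, Ch.ow, dif_neg i.2, Krn.hn]
        by_cases hz : C.ty i = Ty.zn
        · rw [dif_pos hz, dif_pos hz, ← yM_yR]
        · have hc : C.ty i = Ty.cl := by
            have h1 := i.2
            revert h1 hz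
            cases C.ty i <;> simp
          rw [dif_neg hz, dif_neg hz, hQ.g_cl i hc _ _ (hke _).1 (hke _).1 (hke _).2 (hke _).2]
    rw [e1]
    have e2 : ∏ j, Q.w j M (((yR M (κ (Sum.inl j)) : ℝ) : ℂ)) = A := by
      rw [hA]
      refine Finset.prod_congr rfl fun j _ => ?_
      rw [yM_yR]
    rw [e2]
    have e3 : ∏ v : C.Vn, (Q.cv * M ^ 2 *
        (Q.k v M (γ v (x v)) (yM M (ke M k (v : Fin (m + 1)))) (yM M (ke M k ((v : Fin (m + 1)) + 1))) * γ' v (x v))) =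
        (∏ v : C.Vn, Q.k v M (γ v (x v)) (yM M (ke M k (v : Fin (m + 1)))) (yM M (ke M k ((v : Fin (m + 1)) + 1)))) *
          ∏ v : C.Vn, (Q.cv * M ^ 2 * γ' v (x v)) := by
      rw [← Finset.prod_mul_distrib]
      refine Finset.prod_congr rfl fun v _ => ?_
      ring
    rw [e3]
    ring
  have hV : ∀ v : C.Vn, Integrable (fun x : ℝ => Q.cv * M ^ 2 *
      (Q.k v M (γ v x) (yM M (ke M k (v : Fin (m + 1)))) (yM M (ke M k ((v : Fin (m + 1)) + 1))) * γ' v x)) ∧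
      ∫ x : ℝ, Q.cv * M ^ 2 *
      (Q.k v M (γ v x) (yM M (ke M k (v : Fin (m + 1)))) (yM M (ke M k ((v : Fin (m + 1)) + 1))) * γ' v x) = Q.hn M κ v := by
    intro v
    obtain ⟨h1, h2⟩ := hQ.g_vn v v.2 _ _ (hke (v : Fin (m + 1))).1 (hke ((v : Fin (m + 1)) + 1)).1 (hke _).2 (hke _).2
      (γ v) (γ' v) (hγ v) (hre v)
    refine ⟨h1.const_mul _, ?_⟩
    have hz : ¬ C.ty v = Ty.zn := by
      rw [v.2]; simp
    rw [integral_const_mul, Krn.hn, dif_neg hz, ← h2]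
  constructor
  · simp only [hT]
    exact (Integrable.fintype_prod (fun v => (hV v).1)).const_mul _
  · simp only [hT]
    rw [integral_const_mul, integral_fintype_prod_volume_eq_prod (fun (v : C.Vn) (x : ℝ) => Q.cv * M ^ 2 *
      (Q.k v M (γ v x) (yM M (ke M k (v : Fin (m + 1)))) (yM M (ke M k ((v : Fin (m + 1)) + 1))) * γ' v x))]
    rw [Finset.prod_congr rfl fun v _ => (hV v).2]
    have e4 : ∏ i, Q.hn M κ i = (∏ v : C.Vn, Q.hn M κ v) * B := prod_types (fun i => C.ty i = Ty.vn)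
    rw [e4]
    ring

/-- **The sum over the large indices as an integral of a lattice sum.** -/
theorem Krn.high_alg (K : Cn m) (hM : 0 < M) (h0 : Q.h0 < M) (hq : Q.h0 ≤ kq M)
    (hz0 : ∀ i, Q.h0 ≤ kz0 M (K.z1 i)) (hz1 : ∀ i, kz1 M (K.z1 i) ≤ M) :
    (∏ i, Q.sg i M) * Q.JP K Pat.zero M =
      ∫ x : C.Vn → ℝ, ∑ κ ∈ Fintype.piFinset (fun e : C.Ix => Finset.Ico (ix0 C K M e) (ix1 C K M e)),
        Q.TH γ γ' M x (fun e => ((yR M (κ e) : ℝ) : ℂ)) := by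
  have hκ : ∀ κ ∈ Fintype.piFinset (fun e : C.Ix => Finset.Ico (ix0 C K M e) (ix1 C K M e)),
      ∀ e, Q.h0 ≤ κ e ∧ κ e < M := by
    intro κ hκ e
    rw [Fintype.mem_piFinset] at hκ
    have h1 := Finset.mem_Ico.1 (hκ e)
    rcases e with j | i
    · exact ⟨hq.trans h1.1, h1.2⟩
    · exact ⟨(hz0 _).trans h1.1, lt_of_lt_of_le h1.2 (hz1 _)⟩
  rw [integral_finset_sum _ fun κ h => (Krn.int_term Q hQ hγ hre hM h0 κ (hκ κ h)).1]
  rw [Finset.sum_congr rfl fun κ h => (Krn.int_term Q hQ hγ hre hM h0 κ (hκ κ h)).2, ← Finset.mul_sum]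
  congr 1
  rw [sum_piSum]
  unfold Krn.JP
  have e1 : Q.RS M (Pat.zero : Pat m).S = fun _ => Finset.Ico (kq M) M := by
    funext j
    simp [Krn.RS, Pat.zero]
  have e2 : (fun i : C.Zn => Q.ZS K Pat.zero M i) =
      fun i : C.Zn => Finset.Ico (kz0 M (K.z1 i)) (kz1 M (K.z1 i)) := by
    funext i
    simp [Krn.ZS, Pat.zero, Tch]
  rw [e1, e2]
  rfl

end Pool.Agent.S5
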