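import Pool.Agent.S5.S.HighA
import Pool.Agent.S3.Gr6

/-!
# The integrand: differentiability, bounds, limit at the critical point
-/

set_option autoImplicit false

namespace Pool.Agent.S5

open Complex Filter Topology MeasureTheory
open Pool.Agent.S3 (Rf Ctr)
open Pool.Agent.H63.VC3 (ff)

variable {m : ℕ} {C : Ch m}

/-- The product of the kernels as a function of all variables. -/
noncomputable def Krn.TF (Q : Krn C) (M : ℕ) (p : C.Vn ⊕ C.Ix → ℂ) : ℂ :=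
  (∏ j, Q.w j M (p (Sum.inr (Sum.inl j)))) *
    ∏ i : Fin (m + 1), (Q.sg i M * Q.k i M (C.ow (fun v => p (Sum.inl v)) (fun e => p (Sum.inr e)) i)
      (ye (fun j => p (Sum.inr (Sum.inl j))) i) (ye (fun j => p (Sum.inr (Sum.inl j))) (i + 1)))

theorem Krn.TH_eq (Q : Krn C) (γ γ' : C.Vn → ℝ → ℂ) (M : ℕ) (x : C.Vn → ℝ) (z : C.Ix → ℂ) :
    Q.TH γ γ' M x z = Q.TF M (Sum.elim (fun v => γ v (x v)) z) * ∏ v : C.Vn, (Q.cv * M ^ 2 * γ' v (x v)) := rfl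

/-- The domain of the variables. -/
structure InD (C : Ch m) (h0 : ℕ) (D : ℝ) (M : ℕ) (p : C.Vn ⊕ C.Ix → ℂ) : Prop where
  lat : ∀ e : C.Ix, p (Sum.inr e) ∈ Dm M h0 D
  vn : ∀ v : C.Vn, 0 < (p (Sum.inl v)).im ∧ |(p (Sum.inl v)).re| ≤ 1 / 2

theorem half_memH {M h0 : ℕ} {D : ℝ} (hD : 0 ≤ D) (hM : h0 + 1 ≤ M) : (1 / 2 : ℂ) ∈ Dm M h0 D := by
  have h1 : ((1 : ℂ) / 2).re = 1 / 2 := by norm_num
  have h2 : ((1 : ℂ) / 2).im = 0 := by norm_num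
  have hM0 : (0 : ℝ) < M := by exact_mod_cast (by omega : 0 < M)
  have h3 : (h0 : ℝ) + 1 ≤ M := by exact_mod_cast hM
  refine ⟨?_, by rw [h1], by rw [h2, abs_zero]; exact hD⟩
  rw [h1, al_eq]
  have : ((h0 : ℝ) + 1 / 2) / M ≤ 1 := by
    rw [div_le_one hM0]
    linarith
  linarith

theorem ye_mem {M h0 : ℕ} {D : ℝ} (hD : 0 ≤ D) (hM : h0 + 1 ≤ M) {y : Fin m → ℂ} (hy : ∀ j, y j ∈ Dm M h0 D)
    (n : ℕ) : ye y n ∈ Dm M h0 D := by
  unfold ye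
  split_ifs
  · exact hy _
  · exact half_memH hD hM

/-- The slots are differentiable functions. -/
theorem ye_df {E : Type} [NormedAddCommGroup E] [NormedSpace ℂ E] {f : Fin m → E → ℂ} {p : E}
    (hf : ∀ j, DifferentiableAt ℂ (f j) p) (n : ℕ) : DifferentiableAt ℂ (fun x => ye (fun j => f j x) n) p := by
  unfold ye
  by_cases h : 0 < n ∧ n ≤ m
  · simp only [dif_pos h]
    exact hf _
  · simp only [dif_neg h]
    exact differentiableAt_const _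

theorem ow_df {E : Type} [NormedAddCommGroup E] [NormedSpace ℂ E] {f : C.Vn → E → ℂ} {g : C.Ix → E → ℂ} {p : E}
    (hf : ∀ v, DifferentiableAt ℂ (f v) p) (hg : ∀ e, DifferentiableAt ℂ (g e) p) (i : Fin (m + 1)) :
    DifferentiableAt ℂ (fun x => C.ow (fun v => f v x) (fun e => g e x) i) p := by
  unfold Ch.ow
  by_cases h : C.ty i = Ty.vn
  · simp only [dif_pos h]
    exact hf _
  · by_cases h' : C.ty i = Ty.zn
    · simp only [dif_neg h, dif_pos h']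
      exact hg _
    · simp only [dif_neg h, dif_neg h']
      exact differentiableAt_const _

theorem df_prod {ι E : Type} [NormedAddCommGroup E] [NormedSpace ℂ E] (s : Finset ι) {f : ι → E → ℂ} {p : E}
    (h : ∀ i ∈ s, DifferentiableAt ℂ (f i) p) : DifferentiableAt ℂ (fun x => ∏ i ∈ s, f i x) p := by
  classical
  induction s using Finset.induction_on with
  | empty =>
    simp only [Finset.prod_empty]
    exact differentiableAt_const _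
  | insert a s ha ih =>
    simp only [Finset.prod_insert ha]
    exact (h a (Finset.mem_insert_self _ _)).mul (ih fun i hi => h i (Finset.mem_insert_of_mem hi))

/-- The integrand is a differentiable function of all variables. -/
theorem Krn.TF_df (Q : Krn C) (hQ : Q.OK) {D : ℝ} (hD : 0 ≤ D) : ∀ᶠ M : ℕ in atTop, ∀ p : C.Vn ⊕ C.Ix → ℂ,
    InD C Q.h0 D M p → DifferentiableAt ℂ (Q.TF M) p := by
  have h1 : ∀ᶠ M : ℕ in atTop, ∀ j, ∀ y ∈ Dm M Q.h0 D, DifferentiableAt ℂ (Q.w j M) y :=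
    eventually_all.2 fun j => hQ.w_df j D
  have h2 : ∀ᶠ M : ℕ in atTop, ∀ i, ∀ z a b : ℂ, (C.ty i = Ty.zn → z ∈ Dm M Q.h0 D) →
    (C.ty i = Ty.vn → 0 < z.im ∧ |z.re| ≤ 1 / 2) → a ∈ Dm M Q.h0 D → b ∈ Dm M Q.h0 D →
    DifferentiableAt ℂ (fun p : ℂ × ℂ × ℂ => Q.k i M p.1 p.2.1 p.2.2) (z, a, b) :=
    eventually_all.2 fun i => hQ.k_df i D
  filter_upwards [h1, h2, eventually_ge_atTop (Q.h0 + 1)] with M h1 h2 hM p hp
  have hpr : ∀ e, DifferentiableAt ℂ (fun q : C.Vn ⊕ C.Ix → ℂ => q e) p := fun e => differentiableAt_apply e p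
  unfold Krn.TF
  refine DifferentiableAt.mul ?_ ?_
  · refine df_prod _ fun j _ => ?_
    exact DifferentiableAt.comp (g := Q.w j M) p (h1 j _ (hp.lat _)) (hpr _)
  · refine df_prod _ fun i _ => ?_
    refine DifferentiableAt.const_mul ?_ _
    have hy := fun n => ye_mem hD hM (fun j => hp.lat (Sum.inl j)) n
    have d1 := h2 i (C.ow (fun v => p (Sum.inl v)) (fun e => p (Sum.inr e)) i)
      (ye (fun j => p (Sum.inr (Sum.inl j))) i) (ye (fun j => p (Sum.inr (Sum.inl j))) (i + 1)) ?_ ?_ (hy _) (hy _)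
    · exact DifferentiableAt.comp (g := fun p : ℂ × ℂ × ℂ => Q.k i M p.1 p.2.1 p.2.2)
        (f := fun q : C.Vn ⊕ C.Ix → ℂ => (C.ow (fun v => q (Sum.inl v)) (fun e => q (Sum.inr e)) i,
          ye (fun j => q (Sum.inr (Sum.inl j))) i, ye (fun j => q (Sum.inr (Sum.inl j))) (i + 1))) p d1
        ((ow_df (fun v => hpr _) (fun e => hpr _) i).prodMk
          ((ye_df (fun j => hpr _) _).prodMk (ye_df (fun j => hpr _) _)))
    · intro h
      rw [Ch.ow, dif_neg (by rw [h]; simp), dif_pos h]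
      exact hp.lat _
    · intro h
      rw [Ch.ow, dif_pos h]
      exact hp.vn _

/-! ### Bounds -/

/-- Products of bounds. -/
theorem prod_bd {ι X : Type} (s : Finset ι) (P : ℕ → X → Prop) (f : ι → ℕ → X → ℂ) (g : ι → ℕ → X → ℝ)
    (h : ∀ i ∈ s, ∃ A : ℝ, 0 < A ∧ ∃ p : ℕ, ∀ᶠ M : ℕ in atTop, ∀ x, P M x →
      ‖f i M x‖ ≤ A * (M : ℝ) ^ p * Real.exp (M * g i M x)) :
    ∃ A : ℝ, 0 < A ∧ ∃ p : ℕ, ∀ᶠ M : ℕ in atTop, ∀ x, P M x →
      ‖∏ i ∈ s, f i M x‖ ≤ A * (M : ℝ) ^ p * Real.exp (M * ∑ i ∈ s, g i M x) := by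
  classical
  induction s using Finset.induction_on with
  | empty =>
    refine ⟨1, one_pos, 0, Eventually.of_forall fun M x _ => ?_⟩
    simp
  | insert a s ha ih =>
    obtain ⟨A1, hA1, p1, h1⟩ := h a (Finset.mem_insert_self _ _)
    obtain ⟨A2, hA2, p2, h2⟩ := ih fun i hi => h i (Finset.mem_insert_of_mem hi)
    refine ⟨A1 * A2, by positivity, p1 + p2, ?_⟩
    filter_upwards [h1, h2] with M h1 h2 x hx
    rw [Finset.prod_insert ha, Finset.sum_insert ha, norm_mul]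
    refine (mul_le_mul (h1 x hx) (h2 x hx) (norm_nonneg _) (by positivity)).trans (le_of_eq ?_)
    rw [mul_add, Real.exp_add, pow_add]
    ring

/-- The domain of the bounds. -/
structure InB (C : Ch m) (h0 : ℕ) (D κ B : ℝ) (M : ℕ) (p : C.Vn ⊕ C.Ix → ℂ) : Prop extends InD C h0 D M p where
  sl : ∀ v : C.Vn, (p (Sum.inl v)).im ≤ B ∧ κ * (1 / 2 - |(p (Sum.inl v)).re|) ≤ (p (Sum.inl v)).im

/-- The integrand is bounded by the growth function. -/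
theorem Krn.TF_bd (Q : Krn C) (hQ : Q.OK) {D κ B : ℝ} (hD : 0 ≤ D) (hκ : 0 < κ) :
    ∃ A : ℝ, 0 < A ∧ ∃ p : ℕ, ∀ᶠ M : ℕ in atTop, ∀ q : C.Vn ⊕ C.Ix → ℂ, InB C Q.h0 D κ B M q →
    ‖Q.TF M q‖ ≤ A * (M : ℝ) ^ p * Real.exp (M *
      C.G (C.ow (fun v => q (Sum.inl v)) (fun e => q (Sum.inr e))) (fun j => q (Sum.inr (Sum.inl j)))) := by
  obtain ⟨A1, hA1, p1, h1⟩ := prod_bd (Finset.univ : Finset (Fin m)) (fun M q => InB C Q.h0 D κ B M q)
    (fun j M q => Q.w j M (q (Sum.inr (Sum.inl j)))) (fun j M q => 4 * Rf (q (Sum.inr (Sum.inl j)) + 1 / 2))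
    (fun j _ => by
      obtain ⟨A, hA, p, h⟩ := hQ.w_bd j D
      exact ⟨A, hA, p, h.mono fun M h q hq => h _ (hq.lat _)⟩)
  obtain ⟨A2, hA2, p2, h2⟩ := prod_bd (Finset.univ : Finset (Fin (m + 1)))
    (fun M q => InB C Q.h0 D κ B M q ∧ Q.h0 + 1 ≤ M)
    (fun i M q => Q.sg i M * Q.k i M (C.ow (fun v => q (Sum.inl v)) (fun e => q (Sum.inr e)) i)
      (ye (fun j => q (Sum.inr (Sum.inl j))) i) (ye (fun j => q (Sum.inr (Sum.inl j))) (i + 1)))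
    (fun i M q => C.gn i (C.ow (fun v => q (Sum.inl v)) (fun e => q (Sum.inr e)) i)
      (ye (fun j => q (Sum.inr (Sum.inl j))) i) (ye (fun j => q (Sum.inr (Sum.inl j))) (i + 1)))
    (fun i _ => by
      by_cases hv : C.ty i = Ty.vn
      · obtain ⟨A, hA, p, h⟩ := hQ.v_bd i hv D κ B hκ
        refine ⟨A, hA, p, h.mono fun M h q hq => ?_⟩
        rw [norm_mul, hQ.sg, one_mul]
        have e : C.ow (fun v => q (Sum.inl v)) (fun e => q (Sum.inr e)) i = q (Sum.inl ⟨i, hv⟩) := by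
          rw [Ch.ow, dif_pos hv]
        rw [e]
        exact h _ _ _ (hq.1.vn _).1 (hq.1.sl _).1 (hq.1.vn _).2 (hq.1.sl _).2
          (ye_mem hD hq.2 (fun j => hq.1.lat _) _) (ye_mem hD hq.2 (fun j => hq.1.lat _) _)
      · obtain ⟨A, hA, p, h⟩ := hQ.k_bd i hv D
        refine ⟨A, hA, p, h.mono fun M h q hq => ?_⟩
        rw [norm_mul, hQ.sg, one_mul]
        refine h _ _ _ ?_ (ye_mem hD hq.2 (fun j => hq.1.lat _) _) (ye_mem hD hq.2 (fun j => hq.1.lat _) _)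
        intro hz
        rw [Ch.ow, dif_neg hv, dif_pos hz]
        exact hq.1.lat _)
  refine ⟨A1 * A2, by positivity, p1 + p2, ?_⟩
  filter_upwards [h1, h2, eventually_ge_atTop (Q.h0 + 1)] with M h1 h2 hM q hq
  unfold Krn.TF
  rw [norm_mul]
  refine (mul_le_mul (h1 q hq) (h2 q ⟨hq, hM⟩) (norm_nonneg _) (by positivity)).trans (le_of_eq ?_)
  unfold Ch.G
  simp only [Ch.gn]
  rw [mul_add, Real.exp_add, pow_add]
  ring

/-! ### Limit -/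

theorem tend_comp3 {X : Type} {l : Filter X} {F : ℕ → ℂ → ℂ → ℂ → ℂ} {z a b B : ℂ}
    (h : Tendsto (fun p : ℕ × (ℂ × ℂ × ℂ) => F p.1 p.2.1 p.2.2.1 p.2.2.2) (atTop ×ˢ 𝓝 (z, a, b)) (𝓝 B))
    {N : X → ℕ} {u v w : X → ℂ} (hN : Tendsto N l atTop) (hu : Tendsto u l (𝓝 z)) (hv : Tendsto v l (𝓝 a))
    (hw : Tendsto w l (𝓝 b)) : Tendsto (fun x => F (N x) (u x) (v x) (w x)) l (𝓝 B) :=
  h.comp (hN.prodMk (hu.prodMk_nhds (hv.prodMk_nhds hw)))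

theorem tend_comp1 {X : Type} {l : Filter X} {F : ℕ → ℂ → ℂ} {z B : ℂ}
    (h : Tendsto (fun p : ℕ × ℂ => F p.1 p.2) (atTop ×ˢ 𝓝 z) (𝓝 B))
    {N : X → ℕ} {u : X → ℂ} (hN : Tendsto N l atTop) (hu : Tendsto u l (𝓝 z)) :
    Tendsto (fun x => F (N x) (u x)) l (𝓝 B) :=
  h.comp (hN.prodMk hu)

/-- The limit of the integrand at the critical point. -/
theorem Krn.TF_lim (Q : Krn C) {K : Cn m} (hL : Q.Lm K) : ∃ A : ℂ, A ≠ 0 ∧
    Tendsto (fun p : ℕ × (C.Vn ⊕ C.Ix → ℂ) => Q.TF p.1 p.2 * exp (-(p.1 * C.Wt p.2)) /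
      (((p.1 : ℝ) ^ ((∑ j, Q.ew j) + ∑ i, Q.ek i) : ℝ) : ℂ)) (atTop ×ˢ 𝓝 (K.pc C)) (𝓝 A) := by
  choose A hA hw using hL.w
  choose B hB hk using hL.k
  refine ⟨(∏ j, A j) * ∏ i, B i, mul_ne_zero (Finset.prod_ne_zero_iff.2 fun j _ => hA j)
    (Finset.prod_ne_zero_iff.2 fun i _ => hB i), ?_⟩
  have tfst : Tendsto (fun p : ℕ × (C.Vn ⊕ C.Ix → ℂ) => p.1) (atTop ×ˢ 𝓝 (K.pc C)) atTop := tendsto_fst
  have tsnd : Tendsto (fun p : ℕ × (C.Vn ⊕ C.Ix → ℂ) => p.2) (atTop ×ˢ 𝓝 (K.pc C)) (𝓝 (K.pc C)) := tendsto_snd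
  have tc : ∀ e, Tendsto (fun p : ℕ × (C.Vn ⊕ C.Ix → ℂ) => p.2 e) (atTop ×ˢ 𝓝 (K.pc C)) (𝓝 (K.pc C e)) :=
    fun e => ((continuous_apply e).tendsto _).comp tsnd
  have ty : ∀ n : ℕ, Tendsto (fun p : ℕ × (C.Vn ⊕ C.Ix → ℂ) => ye (fun j => p.2 (Sum.inr (Sum.inl j))) n)
      (atTop ×ˢ 𝓝 (K.pc C)) (𝓝 (ye K.yc n)) := by
    intro n
    unfold ye
    by_cases h : 0 < n ∧ n ≤ m
    · simp only [dif_pos h]
      exact tc _
    · simp only [dif_neg h]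
      exact tendsto_const_nhds
  have tow : ∀ i : Fin (m + 1), Tendsto (fun p : ℕ × (C.Vn ⊕ C.Ix → ℂ) =>
      C.ow (fun v => p.2 (Sum.inl v)) (fun e => p.2 (Sum.inr e)) i)
      (atTop ×ˢ 𝓝 (K.pc C)) (𝓝 (if C.ty i = Ty.cl then 0 else K.oc i)) := by
    intro i
    unfold Ch.ow
    by_cases h : C.ty i = Ty.vn
    · simp only [dif_pos h]
      rw [if_neg (by rw [h]; simp)]
      exact tc (Sum.inl ⟨i, h⟩)
    · by_cases h' : C.ty i = Ty.zn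
      · simp only [dif_neg h, dif_pos h']
        rw [if_neg (by rw [h']; simp)]
        exact tc (Sum.inr (Sum.inr ⟨i, h'⟩))
      · simp only [dif_neg h, dif_neg h']
        have hc : C.ty i = Ty.cl := by
          revert h h'
          cases C.ty i <;> simp
        rw [if_pos hc]
        exact tendsto_const_nhds
  have l1 : Tendsto (fun p : ℕ × (C.Vn ⊕ C.Ix → ℂ) => ∏ j, (Q.w j p.1 (p.2 (Sum.inr (Sum.inl j))) *
      exp (-(p.1 * (4 * ff (p.2 (Sum.inr (Sum.inl j)) + 1 / 2)))) / (((p.1 : ℝ) ^ Q.ew j : ℝ) : ℂ)))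
      (atTop ×ˢ 𝓝 (K.pc C)) (𝓝 (∏ j, A j)) := by
    refine tendsto_finset_prod _ fun j _ => ?_
    exact tend_comp1 (F := fun M y => Q.w j M y * exp (-(M * (4 * ff (y + 1 / 2)))) /
      (((M : ℝ) ^ Q.ew j : ℝ) : ℂ)) (hw j) tfst (tc (Sum.inr (Sum.inl j)))
  have l2 : Tendsto (fun p : ℕ × (C.Vn ⊕ C.Ix → ℂ) => ∏ i : Fin (m + 1), (Q.sg i p.1 *
      Q.k i p.1 (C.ow (fun v => p.2 (Sum.inl v)) (fun e => p.2 (Sum.inr e)) i)
        (ye (fun j => p.2 (Sum.inr (Sum.inl j))) i) (ye (fun j => p.2 (Sum.inr (Sum.inl j))) (i + 1)) *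
      exp (-(p.1 * C.pn i (C.ow (fun v => p.2 (Sum.inl v)) (fun e => p.2 (Sum.inr e)) i)
        (ye (fun j => p.2 (Sum.inr (Sum.inl j))) i) (ye (fun j => p.2 (Sum.inr (Sum.inl j))) (i + 1)))) /
      (((p.1 : ℝ) ^ Q.ek i : ℝ) : ℂ)))
      (atTop ×ˢ 𝓝 (K.pc C)) (𝓝 (∏ i, B i)) := by
    refine tendsto_finset_prod _ fun i _ => ?_
    exact tend_comp3 (F := fun M z a b => Q.sg i M * Q.k i M z a b * exp (-(M * C.pn i z a b)) /
      (((M : ℝ) ^ Q.ek i : ℝ) : ℂ)) (hk i) tfst (tow i) (ty i) (ty (i + 1))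
  refine (l1.mul l2).congr' ?_
  have hev : ∀ᶠ p : ℕ × (C.Vn ⊕ C.Ix → ℂ) in atTop ×ˢ 𝓝 (K.pc C), 0 < p.1 :=
    tfst.eventually (eventually_gt_atTop 0)
  filter_upwards [hev] with p hp
  have hp0 : (0 : ℝ) < p.1 := by exact_mod_cast hp
  simp only [Finset.prod_div_distrib, Finset.prod_mul_distrib]
  have e1 : ∏ j, exp (-((p.1 : ℂ) * (4 * ff (p.2 (Sum.inr (Sum.inl j)) + 1 / 2)))) =
      exp (-(p.1 * ∑ j, 4 * ff (p.2 (Sum.inr (Sum.inl j)) + 1 / 2))) := by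
    rw [← Complex.exp_sum, Finset.sum_neg_distrib, Finset.mul_sum]
  have e2 : ∏ i : Fin (m + 1), exp (-((p.1 : ℂ) * C.pn i (C.ow (fun v => p.2 (Sum.inl v)) (fun e => p.2 (Sum.inr e)) i)
        (ye (fun j => p.2 (Sum.inr (Sum.inl j))) i) (ye (fun j => p.2 (Sum.inr (Sum.inl j))) (i + 1)))) =
      exp (-(p.1 * ∑ i : Fin (m + 1), C.pn i (C.ow (fun v => p.2 (Sum.inl v)) (fun e => p.2 (Sum.inr e)) i)
        (ye (fun j => p.2 (Sum.inr (Sum.inl j))) i) (ye (fun j => p.2 (Sum.inr (Sum.inl j))) (i + 1)))) := by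
    rw [← Complex.exp_sum, Finset.sum_neg_distrib, Finset.mul_sum]
  have e3 : (((p.1 : ℝ) ^ ((∑ j, Q.ew j) + ∑ i, Q.ek i) : ℝ) : ℂ) =
      (∏ j, (((p.1 : ℝ) ^ Q.ew j : ℝ) : ℂ)) * ∏ i, (((p.1 : ℝ) ^ Q.ek i : ℝ) : ℂ) := by
    rw [Real.rpow_add hp0, Real.rpow_sum_of_pos hp0, Real.rpow_sum_of_pos hp0]
    push_cast
    rfl
  have e4 : exp (-((p.1 : ℂ) * C.Wt p.2)) = exp (-(p.1 * ∑ j, 4 * ff (p.2 (Sum.inr (Sum.inl j)) + 1 / 2))) *
      exp (-(p.1 * ∑ i : Fin (m + 1), C.pn i (C.ow (fun v => p.2 (Sum.inl v)) (fun e => p.2 (Sum.inr e)) i)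
        (ye (fun j => p.2 (Sum.inr (Sum.inl j))) i) (ye (fun j => p.2 (Sum.inr (Sum.inl j))) (i + 1)))) := by
    rw [← Complex.exp_add]
    congr 1
    unfold Ch.Wt Ch.W
    simp only [Ch.pn]
    ring
  rw [e1, e2, e3, e4]
  unfold Krn.TF
  rw [Finset.prod_mul_distrib, div_mul_div_comm, mul_mul_mul_comm]

end Pool.Agent.S5
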