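import Pool.Agent.S5.S.HighN
import Pool.Agent.S5.S.HighT
import Pool.Agent.S5.S.Ctr
import Pool.Agent.S5.S.Cpt
import Pool.Agent.S5.S.AsmI

/-!
# Large indices: the bounds of the growth rate on the contours
-/

set_option autoImplicit false

namespace Pool.Agent.S5

open Complex Filter Topology MeasureTheory
open Pool.Agent.S3 (Rf Ctr)

variable {m : ℕ} {C : Ch m} {K : Cn m} {e0 : ℝ}

/-- The depths of the rectangles. -/
noncomputable def dx (C : Ch m) (K : Cn m) : C.Ix → ℝ := Sum.elim (fun _ => K.d) (fun i => K.dz i)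

/-- The heights of the flats. -/
noncomputable def hx (C : Ch m) (K : Cn m) : C.Ix → ℝ :=
  Sum.elim (fun j => (K.yc j).im) (fun i => (K.oc i).im)

/-- The real parts of the critical points. -/
noncomputable def tx (C : Ch m) (K : Cn m) : C.Ix → ℝ :=
  Sum.elim (fun j => (K.yc j).re) (fun i => (K.oc i).re)

/-- The ends of the limit rectangles. -/
noncomputable def lx0 (C : Ch m) (K : Cn m) : C.Ix → ℝ := Sum.elim (fun _ => -(1 / 4)) (fun i => -K.z1 i)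

noncomputable def lx1 (C : Ch m) (K : Cn m) : C.Ix → ℝ := Sum.elim (fun _ => 1 / 2) (fun i => K.z1 i)

theorem fin_pos {ι : Type} [Finite ι] (f : ι → ℝ) (hf : ∀ i, 0 < f i) : ∃ ρ : ℝ, 0 < ρ ∧ ∀ i, ρ ≤ f i := by
  cases nonempty_fintype ι
  rcases isEmpty_or_nonempty ι with h | h
  · exact ⟨1, one_pos, fun i => h.elim i⟩
  · obtain ⟨i0, h0⟩ := Finite.exists_min f
    exact ⟨f i0, hf i0, h0⟩

theorem lx_lt (hK : Cn.OK C K) (e : C.Ix) : lx0 C K e < tx C K e ∧ tx C K e < lx1 C K e ∧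
    |hx C K e| ≤ dx C K e ∧ 0 < dx C K e ∧ lx1 C K e ≤ 1 / 2 := by
  rcases e with j | i
  · exact ⟨hK.y0 j, hK.y1 j, hK.yd j, hK.d0, le_rfl⟩
  · have h := abs_lt.1 (hK.z1 i i.2)
    exact ⟨h.1, h.2, hK.zd i i.2, hK.dz0 i, (hK.z2 i).le⟩

/-- The ends of the rectangles at `M`. -/
structure IxE (C : Ch m) (K : Cn m) (h0 M : ℕ) (e : C.Ix) : Prop where
  h0 : h0 ≤ ix0 C K M e
  k0 : ix0 C K M e + 2 ≤ ix1 C K M e
  k1 : ix1 C K M e ≤ M
  l0 : lx0 C K e ≤ al M (ix0 C K M e)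
  l0' : al M (ix0 C K M e) ≤ lx0 C K e + 2 / M
  l1 : rb M (ix1 C K M e) ≤ lx1 C K e
  l1' : lx1 C K e - 2 / M ≤ rb M (ix1 C K M e)
  top : ix1 C K M e = M → lx1 C K e = 1 / 2

theorem ix_ev (hK : Cn.OK C K) (h0 : ℕ) : ∀ᶠ M : ℕ in atTop, ∀ e : C.Ix, IxE C K h0 M e := by
  refine eventually_all.2 fun e => ?_
  rcases e with j | i
  · filter_upwards [ev_kq h0, eventually_ge_atTop 2] with M h1 hM
    have hM0 : (0 : ℝ) < M := by exact_mod_cast (by omega : 0 < M)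
    obtain ⟨h2, h3⟩ := al_kqH (show 0 < M by omega)
    refine ⟨h1.1, h1.2, le_rfl, h2, h3, ?_, ?_, fun _ => rfl⟩
    · show rb M M ≤ 1 / 2
      rw [rb, if_pos rfl]
      exact (br_lt (by omega)).le
    · show 1 / 2 - 2 / M ≤ rb M M
      rw [rb, if_pos rfl, br]
      have : 1 / (2 * (M : ℝ)) ≤ 2 / M := by
        rw [div_le_div_iff₀ (by positivity) hM0]
        nlinarith
      linarith
  · have h14 := hK.z3 i i.2
    have h12 := hK.z2 i
    have hz0 : 0 < K.z1 i := by linarith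
    filter_upwards [ev_kz hz0 h12 h0, eventually_ge_atTop 2] with M h1 hM
    obtain ⟨h2, h3⟩ := al_kz0H (show 0 < M by omega) h12
    obtain ⟨h4, h5⟩ := al_kz1H hM hz0
    have h6 := kz1_ltH (show 0 < M by omega) h12
    have h7 : rb M (kz1 M (K.z1 i)) = al M (kz1 M (K.z1 i)) := by
      rw [rb, if_neg h6.ne]
    refine ⟨h1.1, h1.2, h6.le, h2, h3, ?_, ?_, fun h => ?_⟩
    · show rb M (kz1 M (K.z1 i)) ≤ K.z1 i
      rw [h7]
      exact h5
    · show K.z1 i - 2 / M ≤ rb M (kz1 M (K.z1 i))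
      rw [h7]
      exact h4
    · exact absurd h h6.ne

/-- The base radius. -/
structure BsR (C : Ch m) (K : Cn m) (ρ : ℝ) : Prop where
  pos : 0 < ρ
  v1 : ∀ v : C.Vn, ρ ≤ (K.oc v).im / 2
  v2 : ∀ v : C.Vn, ρ ≤ K.x1 v - |(K.oc v).re|
  e1 : ∀ e : C.Ix, ρ ≤ 2 * Real.pi * dx C K e
  e2 : ∀ e : C.Ix, 2 * ρ ≤ tx C K e - lx0 C K e
  e3 : ∀ e : C.Ix, 2 * ρ ≤ lx1 C K e - tx C K e

theorem bsR (hK : Cn.OK C K) : ∃ ρ : ℝ, BsR C K ρ := by
  obtain ⟨a1, p1, h1⟩ := fin_pos (fun v : C.Vn => (K.oc v).im / 2) fun v => by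
    have := hK.v0 v v.2
    show 0 < (K.oc v).im / 2
    linarith
  obtain ⟨a2, p2, h2⟩ := fin_pos (fun v : C.Vn => K.x1 v - |(K.oc v).re|) fun v => by
    have := hK.v1 v v.2
    show 0 < K.x1 v - |(K.oc v).re|
    linarith
  obtain ⟨a3, p3, h3⟩ := fin_pos (fun e : C.Ix => 2 * Real.pi * dx C K e) fun e => by
    have := (lx_lt hK e).2.2.2.1
    show 0 < 2 * Real.pi * dx C K e
    positivity
  obtain ⟨a4, p4, h4⟩ := fin_pos (fun e : C.Ix => (tx C K e - lx0 C K e) / 2) fun e => by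
    have := (lx_lt hK e).1
    show 0 < (tx C K e - lx0 C K e) / 2
    linarith
  obtain ⟨a5, p5, h5⟩ := fin_pos (fun e : C.Ix => (lx1 C K e - tx C K e) / 2) fun e => by
    have := (lx_lt hK e).2.1
    show 0 < (lx1 C K e - tx C K e) / 2
    linarith
  refine ⟨min a1 (min a2 (min a3 (min a4 a5))), lt_min p1 (lt_min p2 (lt_min p3 (lt_min p4 p5))), ?_, ?_, ?_, ?_, ?_⟩
  · exact fun v => (min_le_left _ _).trans (h1 v)
  · exact fun v => ((min_le_right _ _).trans (min_le_left _ _)).trans (h2 v)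
  · exact fun e => (((min_le_right _ _).trans (min_le_right _ _)).trans (min_le_left _ _)).trans (h3 e)
  · intro e
    have h := ((((min_le_right a1 _).trans (min_le_right a2 _)).trans (min_le_right a3 _)).trans (min_le_left a4 a5)).trans (h4 e)
    linarith
  · intro e
    have h := ((((min_le_right a1 _).trans (min_le_right a2 _)).trans (min_le_right a3 _)).trans (min_le_right a4 a5)).trans (h5 e)
    linarith

theorem two_div_ev {ε : ℝ} (hε : 0 < ε) : ∀ᶠ M : ℕ in atTop, 2 / (M : ℝ) ≤ ε :=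
  (tendsto_const_div_atTop_nhds_zero_nat (2 : ℝ)).eventually (eventually_le_nhds hε)

/-- The point of the contour next to a limit contour. -/
theorem near_pts {h0 : ℕ} {ρ ε : ℝ} (hρ : BsR C K ρ) {M : ℕ} (hM0 : 0 < M) (hε0 : 0 ≤ ε) (hε : 2 / (M : ℝ) ≤ ε) (hερ : 2 / (M : ℝ) ≤ ρ)
    {e : C.Ix} (he : IxE C K h0 M e) {z : ℂ} {w : ℝ}
    (h : PtU M (ix0 C K M e) (ix1 C K M e) (dx C K e) (hx C K e) (tx C K e) 0 z w) :
    ∃ z', LimR (lx0 C K e) (lx1 C K e) (dx C K e) (hx C K e) z' w ∧ ‖z - z'‖ ≤ ε ∧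
      (z' = z ∨ ρ ≤ ‖z - ((tx C K e : ℂ) + (hx C K e : ℂ) * I)‖) := by
  have h01 : al M (ix0 C K M e) ≤ rb M (ix1 C K M e) := al_le_rb he.k0 he.k1
  have h1 := PtU_near h hε0 he.l0 (he.l0'.trans (by linarith)) he.l1
    (by linarith [he.l1']) he.top hM0 h01
  rcases h1 with h1 | ⟨⟨z', h1, h2⟩, h3⟩
  · exact ⟨z, h1, by simpa using hε0, Or.inl rfl⟩
  · refine ⟨z', h1, h2, Or.inr ?_⟩
    refine le_trans ?_ (Complex.abs_re_le_norm _)
    have e1 : (z - ((tx C K e : ℂ) + (hx C K e : ℂ) * I)).re = z.re - tx C K e := by simp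
    rw [e1]
    have e2 := hρ.e2 e
    have e3 := hρ.e3 e
    rcases h3 with h3 | h3
    · rw [h3]
      refine le_trans ?_ (neg_le_abs _)
      linarith [he.l0']
    · rw [h3]
      refine le_trans ?_ (le_abs_self _)
      linarith [he.l1']

theorem far_pts (hK : Cn.OK C K) {h0 : ℕ} {ρ r : ℝ} (hρ : BsR C K ρ) {M : ℕ} (hερ : 2 / (M : ℝ) ≤ ρ) (hr : r ≤ ρ)
    {e : C.Ix} (he : IxE C K h0 M e) {r' : ℝ} (hr' : r ≤ r') {z : ℂ} {w : ℝ}
    (h : PtU M (ix0 C K M e) (ix1 C K M e) (dx C K e) (hx C K e) (tx C K e) r' z w) :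
    r ≤ ‖z - ((tx C K e : ℂ) + (hx C K e : ℂ) * I)‖ ∨ r ≤ |w| := by
  have e1 := hρ.e1 e
  have e2 := hρ.e2 e
  have e3 := hρ.e3 e
  have h5 := (lx_lt hK e).2.2.2.2
  exact PtU_far h hr' (by linarith [he.l0']) (by linarith [he.l1']) (hr.trans e1) (by linarith [hρ.pos])

/-- The point of a contour `tab` next to a limit contour. -/
theorem near_tab (hK : Cn.OK C K) {ρ ε : ℝ} (hρ : BsR C K ρ) (hε : 0 < ε) (hερ : ε ≤ ρ) (v : C.Vn) (x : ℝ) :
    ∃ v', LimV (K.oc v).im (K.x1 v) v' ∧ ‖tab (K.oc v).im (K.x1 v) ε x - v'‖ ≤ ε ∧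
      (v' = tab (K.oc v).im (K.x1 v) ε x ∨ ρ ≤ ‖tab (K.oc v).im (K.x1 v) ε x - K.oc v‖) := by
  have h0 := hK.v0 v v.2
  have h1 := hρ.v1 v
  have h2 := tab_near hε (show ε < (K.oc v).im by linarith) (hK.x0 v v.2) (hK.x1 v v.2) x
  rcases h2 with h2 | ⟨v', h2, h3, h4⟩
  · exact ⟨_, h2, by simpa using hε.le, Or.inl rfl⟩
  · refine ⟨v', h2, h4, Or.inr ?_⟩
    have h5 : ‖v' - K.oc v‖ ≥ (K.oc v).im := by
      refine le_trans ?_ (Complex.abs_im_le_norm _)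
      rw [sub_im, h3, zero_sub, abs_neg]
      exact le_abs_self _
    have h6 := norm_sub_le_norm_sub_add_norm_sub v' (tab (K.oc v).im (K.x1 v) ε x) (K.oc v)
    have h7 := norm_sub_rev v' (tab (K.oc v).im (K.x1 v) ε x)
    linarith

/-- Admissible configurations of the pattern of the large indices. -/
theorem adm_zero {o : Fin (m + 1) → ℂ} {y : Fin m → ℂ} {wo : Fin (m + 1) → ℝ} {wy : Fin m → ℝ}
    (hy : ∀ j, LimY (-(1 / 4)) K.d (K.yc j).im (y j) (wy j))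
    (hc : ∀ i, C.ty i = Ty.cl → wo i = 0)
    (hz : ∀ i, C.ty i = Ty.zn → LimR (-K.z1 i) (K.z1 i) (K.dz i) (K.oc i).im (o i) (wo i))
    (hv : ∀ i, C.ty i = Ty.vn → wo i = 0 ∧ LimV (K.oc i).im (K.x1 i) (o i)) :
    AdmC C K Pat.zero o y wo wy := by
  have hT : ∀ i, ¬ Tch (Pat.zero : Pat m).S i := by
    rintro i ⟨j, hj, -⟩
    simp [Pat.zero] at hj
  have hH : ∀ i, (Pat.zero : Pat m).H i = 0 := fun i => rfl
  have n1 : ∀ i, (Pat.zero : Pat m).H i ≠ 1 := by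
    intro i
    rw [hH]
    decide
  have n2 : ∀ i, (Pat.zero : Pat m).H i ≠ -1 := by
    intro i
    rw [hH]
    decide
  refine ⟨?_, ?_, ?_, ?_, ?_, ?_, ?_, ?_, ?_, ?_⟩
  · intro j hj
    simp [Pat.zero] at hj
  · rintro j ⟨-, i, -, -, h | h | h⟩
    · exact absurd h (hT i)
    · exact absurd h.1 (n1 i)
    · exact absurd h.1 (n2 i)
  · exact fun j _ _ => hy j
  · exact fun i hi => ⟨hc i hi, fun h => absurd h (hT i)⟩
  · exact fun i _ h => absurd h (hT i)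
  · exact fun i hi _ _ => hz i hi
  · exact fun i _ _ h => absurd h (n1 i)
  · exact fun i _ _ h => absurd h (n2 i)
  · exact fun i _ h => absurd h (hT i)
  · exact fun i hi _ => hv i hi

/-- The weights of the own variables. -/
noncomputable def wow (C : Ch m) (w : C.Ix → ℝ) (i : Fin (m + 1)) : ℝ :=
  if h : C.ty i = Ty.zn then w (Sum.inr ⟨i, h⟩) else 0

theorem sum_wow (w : C.Ix → ℝ) : ∑ i, wow C w i + ∑ j, w (Sum.inl j) = ∑ e, w e := by
  rw [Fintype.sum_sum_type, add_comm]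
  congr 1
  rw [← Fintype.sum_subtype_add_sum_subtype (fun i => C.ty i = Ty.zn)]
  have h1 : ∑ i : {i : Fin (m + 1) // ¬ C.ty i = Ty.zn}, wow C w i = 0 :=
    Finset.sum_eq_zero fun i _ => by rw [wow, dif_neg i.2]
  rw [h1, add_zero]
  refine Finset.sum_congr rfl fun i _ => ?_
  rw [wow, dif_pos i.2]

/-- The admissible configuration of points on the limit contours. -/
theorem adm_ow {v : C.Vn → ℂ} {z : C.Ix → ℂ} {w : C.Ix → ℝ}
    (hv : ∀ i : C.Vn, LimV (K.oc i).im (K.x1 i) (v i))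
    (hz : ∀ e, LimR (lx0 C K e) (lx1 C K e) (dx C K e) (hx C K e) (z e) (w e)) :
    AdmC C K Pat.zero (C.ow v z) (fun j => z (Sum.inl j)) (wow C w) (fun j => w (Sum.inl j)) := by
  refine adm_zero (fun j => hz (Sum.inl j)) ?_ ?_ ?_
  · intro i hi
    rw [wow, dif_neg (by rw [hi]; simp)]
  · intro i hi
    have h1 := hz (Sum.inr ⟨i, hi⟩)
    rw [wow, dif_pos hi, Ch.ow, dif_neg (by rw [hi]; simp), dif_pos hi]
    exact h1
  · intro i hi
    refine ⟨by rw [wow, dif_neg (by rw [hi]; simp)], ?_⟩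
    rw [Ch.ow, dif_pos hi]
    exact hv ⟨i, hi⟩

theorem ow_dist {v v' : C.Vn → ℂ} {z z' : C.Ix → ℂ} {ε : ℝ} (hε : 0 ≤ ε) (h1 : ∀ i, ‖v i - v' i‖ ≤ ε)
    (h2 : ∀ e, ‖z e - z' e‖ ≤ ε) (i : Fin (m + 1)) : ‖C.ow v z i - C.ow v' z' i‖ ≤ ε := by
  unfold Ch.ow
  split_ifs
  · exact h1 _
  · exact h2 _
  · simpa using hε

theorem tx_hx (j : Fin m) : ((tx C K (Sum.inl j) : ℂ) + (hx C K (Sum.inl j) : ℂ) * I) = K.yc j :=
  Complex.re_add_im _

theorem tx_hx' (i : C.Zn) : ((tx C K (Sum.inr i) : ℂ) + (hx C K (Sum.inr i) : ℂ) * I) = K.oc i :=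
  Complex.re_add_im _

/-- Points away from the critical point. -/
theorem far_ow {v : C.Vn → ℂ} {z : C.Ix → ℂ} {w : C.Ix → ℝ} {r : ℝ}
    (h : (∃ e, r ≤ ‖z e - ((tx C K e : ℂ) + (hx C K e : ℂ) * I)‖ ∨ r ≤ |w e|) ∨ ∃ i, r ≤ ‖v i - K.oc i‖) :
    (∃ j, r ≤ ‖z (Sum.inl j) - K.yc j‖ ∨ r ≤ |w (Sum.inl j)|) ∨
      ∃ i, C.ty i ≠ Ty.cl ∧ (r ≤ ‖C.ow v z i - K.oc i‖ ∨ r ≤ |wow C w i|) := by
  rcases h with ⟨e, h⟩ | ⟨i, h⟩
  · rcases e with j | i
    · rw [tx_hx] at h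
      exact Or.inl ⟨j, h⟩
    · rw [tx_hx'] at h
      refine Or.inr ⟨i, by rw [i.2]; simp, ?_⟩
      rw [wow, dif_pos i.2, Ch.ow, dif_neg (by rw [i.2]; simp), dif_pos i.2]
      exact h
  · refine Or.inr ⟨i, by rw [i.2]; simp, Or.inl ?_⟩
    rw [Ch.ow, dif_pos i.2]
    exact h

/-- **The growth rate on the contours.** -/
theorem Inq.G_bd (hI : Inq C K e0) (hK : Cn.OK C K) (h0 : ℕ) : ∃ ε1 : ℝ, 0 < ε1 ∧
    (∀ v : C.Vn, ε1 < (K.oc v).im) ∧ ∀ ε : ℝ, 0 < ε → ε ≤ ε1 →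
    (∀ᶠ M : ℕ in atTop, ∀ (x : C.Vn → ℝ) (z : C.Ix → ℂ) (w : C.Ix → ℝ),
      (∀ e, PtU M (ix0 C K M e) (ix1 C K M e) (dx C K e) (hx C K e) (tx C K e) 0 (z e) (w e)) →
      C.G (C.ow (fun v => tab (K.oc v).im (K.x1 v) ε (x v)) z) (fun j => z (Sum.inl j)) ≤
        e0 + ∑ e, w e) ∧
    ∀ r : ℝ, 0 < r → ∃ δ : ℝ, 0 < δ ∧ ∀ᶠ M : ℕ in atTop, ∀ (x : C.Vn → ℝ) (z : C.Ix → ℂ) (w : C.Ix → ℝ),
      (∀ e, PtU M (ix0 C K M e) (ix1 C K M e) (dx C K e) (hx C K e) (tx C K e) 0 (z e) (w e)) →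
      ((∃ v : C.Vn, r ≤ |x v - (K.oc v).re|) ∨
        ∃ e, PtU M (ix0 C K M e) (ix1 C K M e) (dx C K e) (hx C K e) (tx C K e) r (z e) (w e)) →
      C.G (C.ow (fun v => tab (K.oc v).im (K.x1 v) ε (x v)) z) (fun j => z (Sum.inl j)) ≤
        e0 - δ + ∑ e, w e := by
  obtain ⟨ρ, hρ⟩ := bsR hK
  obtain ⟨ε0, hε0, δ0, hδ0, hU⟩ := hI.highU hK ρ hρ.pos
  refine ⟨min ρ ε0, lt_min hρ.pos hε0, fun v => ?_, fun ε hε hε1 => ?_⟩
  · have h1 := hρ.v1 v
    have h2 := hK.v0 v v.2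
    have h3 := min_le_left ρ ε0
    linarith
  have hερ : ε ≤ ρ := hε1.trans (min_le_left _ _)
  have hεε : ε ≤ ε0 := hε1.trans (min_le_right _ _)
  constructor
  · filter_upwards [two_div_ev hε, two_div_ev hρ.pos, ix_ev hK h0, eventually_gt_atTop 0] with
      M hM1 hM2 hM3 hM0 x z w hz
    choose z' hz1 hz2 hz3 using fun e => near_pts hρ hM0 hε.le hM1 hM2 (hM3 e) (hz e)
    choose v' hv1 hv2 hv3 using fun v : C.Vn => near_tab hK hρ hε hερ v (x v)
    have hA := adm_ow hv1 hz1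
    by_cases hex : (∀ e, z' e = z e) ∧ ∀ v : C.Vn, v' v = tab (K.oc v).im (K.x1 v) ε (x v)
    · have e1 : z' = z := funext hex.1
      have e2 : v' = fun v : C.Vn => tab (K.oc v).im (K.x1 v) ε (x v) := funext hex.2
      rw [e1, e2] at hA
      have h1 := hI.high0 hA
      rwa [add_assoc, sum_wow] at h1
    · have h1 := hU (C.ow (fun v => tab (K.oc v).im (K.x1 v) ε (x v)) z) (C.ow v' z')
        (fun j => z (Sum.inl j)) (fun j => z' (Sum.inl j)) (wow C w) (fun j => w (Sum.inl j)) hA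
        (ow_dist hε0.le (fun i => (hv2 i).trans hεε) (fun e => (hz2 e).trans hεε))
        (fun j => (hz2 _).trans hεε) (far_ow ?_)
      · rw [add_assoc, sum_wow] at h1
        linarith
      · by_contra hc
        push Not at hc
        refine hex ⟨fun e => ?_, fun v => ?_⟩
        · rcases hz3 e with h | h
          · exact h
          · exact absurd h (not_le.2 (hc.1 e).1)
        · rcases hv3 v with h | h
          · exact h
          · exact absurd h (not_le.2 (hc.2 v))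
  · intro r hr
    obtain ⟨r', hr'⟩ : ∃ r' : ℝ, r' = min r ρ := ⟨_, rfl⟩
    have hr0 : 0 < r' := by rw [hr']; exact lt_min hr hρ.pos
    have hrr : r' ≤ r := by rw [hr']; exact min_le_left _ _
    have hrρ : r' ≤ ρ := by rw [hr']; exact min_le_right _ _
    obtain ⟨ε2, hε2, δ2, hδ2, hU2⟩ := hI.highU hK r' hr0
    refine ⟨min δ0 δ2, lt_min hδ0 hδ2, ?_⟩
    filter_upwards [two_div_ev (lt_min hε hε2), two_div_ev hρ.pos, ix_ev hK h0, eventually_gt_atTop 0] with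
      M hM1 hM2 hM3 hM0 x z w hz hfar
    choose z' hz1 hz2 hz3 using fun e => near_pts hρ hM0 (lt_min hε hε2).le hM1 hM2 (hM3 e) (hz e)
    choose v' hv1 hv2 hv3 using fun v : C.Vn => near_tab hK hρ hε hερ v (x v)
    have hA := adm_ow hv1 hz1
    by_cases hex : ∀ v : C.Vn, v' v = tab (K.oc v).im (K.x1 v) ε (x v)
    · have h1 := hU2 (C.ow (fun v => tab (K.oc v).im (K.x1 v) ε (x v)) z) (C.ow v' z')
        (fun j => z (Sum.inl j)) (fun j => z' (Sum.inl j)) (wow C w) (fun j => w (Sum.inl j)) hA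
        (ow_dist hε2.le (fun i => by rw [hex i, sub_self, norm_zero]; exact hε2.le)
          (fun e => (hz2 e).trans (min_le_right _ _)))
        (fun j => (hz2 _).trans (min_le_right _ _)) (far_ow ?_)
      · rw [add_assoc, sum_wow] at h1
        have h3 := min_le_right δ0 δ2
        linarith
      · rcases hfar with ⟨v, hv⟩ | ⟨e, he⟩
        · right
          refine ⟨v, ?_⟩
          have h2 := tab_dist hε (show ε < (K.oc v).im by linarith [hρ.v1 v, hK.v0 v v.2]) (hK.x0 v v.2)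
            (hK.x1 v v.2) (hK.v1 v v.2) hv
          rw [Complex.re_add_im] at h2
          refine le_trans (le_min hrr (hrρ.trans (hρ.v2 v))) h2
        · left
          exact ⟨e, far_pts hK hρ hM2 hrρ (hM3 e) hrr he⟩
    · have h1 := hU (C.ow (fun v => tab (K.oc v).im (K.x1 v) ε (x v)) z) (C.ow v' z')
        (fun j => z (Sum.inl j)) (fun j => z' (Sum.inl j)) (wow C w) (fun j => w (Sum.inl j)) hA
        (ow_dist hε0.le (fun i => (hv2 i).trans hεε)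
          (fun e => ((hz2 e).trans (min_le_left _ _)).trans hεε))
        (fun j => ((hz2 _).trans (min_le_left _ _)).trans hεε) (far_ow ?_)
      · rw [add_assoc, sum_wow] at h1
        have h3 := min_le_left δ0 δ2
        linarith
      · right
        push Not at hex
        obtain ⟨v, hv⟩ := hex
        rcases hv3 v with h | h
        · exact absurd h hv
        · exact ⟨v, h⟩

end Pool.Agent.S5
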