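import Pool.Agent.S5.S.HighA
import Pool.Agent.S5.S.RectB

/-!
# Large indices: the points of the contours and their limits
-/

set_option autoImplicit false

namespace Pool.Agent.S5

open Complex Filter Topology MeasureTheory

/-! ### The ends of the rectangles -/

theorem al_kqH {M : ℕ} (hM : 0 < M) : -(1 / 4) ≤ al M (kq M) ∧ al M (kq M) ≤ -(1 / 4) + 2 / M := by
  have hM0 : (0 : ℝ) < M := by exact_mod_cast hM
  have h1 : ((M / 4 : ℕ) : ℝ) * 4 ≤ M := by exact_mod_cast Nat.div_mul_le_self M 4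
  have h2 : (M : ℝ) < ((M / 4 : ℕ) : ℝ) * 4 + 4 := by
    have : M < (M / 4) * 4 + 4 := by omega
    exact_mod_cast this
  rw [al_eq, kq]
  push_cast
  constructor
  · rw [neg_le_iff_add_nonneg]
    have e : ((M / 4 : ℕ) : ℝ) + 1 + 1 / 2 ≥ M / 4 := by linarith
    have : 1 / 4 ≤ (((M / 4 : ℕ) : ℝ) + 1 + 1 / 2) / M := by
      rw [le_div_iff₀ hM0]
      linarith
    linarith
  · have : (((M / 4 : ℕ) : ℝ) + 1 + 1 / 2) / M ≤ 1 / 4 + 2 / M := by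
      rw [div_le_iff₀ hM0, add_mul, div_mul_cancel₀ _ hM0.ne']
      linarith
    linarith

theorem al_kz0H {M : ℕ} (hM : 0 < M) {z1 : ℝ} (hz : z1 < 1 / 2) :
    -z1 ≤ al M (kz0 M z1) ∧ al M (kz0 M z1) ≤ -z1 + 2 / M := by
  have hM0 : (0 : ℝ) < M := by exact_mod_cast hM
  have h0 : 0 ≤ (M : ℝ) * (1 / 2 - z1) := by
    have : 0 < 1 / 2 - z1 := by linarith
    positivity
  have h1 := Nat.floor_le h0
  have h2 := Nat.lt_floor_add_one ((M : ℝ) * (1 / 2 - z1))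
  rw [al_eq, kz0]
  push_cast
  constructor
  · have : 1 / 2 - z1 ≤ ((⌊(M : ℝ) * (1 / 2 - z1)⌋₊ : ℝ) + 1 + 1 / 2) / M := by
      rw [le_div_iff₀ hM0]
      linarith
    linarith
  · have : ((⌊(M : ℝ) * (1 / 2 - z1)⌋₊ : ℝ) + 1 + 1 / 2) / M ≤ 1 / 2 - z1 + 2 / M := by
      rw [div_le_iff₀ hM0, add_mul, div_mul_cancel₀ _ hM0.ne']
      linarith
    linarith

theorem al_kz1H {M : ℕ} (hM : 2 ≤ M) {z1 : ℝ} (hz0 : 0 < z1) :
    z1 - 2 / M ≤ al M (kz1 M z1) ∧ al M (kz1 M z1) ≤ z1 := by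
  have hM2 : (2 : ℝ) ≤ M := by exact_mod_cast hM
  have hM0 : (0 : ℝ) < M := by linarith
  have h0 : 1 ≤ (M : ℝ) * (1 / 2 + z1) := by nlinarith
  have h1 := Nat.floor_le (show 0 ≤ (M : ℝ) * (1 / 2 + z1) by linarith)
  have h2 := Nat.lt_floor_add_one ((M : ℝ) * (1 / 2 + z1))
  have h3 : 1 ≤ ⌊(M : ℝ) * (1 / 2 + z1)⌋₊ := Nat.le_floor (by simpa using h0)
  rw [al_eq, kz1, Nat.cast_sub h3]
  push_cast
  constructor
  · have : 1 / 2 + z1 - 2 / M ≤ ((⌊(M : ℝ) * (1 / 2 + z1)⌋₊ : ℝ) - 1 + 1 / 2) / M := by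
      rw [le_div_iff₀ hM0, sub_mul, div_mul_cancel₀ _ hM0.ne']
      linarith
    linarith
  · have : ((⌊(M : ℝ) * (1 / 2 + z1)⌋₊ : ℝ) - 1 + 1 / 2) / M ≤ 1 / 2 + z1 := by
      rw [div_le_iff₀ hM0]
      linarith
    linarith

theorem kz1_ltH {M : ℕ} (hM : 0 < M) {z1 : ℝ} (hz : z1 < 1 / 2) : kz1 M z1 < M := by
  have hM0 : (0 : ℝ) < M := by exact_mod_cast hM
  have h1 : ⌊(M : ℝ) * (1 / 2 + z1)⌋₊ ≤ M := by
    have h2 : (M : ℝ) * (1 / 2 + z1) ≤ (M : ℕ) := by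
      have : 1 / 2 + z1 ≤ 1 := by linarith
      nlinarith
    calc ⌊(M : ℝ) * (1 / 2 + z1)⌋₊ ≤ ⌊((M : ℕ) : ℝ)⌋₊ := Nat.floor_le_floor h2
      _ = M := Nat.floor_natCast M
  unfold kz1
  omega

/-- The indices are separated for large `M`. -/
theorem ev_kz {z1 : ℝ} (hz0 : 0 < z1) (hz : z1 < 1 / 2) (h0 : ℕ) :
    ∀ᶠ M : ℕ in atTop, h0 ≤ kz0 M z1 ∧ kz0 M z1 + 2 ≤ kz1 M z1 := by
  have t1 : Tendsto (fun M : ℕ => (M : ℝ) * (1 / 2 - z1)) atTop atTop :=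
    tendsto_natCast_atTop_atTop.atTop_mul_const (by linarith)
  have t2 : Tendsto (fun M : ℕ => (M : ℝ) * (2 * z1)) atTop atTop :=
    tendsto_natCast_atTop_atTop.atTop_mul_const (by linarith)
  filter_upwards [t1.eventually_ge_atTop (h0 : ℝ), t2.eventually_ge_atTop 8, eventually_ge_atTop 2] with M h1 h2 hM
  have hM0 : (0 : ℝ) < M := by
    have : (2 : ℝ) ≤ M := by exact_mod_cast hM
    linarith
  constructor
  · unfold kz0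
    have := Nat.le_floor h1
    omega
  · have e1 := Nat.floor_le (show 0 ≤ (M : ℝ) * (1 / 2 - z1) from mul_nonneg hM0.le (by linarith))
    have e2 := Nat.lt_floor_add_one ((M : ℝ) * (1 / 2 + z1))
    have e3 : ((⌊(M : ℝ) * (1 / 2 - z1)⌋₊ : ℝ)) + 4 < ⌊(M : ℝ) * (1 / 2 + z1)⌋₊ := by nlinarith
    have e4 : ⌊(M : ℝ) * (1 / 2 - z1)⌋₊ + 4 < ⌊(M : ℝ) * (1 / 2 + z1)⌋₊ := by exact_mod_cast e3
    unfold kz0 kz1
    omega

theorem ev_kq (h0 : ℕ) : ∀ᶠ M : ℕ in atTop, h0 ≤ kq M ∧ kq M + 2 ≤ M := by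
  filter_upwards [eventually_ge_atTop (4 * h0 + 8)] with M hM
  unfold kq
  constructor <;> omega

/-! ### Points of the contours -/

variable {M k0 k1 : ℕ} {d η t0 r : ℝ}

/-- The points of the contours are next to the limit contours. -/
theorem PtU_near {x0 x1 ε : ℝ} {z : ℂ} {w : ℝ} (h : PtU M k0 k1 d η t0 r z w) (hε : 0 ≤ ε) (hx0 : x0 ≤ al M k0)
    (hx0' : al M k0 ≤ x0 + ε) (hx1 : rb M k1 ≤ x1) (hx1' : x1 - ε ≤ rb M k1) (hM : k1 = M → x1 = 1 / 2)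
    (hM0 : 0 < M) (h01 : al M k0 ≤ rb M k1) :
    LimR x0 x1 d η z w ∨ ((∃ z' : ℂ, LimR x0 x1 d η z' w ∧ ‖z - z'‖ ≤ ε) ∧
      (z.re = al M k0 ∨ z.re = rb M k1)) := by
  have hleg : ∀ c c' : ℝ, (c' = x0 ∨ c' = x1) → |c - c'| ≤ ε → z.re = c →
      (w = 0 ∧ z.im ∈ Set.uIcc 0 η ∨ w = 2 * Real.pi * |z.im| ∧ |z.im| ≤ d) →
      ∃ z' : ℂ, LimR x0 x1 d η z' w ∧ ‖z - z'‖ ≤ ε := by
    intro c c' hc' hcc hz hw
    refine ⟨⟨c', z.im⟩, ?_, ?_⟩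
    · rcases hw with hw | hw
      · exact Or.inr (Or.inl ⟨hw.1, hc', hw.2⟩)
      · exact Or.inr (Or.inr (Or.inl ⟨hw.1, hc', hw.2⟩))
    · have e : z - ⟨c', z.im⟩ = ((c - c' : ℝ) : ℂ) := by
        apply Complex.ext
        · simp [hz]
        · simp
      rw [e, norm_real]
      exact hcc
  have key : ((w = 0 ∧ z.im = η ∧ z.re ∈ Set.Icc (al M k0) (rb M k1)) ∨
      ((z.re = al M k0 ∨ z.re = rb M k1) ∧ (w = 0 ∧ z.im ∈ Set.uIcc 0 η ∨ w = 2 * Real.pi * |z.im| ∧ |z.im| ≤ d)) ∨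
      (w = 2 * Real.pi * d ∧ |z.im| = d ∧ z.re ∈ Set.Icc (al M k0) (rb M k1)) ∨
      (w = 0 ∧ z = 1 / 2 ∧ x1 = 1 / 2)) := by
    unfold PtU at h
    unfold rb
    split_ifs at h ⊢ with hk
    · rcases h with ⟨h1, h2, h3, h4⟩ | ⟨h1, h2, h3⟩ | ⟨h1, h2, h3⟩ | ⟨h1, h2, h3⟩ | ⟨h1, h2⟩
      · exact Or.inl ⟨h1, h2, h3⟩
      · exact Or.inr (Or.inl ⟨h2, Or.inl ⟨h1, h3⟩⟩)
      · exact Or.inr (Or.inl ⟨h2, Or.inr ⟨h1, h3⟩⟩)
      · exact Or.inr (Or.inr (Or.inl ⟨h1, h2, h3⟩))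
      · exact Or.inr (Or.inr (Or.inr ⟨h1, h2, hM hk⟩))
    · rcases h with ⟨h1, h2, h3, h4⟩ | ⟨h1, h2, h3⟩ | ⟨h1, h2, h3⟩ | ⟨h1, h2, h3⟩
      · exact Or.inl ⟨h1, h2, h3⟩
      · exact Or.inr (Or.inl ⟨h2, Or.inl ⟨h1, h3⟩⟩)
      · exact Or.inr (Or.inl ⟨h2, Or.inr ⟨h1, h3⟩⟩)
      · exact Or.inr (Or.inr (Or.inl ⟨h1, h2, h3⟩))
  rcases key with ⟨h1, h2, h3⟩ | ⟨h2, h3⟩ | ⟨h1, h2, h3⟩ | ⟨h1, h2, h3⟩
  · exact Or.inl (Or.inl ⟨h1, h2, hx0.trans h3.1, h3.2.trans hx1⟩)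
  · refine Or.inr ⟨?_, h2⟩
    rcases h2 with h2 | h2
    · exact hleg (al M k0) x0 (Or.inl rfl) (by rw [abs_of_nonneg (by linarith)]; linarith) h2 h3
    · exact hleg (rb M k1) x1 (Or.inr rfl) (by rw [abs_of_nonpos (by linarith)]; linarith) h2 h3
  · exact Or.inl (Or.inr (Or.inr (Or.inr ⟨h1, h2, hx0.trans h3.1, h3.2.trans hx1⟩)))
  · refine Or.inl (Or.inr (Or.inl ⟨h1, Or.inr ?_, ?_⟩))
    · rw [h2, h3]
      norm_num
    · rw [h2]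
      have : ((1 : ℂ) / 2).im = 0 := by norm_num
      rw [this]
      exact Set.left_mem_uIcc

/-- Points of the contours away from the critical point. -/
theorem PtU_far {ρ : ℝ} {z : ℂ} {w : ℝ} (h : PtU M k0 k1 d η t0 r z w) (hρ : ρ ≤ r)
    (h1 : ρ ≤ t0 - al M k0) (h2 : ρ ≤ rb M k1 - t0) (h3 : ρ ≤ 2 * Real.pi * d) (h4 : ρ ≤ 1 / 2 - t0) :
    ρ ≤ ‖z - (t0 + η * I)‖ ∨ ρ ≤ |w| := by
  have hre : ∀ c : ℝ, z.re = c → ρ ≤ |c - t0| → ρ ≤ ‖z - (t0 + η * I)‖ := by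
    intro c hc h5
    refine h5.trans ?_
    have e : (z - (t0 + η * I)).re = c - t0 := by simp [hc]
    rw [← e]
    exact Complex.abs_re_le_norm _
  have hl : ∀ c : ℝ, (c = al M k0 ∨ c = rb M k1) → ρ ≤ |c - t0| := by
    intro c hc
    rcases hc with hc | hc
    · rw [hc]
      refine le_trans ?_ (neg_le_abs _)
      linarith
    · rw [hc]
      refine le_trans ?_ (le_abs_self _)
      linarith
  have hd : ρ ≤ |2 * Real.pi * d| := h3.trans (le_abs_self _)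
  unfold PtU at h
  unfold rb at hl
  split_ifs at h hl with hk
  · rcases h with ⟨e1, e2, e3, e4⟩ | ⟨e1, e2, e3⟩ | ⟨e1, e2, e3⟩ | ⟨e1, e2, e3⟩ | ⟨e1, e2⟩
    · exact Or.inl (hre _ rfl (hρ.trans e4))
    · exact Or.inl (hre _ rfl (hl _ e2))
    · exact Or.inl (hre _ rfl (hl _ e2))
    · exact Or.inr (by rw [e1]; exact hd)
    · refine Or.inl (hre (1 / 2) (by rw [e2]; norm_num) ?_)
      exact le_trans (by linarith) (le_abs_self _)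
  · rcases h with ⟨e1, e2, e3, e4⟩ | ⟨e1, e2, e3⟩ | ⟨e1, e2, e3⟩ | ⟨e1, e2, e3⟩
    · exact Or.inl (hre _ rfl (hρ.trans e4))
    · exact Or.inl (hre _ rfl (hl _ e2))
    · exact Or.inl (hre _ rfl (hl _ e2))
    · exact Or.inr (by rw [e1]; exact hd)

end Pool.Agent.S5
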