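import Pool.Agent.S5.S.Krn
import Pool.Agent.S5.S.BdA
import Pool.Agent.S5.S.BdV
import Pool.Agent.S5.S.Df
import Pool.Agent.S5.S.LmA
import Pool.Agent.S5.S.ExV

/-!
# The kernels for `n = 2`
-/

set_option autoImplicit false

namespace Pool.Agent.S5

open Complex Filter Topology MeasureTheory
open Pool.Agent.S3 (Rf fe rS qS wr fdom gl ql Ctr)
open Pool.Agent.H63.VC3 (LL ff Cc om yk vl)

variable {m : ℕ}

/-- The kernels for `n = 2`. -/
noncomputable def kr2 (C : Ch m) : Krn C where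
  h0 := 0
  sh := 0
  w := fun _ M y => Cc 2 1 M y
  k := fun i M z a b => kN (C.c i) (C.ty i) (C.fl i) M z a b
  lat := fun i _ M κ X b => gl ((C.c i : ℝ) / 2) M X * (ql M κ X * qS M b (vl 2 M X : ℝ))
  g := fun i M k k' => C.nG M i k k'
  sg := fun i M => if C.ty i = Ty.vn then (-1) ^ (M + 1) else 1
  cv := -(4 * Real.pi * I)
  ew := fun _ => 2
  ek := fun i => eN (C.c i) (C.ty i)

/-! ### Small facts -/

private theorem K2_kq {M k : ℕ} (hM : 4 ≤ M) (hk : k < kq M) : 2 * k + 2 ≤ M := by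
  unfold kq at hk
  omega

private theorem K2_vl (M X : ℕ) : vl 2 M X = (X + 1 / 2) / M - 1 / 2 := by
  unfold vl Pool.Agent.H63.VC3.bt
  norm_num

private theorem K2_vl_ge (M X : ℕ) : -(1 / 2) ≤ vl 2 M X := by
  rw [K2_vl]
  have : (0 : ℝ) ≤ ((X : ℝ) + 1 / 2) / M := by positivity
  linarith

private theorem K2_vl_le {M X : ℕ} (h : X < M) : vl 2 M X ≤ 1 / 2 := by
  rw [K2_vl]
  have h1 : ((X : ℝ) + 1 / 2) / M ≤ 1 := by
    rw [div_le_one (by exact_mod_cast (by omega : 0 < M))]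
    have h2 : (X : ℝ) + 1 ≤ M := by exact_mod_cast h
    linarith
  linarith

private theorem K2_mul {x y : ℂ} {M p q : ℕ} {A B f g : ℝ} (hA : 0 < A)
    (hx : ‖x‖ ≤ A * (M : ℝ) ^ p * Real.exp (M * f)) (hy : ‖y‖ ≤ B * (M : ℝ) ^ q * Real.exp (M * g)) :
    ‖x * y‖ ≤ A * B * (M : ℝ) ^ (p + q) * Real.exp (M * (f + g)) := by
  rw [norm_mul]
  refine (mul_le_mul hx hy (norm_nonneg _) (by positivity)).trans (le_of_eq ?_)
  rw [mul_add, Real.exp_add, pow_add]
  ring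

private theorem K2_cl {c : ℤ} {ty : Ty} (h : ty = Ty.cl) (fl : Bool) (M : ℕ) (z a b : ℂ) :
    kN c ty fl M z a b = kC c.sign M a b := by
  subst h
  rfl

private theorem K2_vn {c : ℤ} {ty : Ty} (h : ty = Ty.vn) (fl : Bool) (M : ℕ) (z a b : ℂ) :
    kN c ty fl M z a b = kV ((c : ℝ) / 2) M z a b := by
  subst h
  rfl

private theorem K2_zn {c : ℤ} {ty : Ty} (h : ty = Ty.zn) (fl : Bool) (M : ℕ) (z a b : ℂ) :
    kN c ty fl M z a b = if |c| = 3 then kB c.sign M (ys fl a b) z * kH c.sign M z (yt fl a b)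
      else kB c.sign M (ys fl a b) z * kC c.sign M z (yt fl a b) := by
  subst h
  unfold ys yt
  cases fl <;> rfl

private theorem K2_gcl {c : ℤ} {ty : Ty} (h : ty = Ty.cl) (fl : Bool) (z a b : ℂ) :
    gN c ty fl z a b = gC c.sign a b := by
  subst h
  rfl

private theorem K2_gvn {c : ℤ} {ty : Ty} (h : ty = Ty.vn) (fl : Bool) (z a b : ℂ) :
    gN c ty fl z a b = gV ((c : ℝ) / 2) z a b := by
  subst h
  rfl

private theorem K2_gzn {c : ℤ} {ty : Ty} (h : ty = Ty.zn) (fl : Bool) (z a b : ℂ) :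
    gN c ty fl z a b = if |c| = 3 then gB c.sign (ys fl a b) z + gH c.sign z (yt fl a b)
      else gB c.sign (ys fl a b) z + gC c.sign z (yt fl a b) := by
  subst h
  unfold ys yt
  cases fl <;> rfl

private theorem K2_pcl {c : ℤ} {ty : Ty} (h : ty = Ty.cl) (fl : Bool) (z a b : ℂ) :
    pN c ty fl z a b = pC c.sign a b := by
  subst h
  rfl

private theorem K2_pvn {c : ℤ} {ty : Ty} (h : ty = Ty.vn) (fl : Bool) (z a b : ℂ) :
    pN c ty fl z a b = pV ((c : ℝ) / 2) z a b := by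
  subst h
  rfl

private theorem K2_pzn {c : ℤ} {ty : Ty} (h : ty = Ty.zn) (fl : Bool) (z a b : ℂ) :
    pN c ty fl z a b = if |c| = 3 then pB c.sign (ys fl a b) z + pH c.sign z (yt fl a b)
      else pB c.sign (ys fl a b) z + pC c.sign z (yt fl a b) := by
  subst h
  unfold ys yt
  cases fl <;> rfl

private theorem K2_ys {S : Set ℂ} {fl : Bool} {a b : ℂ} (ha : a ∈ S) (hb : b ∈ S) :
    ys fl a b ∈ S := by
  unfold ys
  split_ifs
  · exact hb
  · exact ha

private theorem K2_yt {S : Set ℂ} {fl : Bool} {a b : ℂ} (ha : a ∈ S) (hb : b ∈ S) :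
    yt fl a b ∈ S := by
  unfold yt
  split_ifs
  · exact ha
  · exact hb

private theorem K2_ty (t : Ty) : t = Ty.cl ∨ t = Ty.zn ∨ t = Ty.vn := by
  cases t
  · exact Or.inl rfl
  · exact Or.inr (Or.inl rfl)
  · exact Or.inr (Or.inr rfl)

private theorem K2_k_bd (c : ℤ) (ty : Ty) (fl : Bool) (h : ty ≠ Ty.vn) (d : ℝ) :
    ∃ A : ℝ, 0 < A ∧ ∃ p : ℕ, ∀ᶠ M : ℕ in atTop, ∀ z a b : ℂ, (ty = Ty.zn → z ∈ Dm M 0 d) →
      a ∈ Dm M 0 d → b ∈ Dm M 0 d →
      ‖kN c ty fl M z a b‖ ≤ A * (M : ℝ) ^ p * Real.exp (M * gN c ty fl z a b) := by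
  rcases K2_ty ty with h1 | h1 | h1
  · obtain ⟨A, hA, p, hp⟩ := bd_kC c.sign d
    refine ⟨A, hA, p, (eventually_ge_atTop 1).mono fun M hM z a b _ ha hb => ?_⟩
    rw [K2_cl h1, K2_gcl h1]
    exact hp M hM a ha b hb
  · obtain ⟨A, hA, p, hp⟩ := bd_kB c.sign d
    by_cases h3 : |c| = 3
    · obtain ⟨B, hB, q, hq⟩ := bd_kH c.sign d
      refine ⟨A * B, mul_pos hA hB, p + q, (eventually_ge_atTop 1).mono fun M hM z a b hz ha hb => ?_⟩
      rw [K2_zn h1, K2_gzn h1, if_pos h3, if_pos h3]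
      exact K2_mul hA (hp M hM _ (K2_ys ha hb) z (hz h1)) (hq M hM z (hz h1) _ (K2_yt ha hb))
    · obtain ⟨B, hB, q, hq⟩ := bd_kC c.sign d
      refine ⟨A * B, mul_pos hA hB, p + q, (eventually_ge_atTop 1).mono fun M hM z a b hz ha hb => ?_⟩
      rw [K2_zn h1, K2_gzn h1, if_neg h3, if_neg h3]
      exact K2_mul hA (hp M hM _ (K2_ys ha hb) z (hz h1)) (hq M hM z (hz h1) _ (K2_yt ha hb))
  · exact absurd h1 h

private theorem K2_nG_cl {C : Ch m} {i : Fin (m + 1)} (h : C.ty i = Ty.cl) (M k k' : ℕ) :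
    C.nG M i k k' = kC (C.c i).sign M (yM M k) (yM M k') := by
  unfold Ch.nG
  rw [h]
  show C.nd M i 0 k k' = _
  unfold Ch.nd
  rw [K2_cl h]

private theorem K2_nG_zn {C : Ch m} {i : Fin (m + 1)} (h : C.ty i = Ty.zn) (M k k' : ℕ) :
    C.nG M i k k' = ∑ l ∈ Finset.range M, C.nd M i l k k' := by
  unfold Ch.nG
  rw [h]

private theorem K2_nG_vn {C : Ch m} {i : Fin (m + 1)} (h : C.ty i = Ty.vn) (M k k' : ℕ) :
    C.nG M i k k' = D2 ((C.c i : ℝ) / 2) M k k' := by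
  unfold Ch.nG
  rw [h]

theorem kr2_ok (C : Ch m) (hC : C.OK) : (kr2 C).OK where
  cv := by
    show -(4 * (Real.pi : ℂ) * I) ≠ 0
    have h1 : (Real.pi : ℂ) ≠ 0 := by exact_mod_cast Real.pi_ne_zero
    exact neg_ne_zero.2 (mul_ne_zero (mul_ne_zero (by norm_num) h1) I_ne_zero)
  sg := by
    intro i M
    show ‖(if C.ty i = Ty.vn then (-1) ^ (M + 1) else 1 : ℂ)‖ = 1
    split_ifs
    · rw [norm_pow, norm_neg, norm_one, one_pow]
    · exact norm_one
  w_bd := by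
    intro j d
    obtain ⟨A, hA, p, hp⟩ := bd_Cc d
    exact ⟨A, hA, p, (eventually_ge_atTop 1).mono fun M hM y hy => hp M hM y hy⟩
  k_bd := fun i hi d => K2_k_bd (C.c i) (C.ty i) (C.fl i) hi d
  v_bd := by
    intro i hi d κ B hκ
    obtain ⟨A, hA, p, hp⟩ := bd_kV ((C.c i : ℝ) / 2) d κ B hκ
    refine ⟨A, hA, p, (eventually_ge_atTop 1).mono fun M hM v a b h1 h2 h3 h4 ha hb => ?_⟩
    show ‖kN (C.c i) (C.ty i) (C.fl i) M v a b‖ ≤
      A * (M : ℝ) ^ p * Real.exp (M * gN (C.c i) (C.ty i) (C.fl i) v a b)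
    rw [K2_vn hi, K2_gvn hi]
    exact hp M hM v h1.le h2 h3 h4 a ha b hb
  lat_bd := by
    intro i hi d
    obtain ⟨A, hA, p, hp⟩ := bd_lat ((C.c i : ℝ) / 2) d
    refine ⟨A, hA, p, (eventually_ge_atTop 4).mono fun M hM sd κ X _ hκ b hb => ?_⟩
    show gl ((C.c i : ℝ) / 2) M X * (ql M κ X * qS M b (vl 2 M X : ℝ)) = 0 ∨
      ∃ v : ℝ, v ≤ 1 / 2 ∧ -(yR M κ) - ((0 : ℕ) : ℝ) / M ≤ v ∧
        ‖gl ((C.c i : ℝ) / 2) M X * (ql M κ X * qS M b (vl 2 M X : ℝ))‖ ≤ A * (M : ℝ) ^ p *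
          Real.exp (M * gN (C.c i) (C.ty i) (C.fl i) v (if sd then b else yM M κ)
            (if sd then yM M κ else b))
    by_cases hX : X ≤ κ
    · right
      refine ⟨-(vl 2 M X), by linarith [K2_vl_ge M X], ?_, ?_⟩
      · rw [K2_vl, Nat.cast_zero, zero_div, sub_zero, neg_le_neg_iff]
        unfold yR
        have h1 : ((X : ℝ) + 1 / 2) / M ≤ ((κ : ℝ) + 1) / M := by
          apply div_le_div_of_nonneg_right _ (Nat.cast_nonneg M)
          have : (X : ℝ) ≤ κ := by exact_mod_cast hX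
          linarith
        linarith
      · have h1 := hp M (by omega) κ X (K2_kq hM hκ) hX b hb
        rw [K2_gvn hi]
        cases sd
        · exact h1
        · rw [if_pos rfl, if_pos rfl, gV_swap]
          exact h1
    · left
      unfold ql
      rw [if_neg hX, zero_mul, mul_zero]
  z_cl := by
    intro i hi M k k' _ _ h z
    show kN (C.c i) (C.ty i) (C.fl i) M z (yM M k) (yM M k') = 0
    rw [K2_cl hi]
    exact kC_zero _ h
  z_zn := by
    intro i hi M l k hl _ b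
    show (k + 0 < l → kN (C.c i) (C.ty i) (C.fl i) M (yM M l) (if C.fl i then b else yM M k)
        (if C.fl i then yM M k else b) = 0) ∧
      (l + k + 1 + 0 < M → kN (C.c i) (C.ty i) (C.fl i) M (yM M l) (if C.fl i then yM M k else b)
        (if C.fl i then b else yM M k) = 0)
    constructor
    · intro h
      have e1 : ys (C.fl i) (if C.fl i then b else yM M k) (if C.fl i then yM M k else b) =
          yM M k := by
        unfold ys
        cases C.fl i <;> rfl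
      have h' : k < l := h
      rw [K2_zn hi, e1, kB_zero _ h' hl, zero_mul, zero_mul, ite_self]
    · intro h
      have e2 : yt (C.fl i) (if C.fl i then yM M k else b) (if C.fl i then b else yM M k) =
          yM M k := by
        unfold yt
        cases C.fl i <;> rfl
      have h' : l + k + 1 < M := h
      rw [K2_zn hi, e2, kH_zero _ h', kC_zero _ h', mul_zero, ite_self]
  w_df := by
    intro j d
    refine (eventually_ge_atTop 2).mono fun M hM y hy => ?_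
    exact Cc_df hM (g := fun x : ℂ => x) (p := y) differentiableAt_id hy
  k_df := by
    intro i d
    refine (eventually_ge_atTop 2).mono fun M hM z a b hz hv ha hb => ?_
    exact kN_df hM (C.c i) (C.ty i) (C.fl i) (f := fun p : ℂ × ℂ × ℂ => p.1)
      (g := fun p : ℂ × ℂ × ℂ => p.2.1) (h := fun p : ℂ × ℂ × ℂ => p.2.2) (p := (z, a, b))
      differentiableAt_fst (differentiableAt_fst.comp _ differentiableAt_snd)
      (differentiableAt_snd.comp _ differentiableAt_snd) ha hb hz hv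
  lat_df := by
    intro i _ d
    refine (eventually_ge_atTop 2).mono fun M hM sd κ X hX b hb => ?_
    have h1 : |(((vl 2 M X : ℝ) : ℂ)).re| ≤ 1 / 2 := by
      rw [ofReal_re, abs_le]
      exact ⟨K2_vl_ge M X, K2_vl_le hX⟩
    exact (((qS_df hM (f := fun _ : ℂ => ((vl 2 M X : ℝ) : ℂ)) (g := fun x : ℂ => x) (p := b)
      (differentiableAt_const _) differentiableAt_id hb h1).const_mul _).const_mul _)
  g_cl := by
    refine fun i hi => Eventually.of_forall fun M k k' _ _ _ _ => ?_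
    show C.nG M i k k' = kN (C.c i) (C.ty i) (C.fl i) M 0 (yM M k) (yM M k')
    rw [K2_nG_cl hi, K2_cl hi]
  g_zn := by
    refine fun i hi => Eventually.of_forall fun M k k' _ _ _ _ => ?_
    show C.nG M i k k' = ∑ l ∈ Finset.Ico 0 M, kN (C.c i) (C.ty i) (C.fl i) M (yM M l) (yM M k) (yM M k')
    rw [K2_nG_zn hi, Finset.range_eq_Ico]
    rfl
  g_vn := by
    refine fun i hi => Eventually.of_forall fun M k k' _ _ hk hk' γ γ' hγ hre => ?_
    show Integrable (fun x => kN (C.c i) (C.ty i) (C.fl i) M (γ x) (yM M k) (yM M k') * γ' x) ∧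
      C.nG M i k k' = -(4 * Real.pi * I) * M ^ 2 *
        ∫ x, kN (C.c i) (C.ty i) (C.fl i) M (γ x) (yM M k) (yM M k') * γ' x
    have h1 := nG_ctr ((C.c i : ℝ) / 2) hk hk' hγ hre
    rw [K2_nG_vn hi]
    simp only [K2_vn hi]
    exact h1
  g_lat := by
    intro i hi
    refine (eventually_ge_atTop 4).mono fun M hM k k' _ _ hk hk' => ?_
    show C.nG M i k k' = ∑ X ∈ Finset.range M,
        gl ((C.c i : ℝ) / 2) M X * (ql M k X * qS M (yM M k') (vl 2 M X : ℝ)) ∧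
      C.nG M i k' k = ∑ X ∈ Finset.range M,
        gl ((C.c i : ℝ) / 2) M X * (ql M k X * qS M (yM M k') (vl 2 M X : ℝ))
    rw [K2_nG_vn hi, K2_nG_vn hi]
    exact ⟨nG_lat _ (K2_kq hM hk) hk', nG_lat' _ (K2_kq hM hk) hk'⟩
  g_two := by
    intro i hi
    refine (eventually_ge_atTop 4).mono fun M hM k k' _ _ hk hk' => ?_
    show C.nG M i k k' = 0
    rw [K2_nG_vn hi]
    exact nG_two _ (K2_kq hM hk) (K2_kq hM hk')

/-! ### The limits -/

private theorem K2_ye {C : Ch m} {K : Cn m} (hK : Cn.OK C K) {n : ℕ} (h : 0 < n ∧ n ≤ m) :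
    |(ye K.yc n).re| < 1 / 2 := by
  unfold ye
  rw [dif_pos h, abs_lt]
  have h1 := hK.y0 ⟨n - 1, by omega⟩
  exact ⟨by linarith, hK.y1 _⟩

private theorem K2_yt_re {C : Ch m} {K : Cn m} (hC : C.OK) (hK : Cn.OK C K) {i : Fin (m + 1)}
    (hi : C.ty i = Ty.zn) : |(yt (C.fl i) (ye K.yc i) (ye K.yc (i + 1))).re| < 1 / 2 := by
  have hm := hC.m1
  have hi2 := i.2
  cases hfl : C.fl i
  · show |(ye K.yc (i + 1)).re| < 1 / 2
    refine K2_ye hK ⟨Nat.succ_pos _, ?_⟩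
    by_contra h1
    have h2 : i = Fin.last m := Fin.ext (by
      rw [Fin.val_last]
      omega)
    rw [h2] at hi hfl
    rw [hC.zr hi] at hfl
    exact Bool.noConfusion hfl
  · show |(ye K.yc i).re| < 1 / 2
    refine K2_ye hK ⟨?_, by omega⟩
    by_contra h1
    have h2 : i = 0 := Fin.ext (by
      rw [Fin.val_zero]
      omega)
    rw [h2] at hi hfl
    rw [hC.zl hi] at hfl
    exact Bool.noConfusion hfl

private theorem K2_tend {α : Type*} {l : Filter α} {M : α → ℕ} (hM : Tendsto M l atTop)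
    {f g : α → ℂ} {p q : α → ℂ} {e e' s : ℝ} (hs : e + e' = s) {A B : ℂ}
    (h1 : Tendsto (fun x => f x * exp (-(M x * p x)) / (((M x : ℝ) ^ e : ℝ) : ℂ)) l (𝓝 A))
    (h2 : Tendsto (fun x => g x * exp (-(M x * q x)) / (((M x : ℝ) ^ e' : ℝ) : ℂ)) l (𝓝 B)) :
    Tendsto (fun x => (f x * g x) * exp (-(M x * (p x + q x))) / (((M x : ℝ) ^ s : ℝ) : ℂ)) l
      (𝓝 (A * B)) := by
  refine (h1.mul h2).congr' ?_
  filter_upwards [hM.eventually (eventually_ge_atTop 1)] with x hx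
  have h3 : (0 : ℝ) < (M x : ℝ) := by exact_mod_cast hx
  rw [← hs, Real.rpow_add h3, ofReal_mul, mul_add, neg_add, Complex.exp_add]
  rw [div_mul_div_comm]
  congr 1
  ring

theorem kr2_lm (C : Ch m) (K : Cn m) (hC : C.OK) (hK : Cn.OK C K) (hR : Rg C K) : (kr2 C).Lm K where
  w := by
    intro j
    have h0 := hK.y0 j
    exact lm_Cc (l := atTop ×ˢ 𝓝 (K.yc j)) (M := fun p : ℕ × ℂ => p.1) (y := fun p : ℕ × ℂ => p.2)
      tendsto_fst tendsto_snd (by linarith) (hK.y1 j)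
  k := by
    intro i
    show ∃ A : ℂ, A ≠ 0 ∧ Tendsto (fun p : ℕ × (ℂ × ℂ × ℂ) =>
      (if C.ty i = Ty.vn then (-1) ^ (p.1 + 1) else 1 : ℂ) *
      kN (C.c i) (C.ty i) (C.fl i) p.1 p.2.1 p.2.2.1 p.2.2.2 *
        exp (-(p.1 * pN (C.c i) (C.ty i) (C.fl i) p.2.1 p.2.2.1 p.2.2.2)) /
        (((p.1 : ℝ) ^ eN (C.c i) (C.ty i) : ℝ) : ℂ))
      (atTop ×ˢ 𝓝 (if C.ty i = Ty.cl then 0 else K.oc i, ye K.yc i, ye K.yc (i + 1))) (𝓝 A)
    obtain ⟨l, hl⟩ : ∃ l : Filter (ℕ × (ℂ × ℂ × ℂ)), l =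
      atTop ×ˢ 𝓝 (if C.ty i = Ty.cl then 0 else K.oc i, ye K.yc i, ye K.yc (i + 1)) := ⟨_, rfl⟩
    rw [← hl]
    have tM : Tendsto (fun p : ℕ × (ℂ × ℂ × ℂ) => p.1) l atTop := by
      rw [hl]
      exact tendsto_fst
    have t2 : Tendsto (fun p : ℕ × (ℂ × ℂ × ℂ) => p.2) l
        (𝓝 (if C.ty i = Ty.cl then 0 else K.oc i, ye K.yc i, ye K.yc (i + 1))) := by
      rw [hl]
      exact tendsto_snd
    have tz : Tendsto (fun p : ℕ × (ℂ × ℂ × ℂ) => p.2.1) l
        (𝓝 (if C.ty i = Ty.cl then 0 else K.oc i)) :=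
      (continuous_fst.tendsto _).comp t2
    have ta : Tendsto (fun p : ℕ × (ℂ × ℂ × ℂ) => p.2.2.1) l (𝓝 (ye K.yc i)) :=
      ((continuous_fst.comp continuous_snd).tendsto _).comp t2
    have tb : Tendsto (fun p : ℕ × (ℂ × ℂ × ℂ) => p.2.2.2) l (𝓝 (ye K.yc (i + 1))) :=
      ((continuous_snd.comp continuous_snd).tendsto _).comp t2
    rcases K2_ty (C.ty i) with hi | hi | hi
    · obtain ⟨A, hA, h⟩ := lm_kC (C.c i).sign tM ta tb (hR.cl i hi).1 (hR.cl i hi).2
      refine ⟨A, hA, h.congr fun p => ?_⟩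
      rw [if_neg (by rw [hi]; exact fun h => Ty.noConfusion h), one_mul, K2_cl hi, K2_pcl hi, hi]
      rfl
    · have hz1 : ¬ C.ty i = Ty.cl := by rw [hi]; exact fun h => Ty.noConfusion h
      rw [if_neg hz1] at tz
      obtain ⟨hr1, hr2, hr3, hr4⟩ := hR.zn i hi
      have tys : Tendsto (fun p : ℕ × (ℂ × ℂ × ℂ) => ys (C.fl i) p.2.2.1 p.2.2.2) l
          (𝓝 (ys (C.fl i) (ye K.yc i) (ye K.yc (i + 1)))) := by
        unfold ys
        split_ifs
        · exact tb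
        · exact ta
      have tyt : Tendsto (fun p : ℕ × (ℂ × ℂ × ℂ) => yt (C.fl i) p.2.2.1 p.2.2.2) l
          (𝓝 (yt (C.fl i) (ye K.yc i) (ye K.yc (i + 1)))) := by
        unfold yt
        split_ifs
        · exact ta
        · exact tb
      obtain ⟨A, hA, hB⟩ := lm_kB (C.c i).sign tM tys tz hr1 hr2
      by_cases h3 : |C.c i| = 3
      · obtain ⟨B, hB0, hH⟩ := lm_kH (C.c i).sign tM tz tyt hr3 hr4 ((hK.z1 i hi).trans (hK.z2 i)) (K2_yt_re hC hK hi)
        refine ⟨A * B, mul_ne_zero hA hB0, (K2_tend tM (s := -2) (by norm_num) hB hH).congr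
          fun p => ?_⟩
        rw [if_neg (by rw [hi]; exact fun h => Ty.noConfusion h), one_mul, K2_zn hi, K2_pzn hi,
          if_pos h3, if_pos h3, hi]
        show _ = _ / (((p.1 : ℝ) ^ (if |C.c i| = 3 then (-2 : ℝ) else -1) : ℝ) : ℂ)
        rw [if_pos h3]
      · obtain ⟨B, hB0, hH⟩ := lm_kC (C.c i).sign tM tz tyt hr3 hr4
        refine ⟨A * B, mul_ne_zero hA hB0, (K2_tend tM (s := -1) (by norm_num) hB hH).congr
          fun p => ?_⟩
        rw [if_neg (by rw [hi]; exact fun h => Ty.noConfusion h), one_mul, K2_zn hi, K2_pzn hi,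
          if_neg h3, if_neg h3, hi]
        show _ = _ / (((p.1 : ℝ) ^ (if |C.c i| = 3 then (-2 : ℝ) else -1) : ℝ) : ℂ)
        rw [if_neg h3]
    · have hz1 : ¬ C.ty i = Ty.cl := by rw [hi]; exact fun h => Ty.noConfusion h
      rw [if_neg hz1] at tz
      have hx := hK.x1 i hi
      have hv := hK.v1 i hi
      obtain ⟨A, hA, h⟩ := lm_kV ((C.c i : ℝ) / 2) tM tz ta tb (hK.v0 i hi) (hv.trans hx)
        (hR.vn i hi)
      refine ⟨A, hA, h.congr fun p => ?_⟩
      rw [if_pos hi, K2_vn hi, K2_pvn hi, hi]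
      rfl

end Pool.Agent.S5
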