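import Pool.Agent.S5.S.FinS
import Pool.Agent.S5.S.K2
import Pool.Agent.S5.N.LimN
import Pool.Agent.S5.X.Nod

/-!
# Mixed chains, `n = 2`: the asymptotics of the invariant
-/

set_option autoImplicit false

namespace Pool.Agent.S5

open Complex Filter Topology
open Pool.Agent.H63.VC7 (JG DG inc)
open Pool.Agent.H63.VC3 (Cc yk)

variable {m : ℕ}

/-- The constant of the node `i`. -/
noncomputable def cs2 (C : Ch m) (i : Fin (m + 1)) (M : ℕ) : ℂ :=
  match C.ty i with
  | .cl => ph2 (C.c i).sign M * (4 * Real.pi)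
  | .zn => if |C.c i| = 3 then ph3 (C.c i).sign M * (4 * Real.pi * M)
    else ph4 (C.c i).sign M * (4 * Real.pi)
  | .vn => 1

private theorem sg_of {c : ℤ} (h : c ≠ 0) : c.sign = 1 ∨ c.sign = -1 := by
  rcases lt_trichotomy c 0 with h1 | h1 | h1
  · exact Or.inr (Int.sign_eq_neg_one_of_neg h1)
  · exact absurd h1 h
  · exact Or.inl (Int.sign_eq_one_of_pos h1)

private theorem c_abs (c : ℤ) : (c : ℝ) = c.sign * (|c| : ℤ) := by
  have h := Int.sign_mul_abs c
  exact_mod_cast h.symm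

/-- The factors of the nodes. -/
theorem D2_nG {C : Ch m} (hC : C.OK) {M : ℕ} (i : Fin (m + 1)) {k k' : ℕ} (hk : k < M) (hk' : k' < M) :
    D2 ((C.c i : ℝ) / 2) M k k' = cs2 C i M * C.nG M i k k' := by
  rcases h1 : C.ty i with _ | _ | _
  · have ha := hC.cl i h1
    have hs := sg_of (show C.c i ≠ 0 by
      intro h
      rw [h] at ha
      simp at ha)
    have e0 : (C.c i : ℝ) / 2 = ((C.c i).sign : ℤ) := by
      have := c_abs (C.c i)
      rw [ha] at this
      rw [this]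
      push_cast
      ring
    have e1 : cs2 C i M = ph2 (C.c i).sign M * (4 * Real.pi) := by
      unfold cs2
      rw [h1]
    have e2 : C.nG M i k k' = kC (C.c i).sign M (yM M k) (yM M k') := by
      unfold Ch.nG
      rw [h1]
      show C.nd M i 0 k k' = _
      unfold Ch.nd kN
      rw [h1]
    rw [e0, e1, e2, D2_two hs hk hk']
  · have hs := sg_of (show C.c i ≠ 0 by
      intro h
      have := hC.zn i h1
      rw [h] at this
      simp at this)
    have e2 : C.nG M i k k' = ∑ l ∈ Finset.range M, C.nd M i l k k' := by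
      unfold Ch.nG
      rw [h1]
    by_cases h3 : |C.c i| = 3
    · have e0 : (C.c i : ℝ) / 2 = 3 * ((C.c i).sign : ℤ) / 2 := by
        have := c_abs (C.c i)
        rw [h3] at this
        rw [this]
        push_cast
        ring
      have e1 : cs2 C i M = ph3 (C.c i).sign M * (4 * Real.pi * M) := by
        unfold cs2
        rw [h1]
        exact if_pos h3
      rw [e1, e2]
      cases hfl : C.fl i
      · have e3 : ∀ l, C.nd M i l k k' = kB (C.c i).sign M (yM M k) (yM M l) *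
            kH (C.c i).sign M (yM M l) (yM M k') := by
          intro l
          unfold Ch.nd kN
          rw [h1, hfl]
          exact if_pos h3
        simp only [e3]
        rw [e0, D2_three hs hk hk']
      · have e3 : ∀ l, C.nd M i l k k' = kB (C.c i).sign M (yM M k') (yM M l) *
            kH (C.c i).sign M (yM M l) (yM M k) := by
          intro l
          unfold Ch.nd kN
          rw [h1, hfl]
          exact if_pos h3
        simp only [e3]
        rw [e0, D2_comm, D2_three hs hk' hk]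
    · have h4 : |C.c i| = 4 := (hC.zn i h1).resolve_left h3
      have e0 : (C.c i : ℝ) / 2 = 2 * ((C.c i).sign : ℤ) := by
        have := c_abs (C.c i)
        rw [h4] at this
        rw [this]
        push_cast
        ring
      have e1 : cs2 C i M = ph4 (C.c i).sign M * (4 * Real.pi) := by
        unfold cs2
        rw [h1]
        exact if_neg h3
      rw [e1, e2]
      cases hfl : C.fl i
      · have e3 : ∀ l, C.nd M i l k k' = kB (C.c i).sign M (yM M k) (yM M l) *
            kC (C.c i).sign M (yM M l) (yM M k') := by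
          intro l
          unfold Ch.nd kN
          rw [h1, hfl]
          exact if_neg h3
        simp only [e3]
        rw [e0, D2_four hs hk hk']
      · have e3 : ∀ l, C.nd M i l k k' = kB (C.c i).sign M (yM M k') (yM M l) *
            kC (C.c i).sign M (yM M l) (yM M k) := by
          intro l
          unfold Ch.nd kN
          rw [h1, hfl]
          exact if_neg h3
        simp only [e3]
        rw [e0, D2_comm, D2_four hs hk' hk]
  · have e1 : cs2 C i M = 1 := by
      unfold cs2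
      rw [h1]
    have e2 : C.nG M i k k' = D2 ((C.c i : ℝ) / 2) M k k' := by
      unfold Ch.nG
      rw [h1]
    rw [e1, e2, one_mul]

theorem yk_yM (M k : ℕ) : ((yk 2 M k : ℝ) : ℂ) = yM M k := by
  unfold yk yM Pool.Agent.H63.VC3.bt
  push_cast
  congr 2
  ring

/-- The invariant in terms of the sum of the kernels. -/
theorem JG_kr2 {C : Ch m} (hC : C.OK) {M : ℕ} (hM : 0 < M) :
    JG (Fin.castSucc (n := m)) Fin.succ (fun i => (C.c i : ℝ) / 2) M =
      (M : ℂ) ^ 2 * (∏ i, cs2 C i M) * (kr2 C).J M := by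
  have hJ : (kr2 C).J M = ∑ k ∈ Fintype.piFinset (fun _ : Fin m => Finset.range M),
      (∏ j, Cc 2 1 M (yM M (k j))) * ∏ i : Fin (m + 1), C.nG M i (ke M k i) (ke M k (i + 1)) := by
    unfold Krn.J Krn.JR
    rw [Finset.range_eq_Ico]
    rfl
  rw [hJ, JG, Finset.mul_sum]
  refine Finset.sum_congr rfl fun k hk => ?_
  have hk' : ∀ j, k j < M := fun j => Finset.mem_range.1 (Fintype.mem_piFinset.1 hk j)
  have e1 : ∏ i, DG ((C.c i : ℝ) / 2) M (inc (Fin.castSucc (n := m)) Fin.succ i) k =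
      (M : ℂ) ^ 2 * ((∏ i, cs2 C i M) * ∏ i : Fin (m + 1), C.nG M i (ke M k i) (ke M k (i + 1))) := by
    have e2 : ∀ i : Fin (m + 1), DG ((C.c i : ℝ) / 2) M (inc (Fin.castSucc (n := m)) Fin.succ i) k =
        (if i = 0 ∨ i = Fin.last m then (M : ℂ) else 1) *
          (cs2 C i M * C.nG M i (ke M k i) (ke M k (i + 1))) := by
      intro i
      rw [DG_path hC.m1 _ hM k i, D2_nG hC i (ke_lt hM hk' _) (ke_lt hM hk' _)]
    rw [Finset.prod_congr rfl fun i _ => e2 i, Finset.prod_mul_distrib, Finset.prod_mul_distrib]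
    congr 1
    have hm := hC.m1
    rw [Finset.prod_ite, Finset.prod_const_one, mul_one, Finset.prod_const]
    congr 1
    have : (Finset.univ.filter fun i : Fin (m + 1) => i = 0 ∨ i = Fin.last m) = {0, Fin.last m} := by
      ext i
      simp
    rw [this, Finset.card_pair]
    intro h
    have := congrArg Fin.val h
    simp at this
    omega
  rw [e1]
  have e3 : ∏ j, Cc 2 1 M (yk 2 M (k j)) = ∏ j, Cc 2 1 M (yM M (k j)) :=
    Finset.prod_congr rfl fun j _ => by rw [yk_yM]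
  rw [e3]
  ring

private theorem neg_pow_sq (a : ℕ) : (-1 : ℂ) ^ a * (-1) ^ a = 1 := by
  rw [← pow_add, ← two_mul, pow_mul]
  norm_num

private theorem tend_inv (x y : ℂ) : Tendsto (fun M : ℕ => exp (x - y / M)) atTop (𝓝 (exp x)) := by
  have h1 : Tendsto (fun M : ℕ => y / (M : ℂ)) atTop (𝓝 0) := tendsto_const_div_atTop_nhds_zero_nat y
  have h2 := h1.const_sub x
  rw [sub_zero] at h2
  exact (continuous_exp.tendsto _).comp h2

/-- The constants of the nodes. -/
private theorem cs2_lim (C : Ch m) (i : Fin (m + 1)) :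
    ∃ u : ℕ → ℂ, ∃ U : ℂ, U ≠ 0 ∧ Tendsto u atTop (𝓝 U) ∧ ∀ M : ℕ, 1 ≤ M →
      (-1 : ℂ) ^ (M + 1) * cs2 C i M = (kr2 C).sg i M *
        exp (M * kap (C.c i) (C.ty i)) * u M * (((M : ℝ) ^ tap (C.c i) (C.ty i) : ℝ) : ℂ) := by
  have h4 : (4 * (Real.pi : ℂ)) ≠ 0 := mul_ne_zero (by norm_num) (by exact_mod_cast Real.pi_ne_zero)
  have hsg : ∀ M : ℕ, (kr2 C).sg i M = if C.ty i = Ty.vn then (-1) ^ (M + 1) else 1 := fun M => rfl
  rcases h1 : C.ty i with _ | _ | _
  · refine ⟨fun M => exp ((C.c i).sign * Real.pi * I - ((C.c i).sign * Real.pi * I / 2) / M) *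
      (4 * Real.pi), exp ((C.c i).sign * Real.pi * I) * (4 * Real.pi),
      mul_ne_zero (exp_ne_zero _) h4, (tend_inv _ _).mul_const _, fun M hM => ?_⟩
    have hMc : (M : ℂ) ≠ 0 := by
      have : (0 : ℝ) < M := by exact_mod_cast hM
      exact_mod_cast this.ne'
    rw [hsg, if_neg (by rw [h1]; exact fun h => Ty.noConfusion h)]
    have e1 : cs2 C i M = ph2 (C.c i).sign M * (4 * Real.pi) := by
      unfold cs2
      rw [h1]
    rw [e1]
    unfold ph2
    have e2 : (-1 : ℂ) ^ (M + 1) * ((-1) ^ (M + 1) *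
        exp ((C.c i).sign * Real.pi * I * (1 - M / 2 - 1 / (2 * M))) * (4 * Real.pi)) =
        ((-1 : ℂ) ^ (M + 1) * (-1) ^ (M + 1)) *
        (exp ((C.c i).sign * Real.pi * I * (1 - M / 2 - 1 / (2 * M))) * (4 * Real.pi)) := by
      ring
    rw [e2, neg_pow_sq]
    show _ = 1 * exp (M * -((C.c i).sign * Real.pi * I / 2)) *
      (exp ((C.c i).sign * Real.pi * I - ((C.c i).sign * Real.pi * I / 2) / M) * (4 * Real.pi)) *
        (((M : ℝ) ^ (0 : ℝ) : ℝ) : ℂ)
    rw [Real.rpow_zero, ofReal_one, mul_one, one_mul, one_mul]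
    have e5 : exp (M * -((C.c i).sign * Real.pi * I / 2)) *
        exp ((C.c i).sign * Real.pi * I - ((C.c i).sign * Real.pi * I / 2) / M) =
        exp ((C.c i).sign * Real.pi * I * (1 - M / 2 - 1 / (2 * M))) := by
      rw [← Complex.exp_add]
      congr 1
      field_simp
      ring
    rw [← e5]
    ring
  · by_cases h3 : |C.c i| = 3
    · refine ⟨fun M => exp ((C.c i).sign * Real.pi * I / 2 - ((C.c i).sign * Real.pi * I / 4) / M) *
        (4 * Real.pi), exp ((C.c i).sign * Real.pi * I / 2) * (4 * Real.pi),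
        mul_ne_zero (exp_ne_zero _) h4, (tend_inv _ _).mul_const _, fun M hM => ?_⟩
      have hMc : (M : ℂ) ≠ 0 := by
        have : (0 : ℝ) < M := by exact_mod_cast hM
        exact_mod_cast this.ne'
      rw [hsg, if_neg (by rw [h1]; exact fun h => Ty.noConfusion h)]
      have e1 : cs2 C i M = ph3 (C.c i).sign M * (4 * Real.pi * M) := by
        unfold cs2
        rw [h1]
        exact if_pos h3
      rw [e1]
      unfold ph3
      have e2 : (-1 : ℂ) ^ (M + 1) * ((-1) ^ (M + 1) *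
          exp ((C.c i).sign * Real.pi * I * (M / 4 + 1 / 2 - 1 / (4 * M))) * (4 * Real.pi * M)) =
          ((-1 : ℂ) ^ (M + 1) * (-1) ^ (M + 1)) *
          (exp ((C.c i).sign * Real.pi * I * (M / 4 + 1 / 2 - 1 / (4 * M))) * (4 * Real.pi * M)) := by
        ring
      rw [e2, neg_pow_sq]
      have e3 : kap (C.c i) Ty.zn = (C.c i).sign * Real.pi * I / 4 := if_pos h3
      have e4 : tap (C.c i) Ty.zn = 1 := if_pos h3
      rw [e3, e4, Real.rpow_one, one_mul, one_mul, ofReal_natCast]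
      have e5 : exp (M * ((C.c i).sign * Real.pi * I / 4)) *
          exp ((C.c i).sign * Real.pi * I / 2 - ((C.c i).sign * Real.pi * I / 4) / M) =
          exp ((C.c i).sign * Real.pi * I * (M / 4 + 1 / 2 - 1 / (4 * M))) := by
        rw [← Complex.exp_add]
        congr 1
        field_simp
        ring
      rw [← e5]
      ring
    · refine ⟨fun M => exp ((C.c i).sign * Real.pi * I) * (4 * Real.pi),
        exp ((C.c i).sign * Real.pi * I) * (4 * Real.pi),
        mul_ne_zero (exp_ne_zero _) h4, tendsto_const_nhds, fun M hM => ?_⟩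
      rw [hsg, if_neg (by rw [h1]; exact fun h => Ty.noConfusion h)]
      have e1 : cs2 C i M = ph4 (C.c i).sign M * (4 * Real.pi) := by
        unfold cs2
        rw [h1]
        exact if_neg h3
      rw [e1]
      unfold ph4
      have e2 : (-1 : ℂ) ^ (M + 1) * ((-1) ^ (M + 1) *
          exp ((C.c i).sign * Real.pi * I * (1 - M / 2)) * (4 * Real.pi)) =
          ((-1 : ℂ) ^ (M + 1) * (-1) ^ (M + 1)) *
          (exp ((C.c i).sign * Real.pi * I * (1 - M / 2)) * (4 * Real.pi)) := by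
        ring
      rw [e2, neg_pow_sq]
      have e3 : kap (C.c i) Ty.zn = -((C.c i).sign * Real.pi * I / 2) := if_neg h3
      have e4 : tap (C.c i) Ty.zn = 0 := if_neg h3
      rw [e3, e4, Real.rpow_zero, one_mul, one_mul, ofReal_one, mul_one]
      have e5 : exp (M * -((C.c i).sign * Real.pi * I / 2)) * exp ((C.c i).sign * Real.pi * I) =
          exp ((C.c i).sign * Real.pi * I * (1 - M / 2)) := by
        rw [← Complex.exp_add]
        congr 1
        ring
      rw [← e5]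
      ring
  · refine ⟨fun _ => 1, 1, one_ne_zero, tendsto_const_nhds, fun M hM => ?_⟩
    rw [hsg, if_pos h1]
    have e1 : cs2 C i M = 1 := by
      unfold cs2
      rw [h1]
    have e3 : kap (C.c i) Ty.vn = 0 := rfl
    have e4 : tap (C.c i) Ty.vn = 0 := rfl
    rw [e1, e3, e4, Real.rpow_zero, mul_zero, Complex.exp_zero, ofReal_one]
    ring

/-- The exponents of `M` of the nodes. -/
private theorem exp_node {C : Ch m} (i : Fin (m + 1)) :
    eN (C.c i) (C.ty i) + (if C.ty i = Ty.zn then (1 / 2 : ℝ) else 0) +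
      (if C.ty i = Ty.vn then (3 / 2 : ℝ) else 0) + tap (C.c i) (C.ty i) = -1 / 2 := by
  rcases h1 : C.ty i with _ | _ | _
  · rw [if_neg (fun h => Ty.noConfusion h), if_neg (fun h => Ty.noConfusion h)]
    show (-1 / 2 : ℝ) + 0 + 0 + 0 = -1 / 2
    norm_num
  · rw [if_pos rfl, if_neg (fun h => Ty.noConfusion h)]
    show (if |C.c i| = 3 then (-2 : ℝ) else -1) + 1 / 2 + 0 + (if |C.c i| = 3 then (1 : ℝ) else 0) =
      -1 / 2
    split_ifs <;> norm_num
  · rw [if_neg (fun h => Ty.noConfusion h), if_pos rfl]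
    show (-2 : ℝ) + 0 + 3 / 2 + 0 = -1 / 2
    norm_num

private theorem eJ_kr2 (C : Ch m) :
    (kr2 C).eJ + 2 + ∑ i, tap (C.c i) (C.ty i) = 3 / 2 * ((m : ℝ) + 1) + m / 2 := by
  have h1 : (kr2 C).eJ = (∑ _j : Fin m, (2 : ℝ)) + (∑ i, eN (C.c i) (C.ty i)) +
      (m + C.nz : ℝ) / 2 + 3 / 2 * (C.nv : ℝ) := rfl
  have h2 : (C.nz : ℝ) / 2 = ∑ i, (if C.ty i = Ty.zn then (1 / 2 : ℝ) else 0) := by
    unfold Ch.nz
    rw [← Finset.sum_filter, Finset.sum_const, nsmul_eq_mul]
    ring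
  have h3 : 3 / 2 * (C.nv : ℝ) = ∑ i, (if C.ty i = Ty.vn then (3 / 2 : ℝ) else 0) := by
    unfold Ch.nv
    rw [← Finset.sum_filter, Finset.sum_const, nsmul_eq_mul]
    ring
  have h4 : (∑ i, eN (C.c i) (C.ty i)) + (∑ i, (if C.ty i = Ty.zn then (1 / 2 : ℝ) else 0)) +
      (∑ i, (if C.ty i = Ty.vn then (3 / 2 : ℝ) else 0)) + (∑ i, tap (C.c i) (C.ty i)) =
      ∑ _i : Fin (m + 1), (-1 / 2 : ℝ) := by
    rw [← Finset.sum_add_distrib, ← Finset.sum_add_distrib, ← Finset.sum_add_distrib]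
    exact Finset.sum_congr rfl fun i _ => exp_node i
  rw [Finset.sum_const, Finset.card_univ, Fintype.card_fin, nsmul_eq_mul] at h4
  rw [h1, Finset.sum_const, Finset.card_univ, Fintype.card_fin, nsmul_eq_mul]
  push_cast at h4 ⊢
  linarith

/-- **The asymptotics of the invariant.** -/
theorem hlim2 {C : Ch m} {K : Cn m} {e0 : ℝ} (hC : C.OK) (hK : Cn.OK C K) (hI : Inq C K e0)
    (hR : Rg C K) (hcr : Crt C K) : ∃ κ0 : ℂ, κ0 ≠ 0 ∧
      Tendsto (fun M : ℕ => ((-1 : ℂ) ^ (M + 1)) ^ (m + 1) *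
        JG (Fin.castSucc (n := m)) Fin.succ (fun i => (C.c i : ℝ) / 2) M /
        ((((M : ℝ) ^ (3 / 2 * ((m : ℝ) + 1) + m / 2) : ℝ) : ℂ) *
          exp (M * (C.W K.oc K.yc + ∑ i, kap (C.c i) (C.ty i))))) atTop (𝓝 κ0) := by
  obtain ⟨A, hA, hJ⟩ := Krn.fin hC hK hI hR hcr (kr2 C) (kr2_ok C hC) (kr2_lm C K hC hK hR)
  set W : ℂ := C.W K.oc K.yc with hW
  choose u U hU hu hc using cs2_lim C
  refine ⟨A * ∏ i, U i, mul_ne_zero hA (Finset.prod_ne_zero_iff.2 fun i _ => hU i), ?_⟩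
  have h1 : Tendsto (fun M : ℕ => ∏ i, u i M) atTop (𝓝 (∏ i, U i)) :=
    tendsto_finset_prod _ fun i _ => hu i
  refine (hJ.mul h1).congr' ?_
  filter_upwards [Filter.eventually_ge_atTop 1] with M hM1
  have hM0 : (0 : ℝ) < M := by exact_mod_cast hM1
  have hMc : (M : ℂ) ≠ 0 := by exact_mod_cast hM0.ne'
  rw [JG_kr2 hC (by omega), ← eJ_kr2 C]
  have e1 : ((-1 : ℂ) ^ (M + 1)) ^ (m + 1) * (∏ i, cs2 C i M) =
      (∏ i, (kr2 C).sg i M) * exp (M * ∑ i, kap (C.c i) (C.ty i)) * (∏ i, u i M) *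
        (((M : ℝ) ^ (∑ i, tap (C.c i) (C.ty i)) : ℝ) : ℂ) := by
    have e0 : ((-1 : ℂ) ^ (M + 1)) ^ (m + 1) = ∏ _i : Fin (m + 1), (-1 : ℂ) ^ (M + 1) := by
      rw [Finset.prod_const, Finset.card_univ, Fintype.card_fin]
    rw [e0, ← Finset.prod_mul_distrib, Finset.prod_congr rfl fun i _ => hc i M hM1,
      Finset.prod_mul_distrib, Finset.prod_mul_distrib, Finset.prod_mul_distrib, ← Complex.exp_sum,
      ← Finset.mul_sum, Real.rpow_sum_of_pos hM0]
    push_cast
    rfl
  have e2 : (((M : ℝ) ^ ((kr2 C).eJ + 2 + ∑ i, tap (C.c i) (C.ty i)) : ℝ) : ℂ) =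
      (((M : ℝ) ^ (kr2 C).eJ : ℝ) : ℂ) * (M : ℂ) ^ 2 *
        (((M : ℝ) ^ (∑ i, tap (C.c i) (C.ty i)) : ℝ) : ℂ) := by
    rw [Real.rpow_add hM0, Real.rpow_add hM0]
    have : (M : ℝ) ^ (2 : ℝ) = (M : ℝ) ^ 2 := by
      rw [show (2 : ℝ) = ((2 : ℕ) : ℝ) by norm_num, Real.rpow_natCast]
    rw [this]
    push_cast
    rfl
  have e3 : exp (M * (W + ∑ i, kap (C.c i) (C.ty i))) =
      exp (M * W) * exp (M * ∑ i, kap (C.c i) (C.ty i)) := by
    rw [mul_add, Complex.exp_add]
  have e4 : ((-1 : ℂ) ^ (M + 1)) ^ (m + 1) * ((M : ℂ) ^ 2 * (∏ i, cs2 C i M) * (kr2 C).J M) =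
      (((-1 : ℂ) ^ (M + 1)) ^ (m + 1) * (∏ i, cs2 C i M)) * ((M : ℂ) ^ 2 * (kr2 C).J M) := by ring
  rw [e4, e1, e2, e3]
  have n1 : (((M : ℝ) ^ (kr2 C).eJ : ℝ) : ℂ) ≠ 0 := by
    exact_mod_cast (Real.rpow_pos_of_pos hM0 _).ne'
  have n2 : (((M : ℝ) ^ (∑ i, tap (C.c i) (C.ty i)) : ℝ) : ℂ) ≠ 0 := by
    exact_mod_cast (Real.rpow_pos_of_pos hM0 _).ne'
  have n3 := exp_ne_zero (M * W)
  have n4 := exp_ne_zero (M * ∑ i, kap (C.c i) (C.ty i))
  field_simp

end Pool.Agent.S5
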