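import Pool.Agent.S5.S.MultiI

/-!
# Sums over fixed and free indices, products of integrals

General lemmas for the parts of the sum with small indices.
-/

set_option autoImplicit false

namespace Pool.Agent.S5

open Complex MeasureTheory

/-- A sum over multi-indices as a sum over the fixed indices and the free indices. -/
theorem sum_split {Λ : Type} [Fintype Λ] [DecidableEq Λ] (Fr : Λ → Prop) [DecidablePred Fr]
    (R : Λ → Finset ℕ) (g : (Λ → ℕ) → ℂ) :
    ∑ κ ∈ Fintype.piFinset R, g κ =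
      ∑ κ₁ ∈ Fintype.piFinset (fun a => if Fr a then {0} else R a),
        ∑ κ₂ ∈ Fintype.piFinset (fun a : {a : Λ // Fr a} => R a),
          g (fun a => if h : Fr a then κ₂ ⟨a, h⟩ else κ₁ a) := by
  rw [← Finset.sum_product']
  refine Finset.sum_bij' (fun κ _ => (fun a => if Fr a then 0 else κ a, fun a => κ a))
    (fun p _ => fun a => if h : Fr a then p.2 ⟨a, h⟩ else p.1 a) ?_ ?_ ?_ ?_ ?_
  · intro κ hκ
    rw [Fintype.mem_piFinset] at hκ
    rw [Finset.mem_product, Fintype.mem_piFinset, Fintype.mem_piFinset]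
    refine ⟨fun a => ?_, fun a => hκ a⟩
    by_cases h : Fr a
    · simp [h]
    · simpa [h] using hκ a
  · intro p hp
    rw [Finset.mem_product, Fintype.mem_piFinset, Fintype.mem_piFinset] at hp
    rw [Fintype.mem_piFinset]
    intro a
    by_cases h : Fr a
    · simpa [h] using hp.2 ⟨a, h⟩
    · simpa [h] using hp.1 a
  · intro κ _
    funext a
    by_cases h : Fr a <;> simp [h]
  · intro p hp
    rw [Finset.mem_product, Fintype.mem_piFinset, Fintype.mem_piFinset] at hp
    refine Prod.ext ?_ ?_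
    · funext a
      by_cases h : Fr a
      · have h1 := hp.1 a
        simp only [h, if_true, Finset.mem_singleton] at h1
        simp [h, h1]
      · simp [h]
    · funext a
      have := a.2
      simp [this]
  · intro κ _
    congr 1
    funext a
    by_cases h : Fr a <;> simp [h]

/-- A double sum over multi-indices. -/
theorem sum_elim {α β : Type} [Fintype α] [Fintype β] [DecidableEq α] [DecidableEq β]
    (R₁ : α → Finset ℕ) (R₂ : β → Finset ℕ) (g : (α → ℕ) → (β → ℕ) → ℂ) :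
    ∑ κ ∈ Fintype.piFinset R₁, ∑ L ∈ Fintype.piFinset R₂, g κ L =
      ∑ κ ∈ Fintype.piFinset (Sum.elim R₁ R₂), g (fun a => κ (Sum.inl a)) (fun b => κ (Sum.inr b)) := by
  rw [← Finset.sum_product']
  refine Finset.sum_bij' (fun p _ => Sum.elim p.1 p.2)
    (fun κ _ => (fun a => κ (Sum.inl a), fun b => κ (Sum.inr b))) ?_ ?_ ?_ ?_ ?_
  · intro p hp
    rw [Finset.mem_product, Fintype.mem_piFinset, Fintype.mem_piFinset] at hp
    rw [Fintype.mem_piFinset]
    rintro (a | b)
    · exact hp.1 a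
    · exact hp.2 b
  · intro κ hκ
    rw [Fintype.mem_piFinset] at hκ
    rw [Finset.mem_product, Fintype.mem_piFinset, Fintype.mem_piFinset]
    exact ⟨fun a => hκ (Sum.inl a), fun b => hκ (Sum.inr b)⟩
  · intro p _
    rfl
  · intro κ _
    funext a
    rcases a with a | b <;> rfl
  · intro p _
    rfl

/-- A product of bounded factors. -/
theorem prod_le_pow {ι : Type} [Fintype ι] {f : ι → ℝ} {c : ℝ} (h0 : ∀ i, 0 ≤ f i) (h : ∀ i, f i ≤ c) :
    ∏ i, f i ≤ c ^ Fintype.card ι := by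
  refine (Finset.prod_le_prod (fun i _ => h0 i) (fun i _ => h i)).trans (le_of_eq ?_)
  rw [Finset.prod_const, Finset.card_univ]

/-- The sum over the fixed indices of the integrals of the sums over the free indices. -/
theorem bd_split {I Λ : Type} [Fintype I] [Fintype Λ] [DecidableEq Λ] (Fr : Λ → Prop) [DecidablePred Fr]
    (R : Λ → Finset ℕ) (G : (Λ → ℕ) → (I → ℝ) → ℂ) (ω : I → ℝ → ℂ) (B : ℝ)
    (hω : ∀ i, Integrable (ω i))
    (hi : ∀ κ ∈ Fintype.piFinset R, Integrable (fun x : I → ℝ => G κ x * ∏ i, ω i (x i)))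
    (hB : ∀ κ₁ ∈ Fintype.piFinset (fun a => if Fr a then {0} else R a), ∀ x : I → ℝ,
      ‖∑ κ₂ ∈ Fintype.piFinset (fun a : {a : Λ // Fr a} => R a),
          G (fun a => if h : Fr a then κ₂ ⟨a, h⟩ else κ₁ a) x‖ ≤ B) :
    ‖∑ κ ∈ Fintype.piFinset R, ∫ x : I → ℝ, G κ x * ∏ i, ω i (x i)‖ ≤
      (Fintype.piFinset (fun a => if Fr a then {0} else R a)).card * (B * ∏ i, ∫ x, ‖ω i x‖) := by
  rw [sum_split Fr R (fun κ => ∫ x : I → ℝ, G κ x * ∏ i, ω i (x i)), ← nsmul_eq_mul]
  refine (norm_sum_le _ _).trans (Finset.sum_le_card_nsmul _ _ _ fun κ₁ hκ₁ => ?_)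
  have hmem : ∀ κ₂ ∈ Fintype.piFinset (fun a : {a : Λ // Fr a} => R a),
      (fun a => if h : Fr a then κ₂ ⟨a, h⟩ else κ₁ a) ∈ Fintype.piFinset R := by
    intro κ₂ hκ₂
    rw [Fintype.mem_piFinset] at hκ₁ hκ₂ ⊢
    intro a
    by_cases h : Fr a
    · simpa [h] using hκ₂ ⟨a, h⟩
    · simpa [h] using hκ₁ a
  rw [← integral_finsetSum _ (fun κ₂ hκ₂ => hi _ (hmem κ₂ hκ₂))]
  have hω' : Integrable (fun x : I → ℝ => ∏ i, ‖ω i (x i)‖) :=
    Integrable.fintype_prod (E := ℝ) (f := fun i x => ‖ω i x‖) fun i => (hω i).norm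
  refine (norm_integral_le_of_norm_le (hω'.const_mul B) (Filter.Eventually.of_forall fun x => ?_)).trans
    (le_of_eq ?_)
  · rw [← Finset.sum_mul, norm_mul, norm_prod]
    exact mul_le_mul_of_nonneg_right (hB κ₁ hκ₁ x) (Finset.prod_nonneg fun _ _ => norm_nonneg _)
  · rw [integral_const_mul, integral_fintype_prod_volume_eq_prod (E := fun _ : I => ℝ) fun i x => ‖ω i x‖]

end Pool.Agent.S5
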