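import Pool.Agent.S5.S.Krn
import Pool.Agent.S5.S.LowA

/-!
# The terms of the sum with small indices

`Krn.Nd` is the factor of a node: at a node with integration variable which is at an edge with a small
index (left or right slot) it is `Q.lat`, otherwise `Q.k`. `Krn.Tl` is the product of all factors, as a
function of the variables of the edges and the nodes.
-/

set_option autoImplicit false

namespace Pool.Agent.S5

open Complex Filter Topology MeasureTheory
open Pool.Agent.S3 (Rf)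

variable {m : ℕ} {C : Ch m}

/-- The left slot of the node `i` is an edge with a small index. -/
def SlL (S : Finset (Fin m)) (i : Fin (m + 1)) : Prop := ∃ j ∈ S, j.succ = i

/-- The right slot of the node `i` is an edge with a small index. -/
def SlR (S : Finset (Fin m)) (i : Fin (m + 1)) : Prop := ∃ j ∈ S, j.castSucc = i

theorem tch_iff {S : Finset (Fin m)} {i : Fin (m + 1)} : Tch S i ↔ SlL S i ∨ SlR S i := by
  constructor
  · rintro ⟨j, hj, h | h⟩
    · exact Or.inr ⟨j, hj, h⟩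
    · exact Or.inl ⟨j, hj, h⟩
  · rintro (⟨j, hj, h⟩ | ⟨j, hj, h⟩)
    · exact ⟨j, hj, Or.inr h⟩
    · exact ⟨j, hj, Or.inl h⟩

theorem low_ye_succ (y : Fin m → ℂ) (j : Fin m) : ye y (j.succ : Fin (m + 1)) = y j := by
  unfold ye
  rw [dif_pos ⟨by simp, by simp [j.2]⟩]
  congr 1

theorem ye_cast (y : Fin m → ℂ) (j : Fin m) : ye y (((j.castSucc : Fin (m + 1)) : ℕ) + 1) = y j := by
  unfold ye
  rw [dif_pos ⟨by simp, by simp [j.2]⟩]
  congr 1

theorem ke_succ (M : ℕ) (κ : Fin m → ℕ) (j : Fin m) : ke M κ (j.succ : Fin (m + 1)) = κ j := by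
  unfold ke
  rw [dif_pos ⟨by simp, by simp [j.2]⟩]
  congr 1

theorem ke_cast (M : ℕ) (κ : Fin m → ℕ) (j : Fin m) :
    ke M κ (((j.castSucc : Fin (m + 1)) : ℕ) + 1) = κ j := by
  unfold ke
  rw [dif_pos ⟨by simp, by simp [j.2]⟩]
  congr 1

/-- The variable of a slot is the position of its label. -/
theorem ye_ke {M : ℕ} (hM : 0 < M) (κ : Fin m → ℕ) (n : ℕ) :
    yM M (ke M κ n) = ye (fun j => yM M (κ j)) n := by
  unfold ke ye
  split_ifs with h1 h2 h2
  · rfl
  · exact absurd ⟨by omega, h1.2⟩ h2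
  · exact absurd ⟨by omega, h2.2⟩ h1
  · unfold yM
    have hM0 : (M : ℂ) ≠ 0 := by exact_mod_cast hM.ne'
    rw [Nat.cast_sub (by omega), Nat.cast_one, sub_add_cancel, div_self hM0]
    norm_num

/-- Either an edge or the dummy. -/
theorem ye_cases {P : ℂ → Prop} (y : Fin m → ℂ) (h : ∀ j, P (y j)) (h1 : P (1 / 2)) (n : ℕ) :
    P (ye y n) := by
  unfold ye
  split_ifs
  · exact h _
  · exact h1

theorem low_ke_lt {M : ℕ} (hM : 0 < M) {κ : Fin m → ℕ} (h : ∀ j, κ j < M) (n : ℕ) : ke M κ n < M := by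
  unfold ke
  split_ifs
  · exact h _
  · omega

theorem ke_ge {M h0 : ℕ} (hM : h0 < M) {κ : Fin m → ℕ} (h : ∀ j, h0 ≤ κ j) (n : ℕ) : h0 ≤ ke M κ n := by
  unfold ke
  split_ifs
  · exact h _
  · omega

open Classical in
/-- The factor of the node `i`: own variable `z`, slots `a`, `b`; `κ` the labels of the edges, `X` the
lattice point. -/
noncomputable def Krn.Nd (Q : Krn C) (S : Finset (Fin m)) (M : ℕ) (κ : Fin m → ℕ) (X : ℕ)
    (i : Fin (m + 1)) (z a b : ℂ) : ℂ :=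
  if C.ty i = Ty.vn ∧ SlL S i then Q.lat i false M (ke M κ i) X b
  else if C.ty i = Ty.vn ∧ SlR S i then Q.lat i true M (ke M κ (i + 1)) X a
  else Q.k i M z a b

/-- The product of all factors: `c` are the points of the contours. -/
noncomputable def Krn.Tl (Q : Krn C) (S : Finset (Fin m)) (M : ℕ) (κ : Fin m → ℕ)
    (X : Fin (m + 1) → ℕ) (c : Fin (m + 1) → ℂ) (p : C.Ix → ℂ) : ℂ :=
  (∏ j, Q.w j M (p (Sum.inl j))) * ∏ i : Fin (m + 1), Q.Nd S M κ (X i) i
    (C.ow (fun v => c v) p i) (ye (fun j => p (Sum.inl j)) i) (ye (fun j => p (Sum.inl j)) (i + 1))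

theorem Ch.ow_zn (c : Fin (m + 1) → ℂ) (p : C.Ix → ℂ) {i : Fin (m + 1)} (h : C.ty i = Ty.zn) :
    C.ow (fun v => c v) p i = p (Sum.inr ⟨i, h⟩) := by
  unfold Ch.ow
  rw [dif_neg (by rw [h]; decide), dif_pos h]

theorem Ch.ow_vn (c : Fin (m + 1) → ℂ) (p : C.Ix → ℂ) {i : Fin (m + 1)} (h : C.ty i = Ty.vn) :
    C.ow (fun v => c v) p i = c i := by
  unfold Ch.ow
  rw [dif_pos h]

theorem Ch.ow_cl (c : Fin (m + 1) → ℂ) (p : C.Ix → ℂ) {i : Fin (m + 1)} (h : C.ty i = Ty.cl) :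
    C.ow (fun v => c v) p i = 0 := by
  unfold Ch.ow
  rw [dif_neg (by rw [h]; decide), dif_neg (by rw [h]; decide)]

theorem Dm.mono {M k0 k1 : ℕ} {d d' : ℝ} (hk : k1 ≤ k0) (hd : d ≤ d') : Dm M k0 d ⊆ Dm M k1 d' := by
  rintro z ⟨h1, h2, h3⟩
  refine ⟨le_trans ?_ h1, h2, h3.trans hd⟩
  rw [al_eq, al_eq]
  have : (k1 : ℝ) ≤ k0 := by exact_mod_cast hk
  gcongr

theorem half_mem {M k0 : ℕ} {d : ℝ} (hM : k0 + 2 ≤ M) (hd : 0 ≤ d) : (1 / 2 : ℂ) ∈ Dm M k0 d := by
  have h1 := al_le_br hM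
  have h2 := br_lt (show 0 < M by omega)
  have e : ((1 : ℂ) / 2).re = 1 / 2 := by norm_num
  have e' : ((1 : ℂ) / 2).im = 0 := by norm_num
  refine ⟨?_, ?_, ?_⟩
  · rw [e]; linarith
  · rw [e]
  · rw [e', abs_zero]; exact hd

/-- A finite product of differentiable functions. -/
theorem prod_diff {E ι : Type} [NormedAddCommGroup E] [NormedSpace ℂ E] [Fintype ι] {f : ι → E → ℂ} {x : E}
    (h : ∀ i, DifferentiableAt ℂ (f i) x) : DifferentiableAt ℂ (fun x => ∏ i, f i x) x := by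
  classical
  exact (HasFDerivAt.finsetProd (u := Finset.univ) fun i _ => (h i).hasFDerivAt).differentiableAt

private theorem ye_diff (n : ℕ) (p : C.Ix → ℂ) :
    DifferentiableAt ℂ (fun p : C.Ix → ℂ => ye (fun j => p (Sum.inl j)) n) p := by
  unfold ye
  split_ifs with h
  · exact differentiableAt_apply (𝕜 := ℂ) (Sum.inl ⟨n - 1, by omega⟩) p
  · exact differentiableAt_const _

/-- The product of all factors is differentiable. -/
theorem Krn.Tl_diff (Q : Krn C) (hQ : Q.OK) (S : Finset (Fin m)) (D : ℝ) (hD : 0 ≤ D) :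
    ∀ᶠ M : ℕ in atTop, ∀ (κ : Fin m → ℕ) (X : Fin (m + 1) → ℕ) (c : Fin (m + 1) → ℂ)
      (p : C.Ix → ℂ), (∀ i, X i < M) →
      (∀ i, C.ty i = Ty.vn → ¬ Tch S i → 0 < (c i).im ∧ |(c i).re| ≤ 1 / 2) →
      (∀ a, p a ∈ Dm M Q.h0 D) →
      DifferentiableAt ℂ (Q.Tl S M κ X c) p := by
  have h1 : ∀ᶠ M : ℕ in atTop, ∀ j, ∀ y ∈ Dm M Q.h0 D, DifferentiableAt ℂ (Q.w j M) y :=
    eventually_all.2 fun j => hQ.w_df j D
  have h2 : ∀ᶠ M : ℕ in atTop, ∀ i, ∀ z a b : ℂ, (C.ty i = Ty.zn → z ∈ Dm M Q.h0 D) →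
      (C.ty i = Ty.vn → 0 < z.im ∧ |z.re| ≤ 1 / 2) → a ∈ Dm M Q.h0 D → b ∈ Dm M Q.h0 D →
      DifferentiableAt ℂ (fun p : ℂ × ℂ × ℂ => Q.k i M p.1 p.2.1 p.2.2) (z, a, b) :=
    eventually_all.2 fun i => hQ.k_df i D
  have h3 : ∀ᶠ M : ℕ in atTop, ∀ i, C.ty i = Ty.vn → ∀ (sd : Bool) (κ X : ℕ), X < M →
      ∀ b ∈ Dm M Q.h0 D, DifferentiableAt ℂ (Q.lat i sd M κ X) b := by
    refine eventually_all.2 fun i => ?_
    by_cases h : C.ty i = Ty.vn
    · exact (hQ.lat_df i h D).mono fun M hM _ => hM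
    · exact Eventually.of_forall fun M hM => absurd hM h
  filter_upwards [h1, h2, h3, eventually_ge_atTop (Q.h0 + 2)] with M h1 h2 h3 hM κ X c p hX hc hp
  have hye : ∀ n, ye (fun j => p (Sum.inl j)) n ∈ Dm M Q.h0 D := fun n =>
    ye_cases (P := fun z => z ∈ Dm M Q.h0 D) _ (fun j => hp _) (half_mem hM hD) n
  unfold Krn.Tl
  refine DifferentiableAt.mul ?_ ?_
  · refine prod_diff fun j => ?_
    exact (h1 j _ (hp _)).comp p (differentiableAt_apply (𝕜 := ℂ) (Sum.inl j) p)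
  · refine prod_diff fun i => ?_
    unfold Krn.Nd
    split_ifs with hL hR
    · exact (h3 i hL.1 false _ _ (hX i) _ (hye (i + 1))).comp p (ye_diff _ p)
    · exact (h3 i hR.1 true _ _ (hX i) _ (hye i)).comp p (ye_diff _ p)
    · have hov : DifferentiableAt ℂ (fun p : C.Ix → ℂ => C.ow (fun v => c v) p i) p := by
        unfold Ch.ow
        split_ifs with h h'
        · exact differentiableAt_const _
        · exact differentiableAt_apply (𝕜 := ℂ) (Sum.inr ⟨i, h'⟩) p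
        · exact differentiableAt_const _
      have h4 := h2 i (C.ow (fun v => c v) p i) (ye (fun j => p (Sum.inl j)) i)
        (ye (fun j => p (Sum.inl j)) (i + 1)) (fun h => by
          rw [Ch.ow_zn c p h]
          exact hp _) (fun h => by
          rw [Ch.ow_vn c p h]
          refine hc i h fun ht => ?_
          rcases tch_iff.1 ht with h' | h'
          · exact hL ⟨h, h'⟩
          · exact hR ⟨h, h'⟩) (hye _) (hye _)
      exact h4.comp p (hov.prodMk ((ye_diff _ p).prodMk (ye_diff _ p)))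

end Pool.Agent.S5
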