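import Pool.Agent.S5.S.LowB

/-!
# The bound of the terms of the sum with small indices
-/

set_option autoImplicit false

namespace Pool.Agent.S5

open Complex Filter Topology MeasureTheory
open Pool.Agent.S3 (Rf)

variable {m : ℕ} {C : Ch m}

theorem yM_eq (M k : ℕ) : yM M k = ((yR M k : ℝ) : ℂ) := by
  unfold yM yR
  push_cast
  rfl

/-- The variable `o` of the node `i` in the growth rate. -/
def Krn.NdRel (Q : Krn C) (S : Finset (Fin m)) (M : ℕ) (c : Fin (m + 1) → ℂ) (p : C.Ix → ℂ)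
    (i : Fin (m + 1)) (o : ℂ) : Prop :=
  (C.ty i ≠ Ty.vn → o = C.ow (fun v => c v) p i) ∧ (C.ty i = Ty.vn → ¬ Tch S i → o = c i) ∧
    (C.ty i = Ty.vn → Tch S i → ∃ v : ℝ, o = v ∧ v ≤ 1 / 2 ∧
      ∀ j ∈ S, At j i → -(p (Sum.inl j)).re - Q.sh / M ≤ v)

/-- The conditions on the variables: edges and nodes `zn` in the domain, edges in `S` at lattice points,
points `c` on the contours. -/
structure Krn.TC (Q : Krn C) (S : Finset (Fin m)) (M : ℕ) (D κ0 B : ℝ) (κ : Fin m → ℕ)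
    (c : Fin (m + 1) → ℂ) (p : C.Ix → ℂ) : Prop where
  mem : ∀ a, p a ∈ Dm M Q.h0 D
  low : ∀ j ∈ S, Q.h0 ≤ κ j ∧ κ j < kq M ∧ p (Sum.inl j) = yM M (κ j)
  ctr : ∀ i, C.ty i = Ty.vn → ¬ Tch S i → 0 < (c i).im ∧ (c i).im ≤ B ∧ |(c i).re| ≤ 1 / 2 ∧
    κ0 * (1 / 2 - |(c i).re|) ≤ (c i).im

/-- The bound of the factor of a node. -/
theorem Krn.Nd_bd (Q : Krn C) (hQ : Q.OK) {S : Finset (Fin m)} (hS : Sep S) (i : Fin (m + 1)) {D : ℝ}
    (hD : 0 ≤ D) {κ0 : ℝ} (hκ0 : 0 < κ0) (B : ℝ) : ∃ A : ℝ, 0 < A ∧ ∃ q : ℕ, ∀ᶠ M : ℕ in atTop,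
    ∀ (κ : Fin m → ℕ) (X : ℕ) (c : Fin (m + 1) → ℂ) (p : C.Ix → ℂ), Q.TC S M D κ0 B κ c p →
      Q.Nd S M κ X i (C.ow (fun v => c v) p i) (ye (fun j => p (Sum.inl j)) i)
        (ye (fun j => p (Sum.inl j)) (i + 1)) = 0 ∨
      ∃ o : ℂ, Q.NdRel S M c p i o ∧
        ‖Q.Nd S M κ X i (C.ow (fun v => c v) p i) (ye (fun j => p (Sum.inl j)) i)
          (ye (fun j => p (Sum.inl j)) (i + 1))‖ ≤ A * (M : ℝ) ^ q *
          Real.exp (M * C.gn i o (ye (fun j => p (Sum.inl j)) i) (ye (fun j => p (Sum.inl j)) (i + 1))) := by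
  by_cases hv : C.ty i = Ty.vn
  · by_cases ht : Tch S i
    · obtain ⟨A, hA, q, h⟩ := hQ.lat_bd i hv D
      refine ⟨A, hA, q, ?_⟩
      filter_upwards [h, eventually_ge_atTop (Q.h0 + 2)] with M h hM κ X c p hp
      have hye : ∀ n, ye (fun j => p (Sum.inl j)) n ∈ Dm M Q.h0 D := fun n =>
        ye_cases (P := fun z => z ∈ Dm M Q.h0 D) _ (fun j => hp.mem _) (half_mem hM hD) n
      have hrel : ∀ j ∈ S, At j i → ∀ v : ℝ, v ≤ 1 / 2 → -(yR M (κ j)) - Q.sh / M ≤ v →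
          Q.NdRel S M c p i v := by
        intro j hj hji v hv1 hv2
        refine ⟨fun h => absurd hv h, fun _ h => absurd ht h, fun _ _ => ⟨v, rfl, hv1, ?_⟩⟩
        intro j' hj' hji'
        obtain rfl : j' = j := hS j' hj' j hj i hji' hji
        rw [(hp.low j' hj').2.2, yM_eq, ofReal_re]
        exact hv2
      by_cases hL : SlL S i
      · have e : ∀ z a b, Q.Nd S M κ X i z a b = Q.lat i false M (ke M κ i) X b := by
          intro z a b
          unfold Krn.Nd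
          rw [if_pos ⟨hv, hL⟩]
        rw [e]
        obtain ⟨j, hj, hji⟩ := hL
        have hlo := hp.low j hj
        have e1 : ke M κ i = κ j := by rw [← hji, ke_succ]
        have e2 : ye (fun j => p (Sum.inl j)) i = yM M (κ j) := by
          rw [← hji, low_ye_succ]
          exact hlo.2.2
        rw [e1]
        rcases h false (κ j) X hlo.1 hlo.2.1 _ (hye (i + 1)) with h0 | ⟨v, hv1, hv2, hv3⟩
        · exact Or.inl h0
        · refine Or.inr ⟨v, hrel j hj (Or.inr hji) v hv1 hv2, ?_⟩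
          rw [e2]
          simpa using hv3
      · have hR : SlR S i := (tch_iff.1 ht).resolve_left hL
        have e : ∀ z a b, Q.Nd S M κ X i z a b = Q.lat i true M (ke M κ (i + 1)) X a := by
          intro z a b
          unfold Krn.Nd
          rw [if_neg (fun h => hL h.2), if_pos ⟨hv, hR⟩]
        rw [e]
        obtain ⟨j, hj, hji⟩ := hR
        have hlo := hp.low j hj
        have e1 : ke M κ (i + 1) = κ j := by rw [← hji, ke_cast]
        have e2 : ye (fun j => p (Sum.inl j)) (i + 1) = yM M (κ j) := by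
          rw [← hji, ye_cast]
          exact hlo.2.2
        rw [e1]
        rcases h true (κ j) X hlo.1 hlo.2.1 _ (hye i) with h0 | ⟨v, hv1, hv2, hv3⟩
        · exact Or.inl h0
        · refine Or.inr ⟨v, hrel j hj (Or.inl hji) v hv1 hv2, ?_⟩
          rw [e2]
          simpa using hv3
    · obtain ⟨A, hA, q, h⟩ := hQ.v_bd i hv D κ0 B hκ0
      refine ⟨A, hA, q, ?_⟩
      filter_upwards [h, eventually_ge_atTop (Q.h0 + 2)] with M h hM κ X c p hp
      have hye : ∀ n, ye (fun j => p (Sum.inl j)) n ∈ Dm M Q.h0 D := fun n =>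
        ye_cases (P := fun z => z ∈ Dm M Q.h0 D) _ (fun j => hp.mem _) (half_mem hM hD) n
      have e : ∀ z a b, Q.Nd S M κ X i z a b = Q.k i M z a b := by
        intro z a b
        unfold Krn.Nd
        rw [if_neg (fun h => ht (tch_iff.2 (Or.inl h.2))), if_neg (fun h => ht (tch_iff.2 (Or.inr h.2)))]
      rw [e, Ch.ow_vn c p hv]
      obtain ⟨h1, h2, h3, h4⟩ := hp.ctr i hv ht
      refine Or.inr ⟨c i, ⟨fun h => absurd hv h, fun _ _ => rfl, fun _ h => absurd h ht⟩, ?_⟩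
      exact h (c i) _ _ h1 h2 h3 h4 (hye _) (hye _)
  · obtain ⟨A, hA, q, h⟩ := hQ.k_bd i hv D
    refine ⟨A, hA, q, ?_⟩
    filter_upwards [h, eventually_ge_atTop (Q.h0 + 2)] with M h hM κ X c p hp
    have hye : ∀ n, ye (fun j => p (Sum.inl j)) n ∈ Dm M Q.h0 D := fun n =>
      ye_cases (P := fun z => z ∈ Dm M Q.h0 D) _ (fun j => hp.mem _) (half_mem hM hD) n
    have e : ∀ z a b, Q.Nd S M κ X i z a b = Q.k i M z a b := by
      intro z a b
      unfold Krn.Nd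
      rw [if_neg (fun h => hv h.1), if_neg (fun h => hv h.1)]
    rw [e]
    refine Or.inr ⟨_, ⟨fun _ => rfl, fun h => absurd h hv, fun h => absurd h hv⟩, ?_⟩
    refine h _ _ _ (fun hz => ?_) (hye _) (hye _)
    rw [Ch.ow_zn c p hz]
    exact hp.mem _

/-- The bound of the product of all factors. -/
theorem Krn.Tl_bd (Q : Krn C) (hQ : Q.OK) {S : Finset (Fin m)} (hS : Sep S) {D : ℝ}
    (hD : 0 ≤ D) {κ0 : ℝ} (hκ0 : 0 < κ0) (B : ℝ) : ∃ A : ℝ, 0 < A ∧ ∃ q : ℕ, ∀ᶠ M : ℕ in atTop,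
    ∀ (κ : Fin m → ℕ) (X : Fin (m + 1) → ℕ) (c : Fin (m + 1) → ℂ) (p : C.Ix → ℂ),
      Q.TC S M D κ0 B κ c p → Q.Tl S M κ X c p ≠ 0 →
      ∃ o : Fin (m + 1) → ℂ, (∀ i, Q.NdRel S M c p i (o i)) ∧
        ‖Q.Tl S M κ X c p‖ ≤ A * (M : ℝ) ^ q * Real.exp (M * C.G o fun j => p (Sum.inl j)) := by
  choose Aw hAw qw hw using fun j => hQ.w_bd j D
  choose An hAn qn hn using fun i => Q.Nd_bd hQ hS i hD hκ0 B
  refine ⟨(∏ j, Aw j) * ∏ i, An i, mul_pos (Finset.prod_pos fun j _ => hAw j)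
    (Finset.prod_pos fun i _ => hAn i), (∑ j, qw j) + ∑ i, qn i, ?_⟩
  filter_upwards [eventually_all.2 hw, eventually_all.2 hn] with M hw hn κ X c p hp hne
  have hne' : ∀ i, Q.Nd S M κ (X i) i (C.ow (fun v => c v) p i) (ye (fun j => p (Sum.inl j)) i)
      (ye (fun j => p (Sum.inl j)) (i + 1)) ≠ 0 := by
    unfold Krn.Tl at hne
    intro i
    exact Finset.prod_ne_zero_iff.1 (right_ne_zero_of_mul hne) i (Finset.mem_univ i)
  choose o ho1 ho2 using fun i => (hn i κ (X i) c p hp).resolve_left (hne' i)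
  refine ⟨o, ho1, ?_⟩
  unfold Krn.Tl
  rw [norm_mul, norm_prod, norm_prod]
  have h1 : ∏ j, ‖Q.w j M (p (Sum.inl j))‖ ≤
      ∏ j, (Aw j * (M : ℝ) ^ qw j * Real.exp (M * (4 * Rf (p (Sum.inl j) + 1 / 2)))) :=
    Finset.prod_le_prod (fun _ _ => norm_nonneg _) fun j _ => hw j _ (hp.mem _)
  have h2 := Finset.prod_le_prod (s := Finset.univ) (fun i _ => norm_nonneg _) fun i _ => ho2 i
  refine (mul_le_mul h1 h2 (Finset.prod_nonneg fun _ _ => norm_nonneg _)
    (Finset.prod_nonneg fun j _ => by have := (hAw j).le; positivity)).trans (le_of_eq ?_)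
  have e1 : ∏ j, (Aw j * (M : ℝ) ^ qw j * Real.exp (M * (4 * Rf (p (Sum.inl j) + 1 / 2)))) =
      (∏ j, Aw j) * (M : ℝ) ^ (∑ j, qw j) *
        Real.exp (M * ∑ j, 4 * Rf (p (Sum.inl j) + 1 / 2)) := by
    rw [Finset.prod_mul_distrib, Finset.prod_mul_distrib, Finset.prod_pow_eq_pow_sum, ← Real.exp_sum,
      Finset.mul_sum]
  have e2 : ∏ i : Fin (m + 1), (An i * (M : ℝ) ^ qn i * Real.exp (M * C.gn i (o i)
      (ye (fun j => p (Sum.inl j)) i) (ye (fun j => p (Sum.inl j)) (i + 1)))) =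
      (∏ i, An i) * (M : ℝ) ^ (∑ i, qn i) * Real.exp (M * ∑ i : Fin (m + 1), C.gn i (o i)
        (ye (fun j => p (Sum.inl j)) i) (ye (fun j => p (Sum.inl j)) (i + 1))) := by
    rw [Finset.prod_mul_distrib, Finset.prod_mul_distrib, Finset.prod_pow_eq_pow_sum, ← Real.exp_sum,
      Finset.mul_sum]
  have e : C.G o (fun j => p (Sum.inl j)) = (∑ j, 4 * Rf (p (Sum.inl j) + 1 / 2)) +
      ∑ i : Fin (m + 1), C.gn i (o i) (ye (fun j => p (Sum.inl j)) i)
        (ye (fun j => p (Sum.inl j)) (i + 1)) := rfl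
  rw [e1, e2, e, mul_add, Real.exp_add, pow_add]
  ring

end Pool.Agent.S5
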