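import Pool.Agent.S5.S.LowC

/-!
# Lattice points and limits of the ranges
-/

set_option autoImplicit false

namespace Pool.Agent.S5

open Complex Filter Topology

variable {M : ℕ}

theorem yR_lo (hM : 0 < M) (k : ℕ) : -(1 / 2) ≤ yR M k := by
  unfold yR
  have : (0 : ℝ) ≤ ((k : ℝ) + 1) / M := by positivity
  linarith

theorem yR_hi (hM : 0 < M) {k : ℕ} (hk : k < M) : yR M k ≤ 1 / 2 := by
  have hM0 : (0 : ℝ) < M := by exact_mod_cast hM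
  have h1 : (k : ℝ) + 1 ≤ M := by exact_mod_cast hk
  unfold yR
  have : ((k : ℝ) + 1) / M ≤ 1 := by
    rw [div_le_one hM0]
    exact h1
  linarith

theorem yR_top (hM : 0 < M) : yR M ((M - 1 : ℕ) : ℝ) = 1 / 2 := by
  have hM0 : (0 : ℝ) < M := by exact_mod_cast hM
  unfold yR
  rw [Nat.cast_sub (by omega), Nat.cast_one, sub_add_cancel, div_self hM0.ne']
  norm_num

theorem yR_kq (hM : 0 < M) {k : ℕ} (hk : k < kq M) : yR M k ≤ -(1 / 4) + 1 / M := by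
  have hM0 : (0 : ℝ) < M := by exact_mod_cast hM
  have h1 : 4 * k ≤ M := by unfold kq at hk; omega
  have h2 : 4 * (k : ℝ) ≤ M := by exact_mod_cast h1
  unfold yR
  have h3 : ((k : ℝ) + 1) / M ≤ 1 / 4 + 1 / M := by
    rw [add_div]
    have : (k : ℝ) / M ≤ 1 / 4 := by
      rw [div_le_iff₀ hM0]
      linarith
    linarith
  linarith

theorem yR_add (hM : 0 < M) {k k' s : ℕ} (h : M ≤ k + k' + 1 + s) :
    (1 - (s : ℝ)) / M ≤ yR M k + yR M k' := by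
  have hM0 : (0 : ℝ) < M := by exact_mod_cast hM
  have h1 : (M : ℝ) ≤ k + k' + 1 + s := by exact_mod_cast h
  unfold yR
  have e : ((k : ℝ) + 1) / M - 1 / 2 + (((k' : ℝ) + 1) / M - 1 / 2) = ((k + k' + 2) - M) / M := by
    field_simp
    ring
  rw [e]
  exact div_le_div_of_nonneg_right (by linarith) hM0.le

theorem yR_sub (hM : 0 < M) {l k s : ℕ} (h : l ≤ k + s) : yR M l ≤ yR M k + s / M := by
  have hM0 : (0 : ℝ) < M := by exact_mod_cast hM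
  have h1 : (l : ℝ) ≤ k + s := by exact_mod_cast h
  unfold yR
  have e : ((k : ℝ) + 1) / M - 1 / 2 + s / M = ((k + s) + 1) / M - 1 / 2 := by ring
  rw [e]
  gcongr

theorem yR_kz1 (hM : 0 < M) {z1 : ℝ} {k : ℕ} (hk : kz1 M z1 ≤ k) : z1 - 1 / M ≤ yR M k := by
  have hM0 : (0 : ℝ) < M := by exact_mod_cast hM
  have h1 : (⌊(M : ℝ) * (1 / 2 + z1)⌋₊ : ℝ) ≤ k + 1 := by
    unfold kz1 at hk
    have : ⌊(M : ℝ) * (1 / 2 + z1)⌋₊ ≤ k + 1 := by omega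
    exact_mod_cast this
  have h2 := Nat.lt_floor_add_one ((M : ℝ) * (1 / 2 + z1))
  unfold yR
  have h3 : 1 / 2 + z1 - 1 / M ≤ ((k : ℝ) + 1) / M := by
    rw [le_div_iff₀ hM0]
    have : (1 / 2 + z1 - 1 / (M : ℝ)) * M = M * (1 / 2 + z1) - 1 := by field_simp
    rw [this]
    linarith
  linarith

theorem yR_kz0 (hM : 0 < M) {z1 : ℝ} (hz : z1 ≤ 1 / 2) {k : ℕ} (hk : k < kz0 M z1) :
    yR M k ≤ -z1 + 1 / M := by
  have hM0 : (0 : ℝ) < M := by exact_mod_cast hM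
  have h0 : (0 : ℝ) ≤ (M : ℝ) * (1 / 2 - z1) := mul_nonneg hM0.le (by linarith)
  have h1 : (k : ℝ) ≤ ⌊(M : ℝ) * (1 / 2 - z1)⌋₊ := by
    unfold kz0 at hk
    have : k ≤ ⌊(M : ℝ) * (1 / 2 - z1)⌋₊ := by omega
    exact_mod_cast this
  have h2 := Nat.floor_le h0
  unfold yR
  have h3 : ((k : ℝ) + 1) / M ≤ 1 / 2 - z1 + 1 / M := by
    rw [div_le_iff₀ hM0]
    have : (1 / 2 - z1 + 1 / (M : ℝ)) * M = M * (1 / 2 - z1) + 1 := by field_simp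
    rw [this]
    linarith
  linarith

theorem al_kq (hM : 0 < M) : -(1 / 4) ≤ al M (kq M) ∧ al M (kq M) ≤ -(1 / 4) + 2 / M := by
  have hM0 : (0 : ℝ) < M := by exact_mod_cast hM
  rw [al_eq]
  have h1 : (M : ℝ) ≤ 4 * (kq M : ℝ) := by
    have : M ≤ 4 * kq M := by unfold kq; omega
    exact_mod_cast this
  have h2 : 4 * (kq M : ℝ) ≤ M + 4 := by
    have : 4 * kq M ≤ M + 4 := by unfold kq; omega
    exact_mod_cast this
  constructor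
  · have h3 : 1 / 4 ≤ ((kq M : ℝ) + 1 / 2) / M := by
      rw [le_div_iff₀ hM0]
      linarith
    linarith
  · have h3 : ((kq M : ℝ) + 1 / 2) / M ≤ 1 / 4 + 2 / M := by
      rw [div_le_iff₀ hM0]
      have : (1 / 4 + 2 / (M : ℝ)) * M = M / 4 + 2 := by field_simp
      rw [this]
      linarith
    linarith

theorem al_kz0 (hM : 0 < M) {z1 : ℝ} (hz : z1 ≤ 1 / 2) :
    -z1 ≤ al M (kz0 M z1) ∧ al M (kz0 M z1) ≤ -z1 + 2 / M := by
  have hM0 : (0 : ℝ) < M := by exact_mod_cast hM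
  have h0 : (0 : ℝ) ≤ (M : ℝ) * (1 / 2 - z1) := mul_nonneg hM0.le (by linarith)
  have h2 := Nat.floor_le h0
  have h3 := Nat.lt_floor_add_one ((M : ℝ) * (1 / 2 - z1))
  rw [al_eq]
  have e : ((kz0 M z1 : ℕ) : ℝ) = (⌊(M : ℝ) * (1 / 2 - z1)⌋₊ : ℝ) + 1 := by
    unfold kz0
    push_cast
    ring
  rw [e]
  constructor
  · have h4 : 1 / 2 - z1 ≤ ((⌊(M : ℝ) * (1 / 2 - z1)⌋₊ : ℝ) + 1 + 1 / 2) / M := by
      rw [le_div_iff₀ hM0]
      linarith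
    linarith
  · have h4 : ((⌊(M : ℝ) * (1 / 2 - z1)⌋₊ : ℝ) + 1 + 1 / 2) / M ≤ 1 / 2 - z1 + 2 / M := by
      rw [div_le_iff₀ hM0]
      have : (1 / 2 - z1 + 2 / (M : ℝ)) * M = M * (1 / 2 - z1) + 2 := by field_simp
      rw [this]
      linarith
    linarith

theorem al_kz1 (hM : 0 < M) {z1 : ℝ} (hz : 1 ≤ (M : ℝ) * (1 / 2 + z1)) :
    z1 - 2 / M ≤ al M (kz1 M z1) ∧ al M (kz1 M z1) ≤ z1 := by
  have hM0 : (0 : ℝ) < M := by exact_mod_cast hM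
  have h2 := Nat.floor_le (zero_le_one.trans hz)
  have h3 := Nat.lt_floor_add_one ((M : ℝ) * (1 / 2 + z1))
  have h4 : 1 ≤ ⌊(M : ℝ) * (1 / 2 + z1)⌋₊ := by
    rw [Nat.one_le_floor_iff]
    exact hz
  rw [al_eq]
  have e : ((kz1 M z1 : ℕ) : ℝ) = (⌊(M : ℝ) * (1 / 2 + z1)⌋₊ : ℝ) - 1 := by
    unfold kz1
    rw [Nat.cast_sub h4]
    norm_num
  rw [e]
  constructor
  · have h4 : 1 / 2 + z1 - 2 / M ≤ ((⌊(M : ℝ) * (1 / 2 + z1)⌋₊ : ℝ) - 1 + 1 / 2) / M := by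
      rw [le_div_iff₀ hM0]
      have : (1 / 2 + z1 - 2 / (M : ℝ)) * M = M * (1 / 2 + z1) - 2 := by field_simp
      rw [this]
      linarith
    linarith
  · have h4 : ((⌊(M : ℝ) * (1 / 2 + z1)⌋₊ : ℝ) - 1 + 1 / 2) / M ≤ 1 / 2 + z1 := by
      rw [div_le_iff₀ hM0]
      linarith
    linarith

theorem kz1_lt (hM : 0 < M) {z1 : ℝ} (hz : z1 < 1 / 2) : kz1 M z1 < M := by
  have hM0 : (0 : ℝ) < M := by exact_mod_cast hM
  have h1 : ⌊(M : ℝ) * (1 / 2 + z1)⌋₊ ≤ M := by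
    refine Nat.floor_le_of_le ?_
    nlinarith
  unfold kz1
  omega

theorem PtU_cases {k0 k1 : ℕ} {d η t0 r w : ℝ} {z : ℂ} (h : PtU M k0 k1 d η t0 r z w) :
    (w = 0 ∧ z.im = η ∧ al M k0 ≤ z.re ∧ z.re ≤ rb M k1) ∨
    (w = 0 ∧ (z.re = al M k0 ∨ z.re = rb M k1) ∧ z.im ∈ Set.uIcc 0 η) ∨
    (w = 2 * Real.pi * |z.im| ∧ (z.re = al M k0 ∨ z.re = rb M k1) ∧ |z.im| ≤ d) ∨
    (w = 2 * Real.pi * d ∧ |z.im| = d ∧ al M k0 ≤ z.re ∧ z.re ≤ rb M k1) ∨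
    (w = 0 ∧ z = 1 / 2 ∧ k1 = M) := by
  unfold PtU at h
  unfold rb
  split_ifs at h with hk
  · rw [if_pos hk]
    rcases h with ⟨h1, h2, h3, h4⟩ | h | h | ⟨h1, h2, h3⟩ | ⟨h1, h2⟩
    · exact Or.inl ⟨h1, h2, h3.1, h3.2⟩
    · exact Or.inr (Or.inl h)
    · exact Or.inr (Or.inr (Or.inl h))
    · exact Or.inr (Or.inr (Or.inr (Or.inl ⟨h1, h2, h3.1, h3.2⟩)))
    · exact Or.inr (Or.inr (Or.inr (Or.inr ⟨h1, h2, hk⟩)))
  · rw [if_neg hk]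
    rcases h with ⟨h1, h2, h3, h4⟩ | h | h | ⟨h1, h2, h3⟩
    · exact Or.inl ⟨h1, h2, h3.1, h3.2⟩
    · exact Or.inr (Or.inl h)
    · exact Or.inr (Or.inr (Or.inl h))
    · exact Or.inr (Or.inr (Or.inr (Or.inl ⟨h1, h2, h3.1, h3.2⟩)))

theorem shift_dist (z : ℂ) (x : ℝ) : ‖z - ((x : ℂ) + (z.im : ℂ) * I)‖ = |z.re - x| := by
  have e : z - ((x : ℂ) + (z.im : ℂ) * I) = ((z.re - x : ℝ) : ℂ) := by
    apply Complex.ext <;> simp
  rw [e, Complex.norm_real, Real.norm_eq_abs]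

/-- The points of the contours are near the limits of the contours. -/
theorem lim_R {k0 k1 : ℕ} {d η t0 r w x0 x1 ρ : ℝ} {z : ℂ} (hρ : 0 ≤ ρ) (h0 : x0 ≤ al M k0)
    (h0' : al M k0 ≤ x0 + ρ) (h1 : rb M k1 ≤ x1) (h1' : x1 ≤ rb M k1 + ρ) (h2 : k1 = M → x1 = 1 / 2)
    (h : PtU M k0 k1 d η t0 r z w) : ∃ z', LimR x0 x1 d η z' w ∧ ‖z - z'‖ ≤ ρ := by
  rcases PtU_cases h with ⟨a1, a2, a3, a4⟩ | ⟨a1, a2, a3⟩ | ⟨a1, a2, a3⟩ | ⟨a1, a2, a3, a4⟩ | ⟨a1, a2, a3⟩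
  · exact ⟨z, Or.inl ⟨a1, a2, h0.trans a3, a4.trans h1⟩, by simpa using hρ⟩
  · rcases a2 with a2 | a2
    · refine ⟨(x0 : ℂ) + (z.im : ℂ) * I, Or.inr (Or.inl ⟨a1, Or.inl (by simp), by simpa using a3⟩), ?_⟩
      rw [shift_dist, abs_le]
      constructor <;> linarith
    · refine ⟨(x1 : ℂ) + (z.im : ℂ) * I, Or.inr (Or.inl ⟨a1, Or.inr (by simp), by simpa using a3⟩), ?_⟩
      rw [shift_dist, abs_le]
      constructor <;> linarith
  · rcases a2 with a2 | a2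
    · refine ⟨(x0 : ℂ) + (z.im : ℂ) * I,
        Or.inr (Or.inr (Or.inl ⟨by simpa using a1, Or.inl (by simp), by simpa using a3⟩)), ?_⟩
      rw [shift_dist, abs_le]
      constructor <;> linarith
    · refine ⟨(x1 : ℂ) + (z.im : ℂ) * I,
        Or.inr (Or.inr (Or.inl ⟨by simpa using a1, Or.inr (by simp), by simpa using a3⟩)), ?_⟩
      rw [shift_dist, abs_le]
      constructor <;> linarith
  · exact ⟨z, Or.inr (Or.inr (Or.inr ⟨a1, a2, h0.trans a3, a4.trans h1⟩)), by simpa using hρ⟩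
  · refine ⟨z, Or.inr (Or.inl ⟨a1, Or.inr ?_, ?_⟩), by simpa using hρ⟩
    · rw [a2, h2 a3]
      norm_num
    · rw [a2]
      have : ((1 : ℂ) / 2).im = 0 := by norm_num
      rw [this]
      exact Set.left_mem_uIcc

/-- Clamping. -/
theorem clamp {o lo hi δ : ℝ} (h : lo ≤ hi) (h1 : lo - δ ≤ o) (h2 : o ≤ hi + δ) (hδ : 0 ≤ δ) :
    |o - max lo (min o hi)| ≤ δ := by
  rcases le_total o hi with h3 | h3
  · rw [min_eq_left h3]
    rcases le_total lo o with h4 | h4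
    · rw [max_eq_right h4, sub_self, abs_zero]
      exact hδ
    · rw [max_eq_left h4, abs_le]
      constructor <;> linarith
  · rw [min_eq_right h3, max_eq_right h, abs_le]
    constructor <;> linarith

end Pool.Agent.S5
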