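import Pool.Agent.S5.S.LowD

/-!
# Free and fixed variables of a pattern; supports
-/

set_option autoImplicit false

namespace Pool.Agent.S5

open Complex Filter Topology

variable {m : ℕ} {C : Ch m}

/-- The free variables of a pattern. -/
def Fr (C : Ch m) (P : Pat m) : C.Ix → Prop
  | Sum.inl j => j ∉ P.S ∧ ¬ Prt C P j
  | Sum.inr i => ¬ Tch P.S i ∧ P.H i = 0

/-- The first index of the range of a free variable. -/
noncomputable def K0 (C : Ch m) (K : Cn m) (M : ℕ) : C.Ix → ℕ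
  | Sum.inl _ => kq M
  | Sum.inr i => kz0 M (K.z1 i)

/-- The end of the range of a free variable. -/
noncomputable def K1 (C : Ch m) (K : Cn m) (M : ℕ) : C.Ix → ℕ
  | Sum.inl _ => M
  | Sum.inr i => kz1 M (K.z1 i)

/-- The depth of the rectangle of a free variable. -/
noncomputable def LowDd (C : Ch m) (K : Cn m) : C.Ix → ℝ
  | Sum.inl _ => K.d
  | Sum.inr i => K.dz i

/-- The height of the flat part. -/
noncomputable def Et (C : Ch m) (K : Cn m) : C.Ix → ℝ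
  | Sum.inl j => (K.yc j).im
  | Sum.inr i => (K.oc i).im

/-- The real part of the critical point. -/
noncomputable def T0 (C : Ch m) (K : Cn m) : C.Ix → ℝ
  | Sum.inl j => (K.yc j).re
  | Sum.inr i => (K.oc i).re

/-- The ranges of the indices. -/
noncomputable def Krn.RG (Q : Krn C) (K : Cn m) (P : Pat m) (M : ℕ) : C.Ix → Finset ℕ :=
  Sum.elim (Q.RS M P.S) (fun i : C.Zn => Q.ZS K P M i)

/-- The slot of the Bailey step. -/
def nys (C : Ch m) (i : Fin (m + 1)) : ℕ := if C.fl i = true then (i : ℕ) + 1 else i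

/-- The other slot. -/
def nyt (C : Ch m) (i : Fin (m + 1)) : ℕ := if C.fl i = true then (i : ℕ) else (i : ℕ) + 1

theorem ys_eq (y : Fin m → ℂ) (i : Fin (m + 1)) :
    ys (C.fl i) (ye y i) (ye y (i + 1)) = ye y (nys C i) := by
  unfold ys nys
  split_ifs <;> rfl

theorem yt_eq (y : Fin m → ℂ) (i : Fin (m + 1)) :
    yt (C.fl i) (ye y i) (ye y (i + 1)) = ye y (nyt C i) := by
  unfold yt nyt
  split_ifs <;> rfl

theorem isYs_iff {i : Fin (m + 1)} {j : Fin m} : IsYs C i j ↔ (j : ℕ) + 1 = nys C i := by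
  unfold IsYs nys
  split_ifs
  · rw [Fin.ext_iff, Fin.val_castSucc]
    omega
  · rw [Fin.ext_iff, Fin.val_succ]

theorem isYt_iff {i : Fin (m + 1)} {j : Fin m} : IsYt C i j ↔ (j : ℕ) + 1 = nyt C i := by
  unfold IsYt nyt
  split_ifs
  · rw [Fin.ext_iff, Fin.val_succ]
  · rw [Fin.ext_iff, Fin.val_castSucc]
    omega

theorem at_iff {i : Fin (m + 1)} {j : Fin m} : At j i ↔ (j : ℕ) + 1 = i ∨ (j : ℕ) + 1 = i + 1 := by
  unfold At
  rw [Fin.ext_iff, Fin.ext_iff, Fin.val_succ, Fin.val_castSucc]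
  omega

theorem nys_nyt (C : Ch m) (i : Fin (m + 1)) :
    (nys C i = i + 1 ∧ nyt C i = i) ∨ (nys C i = i ∧ nyt C i = i + 1) := by
  unfold nys nyt
  split_ifs
  · exact Or.inl ⟨rfl, rfl⟩
  · exact Or.inr ⟨rfl, rfl⟩

theorem ye_edge (y : Fin m → ℂ) {n : ℕ} {j : Fin m} (h : (j : ℕ) + 1 = n) : ye y n = y j := by
  subst h
  unfold ye
  rw [dif_pos ⟨by omega, by omega⟩]
  congr 1

theorem ke_edge (M : ℕ) (κ : Fin m → ℕ) {n : ℕ} {j : Fin m} (h : (j : ℕ) + 1 = n) : ke M κ n = κ j := by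
  subst h
  unfold ke
  rw [dif_pos ⟨by omega, by omega⟩]
  congr 1

/-- A slot is an edge or missing. -/
theorem slot_cases (m : ℕ) (n : ℕ) : (∃ j : Fin m, (j : ℕ) + 1 = n) ∨
    ((∀ j : Fin m, (j : ℕ) + 1 ≠ n) ∧ (∀ y : Fin m → ℂ, ye y n = 1 / 2) ∧
      ∀ (M : ℕ) (κ : Fin m → ℕ), ke M κ n = M - 1) := by
  by_cases h : 0 < n ∧ n ≤ m
  · exact Or.inl ⟨⟨n - 1, by omega⟩, by simp only; omega⟩
  · refine Or.inr ⟨fun j hj => h ⟨by omega, by omega⟩, fun y => ?_, fun M κ => ?_⟩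
    · unfold ye
      rw [dif_neg h]
    · unfold ke
      rw [dif_neg (by omega)]

/-- The fixed variables are at lattice points, the free variables on the contours, with weights `w`. -/
structure Krn.FC (Q : Krn C) (K : Cn m) (P : Pat m) (M : ℕ) (κ : C.Ix → ℕ) (p : C.Ix → ℂ)
    (w : C.Ix → ℝ) : Prop where
  fx : ∀ a, ¬ Fr C P a → κ a ∈ Q.RG K P M a ∧ p a = yM M (κ a) ∧ w a = 0
  fr : ∀ a, Fr C P a → PtU M (K0 C K M a) (K1 C K M a) (LowDd C K a) (Et C K a) (T0 C K a) 0 (p a) (w a)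

/-- The slot `n` is an edge with a small index. -/
def SSp (P : Pat m) (n : ℕ) : Prop := ∃ j ∈ P.S, (j : ℕ) + 1 = n

/-- The slot `n` is a forced edge or missing. -/
def SP (C : Ch m) (P : Pat m) (n : ℕ) : Prop := ∀ j : Fin m, (j : ℕ) + 1 = n → j ∉ P.S ∧ Prt C P j

theorem tch_slots {P : Pat m} (hP : P.OK C) {i : Fin (m + 1)} (ht : Tch P.S i) (hv : C.ty i ≠ Ty.vn) :
    (SSp P i ∧ SP C P (i + 1)) ∨ (SP C P i ∧ SSp P (i + 1)) := by
  obtain ⟨j, hj, hji⟩ := ht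
  have key : ∀ j' : Fin m, At j' i → j' ≠ j → j' ∉ P.S ∧ Prt C P j' := by
    intro j' hj' hne
    have h1 : j' ∉ P.S := fun h => hne (hP.sep j' h j hj i hj' hji)
    exact ⟨h1, h1, i, hj', hv, Or.inl ⟨j, hj, hji⟩⟩
  rcases at_iff.1 hji with h | h
  · refine Or.inl ⟨⟨j, hj, h⟩, fun j' h' => key j' (at_iff.2 (Or.inr h')) ?_⟩
    rintro rfl
    omega
  · refine Or.inr ⟨fun j' h' => key j' (at_iff.2 (Or.inl h')) ?_, ⟨j, hj, h⟩⟩
    rintro rfl
    omega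

theorem ys_slot {P : Pat m} {i : Fin (m + 1)} (ht : ¬ Tch P.S i) (hv : C.ty i ≠ Ty.vn)
    (hH : P.H i = 1) : SP C P (nys C i) := by
  intro j hj
  have ha : At j i := by
    rw [at_iff]
    rcases nys_nyt C i with h | h <;> omega
  have h1 : j ∉ P.S := fun h => ht ⟨j, h, ha⟩
  exact ⟨h1, h1, i, ha, hv, Or.inr (Or.inl ⟨hH, isYs_iff.2 hj⟩)⟩

theorem yt_slot {P : Pat m} {i : Fin (m + 1)} (ht : ¬ Tch P.S i) (hv : C.ty i ≠ Ty.vn)
    (hH : P.H i = -1) : SP C P (nyt C i) := by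
  intro j hj
  have ha : At j i := by
    rw [at_iff]
    rcases nys_nyt C i with h | h <;> omega
  have h1 : j ∉ P.S := fun h => ht ⟨j, h, ha⟩
  exact ⟨h1, h1, i, ha, hv, Or.inr (Or.inr ⟨hH, isYt_iff.2 hj⟩)⟩

section

variable {Q : Krn C} {K : Cn m} {P : Pat m} {M : ℕ} {κ : C.Ix → ℕ} {p : C.Ix → ℂ} {w : C.Ix → ℝ}

theorem Krn.FC.lt (h : Q.FC K P M κ p w) (hM : 4 ≤ M) (hz : ∀ i : C.Zn, 1 / 4 ≤ K.z1 i) {a : C.Ix}
    (ha : ¬ Fr C P a) : κ a < M := by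
  have h1 := (h.fx a ha).1
  have hkq : kq M ≤ M := by unfold kq; omega
  rcases a with j | i
  · have h2 : κ (Sum.inl j) ∈ Q.RS M P.S j := h1
    unfold Krn.RS at h2
    split_ifs at h2
    · exact (Finset.mem_Ico.1 h2).2.trans_le hkq
    · exact (Finset.mem_Ico.1 h2).2
  · have h2 : κ (Sum.inr i) ∈ Q.ZS K P M i := h1
    unfold Krn.ZS at h2
    split_ifs at h2 with h3 h4 h5
    · exact (Finset.mem_Ico.1 h2).2
    · exact absurd ⟨h3, h4⟩ ha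
    · exact (Finset.mem_Ico.1 h2).2
    · refine (Finset.mem_Ico.1 h2).2.trans_le ?_
      have h6 : ⌊(M : ℝ) * (1 / 2 - K.z1 i)⌋₊ ≤ M / 2 := by
        rw [Nat.le_div_iff_mul_le (by norm_num)]
        have h7 : ((⌊(M : ℝ) * (1 / 2 - K.z1 i)⌋₊ : ℕ) : ℝ) * 2 ≤ M := by
          by_cases h8 : 0 ≤ (M : ℝ) * (1 / 2 - K.z1 i)
          · have h9 := Nat.floor_le h8
            have h10 := hz i
            have h11 : (0 : ℝ) ≤ M := by positivity
            nlinarith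
          · push Not at h8
            rw [Nat.floor_of_nonpos h8.le]
            simp
        exact_mod_cast h7
      unfold kz0
      omega

theorem Krn.FC.slot (h : Q.FC K P M κ p w) (hM : 0 < M) {n : ℕ}
    (hn : ∀ j : Fin m, (j : ℕ) + 1 = n → ¬ Fr C P (Sum.inl j)) :
    ye (fun j => p (Sum.inl j)) n = yM M (ke M (fun j => κ (Sum.inl j)) n) := by
  rw [ye_ke hM]
  rcases slot_cases m n with ⟨j, hj⟩ | ⟨-, h1, -⟩
  · rw [ye_edge _ hj, ye_edge _ hj]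
    exact (h.fx _ (hn j hj)).2.1
  · rw [h1, h1]

theorem SSp.not_fr {n : ℕ} (h : SSp P n) {j : Fin m} (hj : (j : ℕ) + 1 = n) : ¬ Fr C P (Sum.inl j) := by
  obtain ⟨j', h1, h2⟩ := h
  obtain rfl : j' = j := Fin.ext (by omega)
  exact fun h => h.1 h1

theorem SP.not_fr {n : ℕ} (h : SP C P n) {j : Fin m} (hj : (j : ℕ) + 1 = n) :
    ¬ Fr C P (Sum.inl j) := fun h' => h'.2 (h j hj).2

theorem Krn.FC.slotS (h : Q.FC K P M κ p w) (hM : 0 < M) {n : ℕ} (hn : SSp P n) :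
    ye (fun j => p (Sum.inl j)) n = yM M (ke M (fun j => κ (Sum.inl j)) n) :=
  h.slot hM fun _ hj => hn.not_fr hj

theorem Krn.FC.slotP (h : Q.FC K P M κ p w) (hM : 0 < M) {n : ℕ} (hn : SP C P n) :
    ye (fun j => p (Sum.inl j)) n = yM M (ke M (fun j => κ (Sum.inl j)) n) :=
  h.slot hM fun _ hj => hn.not_fr hj

theorem Krn.FC.low_ke_lt (h : Q.FC K P M κ p w) (hM : 4 ≤ M) (hz : ∀ i : C.Zn, 1 / 4 ≤ K.z1 i) {n : ℕ}
    (hn : ∀ j : Fin m, (j : ℕ) + 1 = n → ¬ Fr C P (Sum.inl j)) :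
    ke M (fun j => κ (Sum.inl j)) n < M := by
  rcases slot_cases m n with ⟨j, hj⟩ | ⟨-, -, h1⟩
  · rw [ke_edge _ _ hj]
    exact h.lt hM hz (hn j hj)
  · rw [h1]
    omega

/-- The factors of a nonzero product are not zero. -/
theorem Krn.Nd_ne {X : Fin (m + 1) → ℕ} {c : Fin (m + 1) → ℂ} {κ' : Fin m → ℕ}
    (h : Q.Tl P.S M κ' X c p ≠ 0) (i : Fin (m + 1)) :
    Q.Nd P.S M κ' (X i) i (C.ow (fun v => c v) p i) (ye (fun j => p (Sum.inl j)) i)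
      (ye (fun j => p (Sum.inl j)) (i + 1)) ≠ 0 := by
  unfold Krn.Tl at h
  exact Finset.prod_ne_zero_iff.1 (right_ne_zero_of_mul h) i (Finset.mem_univ i)

theorem Krn.Nd_k {S : Finset (Fin m)} {κ' : Fin m → ℕ} {X : ℕ} {i : Fin (m + 1)} (hv : C.ty i ≠ Ty.vn)
    (z a b : ℂ) : Q.Nd S M κ' X i z a b = Q.k i M z a b := by
  unfold Krn.Nd
  rw [if_neg (fun h => hv h.1), if_neg (fun h => hv h.1)]

/-- The support at a closed node. -/
theorem Krn.FC.sup_cl (hQ : Q.OK) (hP : P.OK C) (h : Q.FC K P M κ p w) (hM : 4 ≤ M)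
    (hz : ∀ i : C.Zn, 1 / 4 ≤ K.z1 i) {X : Fin (m + 1) → ℕ} {c : Fin (m + 1) → ℂ}
    (hne : Q.Tl P.S M (fun j => κ (Sum.inl j)) X c p ≠ 0) {i : Fin (m + 1)} (hi : C.ty i = Ty.cl)
    (ht : Tch P.S i) :
    M ≤ ke M (fun j => κ (Sum.inl j)) i + ke M (fun j => κ (Sum.inl j)) (i + 1) + 1 + Q.sh := by
  have hv : C.ty i ≠ Ty.vn := by rw [hi]; decide
  have hnd := Krn.Nd_ne hne i
  rw [Krn.Nd_k hv] at hnd
  by_contra hcon
  push Not at hcon
  have hs : (∀ j : Fin m, (j : ℕ) + 1 = i → ¬ Fr C P (Sum.inl j)) ∧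
      ∀ j : Fin m, (j : ℕ) + 1 = i + 1 → ¬ Fr C P (Sum.inl j) := by
    rcases tch_slots hP ht hv with ⟨h1, h2⟩ | ⟨h1, h2⟩
    · exact ⟨fun _ hj => h1.not_fr hj, fun _ hj => h2.not_fr hj⟩
    · exact ⟨fun _ hj => h1.not_fr hj, fun _ hj => h2.not_fr hj⟩
  rw [h.slot (by omega) hs.1, h.slot (by omega) hs.2] at hnd
  exact hnd (hQ.z_cl i hi M _ _ (h.low_ke_lt hM hz hs.1) (h.low_ke_lt hM hz hs.2) hcon _)

/-- The support at a node `zn`: the slot of the Bailey step. -/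
theorem Krn.FC.sup_ys (hQ : Q.OK) (h : Q.FC K P M κ p w) (hM : 4 ≤ M)
    (hz : ∀ i : C.Zn, 1 / 4 ≤ K.z1 i) {X : Fin (m + 1) → ℕ} {c : Fin (m + 1) → ℂ}
    (hne : Q.Tl P.S M (fun j => κ (Sum.inl j)) X c p ≠ 0) {i : Fin (m + 1)} (hi : C.ty i = Ty.zn)
    (hf : ¬ Fr C P (Sum.inr ⟨i, hi⟩)) (hs : ∀ j : Fin m, (j : ℕ) + 1 = nys C i → ¬ Fr C P (Sum.inl j)) :
    κ (Sum.inr ⟨i, hi⟩) ≤ ke M (fun j => κ (Sum.inl j)) (nys C i) + Q.sh := by
  have hv : C.ty i ≠ Ty.vn := by rw [hi]; decide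
  have hnd := Krn.Nd_ne hne i
  rw [Krn.Nd_k hv, Ch.ow_zn c p hi, (h.fx _ hf).2.1] at hnd
  by_contra hcon
  push Not at hcon
  have e := h.slot (by omega) hs
  have h1 := hQ.z_zn i hi M _ _ (h.lt hM hz hf) (h.low_ke_lt hM hz hs)
  unfold nys at e h1 hcon
  by_cases hfl : C.fl i = true
  · simp only [if_pos hfl] at e h1 hcon
    rw [e] at hnd
    exact hnd ((h1 _).1 hcon)
  · simp only [if_neg hfl] at e h1 hcon
    rw [e] at hnd
    exact hnd ((h1 _).1 hcon)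

/-- The support at a node `zn`: the other slot. -/
theorem Krn.FC.sup_yt (hQ : Q.OK) (h : Q.FC K P M κ p w) (hM : 4 ≤ M)
    (hz : ∀ i : C.Zn, 1 / 4 ≤ K.z1 i) {X : Fin (m + 1) → ℕ} {c : Fin (m + 1) → ℂ}
    (hne : Q.Tl P.S M (fun j => κ (Sum.inl j)) X c p ≠ 0) {i : Fin (m + 1)} (hi : C.ty i = Ty.zn)
    (hf : ¬ Fr C P (Sum.inr ⟨i, hi⟩)) (hs : ∀ j : Fin m, (j : ℕ) + 1 = nyt C i → ¬ Fr C P (Sum.inl j)) :
    M ≤ κ (Sum.inr ⟨i, hi⟩) + ke M (fun j => κ (Sum.inl j)) (nyt C i) + 1 + Q.sh := by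
  have hv : C.ty i ≠ Ty.vn := by rw [hi]; decide
  have hnd := Krn.Nd_ne hne i
  rw [Krn.Nd_k hv, Ch.ow_zn c p hi, (h.fx _ hf).2.1] at hnd
  by_contra hcon
  push Not at hcon
  have e := h.slot (by omega) hs
  have h1 := hQ.z_zn i hi M _ _ (h.lt hM hz hf) (h.low_ke_lt hM hz hs)
  unfold nyt at e h1 hcon
  by_cases hfl : C.fl i = true
  · simp only [if_pos hfl] at e h1 hcon
    rw [e] at hnd
    exact hnd ((h1 _).2 hcon)
  · simp only [if_neg hfl] at e h1 hcon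
    rw [e] at hnd
    exact hnd ((h1 _).2 hcon)

end

end Pool.Agent.S5
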