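import Pool.Agent.S5.S.LowE

/-!
# The limit configuration near the variables of a nonzero term
-/

set_option autoImplicit false

namespace Pool.Agent.S5

open Complex Filter Topology

variable {m : ℕ} {C : Ch m}

/-- The conditions of `AdmC` at the node `i`. -/
structure LowNA (C : Ch m) (K : Cn m) (P : Pat m) (y : Fin m → ℂ) (w : ℝ) (i : Fin (m + 1)) (o : ℂ) :
    Prop where
  zl : C.ty i = Ty.zn → Tch P.S i → o.im = 0 ∧ -(1 / 2) ≤ o.re ∧ o.re ≤ 1 / 2 ∧
    o.re ≤ (ye y (nys C i)).re ∧ 0 ≤ o.re + (ye y (nyt C i)).re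
  zm : C.ty i = Ty.zn → ¬ Tch P.S i → P.H i = 0 →
    LimR (-K.z1 i) (K.z1 i) (K.dz i) (K.oc i).im o w
  zp : C.ty i = Ty.zn → ¬ Tch P.S i → P.H i = 1 → o.im = 0 ∧ K.z1 i ≤ o.re ∧ o.re ≤ 1 / 2 ∧
    o.re ≤ (ye y (nys C i)).re
  zq : C.ty i = Ty.zn → ¬ Tch P.S i → P.H i = -1 → o.im = 0 ∧ -(1 / 2) ≤ o.re ∧
    o.re ≤ -K.z1 i ∧ 0 ≤ o.re + (ye y (nyt C i)).re
  vl : C.ty i = Ty.vn → Tch P.S i → o.im = 0 ∧ o.re ≤ 1 / 2 ∧ ∀ j ∈ P.S, At j i → -(y j).re ≤ o.re
  vh : C.ty i = Ty.vn → ¬ Tch P.S i → LimV (K.oc i).im (K.x1 i) o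

private theorem dist_re (a b : ℝ) : ‖((a : ℝ) : ℂ) - ((b : ℝ) : ℂ)‖ = |a - b| := by
  rw [← ofReal_sub, Complex.norm_real, Real.norm_eq_abs]

private theorem sgn_cases (s : SignType) : s = 0 ∨ s = 1 ∨ s = -1 := by
  revert s
  decide

section

variable {Q : Krn C} {K : Cn m} {P : Pat m} {M : ℕ} {κ : C.Ix → ℕ} {p : C.Ix → ℂ} {w : C.Ix → ℝ}

open Classical in
/-- The limit variables of the edges: `zf` are the limits of the free variables, `cc` a shift. -/
noncomputable def yl (C : Ch m) (P : Pat m) (M : ℕ) (cc : ℝ) (κ : C.Ix → ℕ) (zf : Fin m → ℂ) (j : Fin m) :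
    ℂ :=
  if j ∈ P.S then ((min (yR M (κ (Sum.inl j))) (-(1 / 4)) : ℝ) : ℂ)
  else if Prt C P j then ((min (1 / 2) (yR M (κ (Sum.inl j)) + cc / M) : ℝ) : ℂ)
  else zf j

theorem yl_S {cc : ℝ} {zf : Fin m → ℂ} {n : ℕ} (h : SSp P n) :
    ye (yl C P M cc κ zf) n = ((min (yR M (ke M (fun j => κ (Sum.inl j)) n)) (-(1 / 4)) : ℝ) : ℂ) := by
  obtain ⟨j, hj, hjn⟩ := h
  rw [ye_edge _ hjn, ke_edge _ _ hjn]
  unfold yl
  rw [if_pos hj]

theorem yl_P {cc : ℝ} {zf : Fin m → ℂ} {n : ℕ} (hM : 0 < M) (hcc : 0 ≤ cc) (h : SP C P n) :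
    ye (yl C P M cc κ zf) n =
      ((min (1 / 2) (yR M (ke M (fun j => κ (Sum.inl j)) n) + cc / M) : ℝ) : ℂ) := by
  rcases slot_cases m n with ⟨j, hjn⟩ | ⟨-, h1, h2⟩
  · rw [ye_edge _ hjn, ke_edge _ _ hjn]
    unfold yl
    rw [if_neg (h j hjn).1, if_pos (h j hjn).2]
  · rw [h1, h2, yR_top hM, min_eq_left (by have : (0 : ℝ) ≤ cc / M := by positivity
                                           linarith only [this])]
    push_cast
    rfl

theorem Krn.FC.kS (h : Q.FC K P M κ p w) {n : ℕ} (hn : SSp P n) :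
    Q.h0 ≤ ke M (fun j => κ (Sum.inl j)) n ∧ ke M (fun j => κ (Sum.inl j)) n < kq M := by
  obtain ⟨j, hj, hjn⟩ := hn
  rw [ke_edge _ _ hjn]
  have h1 : κ (Sum.inl j) ∈ Q.RS M P.S j := (h.fx (Sum.inl j) (fun h => h.1 hj)).1
  unfold Krn.RS at h1
  rw [if_pos hj] at h1
  exact Finset.mem_Ico.1 h1

/-- The limit variables of a slot with a small index. -/
theorem Krn.FC.eS (h : Q.FC K P M κ p w) (hM : 4 ≤ M) {cc : ℝ} {zf : Fin m → ℂ} {n : ℕ} (hn : SSp P n) :
    (ye (yl C P M cc κ zf) n).re ≤ yR M (ke M (fun j => κ (Sum.inl j)) n) ∧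
    yR M (ke M (fun j => κ (Sum.inl j)) n) - 1 / M ≤ (ye (yl C P M cc κ zf) n).re ∧
    -(1 / 2) ≤ (ye (yl C P M cc κ zf) n).re ∧ (ye (yl C P M cc κ zf) n).re ≤ -(1 / 4) := by
  have h1 := (h.kS hn).2
  have h2 := yR_kq (by omega) h1
  have h3 := yR_lo (show 0 < M by omega) (ke M (fun j => κ (Sum.inl j)) n)
  have h4 : (0 : ℝ) ≤ 1 / M := by positivity
  rw [yl_S hn, ofReal_re]
  refine ⟨min_le_left _ _, le_min (by linarith only [h4]) (by linarith only [h2]), le_min h3 (by norm_num), min_le_right _ _⟩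

/-- The limit variables of a forced or missing slot. -/
theorem Krn.FC.eP (h : Q.FC K P M κ p w) (hM : 4 ≤ M) (hz : ∀ i : C.Zn, 1 / 4 ≤ K.z1 i) {cc : ℝ}
    (hcc : 0 ≤ cc) {zf : Fin m → ℂ} {n : ℕ} (hn : SP C P n) :
    yR M (ke M (fun j => κ (Sum.inl j)) n) ≤ (ye (yl C P M cc κ zf) n).re ∧
    (ye (yl C P M cc κ zf) n).re ≤ yR M (ke M (fun j => κ (Sum.inl j)) n) + cc / M ∧
    (ye (yl C P M cc κ zf) n).re ≤ 1 / 2 ∧
    ((ye (yl C P M cc κ zf) n).re = 1 / 2 ∨
      (ye (yl C P M cc κ zf) n).re = yR M (ke M (fun j => κ (Sum.inl j)) n) + cc / M) := by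
  have h1 := yR_hi (show 0 < M by omega) (h.low_ke_lt hM hz fun _ hj => hn.not_fr hj)
  have h2 : (0 : ℝ) ≤ cc / M := by positivity
  rw [yl_P (by omega) hcc hn, ofReal_re]
  refine ⟨le_min h1 (by linarith only [h2]), min_le_right _ _, min_le_left _ _, ?_⟩
  rcases le_total (1 / 2) (yR M (ke M (fun j => κ (Sum.inl j)) n) + cc / M) with h3 | h3
  · exact Or.inl (min_eq_left h3)
  · exact Or.inr (min_eq_right h3)

/-- Both slots of a touched node. -/
theorem Krn.FC.pair (h : Q.FC K P M κ p w) (hM : 4 ≤ M) (hz : ∀ i : C.Zn, 1 / 4 ≤ K.z1 i) {cc : ℝ}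
    (hcc : 2 * (Q.sh : ℝ) + 2 ≤ cc) {zf : Fin m → ℂ} {n n' : ℕ} (hn : SSp P n) (hn' : SP C P n')
    (hs : M ≤ ke M (fun j => κ (Sum.inl j)) n + ke M (fun j => κ (Sum.inl j)) n' + 1 + 2 * Q.sh) :
    0 ≤ (ye (yl C P M cc κ zf) n).re + (ye (yl C P M cc κ zf) n').re ∧
      1 / 4 ≤ (ye (yl C P M cc κ zf) n').re := by
  have hM0 : (0 : ℝ) < M := by exact_mod_cast (show 0 < M by omega)
  have hsh : (0 : ℝ) ≤ Q.sh := by positivity
  have h1 := h.eS hM (cc := cc) (zf := zf) hn
  have h2 := h.eP hM hz (by linarith only [hcc]) (zf := zf) (cc := cc) hn'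
  have h3 := yR_add (show 0 < M by omega) hs
  have h4 := yR_kq (show 0 < M by omega) (h.kS hn).2
  push_cast at h3
  have e1 : (1 - 2 * (Q.sh : ℝ)) / M = 1 / M - 2 * Q.sh / M := by ring
  have e2 : (2 * (Q.sh : ℝ) + 2) / M ≤ cc / M := div_le_div_of_nonneg_right hcc hM0.le
  have e3 : (2 * (Q.sh : ℝ) + 2) / M = 2 * Q.sh / M + 2 * (1 / M) := by ring
  have h5 : (0 : ℝ) < 1 / M := by positivity
  rw [e1] at h3
  rw [e3] at e2
  rcases h2.2.2.2 with h6 | h6
  · rw [h6]
    exact ⟨by linarith only [h1.2.2.1], by norm_num⟩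
  · rw [h6]
    exact ⟨by linarith only [e2, h3, h1.2.1, h1.1], by linarith only [e2, h3, h1.2.2.2, h1.2.1,
                                                         h1.1]⟩

/-- The nodes of a nonzero term. -/
theorem Krn.FC.node (hK : Cn.OK C K) (hQ : Q.OK) (hP : P.OK C) (h : Q.FC K P M κ p w) (hM : 4 ≤ M)
    {cc : ℝ} (hcc : 2 * (Q.sh : ℝ) + 2 ≤ cc) {zf : Fin m → ℂ} {X : Fin (m + 1) → ℕ}
    {c : Fin (m + 1) → ℂ} (hne : Q.Tl P.S M (fun j => κ (Sum.inl j)) X c p ≠ 0) {ε : ℝ}
    (hε : (2 * cc + Q.sh + 2) / M ≤ ε) (i : Fin (m + 1)) {o : ℂ} (ho : Q.NdRel P.S M c p i o)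
    (hcv : C.ty i = Ty.vn → ¬ Tch P.S i → ∃ v, LimV (K.oc i).im (K.x1 i) v ∧ ‖c i - v‖ ≤ ε)
    (hz1 : ∀ i : C.Zn, 1 ≤ (M : ℝ) * (1 / 2 + K.z1 i)) {wi : ℝ}
    (hwi : ∀ h : C.ty i = Ty.zn, wi = w (Sum.inr ⟨i, h⟩)) :
    ∃ o' : ℂ, LowNA C K P (yl C P M cc κ zf) wi i o' ∧ ‖o - o'‖ ≤ ε := by
  have hz : ∀ i : C.Zn, 1 / 4 ≤ K.z1 i := fun i => hK.z3 i i.2
  have hM0 : (0 : ℝ) < M := by exact_mod_cast (show 0 < M by omega)
  have hM' : 0 < M := by omega
  have hsh : (0 : ℝ) ≤ Q.sh := by positivity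
  have hcc0 : 0 ≤ cc := by linarith only [hcc]
  have hu : (0 : ℝ) < 1 / M := by positivity
  have hsu : (0 : ℝ) ≤ Q.sh / M := by positivity
  have hcu : (0 : ℝ) ≤ cc / M := by positivity
  have hε' : 2 * (cc / M) + Q.sh / M + 2 * (1 / M) ≤ ε := by
    refine le_trans (le_of_eq ?_) hε
    ring
  have hε0 : 0 ≤ ε := by linarith only [hε', hcu, hsu, hu]
  have hlt : cc / M - Q.sh / M - 2 * (1 / M) - Q.sh / M ≥ 0 := by
    have : (2 * (Q.sh : ℝ) + 2) / M ≤ cc / M := div_le_div_of_nonneg_right hcc hM0.le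
    have e : (2 * (Q.sh : ℝ) + 2) / M = Q.sh / M + Q.sh / M + 2 * (1 / M) := by ring
    linarith only [e, this]
  rcases hty : C.ty i with _ | _ | _
  · -- closed
    refine ⟨o, ⟨fun h1 => ?_, fun h1 => ?_, fun h1 => ?_, fun h1 => ?_, fun h1 => ?_, fun h1 => ?_⟩, by
      simpa using hε0⟩ <;> exact absurd (hty.symm.trans h1) (by decide)
  · -- a node with lattice variable
    have hv : C.ty i ≠ Ty.vn := by rw [hty]; decide
    have hvn : ∀ h1 : C.ty i = Ty.vn, False := fun h1 => hv h1
    have hoe : o = p (Sum.inr ⟨i, hty⟩) := by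
      rw [ho.1 hv, Ch.ow_zn c p hty]
    by_cases ht : Tch P.S i
    · -- touched
      have hf : ¬ Fr C P (Sum.inr ⟨i, hty⟩) := fun h1 => h1.1 ht
      have hor : o = ((yR M (κ (Sum.inr ⟨i, hty⟩)) : ℝ) : ℂ) := by
        rw [hoe, (h.fx _ hf).2.1, yM_eq]
      set l := yR M (κ (Sum.inr ⟨i, hty⟩)) with hl
      have hslots : ∀ j : Fin m, ((j : ℕ) + 1 = i ∨ (j : ℕ) + 1 = i + 1) → ¬ Fr C P (Sum.inl j) := by
        intro j hj
        rcases tch_slots hP ht hv with ⟨h1, h2⟩ | ⟨h1, h2⟩
        · rcases hj with hj | hj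
          · exact h1.not_fr hj
          · exact h2.not_fr hj
        · rcases hj with hj | hj
          · exact h1.not_fr hj
          · exact h2.not_fr hj
      have hny := nys_nyt C i
      have hs1 := h.sup_ys hQ hM hz hne hty hf (fun j hj => hslots j (by omega))
      have hs2 := h.sup_yt hQ hM hz hne hty hf (fun j hj => hslots j (by omega))
      have hsum : M ≤ ke M (fun j => κ (Sum.inl j)) (nys C i) +
          ke M (fun j => κ (Sum.inl j)) (nyt C i) + 1 + 2 * Q.sh := by omega
      -- the facts on the slots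
      have key : 0 ≤ (ye (yl C P M cc κ zf) (nys C i)).re + (ye (yl C P M cc κ zf) (nyt C i)).re ∧
          (∀ n, n = nys C i ∨ n = nyt C i →
            |yR M (ke M (fun j => κ (Sum.inl j)) n) - (ye (yl C P M cc κ zf) n).re| ≤ cc / M + 1 / M ∧
            -(1 / 2) ≤ (ye (yl C P M cc κ zf) n).re ∧ (ye (yl C P M cc κ zf) n).re ≤ 1 / 2) := by
        have kS : ∀ n, SSp P n →
            |yR M (ke M (fun j => κ (Sum.inl j)) n) - (ye (yl C P M cc κ zf) n).re| ≤ cc / M + 1 / M ∧
            -(1 / 2) ≤ (ye (yl C P M cc κ zf) n).re ∧ (ye (yl C P M cc κ zf) n).re ≤ 1 / 2 := by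
          intro n hn
          have h1 := h.eS hM (cc := cc) (zf := zf) hn
          refine ⟨?_, h1.2.2.1, by linarith only [h1.2.2.2]⟩
          rw [abs_le]
          constructor <;> linarith [h1.1, h1.2.1]
        have kP : ∀ n, SP C P n →
            |yR M (ke M (fun j => κ (Sum.inl j)) n) - (ye (yl C P M cc κ zf) n).re| ≤ cc / M + 1 / M ∧
            -(1 / 2) ≤ (ye (yl C P M cc κ zf) n).re ∧ (ye (yl C P M cc κ zf) n).re ≤ 1 / 2 := by
          intro n hn
          have h1 := h.eP hM hz hcc0 (zf := zf) hn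
          refine ⟨?_, le_trans (yR_lo hM' _) h1.1, h1.2.2.1⟩
          rw [abs_le]
          constructor <;> linarith [h1.1, h1.2.1]
        rcases tch_slots hP ht hv with ⟨h1, h2⟩ | ⟨h1, h2⟩
        · rcases hny with ⟨e1, e2⟩ | ⟨e1, e2⟩
          · rw [e1, e2] at hsum ⊢
            have h3 := (h.pair hM hz hcc (zf := zf) h1 h2 (by omega)).1
            refine ⟨by linarith only [h3], ?_⟩
            rintro n (rfl | rfl)
            · exact kP _ h2
            · exact kS _ h1
          · rw [e1, e2] at hsum ⊢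
            have h3 := (h.pair hM hz hcc (zf := zf) h1 h2 (by omega)).1
            refine ⟨by linarith only [h3], ?_⟩
            rintro n (rfl | rfl)
            · exact kS _ h1
            · exact kP _ h2
        · rcases hny with ⟨e1, e2⟩ | ⟨e1, e2⟩
          · rw [e1, e2] at hsum ⊢
            have h3 := (h.pair hM hz hcc (zf := zf) h2 h1 (by omega)).1
            refine ⟨by linarith only [h3], ?_⟩
            rintro n (rfl | rfl)
            · exact kS _ h2
            · exact kP _ h1
          · rw [e1, e2] at hsum ⊢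
            have h3 := (h.pair hM hz hcc (zf := zf) h2 h1 (by omega)).1
            refine ⟨by linarith only [h3], ?_⟩
            rintro n (rfl | rfl)
            · exact kP _ h1
            · exact kS _ h2
      obtain ⟨k1, k2⟩ := key
      obtain ⟨a1, a2, a3⟩ := k2 _ (Or.inl rfl)
      obtain ⟨b1, b2, b3⟩ := k2 _ (Or.inr rfl)
      set ysr := (ye (yl C P M cc κ zf) (nys C i)).re with hysr
      set ytr := (ye (yl C P M cc κ zf) (nyt C i)).re with hytr
      have c1 := yR_sub hM' hs1
      have c2 := yR_add hM' hs2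
      have e1 : (1 - (Q.sh : ℝ)) / M = 1 / M - Q.sh / M := by ring
      rw [e1] at c2
      rw [abs_le] at a1 b1
      have hcl : |l - max (-ytr) (min l ysr)| ≤ ε := by
        refine (clamp (δ := cc / M + 1 / M + Q.sh / M) (by linarith only [k1]) ?_ ?_ (by linarith only [hcu,
                                                                                           hsu, hu])).trans (by linarith only [hε',
                                                                                                                  hcu,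
                                                                                                                  hu])
        · linarith only [c2, b1.2, hu]
        · linarith only [c1, a1.2]
      refine ⟨((max (-ytr) (min l ysr) : ℝ) : ℂ), ⟨fun _ _ => ?_, fun _ h1 => absurd ht h1,
        fun _ h1 => absurd ht h1, fun _ h1 => absurd ht h1, fun h1 => (hvn h1).elim,
        fun h1 => (hvn h1).elim⟩, ?_⟩
      · rw [ofReal_re, ofReal_im]
        refine ⟨rfl, le_trans (by linarith only [b3]) (le_max_left _ _), max_le (by linarith only [b2])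
          ((min_le_right _ _).trans a3), max_le (by linarith only [k1]) (min_le_right _ _), ?_⟩
        have := le_max_left (-ytr) (min l ysr)
        linarith only [this]
      · rw [hor, dist_re]
        exact hcl
    · rcases sgn_cases (P.H i) with hH | hH | hH
      · -- free
        have hfr : Fr C P (Sum.inr ⟨i, hty⟩) := ⟨ht, hH⟩
        have h1 := h.fr _ hfr
        have hzi : K.z1 i < 1 / 2 := hK.z2 i
        have hkz := kz1_lt hM' hzi
        have a0 := al_kz0 hM' hzi.le
        have a1 := al_kz1 hM' (hz1 ⟨i, hty⟩)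
        have hrb : rb M (kz1 M (K.z1 i)) = al M (kz1 M (K.z1 i)) := by
          unfold rb
          rw [if_neg hkz.ne]
        have e2 : (2 : ℝ) / M = 2 * (1 / M) := by ring
        obtain ⟨z', hz1', hz2'⟩ := lim_R (x0 := -K.z1 i) (x1 := K.z1 i) (ρ := 2 / M) (by positivity) a0.1
          a0.2 (by rw [hrb]; exact a1.2) (by rw [hrb]; linarith only [a1.1]) (fun h2 => absurd h2 hkz.ne) h1
        refine ⟨z', ⟨fun _ h2 => absurd h2 ht, fun _ _ _ => ?_, fun _ _ h2 => ?_, fun _ _ h2 => ?_,
          fun h1 => (hvn h1).elim, fun h1 => (hvn h1).elim⟩, ?_⟩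
        · rw [hwi hty]
          exact hz1'
        · exact absurd (hH.symm.trans h2) (by decide)
        · exact absurd (hH.symm.trans h2) (by decide)
        · rw [hoe]
          refine hz2'.trans ?_
          rw [e2]
          linarith only [hε', hcu, hsu]
      · -- near the right end
        have hf : ¬ Fr C P (Sum.inr ⟨i, hty⟩) := fun h1 => absurd (h1.2.symm.trans hH) (by decide)
        have hor : o = ((yR M (κ (Sum.inr ⟨i, hty⟩)) : ℝ) : ℂ) := by
          rw [hoe, (h.fx _ hf).2.1, yM_eq]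
        set l := yR M (κ (Sum.inr ⟨i, hty⟩)) with hl
        have hsP := ys_slot (C := C) ht hv hH
        have hs1 := h.sup_ys hQ hM hz hne hty hf (fun j hj => hsP.not_fr hj)
        have h1 := h.eP hM hz hcc0 (zf := zf) hsP
        have hr : κ (Sum.inr ⟨i, hty⟩) ∈ Q.ZS K P M i := (h.fx _ hf).1
        unfold Krn.ZS at hr
        rw [if_neg ht, if_neg (by rw [hH]; decide), if_pos hH, Finset.mem_Ico] at hr
        have c1 := yR_sub hM' hs1
        have c2 := yR_kz1 hM' hr.1
        set ysr := (ye (yl C P M cc κ zf) (nys C i)).re with hysr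
        have hzi : K.z1 i < 1 / 2 := hK.z2 i
        have hzy : K.z1 i ≤ ysr := by
          rcases h1.2.2.2 with h6 | h6
          · rw [h6]; exact hzi.le
          · rw [h6]; linarith only [c2, c1, hlt, hsu, hu]
        refine ⟨((max (K.z1 i) (min l ysr) : ℝ) : ℂ), ⟨fun _ h2 => absurd h2 ht, fun _ _ h2 => ?_,
          fun _ _ _ => ?_, fun _ _ h2 => ?_, fun h1 => (hvn h1).elim, fun h1 => (hvn h1).elim⟩, ?_⟩
        · exact absurd (hH.symm.trans h2) (by decide)
        · rw [ofReal_re, ofReal_im]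
          exact ⟨rfl, le_max_left _ _, max_le hzi.le ((min_le_right _ _).trans h1.2.2.1),
            max_le hzy (min_le_right _ _)⟩
        · exact absurd (hH.symm.trans h2) (by decide)
        · rw [hor, dist_re]
          refine (clamp (δ := cc / M + 1 / M + Q.sh / M) hzy ?_ ?_ (by linarith only [hcu, hsu, hu])).trans (by linarith only [hε',
                                                                                                                  hcu,
                                                                                                                  hu])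
          · linarith only [c2, hlt, hsu, hu]
          · linarith only [h1.1, c1, hlt, hsu, hu]
      · -- near the left end
        have hf : ¬ Fr C P (Sum.inr ⟨i, hty⟩) := fun h1 => absurd (h1.2.symm.trans hH) (by decide)
        have hor : o = ((yR M (κ (Sum.inr ⟨i, hty⟩)) : ℝ) : ℂ) := by
          rw [hoe, (h.fx _ hf).2.1, yM_eq]
        set l := yR M (κ (Sum.inr ⟨i, hty⟩)) with hl
        have hsP := yt_slot (C := C) ht hv hH
        have hs2 := h.sup_yt hQ hM hz hne hty hf (fun j hj => hsP.not_fr hj)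
        have h1 := h.eP hM hz hcc0 (zf := zf) hsP
        have hr : κ (Sum.inr ⟨i, hty⟩) ∈ Q.ZS K P M i := (h.fx _ hf).1
        unfold Krn.ZS at hr
        rw [if_neg ht, if_neg (by rw [hH]; decide), if_neg (by rw [hH]; decide), Finset.mem_Ico] at hr
        have hzi : K.z1 i < 1 / 2 := hK.z2 i
        have c2 := yR_add hM' hs2
        have e1 : (1 - (Q.sh : ℝ)) / M = 1 / M - Q.sh / M := by ring
        rw [e1] at c2
        have c3 := yR_kz0 hM' hzi.le hr.2
        set ytr := (ye (yl C P M cc κ zf) (nyt C i)).re with hytr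
        have hzy : K.z1 i ≤ ytr := by
          rcases h1.2.2.2 with h6 | h6
          · rw [h6]; exact hzi.le
          · rw [h6]; linarith only [c3, c2, hlt, hsu, hu]
        refine ⟨((max (-ytr) (min l (-K.z1 i)) : ℝ) : ℂ), ⟨fun _ h2 => absurd h2 ht, fun _ _ h2 => ?_,
          fun _ _ h2 => ?_, fun _ _ _ => ?_, fun h1 => (hvn h1).elim, fun h1 => (hvn h1).elim⟩, ?_⟩
        · exact absurd (hH.symm.trans h2) (by decide)
        · exact absurd (hH.symm.trans h2) (by decide)
        · rw [ofReal_re, ofReal_im]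
          refine ⟨rfl, le_trans (by linarith only [h1.2.2.1]) (le_max_left _ _), max_le (by linarith only [hzy])
            (min_le_right _ _), ?_⟩
          have := le_max_left (-ytr) (min l (-K.z1 i))
          linarith only [this]
        · rw [hor, dist_re]
          refine (clamp (δ := cc / M + 1 / M + Q.sh / M) (by linarith only [hzy]) ?_ ?_ (by linarith only [hcu,
                                                                                              hsu,
                                                                                              hu])).trans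
            (by linarith only [hε', hcu, hu])
          · linarith only [h1.1, c2, hlt, hsu, hu]
          · linarith only [c3, hlt, hsu, hu]
  · -- a node with integration variable
    have hzn : ∀ h1 : C.ty i = Ty.zn, False := fun h1 => absurd (hty.symm.trans h1) (by decide)
    by_cases ht : Tch P.S i
    · obtain ⟨v, hv1, hv2, hv3⟩ := ho.2.2 hty ht
      obtain ⟨j0, hj0, hji0⟩ := ht
      have hSS : SSp P ((j0 : ℕ) + 1) := ⟨j0, hj0, rfl⟩
      have h1 := h.eS hM (cc := cc) (zf := zf) hSS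
      rw [ke_edge M _ rfl, ye_edge _ rfl] at h1
      have h2 := hv3 j0 hj0 hji0
      rw [(h.fx (Sum.inl j0) (fun h => h.1 hj0)).2.1, yM_eq, ofReal_re] at h2
      set b := (yl C P M cc κ zf j0).re with hb
      refine ⟨((max v (-b) : ℝ) : ℂ), ⟨fun h1 => (hzn h1).elim, fun h1 => (hzn h1).elim,
        fun h1 => (hzn h1).elim, fun h1 => (hzn h1).elim, fun _ _ => ?_, fun _ h1 => ?_⟩, ?_⟩
      · rw [ofReal_re, ofReal_im]
        refine ⟨rfl, max_le hv2 (by linarith only [h1.2.2.1]), fun j hj hji => ?_⟩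
        obtain rfl : j = j0 := hP.sep j hj j0 hj0 i hji hji0
        exact le_max_right _ _
      · exact absurd ⟨j0, hj0, hji0⟩ h1
      · rw [hv1, dist_re, abs_le]
        rcases le_total v (-b) with h3 | h3
        · rw [max_eq_right h3]
          constructor <;> linarith [h1.2.1]
        · rw [max_eq_left h3]
          constructor <;> linarith only [hε', hcu, hsu, hu]
    · obtain ⟨v, hv1, hv2⟩ := hcv hty ht
      refine ⟨v, ⟨fun h1 => (hzn h1).elim, fun h1 => (hzn h1).elim, fun h1 => (hzn h1).elim,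
        fun h1 => (hzn h1).elim, fun _ h1 => absurd h1 ht, fun _ _ => hv1⟩, ?_⟩
      rw [ho.2.1 hty ht]
      exact hv2

end

end Pool.Agent.S5
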