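import Pool.Agent.S5.S.LowF

/-!
# The limit configuration of a nonzero term, all nodes
-/

set_option autoImplicit false

namespace Pool.Agent.S5

open Complex Filter Topology

variable {m : ℕ} {C : Ch m} {K : Cn m} {P : Pat m}

/-- Sum of the weights of the nodes. -/
theorem sum_zn (w : C.Ix → ℝ) : ∑ i : Fin (m + 1), (if h : C.ty i = Ty.zn then w (Sum.inr ⟨i, h⟩) else 0) +
    ∑ j : Fin m, w (Sum.inl j) = ∑ a, w a := by
  rw [Fintype.sum_sum_type, add_comm]
  congr 1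
  rw [← Fintype.sum_subtype_add_sum_subtype (fun i : Fin (m + 1) => C.ty i = Ty.zn)]
  have h1 : ∀ i : {i : Fin (m + 1) // C.ty i = Ty.zn},
      (if h : C.ty i = Ty.zn then w (Sum.inr ⟨i, h⟩) else 0) = w (Sum.inr i) := by
    intro i
    rw [dif_pos i.2]
  have h2 : ∀ i : {i : Fin (m + 1) // ¬ C.ty i = Ty.zn},
      (if h : C.ty i = Ty.zn then w (Sum.inr ⟨i, h⟩) else 0) = 0 := by
    intro i
    rw [dif_neg i.2]
  rw [Finset.sum_congr rfl fun i _ => h1 i, Finset.sum_congr rfl fun i _ => h2 i,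
    Finset.sum_const_zero, add_zero]

theorem ev_imp {A : Prop} {f : ℕ → Prop} (h : A → ∀ᶠ M : ℕ in atTop, f M) :
    ∀ᶠ M : ℕ in atTop, A → f M := by
  by_cases hA : A
  · exact (h hA).mono fun M hM _ => hM
  · exact Eventually.of_forall fun M h' => absurd h' hA

theorem small_ev (a ε : ℝ) (hε : 0 < ε) : ∀ᶠ M : ℕ in atTop, a / M ≤ ε := by
  have h1 : Tendsto (fun M : ℕ => a / (M : ℝ)) atTop (𝓝 0) := tendsto_const_div_atTop_nhds_zero_nat a
  exact (h1.eventually (eventually_lt_nhds hε)).mono fun M hM => le_of_lt hM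

/-- Near the variables of a nonzero term there is an admissible configuration. -/
theorem Krn.lim_cfg (hK : Cn.OK C K) (Q : Krn C) (hQ : Q.OK) (hP : P.OK C) {ε : ℝ} (hε : 0 < ε) :
    ∀ᶠ M : ℕ in atTop, ∀ (κ : C.Ix → ℕ) (X : Fin (m + 1) → ℕ) (c : Fin (m + 1) → ℂ) (p : C.Ix → ℂ)
      (w : C.Ix → ℝ) (o : Fin (m + 1) → ℂ), Q.FC K P M κ p w →
      Q.Tl P.S M (fun j => κ (Sum.inl j)) X c p ≠ 0 → (∀ i, Q.NdRel P.S M c p i (o i)) →
      (∀ i, C.ty i = Ty.vn → ¬ Tch P.S i → ∃ v, LimV (K.oc i).im (K.x1 i) v ∧ ‖c i - v‖ ≤ ε) →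
      ∃ (o' : Fin (m + 1) → ℂ) (y' : Fin m → ℂ) (wo : Fin (m + 1) → ℝ) (wy : Fin m → ℝ),
        AdmC C K P o' y' wo wy ∧ (∀ i, ‖o i - o' i‖ ≤ ε) ∧ (∀ j, ‖p (Sum.inl j) - y' j‖ ≤ ε) ∧
          ∑ i, wo i + ∑ j, wy j = ∑ a, w a := by
  classical
  obtain ⟨cc, hcc⟩ : ∃ cc : ℝ, 2 * (Q.sh : ℝ) + 2 = cc := ⟨_, rfl⟩
  have hsh : (0 : ℝ) ≤ Q.sh := by positivity
  have hcc0 : 0 ≤ cc := by linarith
  have hz : ∀ i : C.Zn, 1 / 4 ≤ K.z1 i := fun i => hK.z3 i i.2
  filter_upwards [small_ev (2 * cc + Q.sh + 2) ε hε, eventually_ge_atTop 4] with M hMε hM κ X c p w o hFC hne ho hc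
  have hM0 : (0 : ℝ) < M := by exact_mod_cast (show 0 < M by omega)
  have hM' : 0 < M := by omega
  have hM4 : (4 : ℝ) ≤ M := by exact_mod_cast hM
  have hu : (0 : ℝ) < 1 / M := by positivity
  have hsu : (0 : ℝ) ≤ Q.sh / M := by positivity
  have hcu : (0 : ℝ) ≤ cc / M := by positivity
  have hε' : 2 * (cc / M) + Q.sh / M + 2 * (1 / M) ≤ ε := by
    refine le_trans (le_of_eq ?_) hMε
    ring
  have hlt : cc / M = Q.sh / M + Q.sh / M + 2 * (1 / M) := by
    rw [← hcc]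
    ring
  have hz1 : ∀ i : C.Zn, 1 ≤ (M : ℝ) * (1 / 2 + K.z1 i) := by
    intro i
    have h1 := hz i
    nlinarith
  -- the limits of the free edges
  have hzf : ∀ j : Fin m, ∃ z : ℂ, Fr C P (Sum.inl j) →
      LimY (-(1 / 4)) K.d (K.yc j).im z (w (Sum.inl j)) ∧ ‖p (Sum.inl j) - z‖ ≤ 2 / M := by
    intro j
    by_cases hf : Fr C P (Sum.inl j)
    · have h1 := hFC.fr _ hf
      have h2 := al_kq hM'
      have hrb : rb M M = 1 / 2 - 1 / (2 * M) := by
        unfold rb br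
        rw [if_pos rfl]
      have h3 : 1 / (2 * (M : ℝ)) = 1 / 2 * (1 / M) := by
        field_simp
      have h4 : (2 : ℝ) / M = 2 * (1 / M) := by ring
      obtain ⟨z, hz1, hz2⟩ := lim_R (x0 := -(1 / 4)) (x1 := 1 / 2) (ρ := 2 / M) (by positivity) h2.1
        h2.2 (by show rb M M ≤ 1 / 2; rw [hrb, h3]; linarith)
        (by show 1 / 2 ≤ rb M M + 2 / M; rw [hrb, h3, h4]; linarith) (fun _ => rfl) h1
      exact ⟨z, fun _ => ⟨hz1, hz2⟩⟩
    · exact ⟨0, fun h => absurd h hf⟩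
  choose zf hzf using hzf
  -- the nodes
  have hnode := fun i => hFC.node hK hQ hP hM hcc.le (zf := zf) hne hMε i (ho i) (hc i) hz1
    (wi := if h : C.ty i = Ty.zn then w (Sum.inr ⟨i, h⟩) else 0) (fun h => by rw [dif_pos h])
  choose o' ho1 ho2 using hnode
  -- sums at touched nodes
  have hsum : ∀ i, Tch P.S i → C.ty i ≠ Ty.vn → M ≤ ke M (fun j => κ (Sum.inl j)) i +
      ke M (fun j => κ (Sum.inl j)) (i + 1) + 1 + 2 * Q.sh := by
    intro i ht hv
    have hslots : ∀ j : Fin m, ((j : ℕ) + 1 = i ∨ (j : ℕ) + 1 = i + 1) → ¬ Fr C P (Sum.inl j) := by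
      intro j hj
      rcases tch_slots hP ht hv with ⟨h1, h2⟩ | ⟨h1, h2⟩
      · rcases hj with hj | hj
        · exact h1.not_fr hj
        · exact h2.not_fr hj
      · rcases hj with hj | hj
        · exact h1.not_fr hj
        · exact h2.not_fr hj
    rcases hty : C.ty i with _ | _ | _
    · have := hFC.sup_cl hQ hP hM hz hne hty ht
      omega
    · have hf : ¬ Fr C P (Sum.inr ⟨i, hty⟩) := fun h1 => h1.1 ht
      have hny := nys_nyt C i
      have hs1 := hFC.sup_ys hQ hM hz hne hty hf (fun j hj => hslots j (by omega))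
      have hs2 := hFC.sup_yt hQ hM hz hne hty hf (fun j hj => hslots j (by omega))
      rcases hny with ⟨e1, e2⟩ | ⟨e1, e2⟩ <;> rw [e1] at hs1 <;> rw [e2] at hs2 <;> omega
    · exact absurd hty hv
  have hpair : ∀ i, Tch P.S i → C.ty i ≠ Ty.vn →
      0 ≤ (ye (yl C P M cc κ zf) i).re + (ye (yl C P M cc κ zf) (i + 1)).re ∧
        (SP C P i → 1 / 4 ≤ (ye (yl C P M cc κ zf) i).re) ∧
        (SP C P (i + 1) → 1 / 4 ≤ (ye (yl C P M cc κ zf) (i + 1)).re) := by
    intro i ht hv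
    have hs := hsum i ht hv
    rcases tch_slots hP ht hv with ⟨h1, h2⟩ | ⟨h1, h2⟩
    · have h3 := hFC.pair hM hz hcc.le (zf := zf) h1 h2 hs
      refine ⟨h3.1, fun h4 => ?_, fun _ => h3.2⟩
      obtain ⟨j, hj, hj'⟩ := h1
      exact absurd hj (h4 j hj').1
    · have h3 := hFC.pair hM hz hcc.le (zf := zf) h2 h1 (by omega)
      refine ⟨by linarith [h3.1], fun _ => h3.2, fun h4 => ?_⟩
      obtain ⟨j, hj, hj'⟩ := h2
      exact absurd hj (h4 j hj').1
  -- the edges
  have hS : ∀ j ∈ P.S, yl C P M cc κ zf j = ((min (yR M (κ (Sum.inl j))) (-(1 / 4)) : ℝ) : ℂ) := by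
    intro j hj
    unfold yl
    rw [if_pos hj]
  have hPr : ∀ j, Prt C P j →
      yl C P M cc κ zf j = ((min (1 / 2) (yR M (κ (Sum.inl j)) + cc / M) : ℝ) : ℂ) := by
    intro j hj
    unfold yl
    rw [if_neg hj.1, if_pos hj]
  have hFr : ∀ j, Fr C P (Sum.inl j) → yl C P M cc κ zf j = zf j := by
    intro j hj
    unfold yl
    rw [if_neg hj.1, if_neg hj.2]
  have hPr4 : ∀ j, Prt C P j → 1 / 4 ≤ (yl C P M cc κ zf j).re := by
    intro j hj
    have hj' := hj
    obtain ⟨hjS, i, hji, hv, h1⟩ := hj'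
    rcases h1 with ht | ⟨hH, hys⟩ | ⟨hH, hyt⟩
    · have h2 := hpair i ht hv
      have hsl := tch_slots hP ht hv
      rcases at_iff.1 hji with h3 | h3
      · have h4 : SP C P i := by
          rcases hsl with ⟨⟨j', hj', h6⟩, h5⟩ | ⟨h5, -⟩
          · obtain rfl : j' = j := Fin.ext (by omega)
            exact absurd hj' hjS
          · exact h5
        rw [← ye_edge (yl C P M cc κ zf) h3]
        exact h2.2.1 h4
      · have h4 : SP C P (i + 1) := by
          rcases hsl with ⟨-, h5⟩ | ⟨h5, ⟨j', hj', h6⟩⟩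
          · exact h5
          · obtain rfl : j' = j := Fin.ext (by omega)
            exact absurd hj' hjS
        rw [← ye_edge (yl C P M cc κ zf) h3]
        exact h2.2.2 h4
    · obtain ⟨hty, ht⟩ := hP.H i (by rw [hH]; decide)
      have hf : ¬ Fr C P (Sum.inr ⟨i, hty⟩) := fun h1 => absurd (h1.2.symm.trans hH) (by decide)
      have hsP := ys_slot (C := C) ht hv hH
      have hs1 := hFC.sup_ys hQ hM hz hne hty hf (fun j hj => hsP.not_fr hj)
      have hr : κ (Sum.inr ⟨i, hty⟩) ∈ Q.ZS K P M i := (hFC.fx _ hf).1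
      unfold Krn.ZS at hr
      rw [if_neg ht, if_neg (by rw [hH]; decide), if_pos hH, Finset.mem_Ico] at hr
      have c1 := yR_sub hM' hs1
      have c2 := yR_kz1 hM' hr.1
      rw [ke_edge _ _ (isYs_iff.1 hys)] at c1
      rw [hPr j hj, ofReal_re]
      refine le_min (by norm_num) ?_
      have := hz ⟨i, hty⟩
      have h6 : K.z1 i = K.z1 (⟨i, hty⟩ : C.Zn) := rfl
      linarith
    · obtain ⟨hty, ht⟩ := hP.H i (by rw [hH]; decide)
      have hf : ¬ Fr C P (Sum.inr ⟨i, hty⟩) := fun h1 => absurd (h1.2.symm.trans hH) (by decide)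
      have hsP := yt_slot (C := C) ht hv hH
      have hs2 := hFC.sup_yt hQ hM hz hne hty hf (fun j hj => hsP.not_fr hj)
      have hr : κ (Sum.inr ⟨i, hty⟩) ∈ Q.ZS K P M i := (hFC.fx _ hf).1
      unfold Krn.ZS at hr
      rw [if_neg ht, if_neg (by rw [hH]; decide), if_neg (by rw [hH]; decide), Finset.mem_Ico] at hr
      have hzi : K.z1 i < 1 / 2 := hK.z2 i
      have c2 := yR_add hM' hs2
      have e1 : (1 - (Q.sh : ℝ)) / M = 1 / M - Q.sh / M := by ring
      rw [e1, ke_edge _ _ (isYt_iff.1 hyt)] at c2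
      have c3 := yR_kz0 hM' hzi.le hr.2
      rw [hPr j hj, ofReal_re]
      refine le_min (by norm_num) ?_
      have := hz ⟨i, hty⟩
      have h6 : K.z1 i = K.z1 (⟨i, hty⟩ : C.Zn) := rfl
      linarith
  refine ⟨o', yl C P M cc κ zf, fun i => if h : C.ty i = Ty.zn then w (Sum.inr ⟨i, h⟩) else 0,
    fun j => w (Sum.inl j), ?_, ho2, ?_, sum_zn w⟩
  · refine ⟨?_, ?_, ?_, ?_, ?_, ?_, ?_, ?_, ?_, ?_⟩
    · -- low
      intro j hj
      rw [hS j hj, ofReal_re, ofReal_im]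
      exact ⟨rfl, le_min (yR_lo hM' _) (by norm_num), min_le_right _ _,
        (hFC.fx (Sum.inl j) (fun h => h.1 hj)).2.2⟩
    · -- prt
      intro j hj
      refine ⟨by rw [hPr j hj, ofReal_im], hPr4 j hj, by rw [hPr j hj, ofReal_re]; exact min_le_left _ _,
        (hFC.fx (Sum.inl j) (fun h => h.2 hj)).2.2⟩
    · -- hi
      intro j hj hj'
      have hf : Fr C P (Sum.inl j) := ⟨hj, hj'⟩
      rw [hFr j hf]
      exact (hzf j hf).1
    · -- cl
      intro i hi
      refine ⟨dif_neg (by rw [hi]; decide), fun ht => ?_⟩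
      rw [add_re]
      exact (hpair i ht (by rw [hi]; decide)).1
    · -- zl
      intro i hi ht
      have h1 := (ho1 i).zl hi ht
      rw [ys_eq, yt_eq]
      refine ⟨?_, h1⟩
      simp only [dif_pos hi]
      exact (hFC.fx (Sum.inr ⟨i, hi⟩) (fun h => h.1 ht)).2.2
    · -- zm
      intro i hi ht hH
      exact (ho1 i).zm hi ht hH
    · -- zp
      intro i hi ht hH
      have h1 := (ho1 i).zp hi ht hH
      rw [ys_eq]
      refine ⟨?_, h1⟩
      simp only [dif_pos hi]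
      exact (hFC.fx (Sum.inr ⟨i, hi⟩) (fun h => absurd (h.2.symm.trans hH) (by decide))).2.2
    · -- zq
      intro i hi ht hH
      have h1 := (ho1 i).zq hi ht hH
      rw [yt_eq]
      refine ⟨?_, h1⟩
      simp only [dif_pos hi]
      exact (hFC.fx (Sum.inr ⟨i, hi⟩) (fun h => absurd (h.2.symm.trans hH) (by decide))).2.2
    · -- vl
      intro i hi ht
      exact ⟨dif_neg (by rw [hi]; decide), (ho1 i).vl hi ht⟩
    · -- vh
      intro i hi ht
      exact ⟨dif_neg (by rw [hi]; decide), (ho1 i).vh hi ht⟩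
  · intro j
    by_cases hj : j ∈ P.S
    · have h1 := hFC.fx (Sum.inl j) (fun h => h.1 hj)
      rw [h1.2.1, yM_eq, hS j hj, ← ofReal_sub, Complex.norm_real, Real.norm_eq_abs]
      have h2 : κ (Sum.inl j) < kq M := by
        have h3 : κ (Sum.inl j) ∈ Q.RS M P.S j := h1.1
        unfold Krn.RS at h3
        rw [if_pos hj] at h3
        exact (Finset.mem_Ico.1 h3).2
      have h3 := yR_kq hM' h2
      have h4 : yR M (κ (Sum.inl j)) - 1 / M ≤ min (yR M (κ (Sum.inl j))) (-(1 / 4)) :=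
        le_min (by linarith) (by linarith)
      have h5 := min_le_left (yR M (κ (Sum.inl j))) (-(1 / 4))
      rw [abs_le]
      constructor <;> linarith
    · by_cases hp : Prt C P j
      · have hf : ¬ Fr C P (Sum.inl j) := fun h => h.2 hp
        have h1 := hFC.fx (Sum.inl j) hf
        have h2 := yR_hi hM' (hFC.lt hM hz hf)
        rw [h1.2.1, yM_eq, hPr j hp, ← ofReal_sub, Complex.norm_real, Real.norm_eq_abs]
        have h4 : yR M (κ (Sum.inl j)) ≤ min (1 / 2) (yR M (κ (Sum.inl j)) + cc / M) :=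
          le_min h2 (by linarith)
        have h5 := min_le_right (1 / 2) (yR M (κ (Sum.inl j)) + cc / M)
        rw [abs_le]
        constructor <;> linarith
      · have hf : Fr C P (Sum.inl j) := ⟨hj, hp⟩
        rw [hFr j hf]
        refine (hzf j hf).2.trans ?_
        have h4 : (2 : ℝ) / M = 2 * (1 / M) := by ring
        rw [h4]
        linarith

end Pool.Agent.S5
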