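import Pool.Agent.S5.S.LowG
import Pool.Agent.S5.S.Cpt

/-!
# The sum over the free variables
-/

set_option autoImplicit false

namespace Pool.Agent.S5

open Complex Filter Topology

variable {m : ℕ} {C : Ch m} {K : Cn m} {P : Pat m} {e0 : ℝ}

open Classical in
/-- All variables: the free ones `z`, the fixed ones at lattice points. -/
noncomputable def pz (C : Ch m) (P : Pat m) (M : ℕ) (κ : C.Ix → ℕ) (z : {a : C.Ix // Fr C P a} → ℂ)
    (a : C.Ix) : ℂ :=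
  if h : Fr C P a then z ⟨a, h⟩ else yM M (κ a)

/-- Properties of the ranges for large `M`. -/
structure Rng (C : Ch m) (K : Cn m) (h0 M : ℕ) (D : ℝ) : Prop where
  M4 : 4 ≤ M
  h0M : h0 + 2 ≤ M
  h0q : h0 ≤ kq M
  h0z : ∀ i : C.Zn, h0 ≤ kz0 M (K.z1 i) ∧ h0 ≤ kz1 M (K.z1 i)
  k01 : ∀ a, K0 C K M a + 2 ≤ K1 C K M a
  k1M : ∀ a, K1 C K M a ≤ M
  d1 : ∀ a, 1 ≤ M * LowDd C K a
  dD : ∀ a, LowDd C K a ≤ D
  t1 : ∀ a, al M (K0 C K M a) ≤ T0 C K a
  t2 : ∀ a, T0 C K a ≤ rb M (K1 C K M a)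

theorem Cn.OK.Dd_pos (hK : Cn.OK C K) (a : C.Ix) : 0 < LowDd C K a := by
  rcases a with j | i
  · exact hK.d0
  · exact hK.dz0 i

theorem Cn.OK.Et_le (hK : Cn.OK C K) (a : C.Ix) : |Et C K a| ≤ LowDd C K a := by
  rcases a with j | i
  · exact hK.yd j
  · exact hK.zd i i.2

private theorem kz0_ge {M : ℕ} {z1 : ℝ} : (M : ℝ) * (1 / 2 - z1) ≤ kz0 M z1 := by
  have h1 := Nat.lt_floor_add_one ((M : ℝ) * (1 / 2 - z1))
  unfold kz0
  push_cast
  exact h1.le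

private theorem kz0_le {M : ℕ} {z1 : ℝ} (hz : z1 ≤ 1 / 2) :
    (kz0 M z1 : ℝ) ≤ (M : ℝ) * (1 / 2 - z1) + 1 := by
  have h0 : (0 : ℝ) ≤ (M : ℝ) * (1 / 2 - z1) := mul_nonneg (by positivity) (by linarith)
  have h1 := Nat.floor_le h0
  unfold kz0
  push_cast
  linarith

private theorem kz1_ge {M : ℕ} {z1 : ℝ} : (M : ℝ) * (1 / 2 + z1) - 2 ≤ kz1 M z1 := by
  have h1 := Nat.lt_floor_add_one ((M : ℝ) * (1 / 2 + z1))
  unfold kz1
  have h2 : (⌊(M : ℝ) * (1 / 2 + z1)⌋₊ : ℝ) ≤ ((⌊(M : ℝ) * (1 / 2 + z1)⌋₊ - 1 : ℕ) : ℝ) + 1 := by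
    exact_mod_cast (by omega : ⌊(M : ℝ) * (1 / 2 + z1)⌋₊ ≤ (⌊(M : ℝ) * (1 / 2 + z1)⌋₊ - 1) + 1)
  linarith

private theorem large_ev (a b : ℝ) (ha : 0 < a) : ∀ᶠ M : ℕ in atTop, b ≤ (M : ℝ) * a :=
  (tendsto_natCast_atTop_atTop.atTop_mul_const ha).eventually_ge_atTop b

theorem Cn.OK.rng (hK : Cn.OK C K) (h0 : ℕ) {D : ℝ} (hD : ∀ a, LowDd C K a ≤ D) :
    ∀ᶠ M : ℕ in atTop, Rng C K h0 M D := by
  have hz : ∀ i : C.Zn, 1 / 4 ≤ K.z1 i := fun i => hK.z3 i i.2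
  have hz2 : ∀ i : C.Zn, K.z1 i < 1 / 2 := fun i => hK.z2 i
  have e1 : ∀ᶠ M : ℕ in atTop, ∀ i : C.Zn, (h0 : ℝ) ≤ (M : ℝ) * (1 / 2 - K.z1 i) :=
    eventually_all.2 fun i => large_ev _ _ (by linarith [hz2 i])
  have e2 : ∀ᶠ M : ℕ in atTop, ∀ i : C.Zn, (h0 : ℝ) + 2 ≤ (M : ℝ) * (1 / 2 + K.z1 i) :=
    eventually_all.2 fun i => large_ev _ _ (by linarith [hz i])
  have e3 : ∀ᶠ M : ℕ in atTop, ∀ i : C.Zn, 5 ≤ (M : ℝ) * (2 * K.z1 i) :=
    eventually_all.2 fun i => large_ev _ _ (by linarith [hz i])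
  have e4 : ∀ᶠ M : ℕ in atTop, ∀ a, 1 ≤ (M : ℝ) * LowDd C K a :=
    eventually_all.2 fun a => large_ev _ _ (hK.Dd_pos a)
  have e5 : ∀ᶠ M : ℕ in atTop, ∀ j, 2 / (M : ℝ) ≤ (K.yc j).re + 1 / 4 :=
    eventually_all.2 fun j => small_ev _ _ (by linarith [hK.y0 j])
  have e6 : ∀ᶠ M : ℕ in atTop, ∀ j, 2 / (M : ℝ) ≤ 1 / 2 - (K.yc j).re :=
    eventually_all.2 fun j => small_ev _ _ (by linarith [hK.y1 j])
  have e7 : ∀ᶠ M : ℕ in atTop, ∀ i : C.Zn, 2 / (M : ℝ) ≤ K.z1 i - |(K.oc i).re| :=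
    eventually_all.2 fun i => small_ev _ _ (by linarith [hK.z1 i i.2])
  filter_upwards [e1, e2, e3, e4, e5, e6, e7, eventually_ge_atTop (4 * h0 + 4)] with M e1 e2 e3 e4 e5 e6 e7 hM
  have hM' : 0 < M := by omega
  have hM0 : (0 : ℝ) < M := by exact_mod_cast hM'
  refine ⟨by omega, by omega, by unfold kq; omega, fun i => ⟨?_, ?_⟩, ?_, ?_, e4, hD, ?_, ?_⟩
  · have := (e1 i).trans kz0_ge
    exact_mod_cast this
  · have h1 := kz1_ge (M := M) (z1 := K.z1 i)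
    have : (h0 : ℝ) ≤ kz1 M (K.z1 i) := by linarith [e2 i]
    exact_mod_cast this
  · rintro (j | i)
    · show kq M + 2 ≤ M
      unfold kq
      omega
    · show kz0 M (K.z1 i) + 2 ≤ kz1 M (K.z1 i)
      have h1 := kz1_ge (M := M) (z1 := K.z1 i)
      have h2 := kz0_le (M := M) (hz2 i).le
      have : (kz0 M (K.z1 i) : ℝ) + 2 ≤ kz1 M (K.z1 i) := by linarith [e3 i]
      exact_mod_cast this
  · rintro (j | i)
    · exact le_rfl
    · exact (kz1_lt hM' (hz2 i)).le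
  · rintro (j | i)
    · show al M (kq M) ≤ (K.yc j).re
      linarith [(al_kq hM').2, e5 j]
    · show al M (kz0 M (K.z1 i)) ≤ (K.oc i).re
      have := neg_abs_le (K.oc i).re
      linarith [(al_kz0 hM' (hz2 i).le).2, e7 i]
  · rintro (j | i)
    · show (K.yc j).re ≤ rb M M
      unfold rb br
      rw [if_pos rfl]
      have : 1 / (2 * (M : ℝ)) ≤ 2 / M := by
        rw [div_le_div_iff₀ (by positivity) hM0]
        linarith
      linarith [e6 j]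
    · show (K.oc i).re ≤ rb M (kz1 M (K.z1 i))
      unfold rb
      rw [if_neg (kz1_lt hM' (hz2 i)).ne]
      have h1 := al_kz1 hM' (z1 := K.z1 i) (by linarith [e2 i, (Nat.cast_nonneg h0 : (0 : ℝ) ≤ h0)])
      have := le_abs_self (K.oc i).re
      linarith [h1.1, e7 i]

section

variable {Q : Krn C} {M : ℕ} {κ : C.Ix → ℕ} {D : ℝ}

/-- The fixed indices are at least `h0`. -/
theorem Rng.ge (hR : Rng C K Q.h0 M D) {a : C.Ix} (hf : ¬ Fr C P a) (ha : κ a ∈ Q.RG K P M a) :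
    Q.h0 ≤ κ a := by
  rcases a with j | i
  · have h2 : κ (Sum.inl j) ∈ Q.RS M P.S j := ha
    unfold Krn.RS at h2
    split_ifs at h2
    · exact (Finset.mem_Ico.1 h2).1
    · exact hR.h0q.trans (Finset.mem_Ico.1 h2).1
  · have h2 : κ (Sum.inr i) ∈ Q.ZS K P M i := ha
    unfold Krn.ZS at h2
    split_ifs at h2 with h3 h4 h5
    · exact (Finset.mem_Ico.1 h2).1
    · exact absurd ⟨h3, h4⟩ hf
    · exact (hR.h0z i).2.trans (Finset.mem_Ico.1 h2).1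
    · exact (Finset.mem_Ico.1 h2).1

/-- All indices are less than `M`. -/
theorem Rng.lt (hK : Cn.OK C K) (hR : Rng C K Q.h0 M D) {a : C.Ix} (ha : κ a ∈ Q.RG K P M a) :
    κ a < M := by
  have hM' : 0 < M := by have := hR.M4; omega
  rcases a with j | i
  · have h2 : κ (Sum.inl j) ∈ Q.RS M P.S j := ha
    have h3 : kq M + 2 ≤ M := hR.k01 (Sum.inl j)
    unfold Krn.RS at h2
    split_ifs at h2
    · have := (Finset.mem_Ico.1 h2).2
      omega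
    · exact (Finset.mem_Ico.1 h2).2
  · have h2 : κ (Sum.inr i) ∈ Q.ZS K P M i := ha
    have h3 : kz0 M (K.z1 i) + 2 ≤ kz1 M (K.z1 i) := hR.k01 (Sum.inr i)
    have h4 := kz1_lt hM' (hK.z2 i)
    unfold Krn.ZS at h2
    split_ifs at h2
    · exact (Finset.mem_Ico.1 h2).2
    · have := (Finset.mem_Ico.1 h2).2
      omega
    · exact (Finset.mem_Ico.1 h2).2
    · have := (Finset.mem_Ico.1 h2).2
      omega

theorem pz_mem (hK : Cn.OK C K) (hR : Rng C K Q.h0 M D)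
    (hκ : ∀ a, ¬ Fr C P a → κ a ∈ Q.RG K P M a) {z : {a : C.Ix // Fr C P a} → ℂ}
    (hz : ∀ a : {a : C.Ix // Fr C P a}, z a ∈ Dm M (K0 C K M a) (LowDd C K a)) (a : C.Ix) :
    pz C P M κ z a ∈ Dm M Q.h0 D := by
  have hM' : 0 < M := by have := hR.M4; omega
  unfold pz
  split_ifs with h
  · refine Dm.mono ?_ (hR.dD a) (hz ⟨a, h⟩)
    rcases a with j | i
    · exact hR.h0q
    · exact (hR.h0z i).1
  · rw [yM_eq]
    refine yR_mem hM' ((hK.Dd_pos a).le.trans (hR.dD a)) ?_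
    rw [Finset.mem_Ico]
    exact ⟨hR.ge h (hκ a h), hR.lt hK (hκ a h)⟩

/-- The terms are differentiable. -/
theorem pz_toki (hK : Cn.OK C K) (hR : Rng C K Q.h0 M D)
    (hκ : ∀ a, ¬ Fr C P a → κ a ∈ Q.RG K P M a) {T : (C.Ix → ℂ) → ℂ}
    (hT : ∀ p : C.Ix → ℂ, (∀ a, p a ∈ Dm M Q.h0 D) → DifferentiableAt ℂ T p)
    [DecidableEq {a : C.Ix // Fr C P a}] [Fintype {a : C.Ix // Fr C P a}] :
    TOKI M (fun a : {a : C.Ix // Fr C P a} => K0 C K M a) (fun a => LowDd C K a)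
      (fun z => T (pz C P M κ z)) := by
  have hd : ∀ z : {a : C.Ix // Fr C P a} → ℂ,
      (∀ a : {a : C.Ix // Fr C P a}, z a ∈ Dm M (K0 C K M a) (LowDd C K a)) →
      DifferentiableAt ℂ (fun z => T (pz C P M κ z)) z := by
    intro z hz
    refine DifferentiableAt.comp z (hT _ (pz_mem hK hR hκ hz)) ?_
    rw [differentiableAt_pi]
    intro a
    unfold pz
    split_ifs with h
    · exact differentiableAt_apply (𝕜 := ℂ) (⟨a, h⟩ : {a : C.Ix // Fr C P a}) z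
    · exact differentiableAt_const _
  refine ⟨fun z hz => (hd z hz).continuousAt.continuousWithinAt, fun z hz j _ => ?_⟩
  have h1 : DifferentiableAt ℂ (fun w => Function.update z j w) (z j) :=
    (hasFDerivAt_update z (z j)).differentiableAt
  refine DifferentiableAt.comp (z j) (g := fun z => T (pz C P M κ z)) ?_ h1
  rw [Function.update_eq_self]
  exact hd z hz

end

open Classical in
/-- The sum over the free variables. -/
theorem Krn.free_le (hK : Cn.OK C K) (hI : Inq C K e0) (Q : Krn C) (hQ : Q.OK) (hP : P.OK C)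
    (hS : P.S.Nonempty ∨ ∃ i, P.H i ≠ 0) : ∃ ε : ℝ, 0 < ε ∧ ∀ κ0 B : ℝ, 0 < κ0 →
    ∃ δ : ℝ, 0 < δ ∧ ∃ A : ℝ, 0 < A ∧ ∃ q : ℕ, ∀ᶠ M : ℕ in atTop,
    ∀ (κ : C.Ix → ℕ) (X : Fin (m + 1) → ℕ) (c : Fin (m + 1) → ℂ),
      (∀ a, ¬ Fr C P a → κ a ∈ Q.RG K P M a) → (∀ i, X i < M) →
      (∀ i, C.ty i = Ty.vn → ¬ Tch P.S i → 0 < (c i).im ∧ (c i).im ≤ B ∧ |(c i).re| ≤ 1 / 2 ∧
        κ0 * (1 / 2 - |(c i).re|) ≤ (c i).im) →
      (∀ i, C.ty i = Ty.vn → ¬ Tch P.S i → ∃ v, LimV (K.oc i).im (K.x1 i) v ∧ ‖c i - v‖ ≤ ε) →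
      ‖∑ κ₂ ∈ Fintype.piFinset (fun a : {a : C.Ix // Fr C P a} =>
          Finset.Ico (K0 C K M a) (K1 C K M a)), Q.Tl P.S M (fun j => κ (Sum.inl j)) X c
            (pz C P M κ (fun a => ((yR M (κ₂ a) : ℝ) : ℂ)))‖ ≤
        A * (M : ℝ) ^ q * Real.exp (M * (e0 - δ)) := by
  obtain ⟨ε, hε, δ, hδ, hU⟩ := hI.lowU hK hP hS
  refine ⟨ε, hε, fun κ0 B hκ0 => ⟨δ, hδ, ?_⟩⟩
  obtain ⟨D, hDD⟩ : ∃ D : ℝ, ∀ a, LowDd C K a ≤ D :=
    ⟨∑ a, LowDd C K a, fun a => Finset.single_le_sum (fun a _ => (hK.Dd_pos a).le) (Finset.mem_univ a)⟩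
  set D' : ℝ := max D 0 with hD'
  have hD0 : 0 ≤ D' := le_max_right _ _
  obtain ⟨A, hA, q, hbd⟩ := Q.Tl_bd hQ hP.sep hD0 hκ0 B
  refine ⟨(12 * (1 + |D'|)) ^ Fintype.card {a : C.Ix // Fr C P a} * A, by positivity,
    Fintype.card {a : C.Ix // Fr C P a} + q, ?_⟩
  filter_upwards [hbd, Q.lim_cfg hK hQ hP hε, Q.Tl_diff hQ P.S D' hD0,
    hK.rng Q.h0 (fun a => (hDD a).trans (le_max_left D 0)), eventually_ge_atTop 4]
    with M hbd hlim hdiff hR hM κ X c hκ hX hc hcv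
  have hM' : 0 < M := by omega
  have hM0 : (0 : ℝ) < M := by exact_mod_cast hM'
  have hT := pz_toki hK hR hκ (T := Q.Tl P.S M (fun j => κ (Sum.inl j)) X c)
    (fun p hp => hdiff _ X c p hX (fun i hi ht => ⟨(hc i hi ht).1, (hc i hi ht).2.2.1⟩) hp)
  have h1 := multiI_le (ι := {a : C.Ix // Fr C P a}) (k0 := fun a => K0 C K M a)
    (d := fun a => LowDd C K a) (η := fun a => Et C K a) (t0 := fun a => T0 C K a) hM' D'
    (k1 := fun a => K1 C K M a)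
    (fun a => hR.k01 a) (fun a => hR.k1M a) (fun a => hR.d1 a) (fun a => hR.dD a) (fun a => hK.Et_le a)
    (fun a => hR.t1 a) (fun a => hR.t2 a)
    (fun z => Q.Tl P.S M (fun j => κ (Sum.inl j)) X c (pz C P M κ z))
    (A * (M : ℝ) ^ q * Real.exp (M * (e0 - δ))) (by positivity) hT ?_
  · refine h1.trans (le_of_eq ?_)
    rw [mul_pow, pow_add]
    ring
  · intro z w hz
    by_cases hne : Q.Tl P.S M (fun j => κ (Sum.inl j)) X c (pz C P M κ z) = 0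
    · rw [hne, norm_zero]
      positivity
    have hmem : ∀ a : {a : C.Ix // Fr C P a}, z a ∈ Dm M (K0 C K M a) (LowDd C K a) := fun a =>
      (hz a).mem (hR.k01 a) (hR.k1M a) (hK.Et_le a)
    set w' : C.Ix → ℝ := fun a => if h : Fr C P a then w ⟨a, h⟩ else 0 with hw'
    have hFC : Q.FC K P M κ (pz C P M κ z) w' := by
      refine ⟨fun a ha => ⟨hκ a ha, ?_, ?_⟩, fun a ha => ?_⟩
      · unfold pz
        rw [dif_neg ha]
      · simp only [hw', dif_neg ha]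
      · have h2 := hz ⟨a, ha⟩
        have e1 : pz C P M κ z a = z ⟨a, ha⟩ := by
          unfold pz
          rw [dif_pos ha]
        simp only [hw', dif_pos ha, e1]
        exact h2
    have hTC : Q.TC P.S M D' κ0 B (fun j => κ (Sum.inl j)) c (pz C P M κ z) := by
      refine ⟨pz_mem hK hR hκ hmem, fun j hj => ?_, hc⟩
      have hf : ¬ Fr C P (Sum.inl j) := fun h => h.1 hj
      have h2 : κ (Sum.inl j) ∈ Q.RS M P.S j := hκ _ hf
      unfold Krn.RS at h2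
      rw [if_pos hj, Finset.mem_Ico] at h2
      refine ⟨h2.1, h2.2, ?_⟩
      unfold pz
      rw [dif_neg hf]
    obtain ⟨o, ho1, ho2⟩ := hbd _ X c _ hTC hne
    obtain ⟨o', y', wo, wy, hadm, hd1, hd2, hsum⟩ := hlim κ X c _ w' o hFC hne ho1 hcv
    have h3 := hU o o' (fun j => pz C P M κ z (Sum.inl j)) y' wo wy hadm hd1 hd2
    have h4 : ∑ a, w' a = ∑ a : {a : C.Ix // Fr C P a}, w a := by
      rw [← Fintype.sum_subtype_add_sum_subtype (fun a : C.Ix => Fr C P a)]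
      have e1 : ∀ a : {a : C.Ix // Fr C P a}, w' a = w a := by
        intro a
        simp only [hw', dif_pos a.2]
      have e2 : ∀ a : {a : C.Ix // ¬ Fr C P a}, w' a = 0 := by
        intro a
        simp only [hw', dif_neg a.2]
      rw [Finset.sum_congr rfl fun a _ => e1 a, Finset.sum_congr rfl fun a _ => e2 a,
        Finset.sum_const_zero, add_zero]
    refine ho2.trans ?_
    rw [mul_assoc (A * (M : ℝ) ^ q), ← Real.exp_add, ← mul_add]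
    have h5 : C.G o (fun j => pz C P M κ z (Sum.inl j)) ≤
        e0 - δ + ∑ a : {a : C.Ix // Fr C P a}, w a := by
      rw [← h4, ← hsum]
      linarith
    have h6 : Real.exp (M * C.G o fun j => pz C P M κ z (Sum.inl j)) ≤
        Real.exp (M * (e0 - δ + ∑ a : {a : C.Ix // Fr C P a}, w a)) :=
      Real.exp_le_exp.2 (mul_le_mul_of_nonneg_left h5 hM0.le)
    exact mul_le_mul_of_nonneg_left h6 (by positivity)

end Pool.Agent.S5
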