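import Pool.Agent.S5.S.LowH
import Pool.Agent.S5.S.Ctr

/-!
# The part of the sum of a pattern as a sum of integrals
-/

set_option autoImplicit false

namespace Pool.Agent.S5

open Complex Filter Topology MeasureTheory
open Pool.Agent.S3 (Ctr)

variable {m : ℕ} {C : Ch m}

open Classical in
/-- The contours at the nodes with integration variable which are not touched. -/
noncomputable def gam (C : Ch m) (K : Cn m) (P : Pat m) (ε : ℝ) (i : Fin (m + 1)) (x : ℝ) : ℂ :=
  if C.ty i = Ty.vn ∧ ¬ Tch P.S i then tab (K.oc i).im (K.x1 i) ε x else 0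

open Classical in
/-- Their derivatives; at the other nodes a function with integral `1`. -/
noncomputable def gam' (C : Ch m) (K : Cn m) (P : Pat m) (ε : ℝ) (i : Fin (m + 1)) (x : ℝ) : ℂ :=
  if C.ty i = Ty.vn ∧ ¬ Tch P.S i then tab' (K.oc i).im (K.x1 i) ε x
  else (Set.Ico (0 : ℝ) 1).indicator (fun _ => (1 : ℂ)) x

open Classical in
/-- The lattice points of the nodes. -/
noncomputable def RX (C : Ch m) (P : Pat m) (M : ℕ) (i : Fin (m + 1)) : Finset ℕ :=
  if C.ty i = Ty.vn ∧ Tch P.S i then Finset.range M else {0}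

open Classical in
/-- The constants of the nodes. -/
noncomputable def Krn.ph (Q : Krn C) (P : Pat m) (M : ℕ) (i : Fin (m + 1)) : ℂ :=
  if C.ty i = Ty.vn ∧ ¬ Tch P.S i then Q.cv * M ^ 2 else 1

theorem ind_int : Integrable (fun x : ℝ => (Set.Ico (0 : ℝ) 1).indicator (fun _ => (1 : ℂ)) x) := by
  rw [integrable_indicator_iff measurableSet_Ico]
  exact integrableOn_const (by simp)

theorem ind_val : ∫ x : ℝ, (Set.Ico (0 : ℝ) 1).indicator (fun _ => (1 : ℂ)) x = 1 := by
  rw [integral_indicator measurableSet_Ico]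
  simp

variable {K : Cn m} {P : Pat m} {Q : Krn C} {M : ℕ}

/-- The factor of the node `i` with the weight of the integral. -/
noncomputable def Krn.FI (Q : Krn C) (K : Cn m) (P : Pat m) (ε : ℝ) (M : ℕ) (κ : C.Ix → ℕ)
    (i : Fin (m + 1)) (X : ℕ) (x : ℝ) : ℂ :=
  Q.Nd P.S M (fun j => κ (Sum.inl j)) X i (C.ow (fun v => gam C K P ε v x) (fun a => yM M (κ a)) i)
    (ye (fun j => yM M (κ (Sum.inl j))) i) (ye (fun j => yM M (κ (Sum.inl j))) (i + 1)) *
      gam' C K P ε i x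

/-- The factors of the nodes. -/
theorem Krn.node_exp (hK : Cn.OK C K) (hQ : Q.OK) {ε : ℝ} (h0 : 0 < ε)
    (h1 : ∀ i, C.ty i = Ty.vn → ε < (K.oc i).im) : ∀ᶠ M : ℕ in atTop, ∀ κ : C.Ix → ℕ,
      (∀ a, κ a ∈ Q.RG K P M a) → ∀ i, (∀ X, Integrable (Q.FI K P ε M κ i X)) ∧
        Q.hn M κ i = Q.ph P M i * ∑ X ∈ RX C P M i, ∫ x, Q.FI K P ε M κ i X x := by
  have hlat : ∀ᶠ M : ℕ in atTop, ∀ i, C.ty i = Ty.vn → ∀ k k' : ℕ, Q.h0 ≤ k → Q.h0 ≤ k' →
      k < kq M → k' < M → Q.g i M k k' = ∑ X ∈ Finset.range M, Q.lat i false M k X (yM M k') ∧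
      Q.g i M k' k = ∑ X ∈ Finset.range M, Q.lat i true M k X (yM M k') := by
    exact eventually_all.2 fun i => ev_imp fun h => hQ.g_lat i h
  have hcl : ∀ᶠ M : ℕ in atTop, ∀ i, C.ty i = Ty.cl → ∀ k k' : ℕ, Q.h0 ≤ k → Q.h0 ≤ k' → k < M →
      k' < M → Q.g i M k k' = Q.k i M 0 (yM M k) (yM M k') :=
    eventually_all.2 fun i => ev_imp fun h => hQ.g_cl i h
  have hvn : ∀ᶠ M : ℕ in atTop, ∀ i, C.ty i = Ty.vn → ∀ k k' : ℕ, Q.h0 ≤ k → Q.h0 ≤ k' → k < M →
      k' < M → ∀ γ γ' : ℝ → ℂ, Ctr γ γ' → (∀ x, |(γ x).re| ≤ 1 / 2) →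
      Integrable (fun x => Q.k i M (γ x) (yM M k) (yM M k') * γ' x) ∧
      Q.g i M k k' = Q.cv * M ^ 2 * ∫ x, Q.k i M (γ x) (yM M k) (yM M k') * γ' x :=
    eventually_all.2 fun i => ev_imp fun h => hQ.g_vn i h
  filter_upwards [hlat, hcl, hvn, hK.rng Q.h0 (D := ∑ a, LowDd C K a)
    (fun a => Finset.single_le_sum (fun a _ => (hK.Dd_pos a).le) (Finset.mem_univ a))]
    with M hlat hcl hvn hR κ hκ i
  have hM4 := hR.M4
  have hM' : 0 < M := by omega
  have hge : ∀ j, Q.h0 ≤ κ (Sum.inl j) := by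
    intro j
    have h2 : κ (Sum.inl j) ∈ Q.RS M P.S j := hκ (Sum.inl j)
    unfold Krn.RS at h2
    split_ifs at h2
    · exact (Finset.mem_Ico.1 h2).1
    · exact hR.h0q.trans (Finset.mem_Ico.1 h2).1
  have hlt : ∀ j, κ (Sum.inl j) < M := fun j => hR.lt hK (hκ (Sum.inl j))
  have hkge : ∀ n, Q.h0 ≤ ke M (fun j => κ (Sum.inl j)) n :=
    fun n => ke_ge (by have := hR.h0M; omega) hge n
  have hklt : ∀ n, ke M (fun j => κ (Sum.inl j)) n < M := fun n => low_ke_lt hM' hlt n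
  have hye : ∀ n, ye (fun j => yM M (κ (Sum.inl j))) n = yM M (ke M (fun j => κ (Sum.inl j)) n) :=
    fun n => (ye_ke hM' (fun j => κ (Sum.inl j)) n).symm
  -- nodes without contour
  have hconst : ¬ (C.ty i = Ty.vn ∧ ¬ Tch P.S i) → ∀ (X : ℕ) (v : ℂ),
      (∀ x, Q.Nd P.S M (fun j => κ (Sum.inl j)) X i
        (C.ow (fun v => gam C K P ε v x) (fun a => yM M (κ a)) i)
        (ye (fun j => yM M (κ (Sum.inl j))) i) (ye (fun j => yM M (κ (Sum.inl j))) (i + 1)) = v) →
      Integrable (Q.FI K P ε M κ i X) ∧ ∫ x, Q.FI K P ε M κ i X x = v := by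
    intro hn X v hv
    have e : Q.FI K P ε M κ i X = fun x => v * (Set.Ico (0 : ℝ) 1).indicator (fun _ => (1 : ℂ)) x := by
      funext x
      unfold Krn.FI gam'
      rw [hv x, if_neg hn]
    rw [e]
    refine ⟨ind_int.const_mul v, ?_⟩
    rw [integral_const_mul, ind_val, mul_one]
  rcases hty : C.ty i with _ | _ | _
  · -- closed
    have hv : C.ty i ≠ Ty.vn := by rw [hty]; decide
    have hn : ¬ (C.ty i = Ty.vn ∧ ¬ Tch P.S i) := fun h => hv h.1
    have h2 := fun X => hconst hn X (Q.k i M 0 (yM M (ke M (fun j => κ (Sum.inl j)) i))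
      (yM M (ke M (fun j => κ (Sum.inl j)) (i + 1)))) (fun x => by
        rw [Krn.Nd_k hv, hye, hye]
        have e : C.ow (fun v => gam C K P ε v x) (fun a => yM M (κ a)) i = 0 :=
          Ch.ow_cl (fun v => gam C K P ε v x) (fun a => yM M (κ a)) hty
        rw [e])
    refine ⟨fun X => (h2 X).1, ?_⟩
    unfold Krn.hn Krn.ph RX
    rw [dif_neg (by rw [hty]; decide), if_neg hn, if_neg (fun h => hv h.1), Finset.sum_singleton, (h2 0).2,
      one_mul]
    exact hcl i hty _ _ (hkge _) (hkge _) (hklt _) (hklt _)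
  · -- a node with lattice variable
    have hv : C.ty i ≠ Ty.vn := by rw [hty]; decide
    have hn : ¬ (C.ty i = Ty.vn ∧ ¬ Tch P.S i) := fun h => hv h.1
    have h2 := fun X => hconst hn X (Q.k i M (yM M (κ (Sum.inr ⟨i, hty⟩)))
      (yM M (ke M (fun j => κ (Sum.inl j)) i)) (yM M (ke M (fun j => κ (Sum.inl j)) (i + 1))))
      (fun x => by
        rw [Krn.Nd_k hv, hye, hye]
        have e : C.ow (fun v => gam C K P ε v x) (fun a => yM M (κ a)) i =
            yM M (κ (Sum.inr ⟨i, hty⟩)) :=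
          Ch.ow_zn (fun v => gam C K P ε v x) (fun a => yM M (κ a)) hty
        rw [e])
    refine ⟨fun X => (h2 X).1, ?_⟩
    unfold Krn.hn Krn.ph RX
    rw [dif_pos hty, if_neg hn, if_neg (fun h => hv h.1), Finset.sum_singleton, (h2 0).2, one_mul]
  · by_cases ht : Tch P.S i
    · -- touched
      have hn : ¬ (C.ty i = Ty.vn ∧ ¬ Tch P.S i) := fun h => h.2 ht
      have hz : ¬ C.ty i = Ty.zn := by rw [hty]; decide
      by_cases hL : SlL P.S i
      · have hlo : ke M (fun j => κ (Sum.inl j)) i < kq M := by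
          obtain ⟨j, hj, hji⟩ := hL
          rw [← hji, ke_succ]
          have h2 : κ (Sum.inl j) ∈ Q.RS M P.S j := hκ (Sum.inl j)
          unfold Krn.RS at h2
          rw [if_pos hj] at h2
          exact (Finset.mem_Ico.1 h2).2
        have h2 := fun X => hconst hn X (Q.lat i false M (ke M (fun j => κ (Sum.inl j)) i) X
          (yM M (ke M (fun j => κ (Sum.inl j)) (i + 1)))) (fun x => by
            unfold Krn.Nd
            rw [if_pos ⟨hty, hL⟩, hye])
        refine ⟨fun X => (h2 X).1, ?_⟩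
        unfold Krn.hn Krn.ph RX
        rw [dif_neg hz, if_neg hn, if_pos ⟨hty, ht⟩, one_mul, Finset.sum_congr rfl fun X _ => (h2 X).2]
        exact (hlat i hty _ _ (hkge _) (hkge _) hlo (hklt _)).1
      · have hRr : SlR P.S i := (tch_iff.1 ht).resolve_left hL
        have hlo : ke M (fun j => κ (Sum.inl j)) (i + 1) < kq M := by
          obtain ⟨j, hj, hji⟩ := hRr
          rw [← hji, ke_cast]
          have h2 : κ (Sum.inl j) ∈ Q.RS M P.S j := hκ (Sum.inl j)
          unfold Krn.RS at h2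
          rw [if_pos hj] at h2
          exact (Finset.mem_Ico.1 h2).2
        have h2 := fun X => hconst hn X (Q.lat i true M (ke M (fun j => κ (Sum.inl j)) (i + 1)) X
          (yM M (ke M (fun j => κ (Sum.inl j)) i))) (fun x => by
            unfold Krn.Nd
            rw [if_neg (fun h => hL h.2), if_pos ⟨hty, hRr⟩, hye])
        refine ⟨fun X => (h2 X).1, ?_⟩
        unfold Krn.hn Krn.ph RX
        rw [dif_neg hz, if_neg hn, if_pos ⟨hty, ht⟩, one_mul, Finset.sum_congr rfl fun X _ => (h2 X).2]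
        exact (hlat i hty _ _ (hkge _) (hkge _) hlo (hklt _)).2
    · -- contour
      have hn : C.ty i = Ty.vn ∧ ¬ Tch P.S i := ⟨hty, ht⟩
      have hz : ¬ C.ty i = Ty.zn := by rw [hty]; decide
      have hx0 := hK.x0 i hty
      have hx1 := hK.x1 i hty
      have h2 := hvn i hty _ _ (hkge i) (hkge (i + 1)) (hklt i) (hklt (i + 1))
        (tab (K.oc i).im (K.x1 i) ε) (tab' (K.oc i).im (K.x1 i) ε) (tab_ctr h0 (h1 i hty) hx0 hx1)
        (fun x => (tab_bd h0 (h1 i hty) hx0 hx1 x).2.2.1)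
      have e : ∀ X, Q.FI K P ε M κ i X = fun x => Q.k i M (tab (K.oc i).im (K.x1 i) ε x)
          (yM M (ke M (fun j => κ (Sum.inl j)) i)) (yM M (ke M (fun j => κ (Sum.inl j)) (i + 1))) *
            tab' (K.oc i).im (K.x1 i) ε x := by
        intro X
        funext x
        unfold Krn.FI gam' Krn.Nd
        rw [if_pos hn, if_neg (fun h => ht (tch_iff.2 (Or.inl h.2))),
          if_neg (fun h => ht (tch_iff.2 (Or.inr h.2))), hye, hye]
        have e1 : C.ow (fun v => gam C K P ε v x) (fun a => yM M (κ a)) i =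
            tab (K.oc i).im (K.x1 i) ε x := by
          have e2 : C.ow (fun v => gam C K P ε v x) (fun a => yM M (κ a)) i = gam C K P ε i x :=
            Ch.ow_vn (fun v => gam C K P ε v x) (fun a => yM M (κ a)) hty
          rw [e2]
          unfold gam
          rw [if_pos hn]
        rw [e1]
      refine ⟨fun X => by rw [e X]; exact h2.1, ?_⟩
      unfold Krn.hn Krn.ph RX
      rw [dif_neg hz, if_pos hn, if_neg (fun h => ht h.2), Finset.sum_singleton, e 0]
      exact h2.2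

/-- The integrand of all factors. -/
theorem prod_FI (ε : ℝ) (κ : C.Ix → ℕ) (X : Fin (m + 1) → ℕ) (x : Fin (m + 1) → ℝ) :
    (∏ j, Q.w j M (yM M (κ (Sum.inl j)))) * ∏ i, Q.FI K P ε M κ i (X i) (x i) =
      Q.Tl P.S M (fun j => κ (Sum.inl j)) X (fun i => gam C K P ε i (x i)) (fun a => yM M (κ a)) *
        ∏ i, gam' C K P ε i (x i) := by
  unfold Krn.Tl Krn.FI
  rw [Finset.prod_mul_distrib, ← mul_assoc]
  congr 2

/-- The terms of the part of a pattern. -/
theorem Krn.term_exp {ε : ℝ} {κ : C.Ix → ℕ}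
    (h : ∀ i, (∀ X, Integrable (Q.FI K P ε M κ i X)) ∧
      Q.hn M κ i = Q.ph P M i * ∑ X ∈ RX C P M i, ∫ x, Q.FI K P ε M κ i X x) :
    (∏ j, Q.w j M (yM M (κ (Sum.inl j)))) * ∏ i, Q.hn M κ i =
      (∏ i, Q.ph P M i) * ∑ X ∈ Fintype.piFinset (RX C P M), ∫ x : Fin (m + 1) → ℝ,
        Q.Tl P.S M (fun j => κ (Sum.inl j)) X (fun i => gam C K P ε i (x i)) (fun a => yM M (κ a)) *
          ∏ i, gam' C K P ε i (x i) := by
  rw [Finset.prod_congr rfl fun i _ => (h i).2, Finset.prod_mul_distrib, Finset.prod_univ_sum,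
    mul_left_comm, Finset.mul_sum]
  congr 1
  refine Finset.sum_congr rfl fun X _ => ?_
  rw [← integral_fintype_prod_volume_eq_prod (E := fun _ : Fin (m + 1) => ℝ)
    (fun i => Q.FI K P ε M κ i (X i)), ← integral_const_mul]
  refine integral_congr_ae (Eventually.of_forall fun x => ?_)
  exact prod_FI ε κ X x

theorem Krn.term_int {ε : ℝ} {κ : C.Ix → ℕ} (h : ∀ i, ∀ X, Integrable (Q.FI K P ε M κ i X))
    (X : Fin (m + 1) → ℕ) : Integrable (fun x : Fin (m + 1) → ℝ =>
      Q.Tl P.S M (fun j => κ (Sum.inl j)) X (fun i => gam C K P ε i (x i)) (fun a => yM M (κ a)) *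
        ∏ i, gam' C K P ε i (x i)) := by
  have h1 : Integrable (fun x : Fin (m + 1) → ℝ => ∏ i, Q.FI K P ε M κ i (X i) (x i)) :=
    Integrable.fintype_prod (E := ℝ) (f := fun i => Q.FI K P ε M κ i (X i)) fun i => h i (X i)
  refine (h1.const_mul (∏ j, Q.w j M (yM M (κ (Sum.inl j))))).congr (Eventually.of_forall fun x => ?_)
  exact prod_FI ε κ X x

theorem Krn.JP_eq (Q : Krn C) (K : Cn m) (P : Pat m) (M : ℕ) : Q.JP K P M =
    ∑ κ ∈ Fintype.piFinset (Q.RG K P M),
      (∏ j, Q.w j M (yM M (κ (Sum.inl j)))) * ∏ i, Q.hn M κ i := by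
  classical
  unfold Krn.JP Krn.RG
  rw [sum_elim (Q.RS M P.S) (fun i : C.Zn => Q.ZS K P M i) (fun k l =>
    (∏ j, Q.w j M (yM M (k j))) * ∏ i, Q.hn M (Sum.elim k l) i)]
  refine Finset.sum_congr rfl fun κ _ => ?_
  have e : (Sum.elim (fun a => κ (Sum.inl a)) (fun b => κ (Sum.inr b)) : C.Ix → ℕ) = κ := by
    funext a
    rcases a with a | b <;> rfl
  simp only [e]

/-- Only the labels of the edges in `S` matter. -/
theorem Krn.Tl_congr {S : Finset (Fin m)} {κ κ' : Fin m → ℕ} (h : ∀ j ∈ S, κ j = κ' j)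
    (X : Fin (m + 1) → ℕ) (c : Fin (m + 1) → ℂ) (p : C.Ix → ℂ) :
    Q.Tl S M κ X c p = Q.Tl S M κ' X c p := by
  unfold Krn.Tl
  congr 1
  refine Finset.prod_congr rfl fun i _ => ?_
  unfold Krn.Nd
  by_cases hL : C.ty i = Ty.vn ∧ SlL S i
  · rw [if_pos hL, if_pos hL]
    obtain ⟨-, j, hj, hji⟩ := hL
    rw [← hji, ke_succ, ke_succ, h j hj]
  · rw [if_neg hL, if_neg hL]
    by_cases hR : C.ty i = Ty.vn ∧ SlR S i
    · rw [if_pos hR, if_pos hR]
      obtain ⟨-, j, hj, hji⟩ := hR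
      rw [← hji, ke_cast, ke_cast, h j hj]
    · rw [if_neg hR, if_neg hR]

end Pool.Agent.S5
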